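import Mathlib

/-!
# One-tape Turing machines for MP_1173fd_al

`PFMachine`: position-faithful one-tape Turing machines (as in the problem).
`SM`, `LT`: simple machines used internally (one alphabet, they return to the marker and leave a
clean tape), with the basic passes `rl` (right to left), `lr` (left to right), `roundF`, `ins1`,
`del1`.
-/

namespace Pool.Agent.W_MP_1173fd_al

/-- Head moves. -/
inductive Dir
  | left
  | stay
  | right

/-! ## Position-faithful machines -/

/-- A position-faithful one-tape Turing machine with input alphabet `A`.

The tape is semi-infinite.  Cell `0` holds the marker `⊞`; the other cells hold elements of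
`Option T`, where `none` is the blank `⊡` and `T` is the finite set of the remaining tape symbols,
which contains the input alphabet through `inp`.  The marker occurs in no other cell and is never
overwritten: when the head reads the marker (`atMarker`) the machine can only change state and
either stay or move right (`true`). -/
structure PFMachine (A : Type) where
  /-- tape symbols other than the marker and the blank -/
  T : Type
  finT : Finite T
  /-- the input alphabet is contained in the tape alphabet -/
  inp : A ↪ T
  /-- states -/
  Q : Type
  finQ : Finite Q
  start : Q
  /-- accepting states; the machine halts in them -/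
  accept : Set Q
  /-- action on the marker: new state, and whether the head moves right -/
  atMarker : Q → Q × Bool
  /-- action on the other cells: new state, symbol written, move -/
  atCell : Q → Option T → Q × Option T × Dir

/-- Configurations: state, head position (`0` is the marker), contents of the cells `1, 2, …`
(`tape i` is the contents of the cell `i + 1`). -/
structure Conf (Q T : Type) where
  q : Q
  pos : ℕ
  tape : ℕ → Option T

/-- The tape holding the word `w` and then blanks. -/
def tapeOf {T : Type} (w : List T) : ℕ → Option T := fun i => w[i]?

/-- New head position (from a non-marker cell `n + 1`). -/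
def movePos (n : ℕ) : Dir → ℕ
  | .left => n
  | .stay => n + 1
  | .right => n + 2

/-- One step of a machine given by its action on the marker and on the other cells. -/
def stepWith {Q T : Type} (am : Q → Q × Bool) (ac : Q → Option T → Q × Option T × Dir)
    (c : Conf Q T) : Conf Q T :=
  match c.pos with
  | 0 => ⟨(am c.q).1, if (am c.q).2 then 1 else 0, c.tape⟩
  | n + 1 => ⟨(ac c.q (c.tape n)).1, movePos n (ac c.q (c.tape n)).2.2,
      Function.update c.tape n (ac c.q (c.tape n)).2.1⟩

open Classical in
/-- One step of the machine: nothing happens in accepting states (the machine has halted). -/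
noncomputable def PFMachine.step {A : Type} (M : PFMachine A) (c : Conf M.Q M.T) : Conf M.Q M.T :=
  if c.q ∈ M.accept then c else stepWith M.atMarker M.atCell c

/-- The initial configuration on input `x`: tape `⊞ x ⊡ ⊡ …`, head on the marker. -/
def PFMachine.init {A : Type} (M : PFMachine A) (x : List A) : Conf M.Q M.T :=
  ⟨M.start, 0, tapeOf (x.map M.inp)⟩

/-- `f : Σ* → Σ*` is computed in linear time by a position-faithful one-tape Turing machine: there
are a machine and `C > 0` such that on every input `x` it halts in an accepting state after at most
`C · max |x| 1` steps with the tape beginning `⊞ f(x) ⊡`. -/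
def LinTime {A : Type} (f : List A → List A) : Prop :=
  ∃ (M : PFMachine A) (C : ℕ), 0 < C ∧ ∀ x : List A, ∃ t : ℕ, t ≤ C * max x.length 1 ∧
    (M.step^[t] (M.init x)).q ∈ M.accept ∧
    (∀ (i : ℕ) (hi : i < (f x).length),
      (M.step^[t] (M.init x)).tape i = some (M.inp (f x)[i])) ∧
    (M.step^[t] (M.init x)).tape (f x).length = none

/-! ## Simple machines -/

/-- A simple machine over the alphabet `T`. -/
structure SM (T : Type) where
  Q : Type
  finQ : Finite Q
  start : Q
  halt : Q
  atMarker : Q → Q × Bool
  atCell : Q → Option T → Q × Option T × Dir

/-- Step of a simple machine (it does not stop by itself in `halt`). -/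
def SM.step {T : Type} (M : SM T) (c : Conf M.Q T) : Conf M.Q T :=
  stepWith M.atMarker M.atCell c

/-- `f` is computed in linear time by a simple machine which starts and ends on the marker, ends
with a clean tape, and is in the state `halt` only at the end. -/
def LT {T : Type} (f : List T → List T) : Prop :=
  ∃ (M : SM T) (C : ℕ), ∀ w : List T, (f w).length ≤ C * (w.length + 1) ∧
    ∃ t : ℕ, t ≤ C * (w.length + 1) ∧
      M.step^[t] ⟨M.start, 0, tapeOf w⟩ = ⟨M.halt, 0, tapeOf (f w)⟩ ∧
      ∀ s < t, (M.step^[s] ⟨M.start, 0, tapeOf w⟩).q ≠ M.halt

/-! ## Basic passes -/

/-- Right-to-left letter-to-letter pass. -/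
def rl {Q T : Type} (A : Q → T → Q × T) (q : Q) : List T → Q × List T
  | [] => (q, [])
  | a :: l => ((A (rl A q l).1 a).1, (A (rl A q l).1 a).2 :: (rl A q l).2)

/-- Left-to-right letter-to-letter pass. -/
def lr {P T : Type} (B : P → T → P × T) (p : P) : List T → P × List T
  | [] => (p, [])
  | a :: l => ((lr B (B p a).1 l).1, (B p a).2 :: (lr B (B p a).1 l).2)

/-- A right-to-left pass followed by a left-to-right pass; the final state of the first determines
the initial state of the second. -/
def roundF {Q P T : Type} (A : Q → T → Q × T) (ι : Q → P) (B : P → T → P × T) (q : Q)
    (w : List T) : List T :=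
  (lr B (ι (rl A q w).1) (rl A q w).2).2

/-- Replace the first letter `a` with `h a = some (b, c)` by the two letters `b c`. -/
def ins1 {T : Type} (h : T → Option (T × T)) : List T → List T
  | [] => []
  | a :: l => match h a with
    | some (b, c) => b :: c :: l
    | none => a :: ins1 h l

/-- Delete the first letter satisfying `p`. -/
def del1 {T : Type} (p : T → Bool) : List T → List T
  | [] => []
  | a :: l => if p a then l else a :: del1 p l

end Pool.Agent.W_MP_1173fd_al
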