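import Pool.Agent.W_MP_1173fd_al.Defs

/-!
# Composition, branching and the embedding of simple machines into position-faithful machines
-/

namespace Pool.Agent.W_MP_1173fd_al

namespace MachComp

variable {T : Type}

/-- `Exec M c t c'`: `M` goes from `c` to `c'` in `t` steps, the state is not `halt` before the
last configuration. -/
def Exec (M : SM T) (c : Conf M.Q T) (t : ℕ) (c' : Conf M.Q T) : Prop :=
  M.step^[t] c = c' ∧ ∀ s < t, (M.step^[s] c).q ≠ M.halt

theorem Exec.refl (M : SM T) (c : Conf M.Q T) : Exec M c 0 c :=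
  ⟨rfl, fun s hs => absurd hs (Nat.not_lt_zero s)⟩

theorem Exec.trans {M : SM T} {c c' c'' : Conf M.Q T} {t t' : ℕ} (h : Exec M c t c')
    (h' : Exec M c' t' c'') : Exec M c (t + t') c'' := by
  refine ⟨?_, ?_⟩
  · rw [Nat.add_comm, Function.iterate_add_apply, h.1, h'.1]
  · intro s hs
    by_cases h1 : s < t
    · exact h.2 s h1
    · have h2 : s = (s - t) + t := by omega
      rw [h2, Function.iterate_add_apply, h.1]
      exact h'.2 (s - t) (by omega)

theorem Exec.one {M : SM T} {c c' : Conf M.Q T} (hq : c.q ≠ M.halt) (h : M.step c = c') :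
    Exec M c 1 c' := by
  refine ⟨by simpa using h, ?_⟩
  intro s hs
  have : s = 0 := by omega
  subst this
  simpa using hq

/-- Relabel the state of a configuration. -/
def mapC {Q Q' : Type} (φ : Q → Q') (c : Conf Q T) : Conf Q' T := ⟨φ c.q, c.pos, c.tape⟩

/-- `N` simulates `M` through `φ` outside the halting state. -/
structure Sim (M N : SM T) (φ : M.Q → N.Q) : Prop where
  marker : ∀ q, q ≠ M.halt → N.atMarker (φ q) = (φ (M.atMarker q).1, (M.atMarker q).2)
  cell : ∀ q a, q ≠ M.halt →
    N.atCell (φ q) a = (φ (M.atCell q a).1, (M.atCell q a).2.1, (M.atCell q a).2.2)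
  nothalt : ∀ q, q ≠ M.halt → φ q ≠ N.halt

theorem Sim.step {M N : SM T} {φ : M.Q → N.Q} (h : Sim M N φ) (c : Conf M.Q T)
    (hc : c.q ≠ M.halt) : N.step (mapC φ c) = mapC φ (M.step c) := by
  obtain ⟨q, pos, tape⟩ := c
  have hq : q ≠ M.halt := hc
  cases pos with
  | zero => simp [SM.step, stepWith, mapC, h.marker q hq]
  | succ n => simp [SM.step, stepWith, mapC, h.cell q (tape n) hq]

theorem Sim.iterate {M N : SM T} {φ : M.Q → N.Q} (h : Sim M N φ) (c : Conf M.Q T) :
    ∀ t : ℕ, (∀ s < t, (M.step^[s] c).q ≠ M.halt) →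
      N.step^[t] (mapC φ c) = mapC φ (M.step^[t] c) := by
  intro t
  induction t with
  | zero => intro _; rfl
  | succ t ih =>
    intro ht
    rw [Function.iterate_succ_apply', Function.iterate_succ_apply',
      ih (fun s hs => ht s (by omega)), h.step _ (ht t (by omega))]

theorem Sim.exec {M N : SM T} {φ : M.Q → N.Q} (h : Sim M N φ) {c c' : Conf M.Q T} {t : ℕ}
    (he : Exec M c t c') : Exec N (mapC φ c) t (mapC φ c') := by
  refine ⟨by rw [h.iterate c t he.2, he.1], ?_⟩
  intro s hs
  rw [h.iterate c s (fun r hr => he.2 r (by omega))]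
  exact h.nothalt _ (he.2 s hs)

open Classical in
/-- Composition of two simple machines. -/
noncomputable def compM (M N : SM T) : SM T where
  Q := M.Q ⊕ N.Q
  finQ := by
    have := M.finQ
    have := N.finQ
    infer_instance
  start := Sum.inl M.start
  halt := Sum.inr N.halt
  atMarker
    | Sum.inl q => if q = M.halt then (Sum.inr N.start, false)
        else (Sum.inl (M.atMarker q).1, (M.atMarker q).2)
    | Sum.inr q => (Sum.inr (N.atMarker q).1, (N.atMarker q).2)
  atCell
    | Sum.inl q, a => (Sum.inl (M.atCell q a).1, (M.atCell q a).2.1, (M.atCell q a).2.2)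
    | Sum.inr q, a => (Sum.inr (N.atCell q a).1, (N.atCell q a).2.1, (N.atCell q a).2.2)

theorem compM_sim_left (M N : SM T) : Sim M (compM M N) Sum.inl where
  marker q hq := by simp [compM, hq]
  cell q a hq := by simp [compM]
  nothalt q hq := by simp [compM]

theorem compM_sim_right (M N : SM T) : Sim N (compM M N) Sum.inr where
  marker q hq := by simp [compM]
  cell q a hq := by simp [compM]
  nothalt q hq := by simpa [compM] using hq

/-- The deciding machine: scan to the right, go back, then start `M` or `N`. -/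
inductive IteQ (σ Q1 Q2 : Type)
  | scan (s : σ)
  | back (b : Bool)
  | fst (q : Q1)
  | snd (q : Q2)
  | halt

instance {σ Q1 Q2 : Type} [Finite σ] [Finite Q1] [Finite Q2] : Finite (IteQ σ Q1 Q2) := by
  let e : IteQ σ Q1 Q2 → (σ ⊕ Bool) ⊕ (Q1 ⊕ Q2) ⊕ Unit
    | .scan s => Sum.inl (Sum.inl s)
    | .back b => Sum.inl (Sum.inr b)
    | .fst q => Sum.inr (Sum.inl (Sum.inl q))
    | .snd q => Sum.inr (Sum.inl (Sum.inr q))
    | .halt => Sum.inr (Sum.inr ())
  refine Finite.of_injective e ?_
  intro a b h
  cases a <;> cases b <;> simp_all [e]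

open Classical in
/-- If-then-else of simple machines. -/
noncomputable def iteM {σ : Type} [Finite σ] (δ : σ → T → σ) (s₀ : σ) (acc : σ → Bool)
    (M N : SM T) : SM T where
  Q := IteQ σ M.Q N.Q
  finQ := by
    have := M.finQ
    have := N.finQ
    infer_instance
  start := .scan s₀
  halt := .halt
  atMarker
    | .scan s => (.scan s, true)
    | .back b => (if b then .fst M.start else .snd N.start, false)
    | .fst q => if q = M.halt then (.halt, false) else (.fst (M.atMarker q).1, (M.atMarker q).2)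
    | .snd q => if q = N.halt then (.halt, false) else (.snd (N.atMarker q).1, (N.atMarker q).2)
    | .halt => (.halt, false)
  atCell
    | .scan s, some a => (.scan (δ s a), some a, .right)
    | .scan s, none => (.back (acc s), none, .left)
    | .back b, a => (.back b, a, .left)
    | .fst q, a => (.fst (M.atCell q a).1, (M.atCell q a).2.1, (M.atCell q a).2.2)
    | .snd q, a => (.snd (N.atCell q a).1, (N.atCell q a).2.1, (N.atCell q a).2.2)
    | .halt, a => (.halt, a, .stay)

section ite

variable {σ : Type} [Finite σ] (δ : σ → T → σ) (s₀ : σ) (acc : σ → Bool) (M N : SM T)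

theorem iteM_sim_left : Sim M (iteM δ s₀ acc M N) IteQ.fst where
  marker q hq := by simp [iteM, hq]
  cell q a hq := by simp [iteM]
  nothalt q hq := by simp [iteM]

theorem iteM_sim_right : Sim N (iteM δ s₀ acc M N) IteQ.snd where
  marker q hq := by simp [iteM, hq]
  cell q a hq := by simp [iteM]
  nothalt q hq := by simp [iteM]

theorem iteM_scan (w : List T) : ∀ k ≤ w.length,
    Exec (iteM δ s₀ acc M N) ⟨.scan s₀, 0, tapeOf w⟩ (k + 1)
      ⟨.scan ((w.take k).foldl δ s₀), k + 1, tapeOf w⟩ := by
  intro k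
  induction k with
  | zero =>
    intro _
    refine Exec.one (by simp [iteM]) ?_
    simp [SM.step, stepWith, iteM]
  | succ k ih =>
    intro hk
    refine (ih (by omega)).trans (Exec.one (by simp [iteM]) ?_)
    have h1 : tapeOf w k = some w[k] := by
      simp [tapeOf, List.getElem?_eq_getElem (show k < w.length by omega)]
    have h2 : Function.update (tapeOf w) k (some w[k]) = tapeOf w := by
      rw [← h1, Function.update_eq_self]
    simp only [SM.step, stepWith, iteM, h1, movePos, h2]
    rw [List.take_succ_eq_append_getElem (show k < w.length by omega), List.foldl_append]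
    rfl

theorem iteM_back (w : List T) (b : Bool) : ∀ k ≤ w.length,
    Exec (iteM δ s₀ acc M N) ⟨.back b, w.length, tapeOf w⟩ k
      ⟨.back b, w.length - k, tapeOf w⟩ := by
  intro k
  induction k with
  | zero => intro _; exact Exec.refl _ _
  | succ k ih =>
    intro hk
    refine (ih (by omega)).trans (Exec.one (by simp [iteM]) ?_)
    obtain ⟨m, hm⟩ : ∃ m, w.length - k = m + 1 := ⟨w.length - k - 1, by omega⟩
    have hm' : w.length - (k + 1) = m := by omega
    rw [hm, hm']
    simp [SM.step, stepWith, iteM, movePos, Function.update_eq_self]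

/-- The deciding phase. -/
theorem iteM_decide (w : List T) :
    Exec (iteM δ s₀ acc M N) ⟨.scan s₀, 0, tapeOf w⟩ (2 * w.length + 3)
      ⟨if acc (w.foldl δ s₀) then .fst M.start else .snd N.start, 0, tapeOf w⟩ := by
  have h1 := iteM_scan δ s₀ acc M N w w.length le_rfl
  rw [List.take_length] at h1
  have h2 : Exec (iteM δ s₀ acc M N) ⟨.scan (w.foldl δ s₀), w.length + 1, tapeOf w⟩ 1
      ⟨.back (acc (w.foldl δ s₀)), w.length, tapeOf w⟩ := by
    refine Exec.one (by simp [iteM]) ?_
    have h0 : tapeOf w w.length = none := by simp [tapeOf]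
    have h0' : Function.update (tapeOf w) w.length none = tapeOf w := by
      rw [← h0, Function.update_eq_self]
    simp [SM.step, stepWith, iteM, h0, movePos, h0']
  have h3 := iteM_back δ s₀ acc M N w (acc (w.foldl δ s₀)) w.length le_rfl
  rw [Nat.sub_self] at h3
  have h4 : Exec (iteM δ s₀ acc M N) ⟨.back (acc (w.foldl δ s₀)), 0, tapeOf w⟩ 1
      ⟨if acc (w.foldl δ s₀) then .fst M.start else .snd N.start, 0, tapeOf w⟩ := by
    refine Exec.one (by simp [iteM]) ?_
    simp [SM.step, stepWith, iteM]
  have h := ((h1.trans h2).trans h3).trans h4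
  have e : 2 * w.length + 3 = w.length + 1 + 1 + w.length + 1 := by ring
  rw [e]
  exact h

end ite

end MachComp

open MachComp

/-- The identity is computed by a simple machine. -/
theorem LT.id {T : Type} : LT (fun w : List T => w) := by
  refine ⟨⟨Unit, inferInstance, (), (), fun _ => ((), false), fun _ a => ((), a, .stay)⟩, 1,
    fun w => ⟨by simp, 0, by simp, rfl, fun s hs => absurd hs (Nat.not_lt_zero s)⟩⟩

/-- Composition of functions computed by simple machines. -/
theorem LT.comp {T : Type} {f g : List T → List T} (hg : LT g) (hf : LT f) :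
    LT (fun w => g (f w)) := by
  obtain ⟨M, C, hM⟩ := hf
  obtain ⟨N, D, hN⟩ := hg
  refine ⟨compM M N, (C + 1) * (D + 1), fun w => ?_⟩
  obtain ⟨hl, t, ht, he, hne⟩ := hM w
  obtain ⟨hl', t', ht', he', hne'⟩ := hN (f w)
  have hb : D * ((f w).length + 1) ≤ D * ((C + 1) * (w.length + 1)) := by
    refine Nat.mul_le_mul_left D ?_
    nlinarith
  have hex : Exec (compM M N) ⟨(compM M N).start, 0, tapeOf w⟩ (t + 1 + t')
      ⟨(compM M N).halt, 0, tapeOf (g (f w))⟩ := by
    have h1 : Exec (compM M N) ⟨Sum.inl M.start, 0, tapeOf w⟩ t ⟨Sum.inl M.halt, 0, tapeOf (f w)⟩ :=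
      (compM_sim_left M N).exec (c := ⟨M.start, 0, tapeOf w⟩) ⟨he, hne⟩
    have h2 : Exec (compM M N) ⟨Sum.inl M.halt, 0, tapeOf (f w)⟩ 1
        ⟨Sum.inr N.start, 0, tapeOf (f w)⟩ := by
      refine Exec.one (by simp [compM]) ?_
      simp [SM.step, stepWith, compM]
    have h3 : Exec (compM M N) ⟨Sum.inr N.start, 0, tapeOf (f w)⟩ t'
        ⟨Sum.inr N.halt, 0, tapeOf (g (f w))⟩ :=
      (compM_sim_right M N).exec (c := ⟨N.start, 0, tapeOf (f w)⟩) ⟨he', hne'⟩
    exact (h1.trans h2).trans h3
  refine ⟨?_, t + 1 + t', ?_, hex.1, hex.2⟩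
  · nlinarith
  · have : (C + 1) * (D + 1) * (w.length + 1)
        = C * (w.length + 1) + (w.length + 1) + D * ((C + 1) * (w.length + 1)) := by ring
    omega

/-- If-then-else on a regular condition. -/
theorem LT.ite {T σ : Type} [Finite σ] (δ : σ → T → σ) (s₀ : σ) (acc : σ → Bool)
    {f g : List T → List T} (hf : LT f) (hg : LT g) :
    LT (fun w => if acc (w.foldl δ s₀) then f w else g w) := by
  obtain ⟨M, C, hM⟩ := hf
  obtain ⟨N, D, hN⟩ := hg
  refine ⟨iteM δ s₀ acc M N, C + D + 4, fun w => ?_⟩
  obtain ⟨hl, t, ht, he, hne⟩ := hM w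
  obtain ⟨hl', t', ht', he', hne'⟩ := hN w
  have hd := iteM_decide δ s₀ acc M N w
  have hC : C * (w.length + 1) ≤ (C + D + 4) * (w.length + 1) :=
    Nat.mul_le_mul_right _ (by omega)
  have hD : D * (w.length + 1) ≤ (C + D + 4) * (w.length + 1) :=
    Nat.mul_le_mul_right _ (by omega)
  have hCD : (C + D + 4) * (w.length + 1)
      = C * (w.length + 1) + D * (w.length + 1) + 4 * w.length + 4 := by ring
  by_cases hacc : acc (w.foldl δ s₀) = true
  · simp only [hacc, if_true] at hd ⊢
    have h1 : Exec (iteM δ s₀ acc M N) ⟨.fst M.start, 0, tapeOf w⟩ t ⟨.fst M.halt, 0, tapeOf (f w)⟩ :=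
      (iteM_sim_left δ s₀ acc M N).exec (c := ⟨M.start, 0, tapeOf w⟩) ⟨he, hne⟩
    have h2 : Exec (iteM δ s₀ acc M N) ⟨.fst M.halt, 0, tapeOf (f w)⟩ 1
        ⟨.halt, 0, tapeOf (f w)⟩ := by
      refine Exec.one (by simp [iteM]) ?_
      simp [SM.step, stepWith, iteM]
    have h := (hd.trans h1).trans h2
    exact ⟨hl.trans hC, _, by omega, h.1, h.2⟩
  · simp only [hacc, if_false, Bool.false_eq_true] at hd ⊢
    have h1 : Exec (iteM δ s₀ acc M N) ⟨.snd N.start, 0, tapeOf w⟩ t'
        ⟨.snd N.halt, 0, tapeOf (g w)⟩ :=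
      (iteM_sim_right δ s₀ acc M N).exec (c := ⟨N.start, 0, tapeOf w⟩) ⟨he', hne'⟩
    have h2 : Exec (iteM δ s₀ acc M N) ⟨.snd N.halt, 0, tapeOf (g w)⟩ 1
        ⟨.halt, 0, tapeOf (g w)⟩ := by
      refine Exec.one (by simp [iteM]) ?_
      simp [SM.step, stepWith, iteM]
    have h := (hd.trans h1).trans h2
    exact ⟨hl'.trans hD, _, by omega, h.1, h.2⟩

/-- A simple machine as a position-faithful machine. -/
abbrev MachComp.toPF {T : Type} [Finite T] (M : SM T) : PFMachine T where
  T := T
  finT := inferInstance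
  inp := Function.Embedding.refl T
  Q := M.Q
  finQ := M.finQ
  start := M.start
  accept := {M.halt}
  atMarker := M.atMarker
  atCell := M.atCell

theorem MachComp.toPF_init {T : Type} [Finite T] (M : SM T) (x : List T) :
    (toPF M).init x = ⟨M.start, 0, tapeOf x⟩ := by
  have h : List.map (⇑(Function.Embedding.refl T)) x = x := List.map_id x
  show (⟨M.start, 0, tapeOf (List.map (⇑(Function.Embedding.refl T)) x)⟩ : Conf M.Q T)
    = ⟨M.start, 0, tapeOf x⟩
  rw [h]

theorem MachComp.toPF_step {T : Type} [Finite T] (M : SM T) (c : Conf M.Q T) (hc : c.q ≠ M.halt) :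
    (toPF M).step c = M.step c := by
  exact if_neg (fun h => hc h)

/-- A function computed by a simple machine is computed in linear time by a position-faithful
one-tape machine. -/
theorem LT.linTime {T : Type} [Finite T] {f : List T → List T} (hf : LT f) : LinTime f := by
  obtain ⟨M, C, hM⟩ := hf
  refine ⟨toPF M, 2 * C + 1, by omega, fun x => ?_⟩
  obtain ⟨hl, t, ht, he, hne⟩ := hM x
  have hit : ∀ s ≤ t, (toPF M).step^[s] ((toPF M).init x)
      = M.step^[s] ⟨M.start, 0, tapeOf x⟩ := by
    intro s
    induction s with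
    | zero => intro _; exact toPF_init M x
    | succ s ih =>
      intro hs
      rw [Function.iterate_succ_apply', Function.iterate_succ_apply', ih (by omega)]
      exact toPF_step M _ (hne s (by omega))
  have hfin : (toPF M).step^[t] ((toPF M).init x) = ⟨M.halt, 0, tapeOf (f x)⟩ := by
    rw [hit t le_rfl, he]
  refine ⟨t, ?_, ?_, ?_, ?_⟩
  · have h1 : x.length + 1 ≤ 2 * max x.length 1 := by omega
    calc t ≤ C * (x.length + 1) := ht
      _ ≤ C * (2 * max x.length 1) := Nat.mul_le_mul_left _ h1
      _ ≤ (2 * C + 1) * max x.length 1 := by nlinarith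
  · rw [hfin]
    exact rfl
  · intro i hi
    rw [hfin]
    exact List.getElem?_eq_getElem hi
  · rw [hfin]
    show (f x)[(f x).length]? = none
    simp

end Pool.Agent.W_MP_1173fd_al
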