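import Pool.Agent.W_MP_1173fd_al.Words

/-!
# States (zippers of binary trees with lamps) and their moves
-/

namespace Pool.Agent.W_MP_1173fd_al

/-- A state: context (innermost frame first), lamp of the cursor, its two subtrees. -/
@[ext] structure St where
  c : List Fr
  s : Bool
  l : BT
  r : BT

/-- The word of a state. -/
def St.word (x : St) : List Item := W x.c x.s x.l x.r

/-- The leaf without lamp. -/
def lf : BT := .node false .nil .nil

/-- A subtree which is removed if it is a leaf without lamp. -/
def prn (s : Bool) (l r : BT) : BT := if s = false ∧ l = .nil ∧ r = .nil then .nil else .node s l r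

/-- The child `a` of the cursor. -/
def St.child (a : Bool) (x : St) : BT := bif a then x.r else x.l

/-- Move to the child `a` (which is created if it does not exist). -/
def St.down (a : Bool) (x : St) : St :=
  match x.child a with
  | .nil => ⟨⟨a, x.s, x.child (!a)⟩ :: x.c, false, .nil, .nil⟩
  | .node s' l' r' => ⟨⟨a, x.s, x.child (!a)⟩ :: x.c, s', l', r'⟩

/-- Move to the parent; the vertex which is left is removed if it is a leaf without lamp. -/
def St.up (x : St) : St :=
  match x.c with
  | [] => x
  | f :: c => bif f.dir then ⟨c, f.s, f.w, prn x.s x.l x.r⟩ else ⟨c, f.s, prn x.s x.l x.r, f.w⟩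

/-- Toggle the lamp. -/
def St.tog (x : St) : St := ⟨x.c, !x.s, x.l, x.r⟩

/-- The initial state. -/
def St.init : St := ⟨[], false, .nil, .nil⟩

end Pool.Agent.W_MP_1173fd_al
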