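import Pool.Agent.W_MP_1173fd_al.GroupDefs
import Pool.Agent.W_MP_1173fd_al.States
import Pool.Agent.W_MP_1173fd_al.MachComp

/-!
# Group level: from moves of states to right multiplications in the lamplighter group
-/

set_option autoImplicit false

namespace Pool.Agent.W_MP_1173fd_al

/-! ## Lamp functions of trees -/

/-- The lamp of a tree at a path (from the root; `true`: right child). -/
def lmp : BT → List Bool → Bool
  | .nil, _ => false
  | .node s _ _, [] => s
  | .node _ l r, a :: p => lmp (bif a then r else l) p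

/-- The full tree of a context with a subtree in the hole. -/
def plg : List Fr → BT → BT
  | [], t => t
  | f :: c, t => plg c (bif f.dir then .node f.s f.w t else .node f.s t f.w)

/-- The dirs of a context, innermost first. -/
def drs (c : List Fr) : List Bool := c.map Fr.dir

/-- Tight trees: every vertex without lamp has a child. -/
def Tight : BT → Prop
  | .nil => True
  | .node s l r => Tight l ∧ Tight r ∧ (s = true ∨ l ≠ .nil ∨ r ≠ .nil)

theorem Tight.exists_lmp : ∀ {t : BT}, Tight t → t ≠ .nil → ∃ p, lmp t p = true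
  | .nil, _, h => absurd rfl h
  | .node s l r, ht, _ => by
    obtain ⟨hl, hr, h⟩ := ht
    rcases h with h | h | h
    · exact ⟨[], by simpa [lmp] using h⟩
    · obtain ⟨p, hp⟩ := Tight.exists_lmp hl h
      exact ⟨false :: p, by simpa [lmp] using hp⟩
    · obtain ⟨p, hp⟩ := Tight.exists_lmp hr h
      exact ⟨true :: p, by simpa [lmp] using hp⟩

theorem Tight.ext : ∀ {t t' : BT}, Tight t → Tight t' → (∀ p, lmp t p = lmp t' p) → t = t'
  | .nil, .nil, _, _, _ => rfl
  | .nil, .node s l r, _, h', h => by
    obtain ⟨p, hp⟩ := h'.exists_lmp (by simp)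
    have := h p
    rw [hp] at this
    simp [lmp] at this
  | .node s l r, .nil, h', _, h => by
    obtain ⟨p, hp⟩ := h'.exists_lmp (by simp)
    have := h p
    rw [hp] at this
    simp [lmp] at this
  | .node s l r, .node s' l' r', h1, h2, h => by
    have hs : s = s' := by simpa [lmp] using h []
    have hl : l = l' := Tight.ext h1.1 h2.1 fun p => by simpa [lmp] using h (false :: p)
    have hr : r = r' := Tight.ext h1.2.1 h2.2.1 fun p => by simpa [lmp] using h (true :: p)
    rw [hs, hl, hr]

theorem lmp_plg_congr : ∀ (c : List Fr) {t t' : BT}, (∀ p, lmp t p = lmp t' p) →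
    ∀ p, lmp (plg c t) p = lmp (plg c t') p
  | [], _, _, h => h
  | f :: c, t, t', h => by
    simp only [plg]
    refine lmp_plg_congr c fun p => ?_
    cases hf : f.dir <;> cases p with
    | nil => simp [lmp]
    | cons a p => cases a <;> simp [lmp, h]

theorem plg_inj : ∀ (c c' : List Fr) {t t' : BT}, drs c = drs c' → (∀ f ∈ c, Tight f.w) →
    (∀ f ∈ c', Tight f.w) → (∀ p, lmp (plg c t) p = lmp (plg c' t') p) →
    c = c' ∧ ∀ p, lmp t p = lmp t' p
  | [], [], _, _, _, _, _, h => ⟨rfl, h⟩
  | [], _ :: _, _, _, hd, _, _, _ => by simp [drs] at hd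
  | _ :: _, [], _, _, hd, _, _, _ => by simp [drs] at hd
  | f :: c, f' :: c', t, t', hd, h1, h2, h => by
    simp only [drs, List.map_cons, List.cons.injEq] at hd
    obtain ⟨hd1, hd2⟩ := hd
    obtain ⟨hc, hp⟩ := plg_inj c c' hd2 (fun g hg => h1 g (by simp [hg]))
      (fun g hg => h2 g (by simp [hg])) h
    have hw : Tight f.w := h1 f (by simp)
    have hw' : Tight f'.w := h2 f' (by simp)
    obtain ⟨d, s, w⟩ := f
    obtain ⟨d', s', w'⟩ := f'
    simp only at hd1 hp hw hw'
    subst hd1
    subst hc
    cases d with
    | false =>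
      simp only [cond_false] at hp
      have hs : s = s' := by simpa [lmp] using hp []
      have hww : w = w' := hw.ext hw' fun p => by simpa [lmp] using hp (true :: p)
      subst hs hww
      exact ⟨rfl, fun p => by simpa [lmp] using hp (false :: p)⟩
    | true =>
      simp only [cond_true] at hp
      have hs : s = s' := by simpa [lmp] using hp []
      have hww : w = w' := hw.ext hw' fun p => by simpa [lmp] using hp (false :: p)
      subst hs hww
      exact ⟨rfl, fun p => by simpa [lmp] using hp (true :: p)⟩

theorem lmp_plg_tog : ∀ (c : List Fr) (t t' : BT) (q : List Bool),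
    (∀ p, lmp t' p = if p = q then !(lmp t p) else lmp t p) →
    ∀ p, lmp (plg c t') p
      = if p = (drs c).reverse ++ q then !(lmp (plg c t) p) else lmp (plg c t) p
  | [], t, t', q, h, p => by simpa [plg, drs] using h p
  | f :: c, t, t', q, h, p => by
    have e : (drs (f :: c)).reverse ++ q = (drs c).reverse ++ f.dir :: q := by
      simp [drs]
    rw [e]
    simp only [plg]
    refine lmp_plg_tog c _ _ (f.dir :: q) (fun p => ?_) p
    cases hf : f.dir <;> cases p with
    | nil => simp [lmp]
    | cons a p => cases a <;> simp [lmp, h]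

/-! ## States -/

/-- The lamp function of a state (paths from the root). -/
def St.lam (x : St) : List Bool → Bool := lmp (plg x.c (.node x.s x.l x.r))

/-- All closed subtrees are tight. -/
def St.Good (x : St) : Prop := Tight x.l ∧ Tight x.r ∧ ∀ f ∈ x.c, Tight f.w

theorem St.Good.ext {x y : St} (hx : x.Good) (hy : y.Good) (hd : drs x.c = drs y.c)
    (h : ∀ p, x.lam p = y.lam p) : x = y := by
  obtain ⟨hc, hp⟩ := plg_inj x.c y.c hd hx.2.2 hy.2.2 h
  refine St.ext hc ?_ ?_ ?_
  · simpa [lmp] using hp []
  · exact hx.1.ext hy.1 fun p => by simpa [lmp] using hp (false :: p)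
  · exact hx.2.1.ext hy.2.1 fun p => by simpa [lmp] using hp (true :: p)

theorem lmp_lf (p : List Bool) : lmp lf p = lmp .nil p := by
  cases p with
  | nil => simp [lf, lmp]
  | cons a p => cases a <;> simp [lf, lmp]

theorem lmp_prn (s : Bool) (l r : BT) (p : List Bool) : lmp (prn s l r) p = lmp (.node s l r) p := by
  unfold prn
  split_ifs with h
  · obtain ⟨rfl, rfl, rfl⟩ := h
    exact (lmp_lf p).symm
  · rfl

theorem tight_prn {s : Bool} {l r : BT} (hl : Tight l) (hr : Tight r) : Tight (prn s l r) := by
  unfold prn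
  split_ifs with h
  · trivial
  · refine ⟨hl, hr, ?_⟩
    by_contra hn
    push Not at hn
    exact h ⟨by simpa using hn.1, hn.2.1, hn.2.2⟩

theorem St.Good.child {x : St} (hx : x.Good) (a : Bool) : Tight (x.child a) := by
  cases a
  · exact hx.1
  · exact hx.2.1

theorem St.Good.down {x : St} (hx : x.Good) (a : Bool) : (x.down a).Good := by
  unfold St.down
  have hc := hx.child a
  have hc' := hx.child (!a)
  split
  · refine ⟨trivial, trivial, ?_⟩
    intro f hf
    rcases List.mem_cons.1 hf with rfl | hf
    · exact hc'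
    · exact hx.2.2 f hf
  · rename_i s' l' r' he
    rw [he] at hc
    refine ⟨hc.1, hc.2.1, ?_⟩
    intro f hf
    rcases List.mem_cons.1 hf with rfl | hf
    · exact hc'
    · exact hx.2.2 f hf

theorem St.drs_down (x : St) (a : Bool) : drs (x.down a).c = a :: drs x.c := by
  unfold St.down
  split <;> rfl

theorem St.lam_down (x : St) (a : Bool) (p : List Bool) : (x.down a).lam p = x.lam p := by
  unfold St.down
  split
  · rename_i he
    unfold St.lam
    simp only [plg]
    refine lmp_plg_congr x.c (fun p => ?_) p
    cases a with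
    | false =>
      simp only [St.child, cond_false] at he
      simp only [cond_false, St.child, Bool.not_false, cond_true]
      cases p with
      | nil => simp [lmp]
      | cons b p =>
        cases b
        · simpa [lmp, he, lf] using lmp_lf p
        · simp [lmp]
    | true =>
      simp only [St.child, cond_true] at he
      simp only [cond_false, St.child, Bool.not_true, cond_true]
      cases p with
      | nil => simp [lmp]
      | cons b p =>
        cases b
        · simp [lmp]
        · simpa [lmp, he, lf] using lmp_lf p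
  · rename_i s' l' r' he
    unfold St.lam
    simp only [plg]
    refine lmp_plg_congr x.c (fun p => ?_) p
    cases a with
    | false =>
      simp only [St.child, cond_false] at he
      simp [he, St.child]
    | true =>
      simp only [St.child, cond_true] at he
      simp [he, St.child]

theorem St.Good.up {x : St} (hx : x.Good) : x.up.Good := by
  unfold St.up
  obtain ⟨hl, hr, hc⟩ := hx
  split
  · exact ⟨hl, hr, hc⟩
  · rename_i f c he
    rw [he] at hc
    have hf : Tight f.w := hc f (by simp)
    have hc' : ∀ g ∈ c, Tight g.w := fun g hg => hc g (by simp [hg])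
    cases f.dir
    · exact ⟨tight_prn hl hr, hf, hc'⟩
    · exact ⟨hf, tight_prn hl hr, hc'⟩

theorem St.up_spec {x : St} {a : Bool} {d : List Bool} (h : drs x.c = a :: d) :
    drs x.up.c = d ∧ ∀ p, x.up.lam p = x.lam p := by
  unfold St.up
  obtain ⟨c, s, l, r⟩ := x
  cases c with
  | nil => simp [drs] at h
  | cons f c =>
    simp only [drs, List.map_cons, List.cons.injEq] at h
    cases hf : f.dir
    · refine ⟨by simpa [drs, hf] using h.2, fun p => ?_⟩
      simp only [St.lam, plg, hf, cond_false]
      refine lmp_plg_congr c (fun p => ?_) p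
      cases p with
      | nil => simp [lmp]
      | cons b p =>
        cases b
        · simpa [lmp] using lmp_prn s l r p
        · simp [lmp]
    · refine ⟨by simpa [drs, hf] using h.2, fun p => ?_⟩
      simp only [St.lam, plg, hf, cond_true]
      refine lmp_plg_congr c (fun p => ?_) p
      cases p with
      | nil => simp [lmp]
      | cons b p =>
        cases b
        · simp [lmp]
        · simpa [lmp] using lmp_prn s l r p

theorem St.Good.tog {x : St} (hx : x.Good) : x.tog.Good := hx

theorem St.lam_tog (x : St) (p : List Bool) :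
    x.tog.lam p = if p = (drs x.c).reverse then !(x.lam p) else x.lam p := by
  have h := lmp_plg_tog x.c (.node x.s x.l x.r) (.node (!x.s) x.l x.r) [] (fun p => by
    cases p with
    | nil => simp [lmp]
    | cons a p => simp [lmp]) p
  rw [List.append_nil] at h
  exact h

/-! ## Paths of group elements -/

/-- Code of a letter of the free group. -/
def cod (x : Fin 2 × Bool) : List Bool := [decide (x.1 = 1), x.2]

theorem cod_inj {x y : Fin 2 × Bool} (h : cod x = cod y) : x = y := by
  revert x y
  decide

/-- The path of a reduced word. -/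
def pw2 (w : List (Fin 2 × Bool)) : List Bool := w.flatMap cod

theorem pw2_cons (x : Fin 2 × Bool) (w : List (Fin 2 × Bool)) :
    pw2 (x :: w) = decide (x.1 = 1) :: x.2 :: pw2 w := by
  simp [pw2, cod]

theorem pw2_inj : ∀ {w w' : List (Fin 2 × Bool)}, pw2 w = pw2 w' → w = w'
  | [], [], _ => rfl
  | [], y :: w', h => by simp [pw2, cod] at h
  | x :: w, [], h => by simp [pw2, cod] at h
  | x :: w, y :: w', h => by
    rw [pw2_cons, pw2_cons] at h
    simp only [List.cons.injEq] at h
    have h1 : x = y := cod_inj (by simp [cod, h.1, h.2.1])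
    have h2 : w = w' := pw2_inj h.2.2
    rw [h1, h2]

/-- The path of a group element, innermost (last letter) first. -/
def pth (g : F2) : List Bool := pw2 (g⁻¹).toWord

theorem pth_inj {g h : F2} (e : pth g = pth h) : g = h := by
  have h1 := pw2_inj e
  exact inv_injective (FreeGroup.toWord_injective h1)

theorem pth_one : pth 1 = [] := by
  simp [pth, pw2]

/-- The letter `x` as an element of the free group. -/
def ltr (x : Fin 2 × Bool) : F2 := FreeGroup.mk [x]

theorem inv_mul_ltr (g : F2) (x : Fin 2 × Bool) :
    ((g * ltr x)⁻¹).toWord = FreeGroup.reduce ((x.1, !x.2) :: (g⁻¹).toWord) := by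
  have h : (g * ltr x)⁻¹ = FreeGroup.mk ((x.1, !x.2) :: (g⁻¹).toWord) := by
    rw [mul_inv_rev, ltr, FreeGroup.inv_mk]
    conv_lhs => rw [← FreeGroup.mk_toWord (x := g⁻¹)]
    rw [FreeGroup.mul_mk]
    rfl
  rw [h, FreeGroup.toWord_mk]

theorem toWord_cancel {g : F2} {x : Fin 2 × Bool} {w : List (Fin 2 × Bool)}
    (h : (g⁻¹).toWord = x :: w) : ((g * ltr x)⁻¹).toWord = w := by
  rw [inv_mul_ltr, FreeGroup.reduce.cons, FreeGroup.reduce_toWord, h]
  simp

theorem toWord_cons {g : F2} {x : Fin 2 × Bool}
    (h : ∀ w, (g⁻¹).toWord ≠ x :: w) :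
    ((g * ltr x)⁻¹).toWord = (x.1, !x.2) :: (g⁻¹).toWord := by
  rw [inv_mul_ltr, FreeGroup.reduce.cons, FreeGroup.reduce_toWord]
  cases hw : (g⁻¹).toWord with
  | nil => rfl
  | cons y w =>
    have hxy : ¬ (x.1 = y.1 ∧ (!x.2) = !y.2) := by
      rintro ⟨h1, h2⟩
      refine h w ?_
      have h2' : x.2 = y.2 := by simpa using h2
      rw [hw, Prod.ext h1 h2']
    simp only [hxy, if_false]

theorem take_pth {g : F2} {x : Fin 2 × Bool} :
    (pth g).take 2 = cod x ↔ ∃ w, (g⁻¹).toWord = x :: w := by
  unfold pth
  cases hw : (g⁻¹).toWord with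
  | nil => simp [pw2, cod]
  | cons y w =>
    rw [pw2_cons]
    constructor
    · intro h
      have : y = x := cod_inj (by simpa [cod] using h)
      exact ⟨w, by rw [this]⟩
    · rintro ⟨w', h⟩
      have : y = x := (List.cons.inj h).1
      rw [this]
      simp [cod]

/-! ## Representation of group elements by states -/

/-- The state `x` represents the group element `z`. -/
def Rep (x : St) (z : Lamp) : Prop :=
  x.Good ∧ drs x.c = pth z.right ∧
    ∀ p, x.lam p = true ↔ ∃ h, p = (pth h).reverse ∧ Multiplicative.toAdd z.left h ≠ 0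

theorem Rep.init : Rep St.init 1 := by
  refine ⟨⟨trivial, trivial, by simp [St.init]⟩, ?_, ?_⟩
  · rw [SemidirectProduct.one_right, pth_one]
    rfl
  · intro p
    have h : St.init.lam p = false := by
      simpa [St.init, St.lam, plg, lmp, lf] using lmp_lf p
    rw [h]
    constructor
    · intro h
      cases h
    · rintro ⟨h, -, h2⟩
      exact absurd rfl h2

theorem Rep.unique {x y : St} {z : Lamp} (hx : Rep x z) (hy : Rep y z) : x = y := by
  refine hx.1.ext hy.1 (hx.2.1.trans hy.2.1.symm) fun p => ?_
  rw [Bool.eq_iff_iff]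
  exact (hx.2.2 p).trans (hy.2.2 p).symm

theorem Rep.unique' {x : St} {z z' : Lamp} (h : Rep x z) (h' : Rep x z') : z = z' := by
  have hr : z.right = z'.right := pth_inj (h.2.1.symm.trans h'.2.1)
  have key : ∀ g, Multiplicative.toAdd z.left g ≠ 0 ↔ Multiplicative.toAdd z'.left g ≠ 0 := by
    intro g
    have e := (h.2.2 (pth g).reverse).symm.trans (h'.2.2 (pth g).reverse)
    have aux : ∀ f : F2 →₀ ZMod 2,
        (∃ k, (pth g).reverse = (pth k).reverse ∧ f k ≠ 0) ↔ f g ≠ 0 := by
      intro f
      constructor
      · rintro ⟨k, hk, hf⟩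
        rw [List.reverse_inj] at hk
        rwa [pth_inj hk]
      · intro hf
        exact ⟨g, rfl, hf⟩
    exact (aux _).symm.trans (e.trans (aux _))
  have hl : z.left = z'.left := by
    apply Multiplicative.toAdd.injective
    ext g
    have hk := key g
    have h2 : ∀ a b : ZMod 2, (a ≠ 0 ↔ b ≠ 0) → a = b := by decide
    rw [h2 _ _ hk]
  exact SemidirectProduct.ext hl hr

theorem Rep.tog {x : St} {z : Lamp} (h : Rep x z) :
    Rep x.tog (z * SemidirectProduct.inl (Multiplicative.ofAdd (Finsupp.single 1 1))) := by
  refine ⟨h.1.tog, ?_, ?_⟩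
  · rw [SemidirectProduct.mul_right, SemidirectProduct.right_inl, mul_one]
    exact h.2.1
  · intro p
    have hval : ∀ g, Multiplicative.toAdd (z * SemidirectProduct.inl
        (Multiplicative.ofAdd (Finsupp.single 1 1)) : Lamp).left g
        = Multiplicative.toAdd z.left g + if g = z.right then 1 else 0 := by
      intro g
      rw [SemidirectProduct.mul_left, SemidirectProduct.left_inl, toAdd_mul, Finsupp.add_apply,
        shift_apply, toAdd_ofAdd, Finsupp.single_apply]
      congr 1
      by_cases hg : g = z.right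
      · subst hg
        simp
      · have : ¬ (1 = z.right⁻¹ * g) := by
          intro h1
          apply hg
          rw [eq_comm, inv_mul_eq_one] at h1
          exact h1.symm
        rw [if_neg this, if_neg hg]
    rw [St.lam_tog]
    have hz : ∀ a : ZMod 2, (a + 1 ≠ 0) ↔ ¬ (a ≠ 0) := by decide
    by_cases hp : p = (drs x.c).reverse
    · rw [if_pos hp]
      have hp' : p = (pth z.right).reverse := by rw [hp, h.2.1]
      have e1 : (∃ k, p = (pth k).reverse ∧ Multiplicative.toAdd z.left k ≠ 0)
          ↔ Multiplicative.toAdd z.left z.right ≠ 0 := by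
        constructor
        · rintro ⟨k, hk, hf⟩
          rw [hp', List.reverse_inj] at hk
          rwa [pth_inj hk]
        · intro hf
          exact ⟨_, hp', hf⟩
      have e2 : (∃ k, p = (pth k).reverse ∧ Multiplicative.toAdd (z * SemidirectProduct.inl
          (Multiplicative.ofAdd (Finsupp.single 1 1)) : Lamp).left k ≠ 0)
          ↔ Multiplicative.toAdd z.left z.right + 1 ≠ 0 := by
        constructor
        · rintro ⟨k, hk, hf⟩
          rw [hp', List.reverse_inj] at hk
          have hk' := pth_inj hk
          rw [hval, ← hk', if_pos rfl] at hf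
          exact hf
        · intro hf
          exact ⟨_, hp', by rw [hval, if_pos rfl]; exact hf⟩
      rw [e2, hz, ← e1, ← h.2.2 p]
      simp
    · rw [if_neg hp, h.2.2 p]
      have hp' : p ≠ (pth z.right).reverse := by rwa [← h.2.1]
      constructor
      · rintro ⟨k, hk, hf⟩
        refine ⟨k, hk, ?_⟩
        rw [hval, if_neg, add_zero]
        · exact hf
        · rintro rfl
          exact hp' hk
      · rintro ⟨k, hk, hf⟩
        refine ⟨k, hk, ?_⟩
        rw [hval, if_neg, add_zero] at hf
        · exact hf
        · rintro rfl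
          exact hp' hk

theorem Rep.move {x y : St} {z : Lamp} {g : F2} (h : Rep x z) (hy : y.Good)
    (hd : drs y.c = pth (z.right * g)) (hl : ∀ p, y.lam p = x.lam p) :
    Rep y (z * SemidirectProduct.inr g) := by
  refine ⟨hy, ?_, ?_⟩
  · rw [SemidirectProduct.mul_right, SemidirectProduct.right_inr]
    exact hd
  · intro p
    rw [hl p, h.2.2 p, SemidirectProduct.mul_left, SemidirectProduct.left_inr, map_one, mul_one]

/-! ## Right multiplications -/

section mult

variable {Ltr : Type} (E : St → List Ltr)

/-- Right multiplication by `z` is computed by a simple machine. -/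
def RM (z : Lamp) : Prop :=
  ∃ (m : St → St) (F : List Ltr → List Ltr), LT F ∧
    ∀ (x : St) (y : Lamp), Rep x y → F (E x) = E (m x) ∧ Rep (m x) (y * z)

theorem RM.one : RM E 1 :=
  ⟨fun x => x, fun w => w, LT.id, fun x y h => ⟨rfl, by rwa [mul_one]⟩⟩

theorem RM.mul {a b : Lamp} (ha : RM E a) (hb : RM E b) : RM E (a * b) := by
  obtain ⟨m, F, hF, h⟩ := ha
  obtain ⟨m', F', hF', h'⟩ := hb
  refine ⟨fun x => m' (m x), fun w => F' (F w), LT.comp hF' hF, fun x y hx => ?_⟩
  obtain ⟨h1, h2⟩ := h x y hx
  obtain ⟨h3, h4⟩ := h' (m x) (y * a) h2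
  exact ⟨by simp only [h1, h3], by rwa [← mul_assoc]⟩

end mult

/-- A submonoid of the lamplighter group which contains the generators is everything. -/
theorem submonoid_top (M : Submonoid Lamp)
    (h1 : SemidirectProduct.inl (Multiplicative.ofAdd (Finsupp.single 1 1)) ∈ M)
    (h2 : ∀ x : Fin 2 × Bool, SemidirectProduct.inr (ltr x) ∈ M) (z : Lamp) : z ∈ M := by
  have hr : ∀ g : F2, SemidirectProduct.inr g ∈ M := by
    intro g
    induction g using FreeGroup.induction_on with
    | C1 => rw [map_one]; exact M.one_mem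
    | of i => exact h2 (i, true)
    | inv_of i _ =>
      have : (FreeGroup.of i)⁻¹ = ltr (i, false) := rfl
      rw [this]
      exact h2 (i, false)
    | mul x y hx hy => rw [map_mul]; exact M.mul_mem hx hy
  have hs : ∀ (g : F2) (b : ZMod 2),
      SemidirectProduct.inl (Multiplicative.ofAdd (Finsupp.single g b)) ∈ M := by
    intro g b
    have hb : b = 0 ∨ b = 1 := by revert b; decide
    rcases hb with rfl | rfl
    · rw [Finsupp.single_zero, ofAdd_zero, map_one]
      exact M.one_mem
    · have e : Multiplicative.ofAdd (Finsupp.single g (1 : ZMod 2))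
          = shift g (Multiplicative.ofAdd (Finsupp.single 1 1)) := by
        apply Multiplicative.toAdd.injective
        ext k
        rw [shift_apply, toAdd_ofAdd, toAdd_ofAdd, Finsupp.single_apply, Finsupp.single_apply]
        have : (g = k) ↔ (1 = g⁻¹ * k) := by
          constructor
          · rintro rfl
            simp
          · intro h
            rw [eq_comm, inv_mul_eq_one] at h
            exact h
        by_cases hk : g = k
        · rw [if_pos hk, if_pos (this.1 hk)]
        · rw [if_neg hk, if_neg (fun h => hk (this.2 h))]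
      rw [e, SemidirectProduct.inl_aut]
      exact M.mul_mem (M.mul_mem (hr _) h1) (hr _)
  have hl : ∀ f : F2 →₀ ZMod 2, SemidirectProduct.inl (Multiplicative.ofAdd f) ∈ M := by
    intro f
    induction f using Finsupp.induction_linear with
    | zero => rw [ofAdd_zero, map_one]; exact M.one_mem
    | add f g hf hg => rw [ofAdd_add, map_mul]; exact M.mul_mem hf hg
    | single g b => exact hs g b
  rw [← SemidirectProduct.inl_left_mul_inr_right z]
  exact M.mul_mem (hl (Multiplicative.toAdd z.left)) (hr z.right)

theorem group_level {Ltr : Type} [Finite Ltr] (E : St → List Ltr) (hE : Function.Injective E)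
    (hdown : ∀ a : Bool, ∃ F : List Ltr → List Ltr, LT F ∧ ∀ x : St, F (E x) = E (x.down a))
    (hup : ∃ F : List Ltr → List Ltr, LT F ∧ ∀ x : St, x.c ≠ [] → F (E x) = E x.up)
    (htog : ∃ F : List Ltr → List Ltr, LT F ∧ ∀ x : St, F (E x) = E x.tog)
    (htest : ∀ a b : Bool, ∃ (σ : Type) (_ : Finite σ) (δ : σ → Ltr → σ) (s₀ : σ) (acc : σ → Bool),
      ∀ x : St, acc ((E x).foldl δ s₀) = true ↔ (x.c.map Fr.dir).take 2 = [a, b]) :
    (∀ S : Set Lamp, CayleyLinTime Lamp S) ∧
      ∃ S : Set Lamp, S.Finite ∧ Subsemigroup.closure S = ⊤ := by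
  -- the generators
  have gen1 : RM E (SemidirectProduct.inl (Multiplicative.ofAdd (Finsupp.single 1 1))) := by
    obtain ⟨F, hF, h⟩ := htog
    exact ⟨St.tog, F, hF, fun x y hx => ⟨h x, hx.tog⟩⟩
  have gen2 : ∀ a : Fin 2 × Bool, RM E (SemidirectProduct.inr (ltr a)) := by
    intro a
    obtain ⟨U, hU, hU'⟩ := hup
    obtain ⟨D1, hD1, hD1'⟩ := hdown (decide (a.1 = 1))
    obtain ⟨D2, hD2, hD2'⟩ := hdown (!a.2)
    obtain ⟨σ, hσ, δ, s₀, acc, hacc⟩ := htest (decide (a.1 = 1)) a.2
    refine ⟨fun x => if (drs x.c).take 2 = cod a then x.up.up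
        else (x.down (!a.2)).down (decide (a.1 = 1)),
      fun w => if acc (w.foldl δ s₀) then U (U w) else D1 (D2 w),
      LT.ite δ s₀ acc (LT.comp hU hU) (LT.comp hD1 hD2), fun x y hx => ?_⟩
    have hc : acc ((E x).foldl δ s₀) = true ↔ (drs x.c).take 2 = cod a := hacc x
    by_cases ht : (drs x.c).take 2 = cod a
    · have hd : ∃ w, (y.right⁻¹).toWord = a :: w := take_pth.1 (by rw [← hx.2.1]; exact ht)
      obtain ⟨w, hw⟩ := hd
      have hdx : drs x.c = decide (a.1 = 1) :: a.2 :: pw2 w := by
        rw [hx.2.1, pth, hw, pw2_cons]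
      obtain ⟨e1, l1⟩ := St.up_spec hdx
      obtain ⟨e2, l2⟩ := St.up_spec e1
      have hne : x.c ≠ [] := by
        intro h
        rw [h] at hdx
        simp [drs] at hdx
      have hne' : x.up.c ≠ [] := by
        intro h
        rw [h] at e1
        simp [drs] at e1
      simp only [hc.2 ht, ht, if_true]
      refine ⟨by rw [hU' x hne, hU' _ hne'], ?_⟩
      refine hx.move hx.1.up.up ?_ (fun p => by rw [l2, l1])
      rw [e2, pth, toWord_cancel hw]
    · have hw : ∀ w, (y.right⁻¹).toWord ≠ a :: w := fun w hw =>
        ht (by rw [hx.2.1]; exact take_pth.2 ⟨w, hw⟩)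
      have hf : ¬ (acc ((E x).foldl δ s₀) = true) := fun h => ht (hc.1 h)
      simp only [hf, ht, if_false]
      refine ⟨by rw [hD2' x, hD1']; rfl, ?_⟩
      refine hx.move ((hx.1.down _).down _) ?_ (fun p => by rw [St.lam_down, St.lam_down])
      rw [St.drs_down, St.drs_down, hx.2.1, pth, pth, toWord_cons hw, pw2_cons]
  let M : Submonoid Lamp :=
    { carrier := {z | RM E z}
      one_mem' := RM.one E
      mul_mem' := fun ha hb => RM.mul E ha hb }
  have hM : ∀ z : Lamp, RM E z := fun z => submonoid_top M gen1 gen2 z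
  have hex : ∀ z : Lamp, ∃ x : St, Rep x z := by
    intro z
    obtain ⟨m, F, -, h⟩ := hM z
    exact ⟨m St.init, by simpa using (h St.init 1 Rep.init).2⟩
  choose st hst using hex
  choose m F hF hmF using hM
  have hinj : Function.Injective (fun z => E (st z)) := by
    intro z z' h
    have h' := hE h
    have h1 := hst z
    rw [h'] at h1
    exact h1.unique' (hst z')
  refine ⟨fun S => ?_, ?_⟩
  · refine ⟨Ltr, inferInstance, Set.range (fun z => E (st z)),
      (Equiv.ofInjective _ hinj).symm, F, fun s _ => ⟨(hF s).linTime, ?_⟩⟩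
    rintro ⟨_, z, rfl⟩
    obtain ⟨h1, h2⟩ := hmF s (st z) z (hst z)
    have h3 : F s (E (st z)) = E (st (z * s)) := by
      rw [h1, h2.unique (hst (z * s))]
    refine ⟨⟨z * s, h3.symm⟩, ?_⟩
    have e1 : (Equiv.ofInjective _ hinj).symm ⟨E (st z), ⟨z, rfl⟩⟩ = z := by
      rw [Equiv.symm_apply_eq]
      rfl
    have e2 : (Equiv.ofInjective _ hinj).symm ⟨F s (E (st z)), ⟨z * s, h3.symm⟩⟩ = z * s := by
      rw [Equiv.symm_apply_eq]
      exact Subtype.ext h3
    exact e2.trans (by rw [e1])
  · let τ : Lamp := SemidirectProduct.inl (Multiplicative.ofAdd (Finsupp.single 1 1))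
    let S : Set Lamp := {τ} ∪ Set.range (fun a : Fin 2 × Bool => (SemidirectProduct.inr (ltr a) : Lamp))
    refine ⟨S, (Set.finite_singleton τ).union (Set.finite_range _), ?_⟩
    have hτ : τ ∈ Subsemigroup.closure S :=
      Subsemigroup.subset_closure (Or.inl rfl)
    have hone : (1 : Lamp) ∈ Subsemigroup.closure S := by
      have : τ * τ = 1 := by
        show (SemidirectProduct.inl _ : Lamp) * SemidirectProduct.inl _ = 1
        rw [← map_mul, ← ofAdd_add, ← Finsupp.single_add]
        have : (1 : ZMod 2) + 1 = 0 := by decide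
        rw [this, Finsupp.single_zero, ofAdd_zero, map_one]
      rw [← this]
      exact Subsemigroup.mul_mem _ hτ hτ
    let N : Submonoid Lamp :=
      { carrier := Subsemigroup.closure S
        one_mem' := hone
        mul_mem' := fun ha hb => Subsemigroup.mul_mem _ ha hb }
    rw [eq_top_iff]
    intro z _
    exact submonoid_top N hτ
      (fun a => Subsemigroup.subset_closure (Or.inr ⟨a, rfl⟩)) z

end Pool.Agent.W_MP_1173fd_al
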