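import Pool.Agent.W_MP_1173fd_al.Run

/-!
# Creating a leaf
-/

namespace Pool.Agent.W_MP_1173fd_al

namespace Grow

open Mach

/-! ## Scanning side blocks -/

/-- first corner of zone level zero -/
def cz (it : Item) : Bool := z1 it.h (sumOf it.N it.val)

/-- the counting part of the right-to-left scan -/
def cntF (it : Item) (s : Fin 3 × Bool) : Fin 3 × Bool :=
  (bif cz it then sc s.1 else s.1, bif cz it && it.h.ptr then decide (s.1 = 1) else s.2)

/-- removal of the pointer if `b` -/
def rm (b : Bool) (it : Item) : Item := ⟨{ it.h with ptr := it.h.ptr && !b }, it.N, it.val⟩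

theorem cntF_noZ (it : Item) (h : ¬ (it.h.aw = true ∧ it.val = 0)) (s : Fin 3 × Bool) :
    cntF it s = s := by
  have h3 : (it.h.aw && decide (it.val = 0)) = false := by
    rw [Bool.eq_false_iff]
    intro hh
    apply h
    simpa using hh
  have : cz it = false := by simp [cz, z1, sumOf, h3]
  simp [cntF, this]

theorem foldr_noZ (w : List Item) (h : NoZ w) (s : Fin 3 × Bool) : List.foldr cntF s w = s := by
  induction w with
  | nil => rfl
  | cons it w ih =>
    rw [List.foldr_cons, ih (fun i hi => h i (by simp [hi])), cntF_noZ it (h it (by simp)).2.2]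

theorem cntF_c1 (s : Bool) (cm : Cmp) (N : ℕ) (b : Bool) (x : Fin 3 × Bool) :
    cntF (clItem .c1 s cm N true 0 b) x = (sc x.1, bif b then decide (x.1 = 1) else x.2) := by
  simp [cntF, cz, z1, clItem, sumOf]

theorem cntF_c2 (s : Bool) (cm : Cmp) (N v : ℕ) (aw b : Bool) (x : Fin 3 × Bool) :
    cntF (clItem .c2 s cm N aw v b) x = x := by
  simp [cntF, cz, z1, clItem]

theorem cntF_c3 (s : Bool) (cm : Cmp) (N v : ℕ) (aw b : Bool) (x : Fin 3 × Bool) :
    cntF (clItem .c3 s cm N aw v b) x = x := by
  simp [cntF, cz, z1, clItem]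

theorem foldr_none (t : BT) (x : Fin 3 × Bool) :
    List.foldr cntF x (encS t none) = (sc^[ht t] x.1, x.2) := by
  induction t generalizing x with
  | nil => rfl
  | node s l r ihl ihr =>
    have e1 : ∀ x, List.foldr cntF x (enc l true 1) = x := fun x =>
      foldr_noZ _ (enc_noZ _ _ _ (by simp)) x
    have e2 : ∀ x, List.foldr cntF x (enc r true 1) = x := fun x =>
      foldr_noZ _ (enc_noZ _ _ _ (by simp)) x
    simp only [encS, prd]
    split_ifs with h
    · have hh : ht (.node s l r) = ht r + 1 := by simp only [ht]; omega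
      simp [List.foldr_append, cntF_c1, cntF_c2, cntF_c3, e1, ihr, hh, Function.iterate_succ_apply']
    · have hh : ht (.node s l r) = ht l + 1 := by simp only [ht]; omega
      simp [List.foldr_append, cntF_c1, cntF_c2, cntF_c3, e2, ihl, hh, Function.iterate_succ_apply']

theorem foldr_some (t : BT) (k : ℕ) (hk : k < ht t) (x : Fin 3 × Bool) :
    List.foldr cntF x (encS t (some k)) =
      (sc^[ht t] x.1, decide (sc^[ht t - 1 - k] x.1 = 1)) := by
  induction t generalizing k x with
  | nil => simp [ht] at hk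
  | node s l r ihl ihr =>
    have e1 : ∀ x, List.foldr cntF x (enc l true 1) = x := fun x =>
      foldr_noZ _ (enc_noZ _ _ _ (by simp)) x
    have e2 : ∀ x, List.foldr cntF x (enc r true 1) = x := fun x =>
      foldr_noZ _ (enc_noZ _ _ _ (by simp)) x
    simp only [encS]
    split_ifs with h
    · have hh : ht (.node s l r) = ht r + 1 := by simp only [ht]; omega
      rw [hh] at hk
      rcases k with _ | k
      · simp [List.foldr_append, cntF_c1, cntF_c2, cntF_c3, e1, hh, foldr_none, prd,
          Function.iterate_succ_apply']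
      · have e3 : ht r - (k + 1) = ht r - 1 - k := by omega
        simp [List.foldr_append, cntF_c1, cntF_c2, cntF_c3, e1, ihr k (by omega), hh, prd,
          Function.iterate_succ_apply', e3]
    · have hh : ht (.node s l r) = ht l + 1 := by simp only [ht]; omega
      rw [hh] at hk
      rcases k with _ | k
      · simp [List.foldr_append, cntF_c1, cntF_c2, cntF_c3, e2, hh, foldr_none, prd,
          Function.iterate_succ_apply']
      · have e3 : ht l - (k + 1) = ht l - 1 - k := by omega
        simp [List.foldr_append, cntF_c1, cntF_c2, cntF_c3, e2, ihl k (by omega), hh, prd,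
          Function.iterate_succ_apply', e3]

theorem sc_iter (n : ℕ) : decide (sc^[n] 0 = 1) = decide (n = 1) := by
  rcases n with _ | _ | n
  · rfl
  · rfl
  · have : ∀ m, sc^[m + 2] 0 = 2 := by
      intro m
      induction m with
      | zero => rfl
      | succ m ih => rw [show m + 1 + 2 = (m + 2) + 1 by ring, Function.iterate_succ_apply', ih]; rfl
    simp [this]

theorem foldr_side (t : BT) (k : ℕ) (hk : k + 1 < ht t) (b : Bool) :
    List.foldr cntF (0, b) (encS t (some k)) = (sc^[ht t] 0, decide (k + 2 = ht t)) := by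
  rw [foldr_some t k (by omega)]
  simp only [sc_iter]
  congr 1
  rw [decide_eq_decide]
  omega

theorem rm_false (w : List Item) : w.map (rm false) = w := by
  have : rm false = id := by
    funext it
    simp [rm]
  rw [this, List.map_id]

theorem map_rm_of (w : List Item) (h : ∀ it ∈ w, it.h.ptr = false) : w.map (rm true) = w := by
  induction w with
  | nil => rfl
  | cons it w ih =>
    have h1 := h it (by simp)
    rw [List.map_cons, ih (fun i hi => h i (by simp [hi]))]
    congr 1
    obtain ⟨hd, N, v⟩ := it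
    obtain ⟨k, c, l, cm, P, ptr, aw⟩ := hd
    simp only at h1
    simp [rm, h1]

theorem rm_clItem (c : Cor) (s : Bool) (cm : Cmp) (N : ℕ) (aw : Bool) (v : ℕ) (b : Bool) :
    rm true (clItem c s cm N aw v b) = clItem c s cm N aw v false := by
  simp [rm, clItem]

theorem map_rm (t : BT) (k : Option ℕ) : (encS t k).map (rm true) = encS t none := by
  induction t generalizing k with
  | nil => rfl
  | node s l r ihl ihr =>
    have e1 : (enc l true 1).map (rm true) = enc l true 1 := map_rm_of _ (enc_ptr _ _ _)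
    have e2 : (enc r true 1).map (rm true) = enc r true 1 := map_rm_of _ (enc_ptr _ _ _)
    simp only [encS, prd]
    split_ifs <;> simp [e1, e2, ihl, ihr, rm_clItem]

variable (a : Bool)

/-- words without cursor items -/
def NoCu (w : List Item) : Prop := ∀ it ∈ w, it.h.kind ≠ .cu

theorem ClWord.noCu {w : List Item} (h : ClWord w) : NoCu w := by
  intro it hit hc
  rw [h it hit] at hc
  exact absurd hc (by simp)

theorem beh_right (w : List Item) (h : NoCu w) (zc : Fin 3) (b : Bool) :
    ∃ zc' b', (mGrow a).Beh w (GQ.R zc b) (GQ.R zc' b') GP.S GP.S w 0 := by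
  induction w with
  | nil => exact ⟨zc, b, Beh.nil⟩
  | cons it w ih =>
    obtain ⟨zc', b', h1⟩ := ih (fun i hi => h i (by simp [hi]))
    have h2 := h it (by simp)
    have h3 : ∃ zc2 b2, (mGrow a).A (GQ.R zc' b') it.h (sumOf it.N it.val) =
        (GQ.R zc2 b2, it.h, 0) := by
      simp only [mGrow]
      cases hk : it.h.kind <;> simp_all
    obtain ⟨zc2, b2, h3⟩ := h3
    refine ⟨zc2, b2, ?_⟩
    have := Beh.cons (M := mGrow a) (op := .id) h3 (p := GP.S) (p' := GP.S) (h'' := it.h) rfl
      (by simp) h1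
    simpa [Op.app, Op.wt] using this

theorem beh_Dn (w : List Item) (h : NoCu w) (b cB b' : Bool) :
    (mGrow a).Beh w (GQ.Dn b) (GQ.Dn b) (GP.L cB b' false) (GP.L cB b' false) w 0 := by
  apply Beh.fix
  intro it hit
  refine ⟨rfl, ?_⟩
  have h2 := h it hit
  simp only [mGrow]
  cases hk : it.h.kind <;> simp_all
  rw [← hk]

theorem beh_A (w : List Item) (h : NoCu w) (b cB b' : Bool) :
    (mGrow a).Beh w (GQ.A b) (GQ.A b) (GP.L cB b' false) (GP.L cB b' false) w 0 := by
  apply Beh.fix
  intro it hit
  refine ⟨rfl, ?_⟩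
  have h2 := h it hit
  simp only [mGrow]
  cases hk : it.h.kind <;> simp_all
  rw [← hk]

theorem beh_sideR (w : List Item) (h : ClWord w) (zc : Fin 3) (b b' : Bool) :
    (mGrow a).Beh w (GQ.R zc b) (GQ.R (List.foldr cntF (zc, b) w).1 (List.foldr cntF (zc, b) w).2)
      (GP.St b') (GP.St b') (w.map (rm b')) 0 := by
  induction w with
  | nil => exact Beh.nil
  | cons it w ih =>
    have h1 := ih (fun i hi => h i (by simp [hi]))
    have h2 := h it (by simp)
    have hA : (mGrow a).A (GQ.R (List.foldr cntF (zc, b) w).1 (List.foldr cntF (zc, b) w).2)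
        it.h (sumOf it.N it.val) = (GQ.R (List.foldr cntF (zc, b) (it :: w)).1
          (List.foldr cntF (zc, b) (it :: w)).2, it.h, 0) := by
      simp only [mGrow, h2, List.foldr_cons, cntF, cz]
    have hB : (mGrow a).B (GP.St b') it.h (sumOf it.N it.val) 0 =
        (GP.St b', { it.h with ptr := it.h.ptr && !b' }, .id, false) := by
      simp only [mGrow, h2]
    have := Beh.cons (M := mGrow a) hA hB (by simp) h1
    simpa [Op.app, Op.wt, rm] using this

theorem beh_sideC (w : List Item) (h : ClWord w) (zc : Fin 3) (b cB b' rem : Bool) :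
    (mGrow a).Beh w (GQ.C zc b) (GQ.C (List.foldr cntF (zc, b) w).1 (List.foldr cntF (zc, b) w).2)
      (GP.L cB b' rem) (GP.L cB b' rem) (w.map (rm rem)) 0 := by
  induction w with
  | nil => exact Beh.nil
  | cons it w ih =>
    have h1 := ih (fun i hi => h i (by simp [hi]))
    have h2 := h it (by simp)
    have hA : (mGrow a).A (GQ.C (List.foldr cntF (zc, b) w).1 (List.foldr cntF (zc, b) w).2)
        it.h (sumOf it.N it.val) = (GQ.C (List.foldr cntF (zc, b) (it :: w)).1
          (List.foldr cntF (zc, b) (it :: w)).2, it.h, 0) := by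
      simp only [mGrow, h2, List.foldr_cons, cntF, cz]
    have hB : (mGrow a).B (GP.L cB b' rem) it.h (sumOf it.N it.val) 0 =
        (GP.L cB b' rem, { it.h with ptr := it.h.ptr && !rem }, .id, false) := by
      simp only [mGrow, h2]
    have := Beh.cons (M := mGrow a) hA hB (by simp) h1
    simpa [Op.app, Op.wt, rm] using this

/-- closed blocks in the right part, before the star (left-to-right state `Rt`) -/
theorem beh_Rt (w : List Item) (h : ClWord w) (h' : ∀ it ∈ w, it.h.ptr = false)
    (zc : Fin 3) (b b' : Bool) :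
    ∃ zc', (mGrow a).Beh w (GQ.R zc b) (GQ.R zc' b) (GP.Rt b') (GP.Rt b') w 0 := by
  induction w with
  | nil => exact ⟨zc, Beh.nil⟩
  | cons it w ih =>
    obtain ⟨zc', h1⟩ := ih (fun i hi => h i (by simp [hi])) (fun i hi => h' i (by simp [hi]))
    have h2 := h it (by simp)
    have h3 := h' it (by simp)
    refine ⟨bif z1 it.h (sumOf it.N it.val) then sc zc' else zc', ?_⟩
    have hA : (mGrow a).A (GQ.R zc' b) it.h (sumOf it.N it.val) =
        (GQ.R (bif z1 it.h (sumOf it.N it.val) then sc zc' else zc') b, it.h, 0) := by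
      simp only [mGrow, h2, h3]
      simp
    have hB : (mGrow a).B (GP.Rt b') it.h (sumOf it.N it.val) 0 =
        (GP.Rt b', it.h, .id, false) := by
      simp only [mGrow, h2]
    have := Beh.cons (M := mGrow a) hA hB (by simp) h1
    simpa [Op.app, Op.wt] using this

/-- closed blocks in the left part, before the star -/
theorem beh_L (w : List Item) (h : ClWord w) (b cB b' : Bool) :
    (mGrow a).Beh w (GQ.L b) (GQ.L b) (GP.L cB b' false) (GP.L cB b' false) w 0 := by
  apply Beh.fix
  intro it hit
  have h2 := h it hit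
  simp only [mGrow, h2]
  simp
  rw [← h2]

/-! ## Frames -/

theorem lowC_false {f : Fr} {D : ℕ} (h : ht f.w ≤ D) : lowC f.dir (spCmp f D) = false := by
  obtain ⟨dir, s, w⟩ := f
  simp only at h
  cases dir
  · simp only [lowC, spCmp, cond_false, decide_eq_false_iff_not, cmpN_eq_lt_iff]
    omega
  · simp only [lowC, spCmp, cond_true, decide_eq_false_iff_not, cmpN_eq_gt_iff]
    omega

theorem lowC_true {f : Fr} {D : ℕ} (h : D < ht f.w) : lowC f.dir (spCmp f D) = true := by
  obtain ⟨dir, s, w⟩ := f
  simp only at h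
  cases dir
  · simp only [lowC, spCmp, cond_false, decide_eq_true_eq, cmpN_eq_lt_iff]
    omega
  · simp only [lowC, spCmp, cond_true, decide_eq_true_eq, cmpN_eq_gt_iff]
    omega

theorem spCmp_hi {f : Fr} {D : ℕ} (h : ht f.w < D) : spCmp f D = hi f.dir := by
  obtain ⟨dir, s, w⟩ := f
  simp only at h
  cases dir
  · simp only [spCmp, hi, cond_false, cmpN_eq_gt_iff]
    omega
  · simp only [spCmp, hi, cond_true, cmpN_eq_lt_iff]
    omega

theorem spCmp_star {f : Fr} {D : ℕ} (h : D < ht f.w) :
    (bif decide (D + 1 = ht f.w) then Cmp.eq else spCmp f D) = spCmp f (D + 1) := by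
  obtain ⟨dir, s, w⟩ := f
  simp only at h
  cases dir
  · simp only [spCmp, cond_false]
    by_cases h1 : D + 1 = ht w
    · simp only [h1, decide_true, cond_true]
      rw [cmpN_eq rfl]
    · simp only [h1, decide_false, cond_false]
      rw [cmpN_lt h, cmpN_lt (by omega)]
  · simp only [spCmp, cond_true]
    by_cases h1 : D + 1 = ht w
    · simp only [h1, decide_true, cond_true]
      rw [cmpN_eq rfl]
    · simp only [h1, decide_false, cond_false]
      rw [cmpN_gt h, cmpN_gt (by omega)]

/-- frames which are not lower -/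
theorem frItem_hi {f : Fr} {D : ℕ} (h : ht f.w ≤ D) (c : Cor) (p v : ℕ) :
    (⟨{ (frItem f c p v D).h with cmp := hi f.dir }, (frItem f c p v D).N,
      (frItem f c p v D).val⟩ : Item) = frItem f c p v (D + 1) := by
  have e1 : min D (ht f.w) = ht f.w := by omega
  have e2 : min (D + 1) (ht f.w) = ht f.w := by omega
  simp only [frItem, spItem, e1, e2, spCmp_hi (show ht f.w < D + 1 by omega)]

/-- the star -/
theorem frItem_star {f : Fr} {D : ℕ} (h : D < ht f.w) (c : Cor) (p : ℕ) :
    (⟨{ (frItem f c p D D).h with cmp := bif decide (D + 1 = ht f.w) then Cmp.eq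
        else (frItem f c p D D).h.cmp }, (Op.grow.app (frItem f c p D D).N (frItem f c p D D).val).1,
      (Op.grow.app (frItem f c p D D).N (frItem f c p D D).val).2⟩ : Item) =
      frItem f c p D (D + 1) := by
  have e1 : min D (ht f.w) = D := by omega
  have e2 : min (D + 1) (ht f.w) = D + 1 := by omega
  have l1 : D < 2 ^ D := Nat.lt_two_pow_self
  have l2 : D < 2 ^ (D + 1) := l1.trans (Nat.pow_lt_pow_right (by norm_num) (by omega))
  have l3 : D < 2 ^ (D + 1 + 1) := l2.trans (Nat.pow_lt_pow_right (by norm_num) (by omega))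
  simp only [frItem, spItem, e1, e2, spCmp_star h, Op.app, l1, l2, Nat.mod_eq_of_lt l2,
    Nat.mod_eq_of_lt l3]

theorem side_star {f : Fr} {k : ℕ} (h : k + 1 < ht f.w) :
    (side f k (k + 1)).map (rm (decide (k + 1 + 1 = ht f.w))) = side f k (k + 1 + 1) := by
  simp only [side, h, if_true]
  by_cases h1 : k + 1 + 1 = ht f.w
  · simp only [h1, decide_true, map_rm, lt_irrefl, if_false]
  · simp only [h1, decide_false, rm_false]
    rw [if_pos (by omega)]

theorem side_none {f : Fr} {k D : ℕ} (h : ht f.w ≤ D) : side f k D = encS f.w none := by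
  simp only [side, not_lt.2 h, if_false]

theorem side_cl (f : Fr) (k D : ℕ) : ClWord (side f k D) := encS_cl _ _

theorem frItem_noCu (f : Fr) (c : Cor) (p v D : ℕ) : (frItem f c p v D).h.kind ≠ .cu := by
  simp [frItem, spItem]

theorem lfr_noCu (f : Fr) (p v k D : ℕ) : NoCu (lfr f p v k D) := by
  intro it hit
  have h0 := ClWord.noCu (side_cl f k D)
  unfold lfr at hit
  cases hd : f.dir <;> rw [hd] at hit <;> simp only [cond_true, cond_false, List.mem_cons,
    List.mem_append, List.mem_nil_iff, or_false] at hit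
  · rw [hit]; exact frItem_noCu _ _ _ _ _
  · rcases hit with rfl | h | rfl
    · exact frItem_noCu _ _ _ _ _
    · exact h0 it h
    · exact frItem_noCu _ _ _ _ _

theorem rfr_noCu (f : Fr) (p v k D : ℕ) : NoCu (rfr f p v k D) := by
  intro it hit
  have h0 := ClWord.noCu (side_cl f k D)
  unfold rfr at hit
  cases hd : f.dir <;> rw [hd] at hit <;> simp only [cond_true, cond_false, List.mem_cons,
    List.mem_append, List.mem_nil_iff, or_false] at hit
  · rcases hit with rfl | h | rfl
    · exact frItem_noCu _ _ _ _ _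
    · exact h0 it h
    · exact frItem_noCu _ _ _ _ _
  · rw [hit]; exact frItem_noCu _ _ _ _ _

theorem LpG_noCu (c : List Fr) (p v k D : ℕ) : NoCu (LpG c p v k D) := by
  induction c generalizing p v k D with
  | nil => intro it hit; simp [LpG] at hit
  | cons f c ih =>
    intro it hit
    simp only [LpG, List.mem_append] at hit
    rcases hit with h | h
    · exact ih _ _ _ _ it h
    · exact lfr_noCu _ _ _ _ _ it h

theorem RpG_noCu (c : List Fr) (p v k D : ℕ) : NoCu (RpG c p v k D) := by
  induction c generalizing p v k D with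
  | nil => intro it hit; simp [RpG] at hit
  | cons f c ih =>
    intro it hit
    simp only [RpG, List.mem_append] at hit
    rcases hit with h | h
    · exact rfr_noCu _ _ _ _ _ it h
    · exact ih _ _ _ _ it h

theorem Rp_noCu (c : List Fr) (p v k D m : ℕ) : NoCu (RpG c p v k D ++ [zeItem m]) := by
  intro it hit
  simp only [List.mem_append, List.mem_cons, List.mem_nil_iff, or_false] at hit
  rcases hit with h | rfl
  · exact RpG_noCu _ _ _ _ _ it h
  · simp [zeItem]

theorem beh_lfr_hi {f : Fr} {k : ℕ} (h : ht f.w ≤ k + 1) (p : ℕ) (b cB b' : Bool) :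
    (mGrow a).Beh (lfr f p (k + 1) k (k + 1)) (GQ.L b) (GQ.L b) (GP.L cB b' false)
      (GP.L cB b' false) (lfr f p (k + 1) k (k + 1 + 1)) 0 := by
  have hl := lowC_false h
  have hA : ∀ c, (c = .c1 ∨ c = .c2) → (c = .c2 → f.dir = true) →
      (mGrow a).A (GQ.L b) (frItem f c p (k + 1) (k + 1)).h
      (sumOf (frItem f c p (k + 1) (k + 1)).N (frItem f c p (k + 1) (k + 1)).val) =
      (GQ.L b, { (frItem f c p (k + 1) (k + 1)).h with cmp := hi f.dir }, 0) := by
    intro c hc hd
    rcases hc with rfl | rfl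
    · simp only [mGrow, frItem, spItem, hl]
      cases f.dir <;> rfl
    · simp only [mGrow, frItem, spItem, hl]
      rfl
  have hB : ∀ c, (mGrow a).B (GP.L cB b' false) { (frItem f c p (k + 1) (k + 1)).h with
      cmp := hi f.dir } (sumOf (frItem f c p (k + 1) (k + 1)).N
        (frItem f c p (k + 1) (k + 1)).val) 0 = (GP.L cB b' false,
        { (frItem f c p (k + 1) (k + 1)).h with cmp := hi f.dir }, .id, false) := by
    intro c
    simp only [mGrow, frItem, spItem]
    simp
  unfold lfr
  cases hd : f.dir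
  · simp only [cond_false]
    have := Beh.single (M := mGrow a) (hA .c1 (Or.inl rfl) (by simp)) (hB .c1) (by simp)
    simpa only [Op.app, frItem_hi h, Op.wt] using this
  · simp only [cond_true]
    have e2 := Beh.single (M := mGrow a) (hA .c2 (Or.inr rfl) (fun _ => hd)) (hB .c2) (by simp)
    have e3 : (mGrow a).Beh (side f k (k + 1)) (GQ.L b) (GQ.L b) (GP.L cB b' false)
        (GP.L cB b' false) (side f k (k + 1 + 1)) 0 := by
      rw [side_none h, side_none (show ht f.w ≤ k + 1 + 1 by omega)]
      exact beh_L a _ (encS_cl _ _) _ _ _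
    have := Beh.cons (M := mGrow a) (hA .c1 (Or.inl rfl) (by simp)) (hB .c1) (by simp)
      (Beh.append e3 e2)
    simpa only [Op.app, frItem_hi h, Op.wt] using this

theorem beh_rfr_hi {f : Fr} {k : ℕ} (h : ht f.w ≤ k + 1) (p : ℕ) (zc : Fin 3) (b b' : Bool) :
    ∃ zc', (mGrow a).Beh (rfr f p (k + 1) k (k + 1)) (GQ.R zc b) (GQ.R zc' b) (GP.Rt b')
      (GP.Rt b') (rfr f p (k + 1) k (k + 1 + 1)) 0 := by
  have hl := lowC_false h
  have hA : ∀ c zc, (mGrow a).A (GQ.R zc b) (frItem f c p (k + 1) (k + 1)).h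
      (sumOf (frItem f c p (k + 1) (k + 1)).N (frItem f c p (k + 1) (k + 1)).val) =
      (GQ.R 0 b, (frItem f c p (k + 1) (k + 1)).h, 0) := by
    intro c zc
    simp only [mGrow, frItem, spItem, hl]
    simp
  have hB : ∀ c, (c = .c2 ∨ c = .c3) →
      (mGrow a).B (GP.Rt b') (frItem f c p (k + 1) (k + 1)).h
      (sumOf (frItem f c p (k + 1) (k + 1)).N (frItem f c p (k + 1) (k + 1)).val) 0 =
      (GP.Rt b', { (frItem f c p (k + 1) (k + 1)).h with cmp := hi f.dir }, .id, false) := by
    intro c hc
    rcases hc with rfl | rfl <;> simp only [mGrow, frItem, spItem, hl] <;> cases f.dir <;> rfl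
  unfold rfr
  cases hd : f.dir
  · simp only [cond_false]
    obtain ⟨zc', e3⟩ := beh_Rt a (encS f.w none) (encS_cl _ _) (encS_none_ptr _) 0 b b'
    refine ⟨0, ?_⟩
    have e2 := Beh.single (M := mGrow a) (hA .c3 zc) (hB .c3 (Or.inr rfl)) (by simp)
    have := Beh.cons (M := mGrow a) (hA .c2 zc') (hB .c2 (Or.inl rfl)) (by simp)
      (Beh.append e3 e2)
    rw [side_none h, side_none (show ht f.w ≤ k + 1 + 1 by omega)]
    simpa only [Op.app, frItem_hi h, Op.wt] using this
  · simp only [cond_true]
    refine ⟨0, ?_⟩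
    have := Beh.single (M := mGrow a) (hA .c3 zc) (hB .c3 (Or.inr rfl)) (by simp)
    simpa only [Op.app, frItem_hi h, Op.wt] using this

theorem beh_lfr_star_true {f : Fr} {k : ℕ} (h : k + 1 < ht f.w) (hd : f.dir = true) (p : ℕ)
    (b : Bool) :
    (mGrow a).Beh (lfr f p (k + 1) k (k + 1)) (GQ.L b) (GQ.Dn (decide (k + 1 + 1 = ht f.w)))
      (GP.L true (decide (k + 1 + 1 = ht f.w)) false)
      (GP.L true (decide (k + 1 + 1 = ht f.w)) false) (lfr f p (k + 1) k (k + 1 + 1)) 2 := by
  obtain ⟨β, hβ⟩ : ∃ β, β = decide (k + 1 + 1 = ht f.w) := ⟨_, rfl⟩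
  have hl := lowC_true h
  rw [hd] at hl
  have hA2 : (mGrow a).A (GQ.L b) (frItem f .c2 p (k + 1) (k + 1)).h
      (sumOf (frItem f .c2 p (k + 1) (k + 1)).N (frItem f .c2 p (k + 1) (k + 1)).val) =
      (GQ.C 0 false, (frItem f .c2 p (k + 1) (k + 1)).h, 1) := by
    simp only [mGrow, frItem, spItem, hl, hd]
    rfl
  have hA1 : ∀ zc, (mGrow a).A (GQ.C zc β) (frItem f .c1 p (k + 1) (k + 1)).h
      (sumOf (frItem f .c1 p (k + 1) (k + 1)).N (frItem f .c1 p (k + 1) (k + 1)).val) =
      (GQ.Dn β, (frItem f .c1 p (k + 1) (k + 1)).h, 1) := by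
    intro zc
    simp only [mGrow, frItem, spItem]
  have hB1 : (mGrow a).B (GP.L true β false) (frItem f .c1 p (k + 1) (k + 1)).h
      (sumOf (frItem f .c1 p (k + 1) (k + 1)).N (frItem f .c1 p (k + 1) (k + 1)).val) 1 =
      (GP.L true β β, { (frItem f .c1 p (k + 1) (k + 1)).h with
        cmp := bif β then Cmp.eq else (frItem f .c1 p (k + 1) (k + 1)).h.cmp }, .grow, false) := by
    simp only [mGrow, frItem, spItem, hd]
    simp
  have hB2 : ∀ rem, (mGrow a).B (GP.L true β rem) (frItem f .c2 p (k + 1) (k + 1)).h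
      (sumOf (frItem f .c2 p (k + 1) (k + 1)).N (frItem f .c2 p (k + 1) (k + 1)).val) 1 =
      (GP.L true β false, { (frItem f .c2 p (k + 1) (k + 1)).h with
        cmp := bif β then Cmp.eq else (frItem f .c2 p (k + 1) (k + 1)).h.cmp }, .grow, false) := by
    intro rem
    simp only [mGrow, frItem, spItem, hd]
    simp
  unfold lfr
  rw [hd, ← hβ]
  simp only [cond_true]
  have e2 := Beh.single (M := mGrow a) hA2 (hB2 β) (by simp)
  have e3 : (mGrow a).Beh (side f k (k + 1)) (GQ.C 0 false) (GQ.C (sc^[ht f.w] 0) β)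
      (GP.L true β β) (GP.L true β β) (side f k (k + 1 + 1)) 0 := by
    have := beh_sideC a (side f k (k + 1)) (side_cl _ _ _) 0 false true β β
    rw [hβ, side_star h, ← hβ] at this
    have h2 : List.foldr cntF (0, false) (side f k (k + 1)) = (sc^[ht f.w] 0, β) := by
      simp only [side, h, if_true]
      rw [foldr_side _ _ h, hβ]
    rw [h2] at this
    exact this
  have := Beh.cons (M := mGrow a) (hA1 _) hB1 (by simp) (Beh.append e3 e2)
  rw [hβ, frItem_star h, frItem_star h, ← hβ] at this
  simpa [Op.wt] using this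

theorem beh_lfr_star_false {f : Fr} {k : ℕ} (h : k + 1 < ht f.w) (hd : f.dir = false) (p : ℕ) :
    (mGrow a).Beh (lfr f p (k + 1) k (k + 1)) (GQ.L (decide (k + 1 + 1 = ht f.w)))
      (GQ.Dn (decide (k + 1 + 1 = ht f.w)))
      (GP.L true (decide (k + 1 + 1 = ht f.w)) false)
      (GP.L true (decide (k + 1 + 1 = ht f.w)) false) (lfr f p (k + 1) k (k + 1 + 1)) 1 := by
  obtain ⟨β, hβ⟩ : ∃ β, β = decide (k + 1 + 1 = ht f.w) := ⟨_, rfl⟩
  have hl := lowC_true h
  rw [hd] at hl
  have hA1 : (mGrow a).A (GQ.L β) (frItem f .c1 p (k + 1) (k + 1)).h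
      (sumOf (frItem f .c1 p (k + 1) (k + 1)).N (frItem f .c1 p (k + 1) (k + 1)).val) =
      (GQ.Dn β, (frItem f .c1 p (k + 1) (k + 1)).h, 1) := by
    simp only [mGrow, frItem, spItem, hd, hl]
    rfl
  have hB1 : (mGrow a).B (GP.L true β false) (frItem f .c1 p (k + 1) (k + 1)).h
      (sumOf (frItem f .c1 p (k + 1) (k + 1)).N (frItem f .c1 p (k + 1) (k + 1)).val) 1 =
      (GP.L true β false, { (frItem f .c1 p (k + 1) (k + 1)).h with
        cmp := bif β then Cmp.eq else (frItem f .c1 p (k + 1) (k + 1)).h.cmp }, .grow, false) := by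
    simp only [mGrow, frItem, spItem, hd]
    simp
  unfold lfr
  rw [hd, ← hβ]
  simp only [cond_false]
  have := Beh.single (M := mGrow a) hA1 hB1 (by simp)
  rw [hβ, frItem_star h, ← hβ] at this
  simpa [Op.wt] using this

theorem beh_rfr_star_true {f : Fr} {k : ℕ} (h : k + 1 < ht f.w) (hd : f.dir = true) (p : ℕ)
    (zc : Fin 3) (b : Bool) :
    (mGrow a).Beh (rfr f p (k + 1) k (k + 1)) (GQ.R zc b) (GQ.R 0 false)
      (GP.Rt (decide (k + 1 + 1 = ht f.w))) GP.S (rfr f p (k + 1) k (k + 1 + 1)) 1 := by
  obtain ⟨β, hβ⟩ : ∃ β, β = decide (k + 1 + 1 = ht f.w) := ⟨_, rfl⟩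
  have hl := lowC_true h
  rw [hd] at hl
  have hA : (mGrow a).A (GQ.R zc b) (frItem f .c3 p (k + 1) (k + 1)).h
      (sumOf (frItem f .c3 p (k + 1) (k + 1)).N (frItem f .c3 p (k + 1) (k + 1)).val) =
      (GQ.R 0 false, (frItem f .c3 p (k + 1) (k + 1)).h, 0) := by
    simp only [mGrow, frItem, spItem, hd, hl]
    rfl
  have hB : (mGrow a).B (GP.Rt β) (frItem f .c3 p (k + 1) (k + 1)).h
      (sumOf (frItem f .c3 p (k + 1) (k + 1)).N (frItem f .c3 p (k + 1) (k + 1)).val) 0 =
      (GP.S, { (frItem f .c3 p (k + 1) (k + 1)).h with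
        cmp := bif β then Cmp.eq else (frItem f .c3 p (k + 1) (k + 1)).h.cmp }, .grow, false) := by
    simp only [mGrow, frItem, spItem, hd, hl]
    simp
  unfold rfr
  rw [hd, ← hβ]
  simp only [cond_true]
  have := Beh.single (M := mGrow a) hA hB (by simp)
  rw [hβ, frItem_star h, ← hβ] at this
  simpa [Op.wt] using this

theorem beh_rfr_star_false {f : Fr} {k : ℕ} (h : k + 1 < ht f.w) (hd : f.dir = false) (p : ℕ)
    (zc : Fin 3) (b : Bool) :
    (mGrow a).Beh (rfr f p (k + 1) k (k + 1)) (GQ.R zc b)
      (GQ.R 0 (decide (k + 1 + 1 = ht f.w)))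
      (GP.Rt (decide (k + 1 + 1 = ht f.w))) GP.S (rfr f p (k + 1) k (k + 1 + 1)) 2 := by
  obtain ⟨β, hβ⟩ : ∃ β, β = decide (k + 1 + 1 = ht f.w) := ⟨_, rfl⟩
  have hl := lowC_true h
  rw [hd] at hl
  have hA3 : (mGrow a).A (GQ.R zc b) (frItem f .c3 p (k + 1) (k + 1)).h
      (sumOf (frItem f .c3 p (k + 1) (k + 1)).N (frItem f .c3 p (k + 1) (k + 1)).val) =
      (GQ.R 0 false, (frItem f .c3 p (k + 1) (k + 1)).h, 0) := by
    simp only [mGrow, frItem, spItem, hd, hl]
    rfl
  have hA2 : ∀ zc, (mGrow a).A (GQ.R zc β) (frItem f .c2 p (k + 1) (k + 1)).h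
      (sumOf (frItem f .c2 p (k + 1) (k + 1)).N (frItem f .c2 p (k + 1) (k + 1)).val) =
      (GQ.R 0 β, (frItem f .c2 p (k + 1) (k + 1)).h, 0) := by
    intro zc
    simp only [mGrow, frItem, spItem, hd, hl]
    rfl
  have hB2 : (mGrow a).B (GP.Rt β) (frItem f .c2 p (k + 1) (k + 1)).h
      (sumOf (frItem f .c2 p (k + 1) (k + 1)).N (frItem f .c2 p (k + 1) (k + 1)).val) 0 =
      (GP.St β, { (frItem f .c2 p (k + 1) (k + 1)).h with
        cmp := bif β then Cmp.eq else (frItem f .c2 p (k + 1) (k + 1)).h.cmp }, .grow, false) := by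
    simp only [mGrow, frItem, spItem, hd, hl]
    simp
  have hB3 : (mGrow a).B (GP.St β) (frItem f .c3 p (k + 1) (k + 1)).h
      (sumOf (frItem f .c3 p (k + 1) (k + 1)).N (frItem f .c3 p (k + 1) (k + 1)).val) 0 =
      (GP.S, { (frItem f .c3 p (k + 1) (k + 1)).h with
        cmp := bif β then Cmp.eq else (frItem f .c3 p (k + 1) (k + 1)).h.cmp }, .grow, false) := by
    simp only [mGrow, frItem, spItem]
  unfold rfr
  rw [hd, ← hβ]
  simp only [cond_false]
  have e2 := Beh.single (M := mGrow a) hA3 hB3 (by simp)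
  have e3 : (mGrow a).Beh (side f k (k + 1)) (GQ.R 0 false) (GQ.R (sc^[ht f.w] 0) β)
      (GP.St β) (GP.St β) (side f k (k + 1 + 1)) 0 := by
    have := beh_sideR a (side f k (k + 1)) (side_cl _ _ _) 0 false β
    rw [hβ, side_star h, ← hβ] at this
    have h2 : List.foldr cntF (0, false) (side f k (k + 1)) = (sc^[ht f.w] 0, β) := by
      simp only [side, h, if_true]
      rw [foldr_side _ _ h, hβ]
    rw [h2] at this
    exact this
  have := Beh.cons (M := mGrow a) (hA2 _) hB2 (by simp) (Beh.append e3 e2)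
  rw [hβ, frItem_star h, frItem_star h, ← hβ] at this
  simpa [Op.wt] using this

/-! ## Contexts -/

/-- the value `b` which is known at the cursor -/
def bR : List Fr → ℕ → Bool
  | [], _ => false
  | f :: c, k => if ht f.w ≤ k + 1 then bR c (k + 1) else
      (bif f.dir then false else decide (k + 1 + 1 = ht f.w))

/-- the value `b` of the star -/
def bS : List Fr → ℕ → Bool
  | [], _ => false
  | f :: c, k => if ht f.w ≤ k + 1 then bS c (k + 1) else decide (k + 1 + 1 = ht f.w)

/-- weight in the left part -/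
def wL : List Fr → ℕ → ℕ
  | [], _ => 0
  | f :: c, k => if ht f.w ≤ k + 1 then wL c (k + 1) else (bif f.dir then 2 else 1)

/-- weight in the right part -/
def wR : List Fr → ℕ → ℕ
  | [], _ => 0
  | f :: c, k => if ht f.w ≤ k + 1 then wR c (k + 1) else (bif f.dir then 1 else 2)

theorem w_le (c : List Fr) (k : ℕ) : wL c k + wR c k ≤ 3 := by
  induction c generalizing k with
  | nil => simp [wL, wR]
  | cons f c ih =>
    simp only [wL, wR]
    split_ifs
    · exact ih _
    · cases f.dir <;> simp

theorem beh_LpG (c : List Fr) (p k : ℕ) :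
    ∃ q', (mGrow a).ι q' = GP.L true (bS c k) false ∧
      (mGrow a).Beh (LpG c p (k + 1) k (k + 1)) (GQ.L (bR c k)) q' (GP.L true (bS c k) false)
        (GP.L true (bS c k) false) (LpG c p (k + 1) k (k + 1 + 1)) (wL c k) := by
  induction c generalizing p k with
  | nil => exact ⟨GQ.L false, rfl, Beh.nil⟩
  | cons f c ih =>
    by_cases h : ht f.w ≤ k + 1
    · obtain ⟨q', h1, h2⟩ := ih (p + 1) (k + 1)
      have e1 : up1 f (k + 1) = k + 1 + 1 := by unfold up1; omega
      have e2 : up1 f (k + 1 + 1) = k + 1 + 1 + 1 := by unfold up1; omega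
      refine ⟨q', ?_, ?_⟩
      · simpa only [bS, h, if_true] using h1
      · simp only [bS, bR, wL, LpG, h, if_true, e1, e2]
        have := Beh.append h2 (beh_lfr_hi a h p (bR c (k + 1)) true (bS c (k + 1)))
        simpa only [Nat.add_zero] using this
    · have h' : k + 1 < ht f.w := not_le.mp h
      have e1 : up1 f (k + 1) = up1 f (k + 1 + 1) := by unfold up1; omega
      refine ⟨GQ.Dn (bS (f :: c) k), rfl, ?_⟩
      have h3 := beh_Dn a (LpG c (p + 1) (k + 1 + 1) (k + 1) (up1 f (k + 1 + 1)))
        (LpG_noCu _ _ _ _ _) (bS (f :: c) k) true (bS (f :: c) k)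
      simp only [bS, bR, wL, LpG, h, if_false, e1] at h3 ⊢
      cases hd : f.dir
      · simp only [cond_false]
        have := Beh.append h3 (beh_lfr_star_false a h' hd p)
        simpa only [Nat.zero_add] using this
      · simp only [cond_true]
        have := Beh.append h3 (beh_lfr_star_true a h' hd p false)
        simpa only [Nat.zero_add] using this

theorem beh_Rp (c : List Fr) (p k m : ℕ) :
    ∃ zc' p', (mGrow a).Beh (RpG c p (k + 1) k (k + 1) ++ [zeItem m]) (GQ.R 0 false)
        (GQ.R zc' (bR c k)) (GP.Rt (bS c k)) p' (RpG c p (k + 1) k (k + 1 + 1) ++ [zeItem m])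
        (wR c k) := by
  induction c generalizing p k with
  | nil =>
    refine ⟨0, GP.Rt false, ?_⟩
    simp only [RpG, List.nil_append, bS, bR, wR]
    exact Beh.fix (M := mGrow a) (by
      intro it hit
      simp only [List.mem_singleton] at hit
      subst hit
      exact ⟨rfl, rfl⟩)
  | cons f c ih =>
    by_cases h : ht f.w ≤ k + 1
    · obtain ⟨zc', p', h2⟩ := ih (p + 1) (k + 1)
      have e1 : up1 f (k + 1) = k + 1 + 1 := by unfold up1; omega
      have e2 : up1 f (k + 1 + 1) = k + 1 + 1 + 1 := by unfold up1; omega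
      obtain ⟨zc2, h3⟩ := beh_rfr_hi a h p zc' (bR c (k + 1)) (bS c (k + 1))
      refine ⟨zc2, p', ?_⟩
      simp only [bS, bR, wR, RpG, h, if_true, e1, e2, List.append_assoc]
      have := Beh.append h3 h2
      simpa only [Nat.zero_add] using this
    · have h' : k + 1 < ht f.w := not_le.mp h
      have e1 : up1 f (k + 1) = up1 f (k + 1 + 1) := by unfold up1; omega
      obtain ⟨zc', b', h3⟩ := beh_right a
        (RpG c (p + 1) (k + 1 + 1) (k + 1) (up1 f (k + 1 + 1)) ++ [zeItem m])
        (Rp_noCu _ _ _ _ _ _) 0 false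
      refine ⟨0, GP.S, ?_⟩
      simp only [bS, bR, wR, RpG, h, if_false, e1, List.append_assoc] at h3 ⊢
      cases hd : f.dir
      · simp only [cond_false]
        have := Beh.append (beh_rfr_star_false a h' hd p zc' b') h3
        simpa only [Nat.add_zero] using this
      · simp only [cond_true]
        have := Beh.append (beh_rfr_star_true a h' hd p zc' b') h3
        simpa only [Nat.add_zero] using this

/-! ## The cursor -/

/-- One item with an insertion before it. -/
theorem beh_ins {M : Mach} {q q' : M.Q} {p p' : M.P} {it : Item} {h' h'' : Hdr} {ann : Ann}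
    {op : Op} (hA : M.A q it.h (sumOf it.N it.val) = (q', h', ann))
    (hB : M.B p h' (sumOf it.N it.val) ann = (p', h'', op, true)) (hop : op ≠ .del) :
    M.Beh [it] q q' p p' (leafItems ++ [⟨h'', (op.app it.N it.val).1, (op.app it.N it.val).2⟩])
      (6 + op.wt it.N) := by
  refine ⟨by simp [rls, stepA, hA], ?_⟩
  simp [lrs, rls, stepB, stepA, hA, hB, outItem, outWt, hop]

theorem encS_leaf : encS (.node false .nil .nil) none = leafItems := rfl

/-- the block of the cursor -/
theorem beh_X (w : List Item) (h : ClWord w) (cB b lf oth : Bool) (b' : Bool) :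
    ∃ lf', (mGrow a).Beh w (GQ.X cB b lf oth) (GQ.X cB b lf' oth) (GP.X cB b') (GP.X cB b') w 0 ∧
      ∀ it w', w = it :: w' → lf' = (decide (it.h.cmp = .eq) && (sumOf it.N it.val).N0) := by
  induction w with
  | nil => exact ⟨lf, Beh.nil, fun it w' h => by simp at h⟩
  | cons it w ih =>
    obtain ⟨lf', h1, -⟩ := ih (fun i hi => h i (by simp [hi]))
    have h2 := h it (by simp)
    refine ⟨(decide (it.h.cmp = .eq) && (sumOf it.N it.val).N0), ?_, ?_⟩
    · have hA : (mGrow a).A (GQ.X cB b lf' oth) it.h (sumOf it.N it.val) =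
          (GQ.X cB b (decide (it.h.cmp = .eq) && (sumOf it.N it.val).N0) oth, it.h, 0) := by
        simp only [mGrow, h2]
      have hB : (mGrow a).B (GP.X cB b') it.h (sumOf it.N it.val) 0 =
          (GP.X cB b', it.h, .id, false) := by
        simp only [mGrow, h2]
      have := Beh.cons (M := mGrow a) hA hB (by simp) h1
      simpa [Op.app, Op.wt] using this
    · intro it' w' h3
      simp only [List.cons.injEq] at h3
      rw [h3.1]

theorem beh_block (o : BT) (ho : o ≠ .nil) (cB b lf oth : Bool) (b' : Bool) :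
    (mGrow a).Beh (encS o none) (GQ.X cB b lf oth) (GQ.X cB b (decide (ht o = 1)) oth)
      (GP.X cB b') (GP.X cB b') (encS o none) 0 := by
  obtain ⟨lf', h1, h2⟩ := beh_X a (encS o none) (encS_cl _ _) cB b lf oth b'
  have : lf' = decide (ht o = 1) := by
    cases o with
    | nil => exact absurd rfl ho
    | node s l r =>
      have h3 : (decide (cmpN (ht l) (ht r) = .eq) && decide (min (ht l) (ht r) = 0)) =
          decide (ht (.node s l r) = 1) := by
        by_cases h4 : ht l = 0 ∧ ht r = 0
        · obtain ⟨h5, h6⟩ := h4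
          have h7 : ht (.node s l r) = 1 := by simp only [ht, h5, h6]; rfl
          rw [h5, h6, h7]
          rfl
        · have h7 : ht (.node s l r) ≠ 1 := by
            simp only [ht]
            omega
          rw [decide_eq_false h7]
          by_cases h8 : ht l = ht r
          · have h9 : min (ht l) (ht r) ≠ 0 := by omega
            rw [decide_eq_false h9, Bool.and_false]
          · have h9 : cmpN (ht l) (ht r) ≠ .eq := fun hh => h8 (cmpN_eq_eq_iff.mp hh)
            rw [decide_eq_false h9, Bool.false_and]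
      rw [← h3]
      simp only [encS] at h2
      split_ifs at h2
      · rw [h2 _ _ rfl]
        simp [clItem, sumOf]
      · rw [h2 _ _ rfl]
        simp [clItem, sumOf]
  rw [this] at h1
  exact h1

theorem cmp_new {n : ℕ} (h : n ≠ 0) :
    (bif decide (n = 1) then Cmp.eq else Cmp.lt) = cmpN 1 n := by
  by_cases h1 : n = 1
  · subst h1; rfl
  · simp only [h1, decide_false, cond_false]
    rw [cmpN_lt (by omega)]

theorem cmp_new' {n : ℕ} (h : n ≠ 0) :
    (bif decide (n = 1) then Cmp.eq else Cmp.gt) = cmpN n 1 := by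
  by_cases h1 : n = 1
  · subst h1; rfl
  · simp only [h1, decide_false, cond_false]
    rw [cmpN_gt (by omega)]

theorem ht_ne {o : BT} (ho : o ≠ .nil) : ht o ≠ 0 := by
  cases o with
  | nil => exact absurd rfl ho
  | node s l r => simp only [ht]; omega

theorem beh_focA_false (s : Bool) (o : BT) (ho : o ≠ .nil) (zc : Fin 3) (b : Bool) :
    (mGrow false).Beh (foc s .nil o) (GQ.R zc b) (GQ.A (decide (ht o = 1)))
      (GP.L false (decide (ht o = 1)) false) GP.S (foc s (.node false .nil .nil) o) 9 := by
  have hn := ht_ne ho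
  have e1 : min 0 (ht o) = 0 := by omega
  have e2 : min 1 (ht o) = 1 := by omega
  have e3 : cmpN 0 (ht o) = .lt := cmpN_lt (by omega)
  have b3 : (mGrow false).Beh [cuItem .c3 s .lt 0 0] (GQ.R zc b) (GQ.X false b false false)
      (GP.X false (decide (ht o = 1))) GP.S [cuItem .c3 s (cmpN 1 (ht o)) 1 0] 1 := by
    have := Beh.single (M := mGrow false) (it := cuItem .c3 s .lt 0 0) (q := GQ.R zc b)
      (q' := GQ.X false b false false) (p := GP.X false (decide (ht o = 1))) (p' := GP.S)
      (h' := (cuItem .c3 s .lt 0 0).h) (h'' := (cuItem .c3 s (cmpN 1 (ht o)) 1 0).h)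
      (ann := 0) (op := .grow) rfl (by
        simp only [mGrow, cuItem, cond_false, ← cmp_new hn]
        simp) (by simp)
    simpa [Op.app, Op.wt, cuItem] using this
  have b2 : (mGrow false).Beh [cuItem .c2 s .lt 0 0] (GQ.X false b (decide (ht o = 1)) false)
      (GQ.X false b (decide (ht o = 1)) (decide (ht o = 1)))
      (GP.X false (decide (ht o = 1))) (GP.X false (decide (ht o = 1)))
      (leafItems ++ [cuItem .c2 s (cmpN 1 (ht o)) 1 0]) 7 := by
    have := beh_ins (M := mGrow false) (it := cuItem .c2 s .lt 0 0)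
      (q := GQ.X false b (decide (ht o = 1)) false)
      (q' := GQ.X false b (decide (ht o = 1)) (decide (ht o = 1)))
      (p := GP.X false (decide (ht o = 1))) (p' := GP.X false (decide (ht o = 1)))
      (h' := (cuItem .c2 s .lt 0 0).h) (h'' := (cuItem .c2 s (cmpN 1 (ht o)) 1 0).h)
      (ann := 0) (op := .grow) rfl (by
        simp only [mGrow, cuItem, cond_false, ← cmp_new hn]
        simp) (by simp)
    simpa [Op.app, Op.wt, cuItem] using this
  have b1 : (mGrow false).Beh [cuItem .c1 s .lt 0 0]
      (GQ.X false b (decide (ht o = 1)) (decide (ht o = 1))) (GQ.A (decide (ht o = 1)))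
      (GP.L false (decide (ht o = 1)) false) (GP.X false (decide (ht o = 1)))
      [cuItem .c1 s (cmpN 1 (ht o)) 1 0] 1 := by
    have := Beh.single (M := mGrow false) (it := cuItem .c1 s .lt 0 0)
      (q := GQ.X false b (decide (ht o = 1)) (decide (ht o = 1)))
      (q' := GQ.A (decide (ht o = 1)))
      (p := GP.L false (decide (ht o = 1)) false) (p' := GP.X false (decide (ht o = 1)))
      (h' := (cuItem .c1 s .lt 0 0).h) (h'' := (cuItem .c1 s (cmpN 1 (ht o)) 1 0).h)
      (ann := 0) (op := .grow) rfl (by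
        simp only [mGrow, cuItem, cond_false, ← cmp_new hn]
        simp) (by simp)
    simpa [Op.app, Op.wt, cuItem] using this
  have h := Beh.append b1 (Beh.append b2
    (Beh.append (beh_block false o ho false b false false (decide (ht o = 1))) b3))
  have f1 : foc s .nil o = [cuItem .c1 s .lt 0 0] ++ ([cuItem .c2 s .lt 0 0] ++
      (encS o none ++ [cuItem .c3 s .lt 0 0])) := by
    simp only [foc, focG, ht, e1, e3]
    rfl
  have f2 : foc s (.node false .nil .nil) o = [cuItem .c1 s (cmpN 1 (ht o)) 1 0] ++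
      ((leafItems ++ [cuItem .c2 s (cmpN 1 (ht o)) 1 0]) ++
      (encS o none ++ [cuItem .c3 s (cmpN 1 (ht o)) 1 0])) := by
    have e4 : ht (.node false .nil .nil) = 1 := rfl
    simp only [foc, focG, e4, e2, encS_leaf]
    simp
  rw [f1, f2]
  exact h

theorem beh_focA_true (s : Bool) (o : BT) (ho : o ≠ .nil) (zc : Fin 3) (b : Bool) :
    (mGrow true).Beh (foc s o .nil) (GQ.R zc b) (GQ.A (decide (ht o = 1)))
      (GP.L false (decide (ht o = 1)) false) GP.S (foc s o (.node false .nil .nil)) 9 := by
  have hn := ht_ne ho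
  have e1 : min (ht o) 0 = 0 := by omega
  have e2 : min (ht o) 1 = 1 := by omega
  have e3 : cmpN (ht o) 0 = .gt := cmpN_gt (by omega)
  have b3 : (mGrow true).Beh [cuItem .c3 s .gt 0 0] (GQ.R zc b) (GQ.X false b false false)
      (GP.X false (decide (ht o = 1))) GP.S (leafItems ++ [cuItem .c3 s (cmpN (ht o) 1) 1 0]) 7 := by
    have := beh_ins (M := mGrow true) (it := cuItem .c3 s .gt 0 0) (q := GQ.R zc b)
      (q' := GQ.X false b false false) (p := GP.X false (decide (ht o = 1))) (p' := GP.S)
      (h' := (cuItem .c3 s .gt 0 0).h) (h'' := (cuItem .c3 s (cmpN (ht o) 1) 1 0).h)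
      (ann := 0) (op := .grow) rfl (by
        simp only [mGrow, cuItem, cond_false, cond_true, ← cmp_new' hn]
        simp) (by simp)
    simpa [Op.app, Op.wt, cuItem] using this
  have b2 : (mGrow true).Beh [cuItem .c2 s .gt 0 0] (GQ.X false b false false)
      (GQ.X false b false false)
      (GP.X false (decide (ht o = 1))) (GP.X false (decide (ht o = 1)))
      [cuItem .c2 s (cmpN (ht o) 1) 1 0] 1 := by
    have := Beh.single (M := mGrow true) (it := cuItem .c2 s .gt 0 0)
      (q := GQ.X false b false false)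
      (q' := GQ.X false b false false)
      (p := GP.X false (decide (ht o = 1))) (p' := GP.X false (decide (ht o = 1)))
      (h' := (cuItem .c2 s .gt 0 0).h) (h'' := (cuItem .c2 s (cmpN (ht o) 1) 1 0).h)
      (ann := 0) (op := .grow) rfl (by
        simp only [mGrow, cuItem, cond_false, cond_true, ← cmp_new' hn]
        simp) (by simp)
    simpa [Op.app, Op.wt, cuItem] using this
  have b1 : (mGrow true).Beh [cuItem .c1 s .gt 0 0]
      (GQ.X false b (decide (ht o = 1)) false) (GQ.A (decide (ht o = 1)))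
      (GP.L false (decide (ht o = 1)) false) (GP.X false (decide (ht o = 1)))
      [cuItem .c1 s (cmpN (ht o) 1) 1 0] 1 := by
    have := Beh.single (M := mGrow true) (it := cuItem .c1 s .gt 0 0)
      (q := GQ.X false b (decide (ht o = 1)) false)
      (q' := GQ.A (decide (ht o = 1)))
      (p := GP.L false (decide (ht o = 1)) false) (p' := GP.X false (decide (ht o = 1)))
      (h' := (cuItem .c1 s .gt 0 0).h) (h'' := (cuItem .c1 s (cmpN (ht o) 1) 1 0).h)
      (ann := 0) (op := .grow) rfl (by
        simp only [mGrow, cuItem, cond_false, cond_true, ← cmp_new' hn]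
        simp) (by simp)
    simpa [Op.app, Op.wt, cuItem] using this
  have h := Beh.append b1 (Beh.append (beh_block true o ho false b false false (decide (ht o = 1)))
    (Beh.append b2 b3))
  have f1 : foc s o .nil = [cuItem .c1 s .gt 0 0] ++ (encS o none ++ ([cuItem .c2 s .gt 0 0] ++
      [cuItem .c3 s .gt 0 0])) := by
    simp only [foc, focG, ht, e1, e3]
    rfl
  have f2 : foc s o (.node false .nil .nil) = [cuItem .c1 s (cmpN (ht o) 1) 1 0] ++
      (encS o none ++ ([cuItem .c2 s (cmpN (ht o) 1) 1 0] ++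
      (leafItems ++ [cuItem .c3 s (cmpN (ht o) 1) 1 0]))) := by
    have e4 : ht (.node false .nil .nil) = 1 := rfl
    simp only [foc, focG, e4, e2, encS_leaf]
    simp
  rw [f1, f2]
  exact h

theorem beh_focB_false (s : Bool) (zc : Fin 3) (b b' : Bool) :
    (mGrow false).Beh (foc s .nil .nil) (GQ.R zc b) (GQ.L b)
      (GP.L true b' false) (GP.Rt b') (foc s (.node false .nil .nil) .nil) 6 := by
  refine ⟨rfl, ?_⟩
  rfl

theorem beh_focB_true (s : Bool) (zc : Fin 3) (b b' : Bool) :
    (mGrow true).Beh (foc s .nil .nil) (GQ.R zc b) (GQ.L b)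
      (GP.L true b' false) (GP.Rt b') (foc s .nil (.node false .nil .nil)) 6 := by
  refine ⟨rfl, ?_⟩
  rfl

end Grow

open Grow Mach in
theorem runs_grow (a : Bool) (c : List Fr) (s : Bool) (o : BT) :
    ∃ k ≤ 12, (mGrow a).Runs (bif a then W c s o .nil else W c s .nil o)
      (bif a then W c s o (.node false .nil .nil) else W c s (.node false .nil .nil) o) k := by
  by_cases ho : o = .nil
  · subst ho
    have hw := w_le c 0
    obtain ⟨zc', p', h2⟩ := beh_Rp a c 1 0 c.length
    obtain ⟨q', h3, h4⟩ := beh_LpG a c 1 0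
    cases a
    · simp only [cond_false]
      refine ⟨wL c 0 + (6 + wR c 0), by omega, ?_⟩
      have := Beh.append h4 (Beh.append (beh_focB_false s zc' (bR c 0) (bS c 0)) h2)
      rw [← h3] at this
      exact Beh.runs this
    · simp only [cond_true]
      refine ⟨wL c 0 + (6 + wR c 0), by omega, ?_⟩
      have := Beh.append h4 (Beh.append (beh_focB_true s zc' (bR c 0) (bS c 0)) h2)
      rw [← h3] at this
      exact Beh.runs this
  · have hn := ht_ne ho
    refine ⟨0 + (9 + 0), by norm_num, ?_⟩
    have e4 : ht (.node false .nil .nil) = 1 := rfl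
    have e0 : ht .nil = 0 := rfl
    cases a
    · simp only [cond_false, W, WG, e4, e0]
      rw [show 1 + max 0 (ht o) = 1 + ht o by omega, show 1 + max 1 (ht o) = 1 + ht o by omega]
      obtain ⟨zc', b', h3⟩ := beh_right false (RpG c 1 1 0 (1 + ht o) ++ [zeItem c.length])
        (Rp_noCu _ _ _ _ _ _) 0 false
      have h4 := beh_A false (LpG c 1 1 0 (1 + ht o)) (LpG_noCu _ _ _ _ _) (decide (ht o = 1))
        false (decide (ht o = 1))
      exact Beh.runs (Beh.append h4 (Beh.append (beh_focA_false s o ho zc' b') h3))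
    · simp only [cond_true, W, WG, e4, e0]
      rw [show 1 + max (ht o) 0 = 1 + ht o by omega, show 1 + max (ht o) 1 = 1 + ht o by omega]
      obtain ⟨zc', b', h3⟩ := beh_right true (RpG c 1 1 0 (1 + ht o) ++ [zeItem c.length])
        (Rp_noCu _ _ _ _ _ _) 0 false
      have h4 := beh_A true (LpG c 1 1 0 (1 + ht o)) (LpG_noCu _ _ _ _ _) (decide (ht o = 1))
        false (decide (ht o = 1))
      exact Beh.runs (Beh.append h4 (Beh.append (beh_focA_true s o ho zc' b') h3))

end Pool.Agent.W_MP_1173fd_al
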