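import Pool.Agent.W_MP_1173fd_al.Words

/-!
# Behaviour of machines on parts of words
-/

namespace Pool.Agent.W_MP_1173fd_al

namespace Mach

variable (M : Mach)

theorem rls_append (u v : List Item) (q : M.Q) : M.rls (u ++ v) q = M.rls u (M.rls v q) := by
  induction u with
  | nil => rfl
  | cons a u ih => simp [rls, ih]

theorem lrs_append (u v : List Item) (q : M.Q) (p : M.P) :
    M.lrs (u ++ v) q p = ((M.lrs v q (M.lrs u (M.rls v q) p).1).1,
      (M.lrs u (M.rls v q) p).2.1 ++ (M.lrs v q (M.lrs u (M.rls v q) p).1).2.1,
      (M.lrs u (M.rls v q) p).2.2 + (M.lrs v q (M.lrs u (M.rls v q) p).1).2.2) := by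
  induction u generalizing p with
  | nil => simp [lrs]
  | cons a u ih => simp [lrs, ih, rls_append, Nat.add_assoc]

/-- The right-to-left scan enters `w` (from the right) in state `q` and leaves it in state `q'`;
then the left-to-right scan enters `w` (from the left) in state `p` and leaves it in state `p'`;
the output is `out`, the weight is `k`. -/
def Beh (w : List Item) (q q' : M.Q) (p p' : M.P) (out : List Item) (k : ℕ) : Prop :=
  M.rls w q = q' ∧ M.lrs w q p = (p', out, k)

variable {M}

theorem Beh.runs {w out : List Item} {q' : M.Q} {p' : M.P} {k : ℕ}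
    (h : M.Beh w M.q0 q' (M.ι q') p' out k) : M.Runs w out k := by
  obtain ⟨h1, h2⟩ := h
  unfold Runs
  rw [h1, h2]

theorem Beh.nil {q : M.Q} {p : M.P} : M.Beh [] q q p p [] 0 := ⟨rfl, rfl⟩

theorem Beh.append {u v o1 o2 : List Item} {q0 q1 q2 : M.Q} {p0 p1 p2 : M.P} {k1 k2 : ℕ}
    (hu : M.Beh u q1 q2 p0 p1 o1 k1) (hv : M.Beh v q0 q1 p1 p2 o2 k2) :
    M.Beh (u ++ v) q0 q2 p0 p2 (o1 ++ o2) (k1 + k2) := by
  obtain ⟨h1, h2⟩ := hu
  obtain ⟨h3, h4⟩ := hv
  refine ⟨by rw [rls_append, h3, h1], ?_⟩
  rw [lrs_append, h3, h2]
  simp only [h4]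

/-- One item. -/
theorem Beh.single {q q' : M.Q} {p p' : M.P} {it : Item} {h' h'' : Hdr} {ann : Ann} {op : Op}
    (hA : M.A q it.h (sumOf it.N it.val) = (q', h', ann))
    (hB : M.B p h' (sumOf it.N it.val) ann = (p', h'', op, false)) (hop : op ≠ .del) :
    M.Beh [it] q q' p p' [⟨h'', (op.app it.N it.val).1, (op.app it.N it.val).2⟩] (op.wt it.N) := by
  refine ⟨by simp [rls, stepA, hA], ?_⟩
  simp [lrs, rls, stepB, stepA, hA, hB, outItem, outWt, hop]

/-- One item, followed by a word. -/
theorem Beh.cons {q0 q q' : M.Q} {p p' p2 : M.P} {it : Item} {h' h'' : Hdr} {ann : Ann} {op : Op}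
    {v o : List Item} {k : ℕ}
    (hA : M.A q it.h (sumOf it.N it.val) = (q', h', ann))
    (hB : M.B p h' (sumOf it.N it.val) ann = (p', h'', op, false)) (hop : op ≠ .del)
    (hv : M.Beh v q0 q p' p2 o k) :
    M.Beh (it :: v) q0 q' p p2 (⟨h'', (op.app it.N it.val).1, (op.app it.N it.val).2⟩ :: o)
      (op.wt it.N + k) :=
  Beh.append (u := [it]) (Beh.single hA hB hop) hv

/-- Nothing happens on the items of `w`. -/
theorem Beh.fix {q : M.Q} {p : M.P} {w : List Item}
    (h : ∀ it ∈ w, M.A q it.h (sumOf it.N it.val) = (q, it.h, 0) ∧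
      M.B p it.h (sumOf it.N it.val) 0 = (p, it.h, .id, false)) : M.Beh w q q p p w 0 := by
  induction w with
  | nil => exact Beh.nil
  | cons a w ih =>
    have h1 := h a (by simp)
    have h2 := ih (fun it hit => h it (by simp [hit]))
    have := Beh.cons (op := .id) h1.1 h1.2 (by simp) h2
    simpa [Op.app, Op.wt] using this

/-- Left-to-right Mealy runs without insertions and deletions. -/
theorem Beh.mealy {S : Type} (φ : S → M.P) (f : S → Item → S × Item) {q : M.Q} {w : List Item}
    (h : ∀ it ∈ w, ∀ s, M.A q it.h (sumOf it.N it.val) = (q, it.h, 0) ∧ ∃ h' op, op.wt it.N = 0 ∧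
      op ≠ .del ∧ M.B (φ s) it.h (sumOf it.N it.val) 0 = (φ (f s it).1, h', op, false) ∧
      (f s it).2 = ⟨h', (op.app it.N it.val).1, (op.app it.N it.val).2⟩) (s : S) :
    M.Beh w q q (φ s) (φ (mealy f s w).1) (mealy f s w).2 0 := by
  induction w generalizing s with
  | nil => exact Beh.nil
  | cons a w ih =>
    obtain ⟨h1, h', op, h2, h3, h4, h5⟩ := h a (by simp) s
    have h6 := ih (fun it hit => h it (by simp [hit])) (f s a).1
    have := Beh.cons h1 h4 h3 h6
    rw [h2] at this
    simpa [W_MP_1173fd_al.mealy, h5] using this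

/-- Right-to-left Mealy runs. -/
theorem Beh.rmealy {S : Type} (φ : S → M.Q) (f : S → Item → S × Item) {p : M.P} {w : List Item}
    (h : ∀ it ∈ w, ∀ s, ∃ h', M.A (φ s) it.h (sumOf it.N it.val) = (φ (f s it).1, h', 0) ∧
      M.B p h' (sumOf it.N it.val) 0 = (p, h', .id, false) ∧ (f s it).2 = ⟨h', it.N, it.val⟩)
    (s : S) :
    M.Beh w (φ s) (φ (rmealy f s w).1) p p (rmealy f s w).2 0 := by
  induction w generalizing s with
  | nil => exact Beh.nil
  | cons a w ih =>
    have h6 := ih (fun it hit => h it (by simp [hit])) s
    obtain ⟨h', h1, h2, h3⟩ := h a (by simp) (W_MP_1173fd_al.rmealy f s w).1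
    have := Beh.cons (op := .id) h1 h2 (by simp) h6
    simpa [W_MP_1173fd_al.rmealy, h3, Op.app, Op.wt] using this

end Mach

/-! ## Items of blocks -/

/-- Closed items, with properties used everywhere. -/
def ClWord (w : List Item) : Prop := ∀ it ∈ w, it.h.kind = .cl

theorem enc_cl (t : BT) (b : Bool) (n : ℕ) : ClWord (enc t b n) := by
  induction t generalizing b n with
  | nil => intro it h; simp [enc] at h
  | node s l r ihl ihr =>
    intro it h
    simp only [enc] at h
    split_ifs at h <;> simp only [List.mem_cons, List.mem_append, List.mem_nil_iff, or_false] at h <;>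
      rcases h with rfl | h | rfl | h | rfl <;> first
        | rfl
        | exact ihl _ _ it h
        | exact ihr _ _ it h

theorem encS_cl (t : BT) (k : Option ℕ) : ClWord (encS t k) := by
  induction t generalizing k with
  | nil => intro it h; simp [encS] at h
  | node s l r ihl ihr =>
    intro it h
    simp only [encS] at h
    split_ifs at h <;> simp only [List.mem_cons, List.mem_append, List.mem_nil_iff, or_false] at h <;>
      rcases h with rfl | h | rfl | h | rfl <;> first
        | rfl
        | exact ihl _ it h
        | exact ihr _ it h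
        | exact enc_cl _ _ _ it h

/-- No pointers in `enc`. -/
theorem enc_ptr (t : BT) (b : Bool) (n : ℕ) : ∀ it ∈ enc t b n, it.h.ptr = false := by
  induction t generalizing b n with
  | nil => intro it h; simp [enc] at h
  | node s l r ihl ihr =>
    intro it h
    simp only [enc] at h
    split_ifs at h <;> simp only [List.mem_cons, List.mem_append, List.mem_nil_iff, or_false] at h <;>
      rcases h with rfl | h | rfl | h | rfl <;> first
        | rfl
        | exact ihl _ _ it h
        | exact ihr _ _ it h

theorem encS_none_ptr (t : BT) : ∀ it ∈ encS t none, it.h.ptr = false := by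
  rw [encS_none]; exact enc_ptr t true 0

/-! ## Pointers -/

/-- Pointer moves on items. -/
def ptrF (pend : Bool) (it : Item) : Bool × Item :=
  ((ptrG pend it.h (sumOf it.N it.val)).1, ⟨(ptrG pend it.h (sumOf it.N it.val)).2, it.N, it.val⟩)

theorem ptrF_noZ (b : Bool) (it : Item) (h1 : it.h.ptr = false)
    (h2 : ¬ (it.h.aw = true ∧ it.val = 0)) : ptrF b it = (b, it) := by
  have h3 : (it.h.aw && decide (it.val = 0)) = false := by
    rw [Bool.eq_false_iff]
    intro hh
    apply h2
    simpa using hh
  simp [ptrF, ptrG, z1, h1, sumOf, h3]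

theorem ptrF_false (it : Item) (h1 : it.h.ptr = false) : ptrF false it = (false, it) := by
  simp [ptrF, ptrG, h1]

theorem mealy_ptr_noZ (b : Bool) (w : List Item) (h : NoZ w) : mealy ptrF b w = (b, w) :=
  mealy_fix _ _ _ fun it hit => ptrF_noZ b it (h it hit).2.1 (h it hit).2.2

theorem rmealy_ptr_noZ (b : Bool) (w : List Item) (h : NoZ w) : rmealy ptrF b w = (b, w) :=
  rmealy_fix _ _ _ fun it hit => ptrF_noZ b it (h it hit).2.1 (h it hit).2.2

theorem mealy_ptr_false (w : List Item) (h : ∀ it ∈ w, it.h.ptr = false) :
    mealy ptrF false w = (false, w) :=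
  mealy_fix _ _ _ fun it hit => ptrF_false it (h it hit)

theorem rmealy_ptr_false (w : List Item) (h : ∀ it ∈ w, it.h.ptr = false) :
    rmealy ptrF false w = (false, w) :=
  rmealy_fix _ _ _ fun it hit => ptrF_false it (h it hit)

/-- The pointer is put on the root. -/
theorem mealy_ptr_none (t : BT) :
    mealy ptrF true (encS t none) = (decide (t = .nil), encS t (some 0)) := by
  cases t with
  | nil => rfl
  | node s l r =>
    have e1 : mealy ptrF true (enc l true 1) = (true, enc l true 1) :=
      mealy_ptr_noZ _ _ (enc_noZ _ _ _ (by simp))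
    have f1 : mealy ptrF false (enc l true 1) = (false, enc l true 1) :=
      mealy_ptr_noZ _ _ (enc_noZ _ _ _ (by simp))
    have f2 : mealy ptrF false (enc r true 1) = (false, enc r true 1) :=
      mealy_ptr_noZ _ _ (enc_noZ _ _ _ (by simp))
    have f3 : mealy ptrF false (encS l none) = (false, encS l none) :=
      mealy_ptr_false _ (encS_none_ptr l)
    have f4 : mealy ptrF false (encS r none) = (false, encS r none) :=
      mealy_ptr_false _ (encS_none_ptr r)
    have g1 : ∀ cm N, ptrF true (clItem .c1 s cm N true 0 false) =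
        (false, clItem .c1 s cm N true 0 true) := by
      intro cm N; simp [ptrF, ptrG, clItem, z1, sumOf]
    have g2 : ∀ c cm N, ptrF false (clItem c s cm N true 0 false) =
        (false, clItem c s cm N true 0 false) := by
      intro c cm N; simp [ptrF, ptrG, clItem]
    simp only [encS, prd]
    split_ifs <;> simp [mealy, mealy_append, f1, f2, f3, f4, g1, g2]

/-- The pointer moves to the next vertex of the heavy path. -/
theorem mealy_ptr_some (t : BT) (k : ℕ) :
    mealy ptrF false (encS t (some k)) = (decide (k + 1 = ht t), encS t (some (k + 1))) := by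
  induction t generalizing k with
  | nil => simp [encS, mealy, ht]
  | node s l r ihl ihr =>
    have e1 : ∀ b, mealy ptrF b (enc l true 1) = (b, enc l true 1) := fun b =>
      mealy_ptr_noZ _ _ (enc_noZ _ _ _ (by simp))
    have e2 : ∀ b, mealy ptrF b (enc r true 1) = (b, enc r true 1) := fun b =>
      mealy_ptr_noZ _ _ (enc_noZ _ _ _ (by simp))
    have g1 : ∀ cm N, ptrF false (clItem .c1 s cm N true 0 true) =
        (true, clItem .c1 s cm N true 0 false) := by
      intro cm N; simp [ptrF, ptrG, clItem]
    have g2 : ∀ c cm N, ptrF false (clItem c s cm N true 0 false) =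
        (false, clItem c s cm N true 0 false) := by
      intro c cm N; simp [ptrF, ptrG, clItem]
    have g3 : ∀ b cm N, ptrF b (clItem .c2 s cm N true 0 false) =
        (b, clItem .c2 s cm N true 0 false) := by
      intro b cm N; simp [ptrF, ptrG, clItem, z1]
    have g4 : ∀ b cm N, ptrF b (clItem .c3 s cm N true 0 false) =
        (b, clItem .c3 s cm N true 0 false) := by
      intro b cm N; simp [ptrF, ptrG, clItem, z1]
    have hnil : ∀ t : BT, t = .nil ↔ ht t = 0 := by
      intro t; cases t <;> simp [ht]
    simp only [encS, ht]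
    rcases k with _ | k
    · split_ifs with h
      · simp only [mealy, mealy_append, decide_true, prd, g1, e1, g3, mealy_ptr_none, g4]
        simp [hnil]
        omega
      · simp only [mealy, mealy_append, decide_true, prd, g1, e2, g3, mealy_ptr_none, g4]
        simp [hnil]
        omega
    · split_ifs with h
      · simp only [mealy, mealy_append, prd]
        simp [g2, e1, ihr, g4]
        omega
      · simp only [mealy, mealy_append, prd]
        simp [g2, e2, g3, ihl, g4]
        omega

/-- The pointer on the root is removed. -/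
theorem rmealy_ptr_zero (t : BT) (ht0 : t ≠ .nil) :
    rmealy ptrF false (encS t (some 0)) = (true, encS t none) := by
  cases t with
  | nil => exact absurd rfl ht0
  | node s l r =>
    have f1 : rmealy ptrF false (enc l true 1) = (false, enc l true 1) :=
      rmealy_ptr_noZ _ _ (enc_noZ _ _ _ (by simp))
    have f2 : rmealy ptrF false (enc r true 1) = (false, enc r true 1) :=
      rmealy_ptr_noZ _ _ (enc_noZ _ _ _ (by simp))
    have f3 : rmealy ptrF false (encS l none) = (false, encS l none) :=
      rmealy_ptr_false _ (encS_none_ptr l)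
    have f4 : rmealy ptrF false (encS r none) = (false, encS r none) :=
      rmealy_ptr_false _ (encS_none_ptr r)
    have g1 : ∀ cm N, ptrF false (clItem .c1 s cm N true 0 true) =
        (true, clItem .c1 s cm N true 0 false) := by
      intro cm N; simp [ptrF, ptrG, clItem]
    have g2 : ∀ c cm N, ptrF false (clItem c s cm N true 0 false) =
        (false, clItem c s cm N true 0 false) := by
      intro c cm N; simp [ptrF, ptrG, clItem]
    simp only [encS, prd]
    split_ifs <;> simp [rmealy, rmealy_append, f1, f2, f3, f4, g1, g2]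

/-- The pointer moves to the previous vertex of the heavy path. -/
theorem rmealy_ptr_succ (t : BT) (k : ℕ) (hk : k + 1 < ht t) :
    rmealy ptrF false (encS t (some (k + 1))) = (false, encS t (some k)) := by
  induction t generalizing k with
  | nil => simp [ht] at hk
  | node s l r ihl ihr =>
    have e1 : ∀ b, rmealy ptrF b (enc l true 1) = (b, enc l true 1) := fun b =>
      rmealy_ptr_noZ _ _ (enc_noZ _ _ _ (by simp))
    have e2 : ∀ b, rmealy ptrF b (enc r true 1) = (b, enc r true 1) := fun b =>
      rmealy_ptr_noZ _ _ (enc_noZ _ _ _ (by simp))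
    have g1 : ∀ cm N, ptrF true (clItem .c1 s cm N true 0 false) =
        (false, clItem .c1 s cm N true 0 true) := by
      intro cm N; simp [ptrF, ptrG, clItem, z1, sumOf]
    have g2 : ∀ c cm N, ptrF false (clItem c s cm N true 0 false) =
        (false, clItem c s cm N true 0 false) := by
      intro c cm N; simp [ptrF, ptrG, clItem]
    have g3 : ∀ b cm N, ptrF b (clItem .c2 s cm N true 0 false) =
        (b, clItem .c2 s cm N true 0 false) := by
      intro b cm N; simp [ptrF, ptrG, clItem, z1]
    simp only [ht] at hk
    simp only [encS]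
    rcases k with _ | k
    · split_ifs with h
      · have hr : r ≠ .nil := by rintro rfl; simp [ht] at h
        simp only [rmealy, rmealy_append, prd]
        simp [g1, g2, g3, e1, rmealy_ptr_zero r hr]
      · have hl : l ≠ .nil := by rintro rfl; simp only [ht] at h hk; omega
        simp only [rmealy, rmealy_append, prd]
        simp [g1, g2, e2, rmealy_ptr_zero l hl]
    · split_ifs with h
      · simp only [rmealy, rmealy_append, prd]
        simp [g2, e1, ihr k (by omega)]
      · simp only [rmealy, rmealy_append, prd]
        simp [g2, e2, ihl k (by omega)]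

end Pool.Agent.W_MP_1173fd_al
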