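import Pool.Agent.W_MP_1173fd_al.States
import Pool.Agent.W_MP_1173fd_al.Run

/-!
# Words of states: injectivity, well-formedness, tests
-/

namespace Pool.Agent.W_MP_1173fd_al

/-! ## Well-formedness -/

theorem enc_wf (t : BT) (b : Bool) (n : ℕ) : Mach.WF (enc t b n) := by
  induction t generalizing b n with
  | nil => intro it h; simp [enc] at h
  | node s l r ihl ihr =>
    intro it h
    simp only [enc] at h
    split_ifs at h <;> simp only [List.mem_cons, List.mem_append, List.mem_nil_iff, or_false] at h <;>
      rcases h with rfl | h | rfl | h | rfl <;> first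
        | exact Nat.mod_lt _ (by positivity)
        | exact ihl _ _ it h
        | exact ihr _ _ it h

theorem encS_wf (t : BT) (k : Option ℕ) : Mach.WF (encS t k) := by
  induction t generalizing k with
  | nil => intro it h; simp [encS] at h
  | node s l r ihl ihr =>
    intro it h
    simp only [encS] at h
    split_ifs at h <;> simp only [List.mem_cons, List.mem_append, List.mem_nil_iff, or_false] at h <;>
      rcases h with rfl | h | rfl | h | rfl <;> first
        | exact Nat.two_pow_pos _
        | exact ihl _ it h
        | exact ihr _ it h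
        | exact enc_wf _ _ _ it h

theorem frItem_wf (f : Fr) (c : Cor) (p v D : ℕ) :
    (frItem f c p v D).val < 2 ^ ((frItem f c p v D).N + 1) :=
  Nat.mod_lt _ (by positivity)

theorem cuItem_wf (c : Cor) (s : Bool) (cm : Cmp) (N v : ℕ) :
    (cuItem c s cm N v).val < 2 ^ ((cuItem c s cm N v).N + 1) :=
  Nat.mod_lt _ (by positivity)

theorem lfr_wf (f : Fr) (p v k D : ℕ) : Mach.WF (lfr f p v k D) := by
  intro it h
  unfold lfr at h
  cases hd : f.dir
  · rw [hd, cond_false, List.mem_singleton] at h
    subst h; exact frItem_wf _ _ _ _ _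
  · rw [hd, cond_true, List.mem_cons, List.mem_append, List.mem_singleton] at h
    rcases h with rfl | h | rfl
    · exact frItem_wf _ _ _ _ _
    · exact encS_wf _ _ it h
    · exact frItem_wf _ _ _ _ _

theorem rfr_wf (f : Fr) (p v k D : ℕ) : Mach.WF (rfr f p v k D) := by
  intro it h
  unfold rfr at h
  cases hd : f.dir
  · rw [hd, cond_false, List.mem_cons, List.mem_append, List.mem_singleton] at h
    rcases h with rfl | h | rfl
    · exact frItem_wf _ _ _ _ _
    · exact encS_wf _ _ it h
    · exact frItem_wf _ _ _ _ _
  · rw [hd, cond_true, List.mem_singleton] at h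
    subst h; exact frItem_wf _ _ _ _ _

theorem LpG_wf (c : List Fr) (p v k D : ℕ) : Mach.WF (LpG c p v k D) := by
  induction c generalizing p v k D with
  | nil => intro it h; simp [LpG] at h
  | cons f c ih =>
    intro it h
    rw [LpG, List.mem_append] at h
    rcases h with h | h
    · exact ih _ _ _ _ it h
    · exact lfr_wf _ _ _ _ _ it h

theorem RpG_wf (c : List Fr) (p v k D : ℕ) : Mach.WF (RpG c p v k D) := by
  induction c generalizing p v k D with
  | nil => intro it h; simp [RpG] at h
  | cons f c ih =>
    intro it h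
    rw [RpG, List.mem_append] at h
    rcases h with h | h
    · exact rfr_wf _ _ _ _ _ it h
    · exact ih _ _ _ _ it h

theorem foc_wf (s : Bool) (l r : BT) : Mach.WF (foc s l r) := by
  intro it h
  simp only [foc, focG, List.mem_cons, List.mem_append, List.mem_nil_iff, or_false] at h
  rcases h with rfl | h | rfl | h | rfl
  · exact cuItem_wf _ _ _ _ _
  · exact encS_wf _ _ it h
  · exact cuItem_wf _ _ _ _ _
  · exact encS_wf _ _ it h
  · exact cuItem_wf _ _ _ _ _

theorem word_wf (x : St) : Mach.WF x.word := by
  intro it h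
  simp only [St.word, W, WG, List.mem_append, List.mem_singleton] at h
  rcases h with h | h | h | rfl
  · exact LpG_wf _ _ _ _ _ it h
  · exact foc_wf _ _ _ it h
  · exact RpG_wf _ _ _ _ _ it h
  · exact Nat.lt_pow_succ_log_self (by norm_num) _

/-! ## Directions -/

/-- Direction announced by a header: spine items with corner `c3`. -/
def dirOut (h : Hdr) : List Bool :=
  match h.kind, h.cor with
  | .sp d, .c3 => [d]
  | _, _ => []

/-- Directions announced by a word. -/
def dirs (w : List Item) : List Bool := w.flatMap fun it => dirOut it.h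

theorem dirs_append (u v : List Item) : dirs (u ++ v) = dirs u ++ dirs v := by
  simp [dirs, List.flatMap_append]

theorem dirs_cons (it : Item) (v : List Item) : dirs (it :: v) = dirOut it.h ++ dirs v := by
  simp [dirs]

theorem dirs_nil : dirs [] = [] := rfl

theorem dirs_cl (w : List Item) (h : ClWord w) : dirs w = [] := by
  induction w with
  | nil => rfl
  | cons it w ih =>
    rw [dirs_cons, ih fun i hi => h i (by simp [hi])]
    have := h it (by simp)
    simp [dirOut, this]

theorem dirs_side (f : Fr) (k D : ℕ) : dirs (side f k D) = [] := dirs_cl _ (encS_cl _ _)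

theorem dirs_lfr (f : Fr) (p v k D : ℕ) : dirs (lfr f p v k D) = [] := by
  unfold lfr
  cases hd : f.dir <;>
    simp [dirs_cons, dirs_append, dirs_side, dirs_nil, dirOut, frItem, spItem]

theorem dirs_rfr (f : Fr) (p v k D : ℕ) : dirs (rfr f p v k D) = [f.dir] := by
  unfold rfr
  cases hd : f.dir <;>
    simp [dirs_cons, dirs_append, dirs_side, dirs_nil, dirOut, frItem, spItem, hd]

theorem dirs_LpG (c : List Fr) (p v k D : ℕ) : dirs (LpG c p v k D) = [] := by
  induction c generalizing p v k D with
  | nil => rfl
  | cons f c ih => simp [LpG, dirs_append, ih, dirs_lfr]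

theorem dirs_RpG (c : List Fr) (p v k D : ℕ) : dirs (RpG c p v k D) = c.map Fr.dir := by
  induction c generalizing p v k D with
  | nil => rfl
  | cons f c ih => simp [RpG, dirs_append, ih, dirs_rfr]

theorem dirs_foc (s : Bool) (l r : BT) : dirs (foc s l r) = [] := by
  simp [foc, focG, dirs_cons, dirs_append, dirs_nil, dirs_cl _ (encS_cl _ _), dirOut, cuItem]

theorem dirs_word (x : St) : dirs x.word = x.c.map Fr.dir := by
  simp [St.word, W, WG, dirs_append, dirs_cons, dirs_nil, dirs_LpG, dirs_RpG, dirs_foc, dirOut,
    zeItem]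

/-! ## Injectivity -/

/-- The contour word of a tree. -/
def sk : BT → List (Cor × Bool)
  | .nil => []
  | .node s l r => (.c1, s) :: (sk l ++ (.c2, s) :: (sk r ++ [(.c3, s)]))

/-- Corner and lamp of an item. -/
def prj (it : Item) : Cor × Bool := (it.h.cor, it.h.lamp)

theorem enc_sk (t : BT) (b : Bool) (n : ℕ) : (enc t b n).map prj = sk t := by
  induction t generalizing b n with
  | nil => rfl
  | node s l r ihl ihr =>
    simp only [enc, sk]
    split_ifs <;> simp [ihl, ihr, prj, clItem]

theorem encS_sk (t : BT) (k : Option ℕ) : (encS t k).map prj = sk t := by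
  induction t generalizing k with
  | nil => rfl
  | node s l r ihl ihr =>
    simp only [encS, sk]
    split_ifs <;> simp [ihl, ihr, prj, clItem, enc_sk]

/-- Put a tree into a context. -/
def plug : List Fr → BT → BT
  | [], t => t
  | f :: c, t => plug c (bif f.dir then .node f.s f.w t else .node f.s t f.w)

theorem fr_sk (f : Fr) (p v k D : ℕ) (t : BT) :
    (lfr f p v k D).map prj ++ (sk t ++ (rfr f p v k D).map prj) =
      sk (bif f.dir then .node f.s f.w t else .node f.s t f.w) := by
  unfold lfr rfr
  cases hd : f.dir <;> simp [sk, side, encS_sk, prj, frItem, spItem]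

theorem ctx_sk (c : List Fr) (p v k D : ℕ) (t : BT) :
    (LpG c p v k D).map prj ++ (sk t ++ (RpG c p v k D).map prj) = sk (plug c t) := by
  induction c generalizing p v k D t with
  | nil => simp [LpG, RpG, plug]
  | cons f c ih =>
    rw [plug, ← ih (p + 1) (v + 1) (k + 1) (up1 f D), ← fr_sk f p v k D t]
    simp [LpG, RpG, List.append_assoc]

theorem foc_sk (s : Bool) (l r : BT) : (foc s l r).map prj = sk (.node s l r) := by
  simp [foc, focG, sk, encS_sk, prj, cuItem]

theorem word_sk (x : St) :
    x.word.map prj = sk (plug x.c (.node x.s x.l x.r)) ++ [(Cor.c3, false)] := by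
  rw [← ctx_sk x.c 1 1 0 (1 + max (ht x.l) (ht x.r))]
  simp [St.word, W, WG, foc_sk, prj, zeItem, List.append_assoc]

/-- The word does not start with a first corner. -/
def NoC1 (u : List (Cor × Bool)) : Prop := ∀ a v, u = a :: v → a.1 ≠ .c1

theorem sk_inj (t t' : BT) (u v : List (Cor × Bool)) (hu : NoC1 u) (hv : NoC1 v)
    (h : sk t ++ u = sk t' ++ v) : t = t' ∧ u = v := by
  induction t generalizing t' u v with
  | nil =>
    cases t' with
    | nil => exact ⟨rfl, by simpa [sk] using h⟩
    | node s l r =>
      simp only [sk, List.nil_append, List.cons_append] at h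
      exact absurd rfl (hu _ _ h)
  | node s l r ihl ihr =>
    cases t' with
    | nil =>
      simp only [sk, List.nil_append, List.cons_append] at h
      exact absurd rfl (hv _ _ h.symm)
    | node s' l' r' =>
      simp only [sk, List.cons_append, List.append_assoc, List.cons.injEq, Prod.mk.injEq,
        true_and] at h
      obtain ⟨rfl, h⟩ := h
      have n2 : ∀ w, NoC1 ((Cor.c2, s) :: w) := by
        rintro w a b h; simp only [List.cons.injEq] at h; rw [← h.1]; simp
      have n3 : ∀ w, NoC1 ((Cor.c3, s) :: w) := by
        rintro w a b h; simp only [List.cons.injEq] at h; rw [← h.1]; simp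
      obtain ⟨h1, h2⟩ := ihl _ _ _ (n2 _) (n2 _) h
      obtain ⟨h3, h4⟩ := ihr _ _ _ (n3 _) (n3 _) (List.cons.inj h2).2
      exact ⟨by rw [h1, h3], (List.cons.inj h4).2⟩

theorem plug_inj (c c' : List Fr) (t t' : BT) (hd : c.map Fr.dir = c'.map Fr.dir)
    (h : plug c t = plug c' t') : c = c' ∧ t = t' := by
  induction c generalizing c' t t' with
  | nil =>
    cases c' with
    | nil => exact ⟨rfl, h⟩
    | cons f' c' => simp at hd
  | cons f c ih =>
    cases c' with
    | nil => simp at hd
    | cons f' c' =>
      simp only [List.map_cons, List.cons.injEq] at hd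
      obtain ⟨h1, h2⟩ := hd
      obtain ⟨rfl, h3⟩ := ih _ _ _ h2 h
      obtain ⟨d, s, w⟩ := f
      obtain ⟨d', s', w'⟩ := f'
      simp only at h1
      subst h1
      cases d <;> simp only [cond_true, cond_false, BT.node.injEq] at h3
      · obtain ⟨rfl, rfl, rfl⟩ := h3; exact ⟨rfl, rfl⟩
      · obtain ⟨rfl, rfl, rfl⟩ := h3; exact ⟨rfl, rfl⟩

theorem word_inj (x y : St) (h : x.word = y.word) : x = y := by
  have h1 : x.c.map Fr.dir = y.c.map Fr.dir := by rw [← dirs_word, ← dirs_word, h]
  have h2 : sk (plug x.c (.node x.s x.l x.r)) ++ [(Cor.c3, false)] =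
      sk (plug y.c (.node y.s y.l y.r)) ++ [(Cor.c3, false)] := by
    rw [← word_sk, ← word_sk, h]
  have h3 := List.append_cancel_right h2
  have n : NoC1 ([] : List (Cor × Bool)) := by rintro a v h; simp at h
  have h4 := (sk_inj (plug x.c (.node x.s x.l x.r)) (plug y.c (.node y.s y.l y.r)) [] [] n n
    (by simpa using h3)).1
  obtain ⟨h5, h6⟩ := plug_inj _ _ _ _ h1 h4
  simp only [BT.node.injEq] at h6
  exact St.ext h5 h6.1 h6.2.1 h6.2.2

/-! ## Tests -/

/-- Automaton remembering the first two directions. -/
def dirStep (s : {l : List Bool // l.length ≤ 2}) (h : Hdr) : {l : List Bool // l.length ≤ 2} :=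
  ⟨(s.1 ++ dirOut h).take 2, by simp⟩

theorem dirStep_foldl (w : List Item) (s : {l : List Bool // l.length ≤ 2}) :
    (w.foldl (fun s it => dirStep s it.h) s).1 = (s.1 ++ dirs w).take 2 := by
  induction w generalizing s with
  | nil => simp [dirs_nil, List.take_of_length_le s.2]
  | cons it w ih =>
    rw [List.foldl_cons, ih, dirs_cons]
    simp only [dirStep]
    rw [← List.append_assoc, List.take_append, List.take_append (l₁ := s.1 ++ dirOut it.h),
      List.take_take, List.length_take]
    congr 2
    omega

theorem exists_dirs : ∃ (σ : Type) (_ : Finite σ) (δ : σ → Hdr → σ) (s₀ : σ)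
    (out : σ → List Bool), ∀ x : St,
      out (x.word.foldl (fun s it => δ s it.h) s₀) = (x.c.map Fr.dir).take 2 :=
  ⟨{l : List Bool // l.length ≤ 2}, (List.finite_length_le Bool 2).to_subtype, dirStep, ⟨[], by simp⟩,
    fun s => s.1, fun x => by
      have := dirStep_foldl x.word ⟨[], by simp⟩
      rwa [dirs_word, List.nil_append] at this⟩

theorem test_dirs (u : List Bool) (_ : u.length ≤ 2) : ∃ (σ : Type) (_ : Finite σ)
    (δ : σ → Hdr → σ) (s₀ : σ) (acc : σ → Bool), ∀ x : St,
      acc (x.word.foldl (fun s it => δ s it.h) s₀) = true ↔ (x.c.map Fr.dir).take 2 = u := by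
  obtain ⟨σ, hσ, δ, s₀, out, h⟩ := exists_dirs
  exact ⟨σ, hσ, δ, s₀, fun s => decide (out s = u), fun x => by rw [decide_eq_true_iff, h]⟩

theorem test_dir (a : Bool) : ∃ (σ : Type) (_ : Finite σ) (δ : σ → Hdr → σ) (s₀ : σ)
    (acc : σ → Bool), ∀ x : St,
      acc (x.word.foldl (fun s it => δ s it.h) s₀) = true ↔ (x.c.map Fr.dir).take 1 = [a] := by
  obtain ⟨σ, hσ, δ, s₀, out, h⟩ := exists_dirs
  refine ⟨σ, hσ, δ, s₀, fun s => decide ((out s).take 1 = [a]), fun x => ?_⟩
  rw [decide_eq_true_iff, h, List.take_take]
  rfl

/-- Automaton remembering the lamp of the cursor and which of its children are missing; the first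
component tells whether the last item was a cursor item. -/
def curStep (q : Option Cor × Bool × Bool × Bool) (h : Hdr) : Option Cor × Bool × Bool × Bool :=
  match h.kind with
  | .cu => (some h.cor, h.lamp, bif decide (h.cor = .c2) then decide (q.1 = some .c1) else q.2.2.1,
      bif decide (h.cor = .c3) then decide (q.1 = some .c2) else q.2.2.2)
  | _ => (none, q.2)

theorem cur_other (w : List Item) (q : Option Cor × Bool × Bool × Bool)
    (h : ∀ it ∈ w, it.h.kind ≠ .cu) :
    w.foldl (fun s it => curStep s it.h) q = (if w = [] then q.1 else none, q.2) := by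
  induction w generalizing q with
  | nil => simp
  | cons it w ih =>
    rw [List.foldl_cons, ih _ fun i hi => h i (by simp [hi])]
    have h1 := h it (by simp)
    have h2 : curStep q it.h = (none, q.2) := by
      unfold curStep
      split
      · rename_i h3; exact absurd h3 h1
      · rfl
    rw [h2]
    simp

theorem cl_ne (w : List Item) (h : ClWord w) : ∀ it ∈ w, it.h.kind ≠ .cu := by
  intro it hit; rw [h it hit]; simp

theorem lfr_ne (f : Fr) (p v k D : ℕ) : ∀ it ∈ lfr f p v k D, it.h.kind ≠ .cu := by
  intro it h
  unfold lfr at h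
  cases hd : f.dir
  · rw [hd, cond_false, List.mem_singleton] at h
    subst h; simp [frItem, spItem]
  · rw [hd, cond_true, List.mem_cons, List.mem_append, List.mem_singleton] at h
    rcases h with rfl | h | rfl
    · simp [frItem, spItem]
    · exact cl_ne _ (encS_cl _ _) it h
    · simp [frItem, spItem]

theorem rfr_ne (f : Fr) (p v k D : ℕ) : ∀ it ∈ rfr f p v k D, it.h.kind ≠ .cu := by
  intro it h
  unfold rfr at h
  cases hd : f.dir
  · rw [hd, cond_false, List.mem_cons, List.mem_append, List.mem_singleton] at h
    rcases h with rfl | h | rfl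
    · simp [frItem, spItem]
    · exact cl_ne _ (encS_cl _ _) it h
    · simp [frItem, spItem]
  · rw [hd, cond_true, List.mem_singleton] at h
    subst h; simp [frItem, spItem]

theorem LpG_ne (c : List Fr) (p v k D : ℕ) : ∀ it ∈ LpG c p v k D, it.h.kind ≠ .cu := by
  induction c generalizing p v k D with
  | nil => intro it h; simp [LpG] at h
  | cons f c ih =>
    intro it h
    rw [LpG, List.mem_append] at h
    rcases h with h | h
    · exact ih _ _ _ _ it h
    · exact lfr_ne _ _ _ _ _ it h

theorem RpG_ne (c : List Fr) (p v k D : ℕ) : ∀ it ∈ RpG c p v k D, it.h.kind ≠ .cu := by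
  induction c generalizing p v k D with
  | nil => intro it h; simp [RpG] at h
  | cons f c ih =>
    intro it h
    rw [RpG, List.mem_append] at h
    rcases h with h | h
    · exact rfr_ne _ _ _ _ _ it h
    · exact ih _ _ _ _ it h

theorem encS_eq_nil (t : BT) (k : Option ℕ) : encS t k = [] ↔ t = .nil := by
  cases t with
  | nil => simp [encS]
  | node s l r =>
    simp only [encS]
    split_ifs <;> simp

theorem cur_foc (q : Option Cor × Bool × Bool × Bool) (s : Bool) (l r : BT) :
    (foc s l r).foldl (fun s it => curStep s it.h) q =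
      (some .c3, s, decide (l = .nil), decide (r = .nil)) := by
  simp only [foc, focG, List.foldl_cons, List.foldl_append, List.foldl_nil]
  rw [cur_other _ _ (cl_ne _ (encS_cl l none)), cur_other _ _ (cl_ne _ (encS_cl r none))]
  simp only [encS_eq_nil]
  by_cases hl : l = .nil <;> by_cases hr : r = .nil <;> simp [curStep, cuItem, hl, hr]

theorem cur_word (x : St) (q : Option Cor × Bool × Bool × Bool) :
    (x.word.foldl (fun s it => curStep s it.h) q).2 =
      (x.s, decide (x.l = .nil), decide (x.r = .nil)) := by
  simp only [St.word, W, WG, List.foldl_append, List.foldl_cons, List.foldl_nil]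
  rw [cur_foc, cur_other _ _ (RpG_ne _ _ _ _ _)]
  simp [curStep, zeItem]

theorem test_nil (a : Bool) : ∃ (σ : Type) (_ : Finite σ) (δ : σ → Hdr → σ) (s₀ : σ)
    (acc : σ → Bool), ∀ x : St,
      acc (x.word.foldl (fun s it => δ s it.h) s₀) = true ↔ x.child a = .nil := by
  refine ⟨Option Cor × Bool × Bool × Bool, inferInstance, curStep, (none, false, false, false),
    fun s => bif a then s.2.2.2 else s.2.2.1, fun x => ?_⟩
  have := cur_word x (none, false, false, false)
  simp only [this]
  cases a <;> simp [St.child]

theorem test_leaf : ∃ (σ : Type) (_ : Finite σ) (δ : σ → Hdr → σ) (s₀ : σ)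
    (acc : σ → Bool), ∀ x : St,
      acc (x.word.foldl (fun s it => δ s it.h) s₀) = true ↔
        (x.s = false ∧ x.l = .nil ∧ x.r = .nil) := by
  refine ⟨Option Cor × Bool × Bool × Bool, inferInstance, curStep, (none, false, false, false),
    fun s => !s.2.1 && s.2.2.1 && s.2.2.2, fun x => ?_⟩
  have := cur_word x (none, false, false, false)
  simp only [this]
  simp [and_assoc]

end Pool.Agent.W_MP_1173fd_al
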