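import Pool.Agent.W_MP_1173fd_al.Run

/-!
# The light block of the cursor
-/

namespace Pool.Agent.W_MP_1173fd_al

/-- No cursor items. -/
def NoCu (w : List Item) : Prop := ∀ it ∈ w, it.h.kind ≠ .cu

theorem NoCu.append {u v : List Item} (hu : NoCu u) (hv : NoCu v) : NoCu (u ++ v) := by
  intro it h
  rcases List.mem_append.1 h with h | h
  · exact hu it h
  · exact hv it h

theorem ClWord.noCu {w : List Item} (h : ClWord w) : NoCu w := by
  intro it hit
  rw [h it hit]
  simp

theorem frItem_noCu (f : Fr) (c : Cor) (p v D : ℕ) : (frItem f c p v D).h.kind ≠ .cu := by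
  simp [frItem, spItem]

theorem side_noCu (f : Fr) (k D : ℕ) : NoCu (side f k D) := (encS_cl _ _).noCu

theorem lfr_noCu (f : Fr) (p v k D : ℕ) : NoCu (lfr f p v k D) := by
  intro it h
  unfold lfr at h
  rcases hd : f.dir with _ | _ <;>
    simp only [hd, cond_true, cond_false, List.mem_cons, List.mem_append, List.mem_nil_iff,
      or_false] at h
  · rw [h]; exact frItem_noCu _ _ _ _ _
  · rcases h with h | h | h
    · rw [h]; exact frItem_noCu _ _ _ _ _
    · exact side_noCu _ _ _ it h
    · rw [h]; exact frItem_noCu _ _ _ _ _

theorem rfr_noCu (f : Fr) (p v k D : ℕ) : NoCu (rfr f p v k D) := by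
  intro it h
  unfold rfr at h
  rcases hd : f.dir with _ | _ <;>
    simp only [hd, cond_true, cond_false, List.mem_cons, List.mem_append, List.mem_nil_iff,
      or_false] at h
  · rcases h with h | h | h
    · rw [h]; exact frItem_noCu _ _ _ _ _
    · exact side_noCu _ _ _ it h
    · rw [h]; exact frItem_noCu _ _ _ _ _
  · rw [h]; exact frItem_noCu _ _ _ _ _

theorem LpG_noCu (c : List Fr) (p v k D : ℕ) : NoCu (LpG c p v k D) := by
  induction c generalizing p v k D with
  | nil => intro it h; simp [LpG] at h
  | cons f c ih => exact (ih _ _ _ _).append (lfr_noCu _ _ _ _ _)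

theorem RpG_noCu (c : List Fr) (p v k D : ℕ) : NoCu (RpG c p v k D) := by
  induction c generalizing p v k D with
  | nil => intro it h; simp [RpG] at h
  | cons f c ih => exact (rfr_noCu _ _ _ _ _).append (ih _ _ _ _)

theorem RpG_ze_noCu (c : List Fr) (p v k D m : ℕ) : NoCu (RpG c p v k D ++ [zeItem m]) := by
  apply (RpG_noCu c p v k D).append
  intro it h
  simp only [List.mem_cons, List.mem_nil_iff, or_false] at h
  rw [h]
  simp [zeItem]

/-! ## Decrement -/

theorem decLight_fix {w : List Item} (hw : NoCu w) :
    mDecLight.Beh w () () (none : Option DQ) (none : Option DQ) w 0 := by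
  apply Mach.Beh.fix
  intro it hit
  have h := hw it hit
  refine ⟨rfl, ?_⟩
  simp only [mDecLight]
  rcases hk : it.h.kind with _ | _ | _ | _ <;> simp_all

theorem decLight_mealy {w : List Item} (hw : ClWord w) (s : DQ) :
    mDecLight.Beh w () () (some s : Option DQ) (some (mealy decF s w).1 : Option DQ)
      (mealy decF s w).2 0 := by
  apply Mach.Beh.mealy (M := mDecLight) (some : DQ → Option DQ)
  intro it hit s
  refine ⟨rfl, (decG s it.h (sumOf it.N it.val)).2.1, (decG s it.h (sumOf it.N it.val)).2.2,
    ?_, ?_, ?_, rfl⟩
  · rcases s with _ | P <;> simp only [decG]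
    · generalize (!it.h.aw && (sumOf it.N it.val).top) = b
      cases b <;> rfl
    · generalize (P && (sumOf it.N it.val).top) = b
      generalize it.h.aw = b'
      cases b <;> cases b' <;> rfl
  · rcases s with _ | P <;> simp only [decG]
    · generalize (!it.h.aw && (sumOf it.N it.val).top) = b
      cases b <;> simp
    · generalize (P && (sumOf it.N it.val).top) = b
      generalize it.h.aw = b'
      cases b <;> cases b' <;> simp
  · have hk := hw it hit
    simp only [mDecLight, hk]
    rfl

theorem decLight_cu (c : Cor) (s : Bool) (cm : Cmp) (N v : ℕ) (p : Option DQ) :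
    mDecLight.Beh [cuItem c s cm N v] () () p
      (bif nl (cuItem c s cm N v).h then some (.D true) else none : Option DQ)
      [cuItem c s cm N v] 0 := by
  have h1 : mDecLight.B p (cuItem c s cm N v).h
      (sumOf (cuItem c s cm N v).N (cuItem c s cm N v).val) 0 =
      ((bif nl (cuItem c s cm N v).h then some (.D true) else none : Option DQ),
        (cuItem c s cm N v).h, .id, false) := rfl
  have := Mach.Beh.single (M := mDecLight) (q := ()) (q' := ()) (it := cuItem c s cm N v)
    (ann := 0) rfl h1 (by simp)
  exact this

theorem decLight_block (b : Bool) (t : BT) :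
    mDecLight.Beh (if b then enc t true 1 else encS t none) () ()
      (bif b then some (.D true) else none : Option DQ)
      (bif b then some (.D true) else none : Option DQ) (encS t none) 0 := by
  cases b with
  | true =>
    have h := decLight_mealy (enc_cl t true 1) (.D true)
    have h2 := dec_enc t 0
    have h3 : pw (0 + 1) = true := by decide
    rw [h3] at h2
    simp only [zero_add] at h2
    rw [h2] at h
    rw [encS_none]
    exact h
  | false => exact decLight_fix (encS_cl t none).noCu

theorem runs_decLight (c : List Fr) (p v k D m : ℕ) (s : Bool) (l r : BT) :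
    mDecLight.Runs (WG c p v k D (foc1 s l r) m) (WG c p v k D (foc s l r) m) 0 := by
  have B0 := decLight_fix (LpG_noCu c p v k D)
  have B6 := decLight_fix (RpG_ze_noCu c p v k D m)
  by_cases hc : ht l < ht r
  · have hcm : cmpN (ht l) (ht r) = .lt := cmpN_lt hc
    have B1 := decLight_cu .c1 s .lt (min (ht l) (ht r)) 0 none
    have B2 := decLight_block true l
    have B3 := decLight_cu .c2 s .lt (min (ht l) (ht r)) 0 (some (.D true))
    have B4 := decLight_block false r
    have B5 := decLight_cu .c3 s .lt (min (ht l) (ht r)) 0 none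
    have B := Mach.Beh.append B0
      ((Mach.Beh.append B1 (Mach.Beh.append B2 (Mach.Beh.append B3 (Mach.Beh.append B4 B5)))).append
        B6)
    have R := Mach.Beh.runs (M := mDecLight) B
    simpa [WG, foc1, foc, focG, hc, hcm] using R
  · have hcm : cmpN (ht l) (ht r) ≠ .lt := by rwa [Ne, cmpN_eq_lt_iff]
    obtain ⟨cm, hcm2⟩ : ∃ cm, cm = cmpN (ht l) (ht r) := ⟨_, rfl⟩
    rw [← hcm2] at hcm
    have n1 : nl (cuItem .c1 s cm (min (ht l) (ht r)) 0).h = false := by
      simp [nl, cuItem, hcm]
    have n2 : nl (cuItem .c2 s cm (min (ht l) (ht r)) 0).h = true := by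
      simp [nl, cuItem, hcm]
    have B1 := decLight_cu .c1 s cm (min (ht l) (ht r)) 0 none
    rw [n1] at B1
    have B2 := decLight_block false l
    have B3 := decLight_cu .c2 s cm (min (ht l) (ht r)) 0 none
    rw [n2] at B3
    have B4 := decLight_block true r
    have B5 := decLight_cu .c3 s cm (min (ht l) (ht r)) 0 (some (.D true))
    have B := Mach.Beh.append B0
      ((Mach.Beh.append B1 (Mach.Beh.append B2 (Mach.Beh.append B3 (Mach.Beh.append B4 B5)))).append
        B6)
    have R := Mach.Beh.runs (M := mDecLight) B
    simpa [WG, foc1, foc, focG, hc, ← hcm2] using R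

/-! ## Increment -/

theorem incLight_fix {w : List Item} (hw : NoCu w) :
    mIncLight.Beh w () () (none : Option Bool) (none : Option Bool) w 0 := by
  apply Mach.Beh.fix
  intro it hit
  have h := hw it hit
  refine ⟨rfl, ?_⟩
  simp only [mIncLight]
  rcases hk : it.h.kind with _ | _ | _ | _ <;> simp_all

theorem incLight_mealy {w : List Item} (hw : ClWord w) (s : Bool) :
    mIncLight.Beh w () () (some s : Option Bool) (some (mealy incF s w).1 : Option Bool)
      (mealy incF s w).2 0 := by
  apply Mach.Beh.mealy (M := mIncLight) (some : Bool → Option Bool)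
  intro it hit s
  refine ⟨rfl, (incG s it.h (sumOf it.N it.val)).2.1, (incG s it.h (sumOf it.N it.val)).2.2,
    ?_, ?_, ?_, rfl⟩
  · simp only [incG]
    generalize (!s && !it.h.aw) = b
    cases b <;> rfl
  · simp only [incG]
    generalize (!s && !it.h.aw) = b
    cases b <;> simp
  · have hk := hw it hit
    simp only [mIncLight, hk]
    rfl

theorem incLight_cu (c : Cor) (s : Bool) (cm : Cmp) (N v : ℕ) (p : Option Bool) :
    mIncLight.Beh [cuItem c s cm N v] () () p
      (bif nl (cuItem c s cm N v).h then some true else none : Option Bool)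
      [cuItem c s cm N v] 0 := by
  have h1 : mIncLight.B p (cuItem c s cm N v).h
      (sumOf (cuItem c s cm N v).N (cuItem c s cm N v).val) 0 =
      ((bif nl (cuItem c s cm N v).h then some true else none : Option Bool),
        (cuItem c s cm N v).h, .id, false) := rfl
  have := Mach.Beh.single (M := mIncLight) (q := ()) (q' := ()) (it := cuItem c s cm N v)
    (ann := 0) rfl h1 (by simp)
  exact this

theorem incLight_block (b : Bool) (t : BT) :
    mIncLight.Beh (encS t none) () ()
      (bif b then some true else none : Option Bool)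
      (bif b then some true else none : Option Bool)
      (if b then enc t true 1 else encS t none) 0 := by
  cases b with
  | true =>
    have h := incLight_mealy (enc_cl t true 0) true
    have h2 := inc_enc t 0
    simp only [zero_add] at h2
    rw [h2] at h
    rw [encS_none]
    exact h
  | false => exact incLight_fix (encS_cl t none).noCu

theorem runs_incLight (c : List Fr) (p v k D m : ℕ) (s : Bool) (l r : BT) :
    mIncLight.Runs (WG c p v k D (foc s l r) m) (WG c p v k D (foc1 s l r) m) 0 := by
  have B0 := incLight_fix (LpG_noCu c p v k D)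
  have B6 := incLight_fix (RpG_ze_noCu c p v k D m)
  by_cases hc : ht l < ht r
  · have hcm : cmpN (ht l) (ht r) = .lt := cmpN_lt hc
    have B1 := incLight_cu .c1 s .lt (min (ht l) (ht r)) 0 none
    have B2 := incLight_block true l
    have B3 := incLight_cu .c2 s .lt (min (ht l) (ht r)) 0 (some true)
    have B4 := incLight_block false r
    have B5 := incLight_cu .c3 s .lt (min (ht l) (ht r)) 0 none
    have B := Mach.Beh.append B0
      ((Mach.Beh.append B1 (Mach.Beh.append B2 (Mach.Beh.append B3 (Mach.Beh.append B4 B5)))).append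
        B6)
    have R := Mach.Beh.runs (M := mIncLight) B
    simpa [WG, foc1, foc, focG, hc, hcm] using R
  · have hcm : cmpN (ht l) (ht r) ≠ .lt := by rwa [Ne, cmpN_eq_lt_iff]
    obtain ⟨cm, hcm2⟩ : ∃ cm, cm = cmpN (ht l) (ht r) := ⟨_, rfl⟩
    rw [← hcm2] at hcm
    have n1 : nl (cuItem .c1 s cm (min (ht l) (ht r)) 0).h = false := by
      simp [nl, cuItem, hcm]
    have n2 : nl (cuItem .c2 s cm (min (ht l) (ht r)) 0).h = true := by
      simp [nl, cuItem, hcm]
    have B1 := incLight_cu .c1 s cm (min (ht l) (ht r)) 0 none
    rw [n1] at B1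
    have B2 := incLight_block false l
    have B3 := incLight_cu .c2 s cm (min (ht l) (ht r)) 0 none
    rw [n2] at B3
    have B4 := incLight_block true r
    have B5 := incLight_cu .c3 s cm (min (ht l) (ht r)) 0 (some true)
    have B := Mach.Beh.append B0
      ((Mach.Beh.append B1 (Mach.Beh.append B2 (Mach.Beh.append B3 (Mach.Beh.append B4 B5)))).append
        B6)
    have R := Mach.Beh.runs (M := mIncLight) B
    simpa [WG, foc1, foc, focG, hc, ← hcm2] using R

end Pool.Agent.W_MP_1173fd_al
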