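import Pool.Agent.W_MP_1173fd_al.Run

/-!
# Pointers and distances (`mAdvance`, `mRetreat`)
-/

namespace Pool.Agent.W_MP_1173fd_al

open Mach

/-! ### `mAdvance` -/

theorem adv_block {w : List Item} (hw : ClWord w) (b : Bool) :
    mAdvance.Beh w () () b (mealy ptrF b w).1 (mealy ptrF b w).2 0 := by
  refine Beh.mealy (M := mAdvance) (S := Bool) (q := ()) (fun s => s) ptrF ?_ b
  intro it hit s
  have h := hw it hit
  refine ⟨rfl, (ptrG s it.h (sumOf it.N it.val)).2, .id, rfl, by simp, ?_, ?_⟩
  · simp only [mAdvance, h, ptrF]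
  · simp [ptrF, Op.app]

theorem adv_side (f : Fr) (k D : ℕ) :
    ∃ b, mAdvance.Beh (side f k D) () () false b (side f (k + 1) D) 0 := by
  unfold side
  by_cases h : D < ht f.w
  · have := adv_block (encS_cl f.w (some k)) false
    rw [mealy_ptr_some] at this
    simp only [h, if_true]
    exact ⟨_, this⟩
  · have := adv_block (encS_cl f.w none) false
    rw [mealy_ptr_false _ (encS_none_ptr f.w)] at this
    simp only [h, if_false]
    exact ⟨_, this⟩

theorem adv_sp (f : Fr) (c : Cor) (p v D : ℕ) (b : Bool) :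
    mAdvance.Beh [frItem f c p v D] () () b false [frItem f c p (v + 1) D] 0 := by
  have := Beh.single (M := mAdvance) (q := ()) (q' := ()) (p := b) (p' := false)
    (it := frItem f c p v D) (h' := (frItem f c p v D).h)
    (h'' := { (frItem f c p v D).h with aw := (frItem f c p v D).h.aw &&
      !(sumOf (frItem f c p v D).N (frItem f c p v D).val).pt }) (ann := 0) (op := .inc)
    rfl rfl (by simp)
  have e : (⟨{ (frItem f c p v D).h with aw := (frItem f c p v D).h.aw &&
      !(sumOf (frItem f c p v D).N (frItem f c p v D).val).pt },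
      (Op.app .inc (frItem f c p v D).N (frItem f c p v D).val).1,
      (Op.app .inc (frItem f c p v D).N (frItem f c p v D).val).2⟩ : Item)
      = frItem f c p (v + 1) D := by
    generalize hN : min D (ht f.w) = N
    simp only [frItem, spItem, Op.app, sumOf, hN, inc_mod, Item.mk.injEq, Hdr.mk.injEq, true_and,
      and_true]
    have h1 : 2 ^ N < 2 ^ (N + 1) := Nat.pow_lt_pow_right (by norm_num) (by omega)
    by_cases hv : v < 2 ^ N
    · rw [Nat.mod_eq_of_lt (by omega)]
      by_cases h2 : v + 1 = 2 ^ N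
      · have h3 : ¬ (v + 1 < 2 ^ N) := by omega
        simp [h2]
      · have h3 : v + 1 < 2 ^ N := by omega
        simp [h2, h3, hv]
    · have h3 : ¬ (v + 1 < 2 ^ N) := by omega
      simp [hv, h3]
  rw [e] at this
  exact this

theorem adv_lfr (f : Fr) (p v k D : ℕ) (b : Bool) :
    mAdvance.Beh (lfr f p v k D) () () b false (lfr f p (v + 1) (k + 1) D) 0 := by
  unfold lfr
  cases f.dir with
  | false => exact adv_sp f .c1 p v D b
  | true =>
    obtain ⟨b', hb'⟩ := adv_side f k D
    simp only [cond_true]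
    exact Beh.append (adv_sp f .c1 p v D b) (Beh.append hb' (adv_sp f .c2 p v D b'))

theorem adv_rfr (f : Fr) (p v k D : ℕ) (b : Bool) :
    mAdvance.Beh (rfr f p v k D) () () b false (rfr f p (v + 1) (k + 1) D) 0 := by
  unfold rfr
  cases f.dir with
  | true => exact adv_sp f .c3 p v D b
  | false =>
    obtain ⟨b', hb'⟩ := adv_side f k D
    simp only [cond_false]
    exact Beh.append (adv_sp f .c2 p v D b) (Beh.append hb' (adv_sp f .c3 p v D b'))

theorem adv_L (c : List Fr) (p v k D : ℕ) :
    mAdvance.Beh (LpG c p v k D) () () false false (LpG c p (v + 1) (k + 1) D) 0 := by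
  induction c generalizing p v k D with
  | nil => exact Beh.nil
  | cons f c ih =>
    exact Beh.append (ih (p + 1) (v + 1) (k + 1) (up1 f D)) (adv_lfr f p v k D false)

theorem adv_R (c : List Fr) (p v k D : ℕ) :
    mAdvance.Beh (RpG c p v k D) () () false false (RpG c p (v + 1) (k + 1) D) 0 := by
  induction c generalizing p v k D with
  | nil => exact Beh.nil
  | cons f c ih =>
    exact Beh.append (adv_rfr f p v k D false) (ih (p + 1) (v + 1) (k + 1) (up1 f D))

theorem log_succ_full {m : ℕ} (h : m + 1 = 2 ^ (Nat.log 2 m + 1)) :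
    Nat.log 2 (m + 1) = Nat.log 2 m + 1 := by
  conv_lhs => rw [h]
  exact Nat.log_pow (by norm_num) _

theorem lt_two_pow_log (m : ℕ) : m < 2 ^ (Nat.log 2 m + 1) := Nat.lt_pow_succ_log_self (by norm_num) m

theorem log_succ_not_full {m : ℕ} (h : m + 1 ≠ 2 ^ (Nat.log 2 m + 1)) :
    Nat.log 2 (m + 1) = Nat.log 2 m := by
  have h1 := lt_two_pow_log m
  rcases Nat.eq_zero_or_pos m with h0 | h0
  · subst h0; simp
  · refine (Nat.log_eq_iff (Or.inr ⟨by norm_num, by omega⟩)).2 ⟨?_, by omega⟩
    exact (Nat.pow_log_le_self 2 h0.ne').trans (by omega)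

theorem adv_ze (m : ℕ) :
    ∃ k ≤ 1, mAdvance.Beh [zeItem m] () () false false [zeItem (m + 1)] k := by
  by_cases h : m + 1 = 2 ^ (Nat.log 2 m + 1)
  · refine ⟨1, le_rfl, ?_⟩
    have := Beh.single (M := mAdvance) (q := ()) (q' := ()) (p := false) (p' := false)
      (it := zeItem m) (h' := (zeItem m).h) (h'' := (zeItem m).h) (ann := 0) (op := .incGrow)
      rfl (by simp [mAdvance, zeItem, sumOf, h]) (by simp)
    have e : (⟨(zeItem m).h, (Op.app .incGrow (zeItem m).N (zeItem m).val).1,
        (Op.app .incGrow (zeItem m).N (zeItem m).val).2⟩ : Item) = zeItem (m + 1) := by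
      simp only [zeItem, Op.app, log_succ_full h, Item.mk.injEq, true_and]
      rw [← h, Nat.mod_self, zero_add]
    rw [e] at this
    exact this
  · refine ⟨0, by norm_num, ?_⟩
    have := Beh.single (M := mAdvance) (q := ()) (q' := ()) (p := false) (p' := false)
      (it := zeItem m) (h' := (zeItem m).h) (h'' := (zeItem m).h) (ann := 0) (op := .inc)
      rfl (by simp [mAdvance, zeItem, sumOf, h]) (by simp)
    have e : (⟨(zeItem m).h, (Op.app .inc (zeItem m).N (zeItem m).val).1,
        (Op.app .inc (zeItem m).N (zeItem m).val).2⟩ : Item) = zeItem (m + 1) := by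
      simp only [zeItem, Op.app, log_succ_not_full h, Item.mk.injEq, true_and]
      have := lt_two_pow_log m
      exact Nat.mod_eq_of_lt (by omega)
    rw [e] at this
    exact this

theorem runs_advance (c : List Fr) (D : ℕ) (mid : List Item)
    (h1 : ∀ it ∈ mid, (it.h.kind = .cl ∨ it.h.kind = .cu) ∧ it.h.ptr = false) (m : ℕ) :
    ∃ k ≤ 1, mAdvance.Runs (WG c 2 1 0 D mid m) (WG c 2 2 1 D mid (m + 1)) k := by
  obtain ⟨k, hk, hz⟩ := adv_ze m
  have hmid : mAdvance.Beh mid () () false false mid 0 := by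
    refine Beh.fix fun it hit => ⟨rfl, ?_⟩
    obtain ⟨h2, h3⟩ := h1 it hit
    rcases h2 with h2 | h2
    · simp only [mAdvance, h2, ptrG, h3, cond_false, Bool.false_and]
    · simp only [mAdvance, h2]
  refine ⟨0 + (0 + (0 + k)), by omega, ?_⟩
  exact Beh.runs (M := mAdvance) (q' := ()) (p' := false)
    (Beh.append (adv_L c 2 1 0 D) (Beh.append hmid (Beh.append (adv_R c 2 1 0 D) hz)))

/-! ### `mRetreat` -/

theorem ret_block {w : List Item} (hw : ClWord w) (b : Bool) :
    mRetreat.Beh w b (rmealy ptrF b w).1 () () (rmealy ptrF b w).2 0 := by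
  refine Beh.rmealy (M := mRetreat) (S := Bool) (p := ()) (fun s => s) ptrF ?_ b
  intro it hit s
  have h := hw it hit
  refine ⟨(ptrG s it.h (sumOf it.N it.val)).2, ?_, ?_, ?_⟩
  · simp only [mRetreat, h, ptrF]
  · have : (ptrG s it.h (sumOf it.N it.val)).2.kind = .cl := by
      unfold ptrG
      cases it.h.ptr <;> cases s <;> cases z1 it.h (sumOf it.N it.val) <;> simp [h]
    simp only [mRetreat, this]
  · simp [ptrF]

theorem ret_side (f : Fr) (k D : ℕ) (hk : k + 2 ≤ D) :
    mRetreat.Beh (side f (k + 1) D) false false () () (side f k D) 0 := by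
  unfold side
  by_cases h : D < ht f.w
  · have := ret_block (encS_cl f.w (some (k + 1))) false
    rw [rmealy_ptr_succ f.w k (by omega)] at this
    simp only [h, if_true]
    exact this
  · have := ret_block (encS_cl f.w none) false
    rw [rmealy_ptr_false _ (encS_none_ptr f.w)] at this
    simp only [h, if_false]
    exact this

theorem ret_side0 (f : Fr) (D : ℕ) :
    ∃ b, mRetreat.Beh (side f 0 D) false b () () (encS f.w none) 0 := by
  unfold side
  by_cases h : D < ht f.w
  · have := ret_block (encS_cl f.w (some 0)) false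
    rw [rmealy_ptr_zero f.w (by intro h0; rw [h0] at h; simp [ht] at h)] at this
    simp only [h, if_true]
    exact ⟨_, this⟩
  · have := ret_block (encS_cl f.w none) false
    rw [rmealy_ptr_false _ (encS_none_ptr f.w)] at this
    simp only [h, if_false]
    exact ⟨_, this⟩

theorem ret_none (t : BT) :
    mRetreat.Beh (encS t none) false false () () (encS t none) 0 := by
  have := ret_block (encS_cl t none) false
  rw [rmealy_ptr_false _ (encS_none_ptr t)] at this
  exact this

theorem ret_sp (f : Fr) (c : Cor) (v D : ℕ) (b : Bool) :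
    mRetreat.Beh [frItem f c (v + 1) (v + 1) D] b false () () [frItem f c (v + 1) v D] 0 := by
  have := Beh.single (M := mRetreat) (q := b) (q' := false) (p := ()) (p' := ())
    (it := frItem f c (v + 1) (v + 1) D) (h' := (frItem f c (v + 1) (v + 1) D).h)
    (h'' := { (frItem f c (v + 1) (v + 1) D).h with aw := (frItem f c (v + 1) (v + 1) D).h.aw ||
      ((frItem f c (v + 1) (v + 1) D).h.P &&
      (sumOf (frItem f c (v + 1) (v + 1) D).N (frItem f c (v + 1) (v + 1) D).val).top) })
    (ann := 0) (op := .dec)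
    rfl rfl (by simp)
  have e : (⟨{ (frItem f c (v + 1) (v + 1) D).h with aw := (frItem f c (v + 1) (v + 1) D).h.aw ||
      ((frItem f c (v + 1) (v + 1) D).h.P &&
      (sumOf (frItem f c (v + 1) (v + 1) D).N (frItem f c (v + 1) (v + 1) D).val).top) },
      (Op.app .dec (frItem f c (v + 1) (v + 1) D).N (frItem f c (v + 1) (v + 1) D).val).1,
      (Op.app .dec (frItem f c (v + 1) (v + 1) D).N (frItem f c (v + 1) (v + 1) D).val).2⟩ : Item)
      = frItem f c (v + 1) v D := by
    generalize hN : min D (ht f.w) = N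
    simp only [frItem, spItem, Op.app, sumOf, hN, Item.mk.injEq, Hdr.mk.injEq, true_and]
    have h1 : 2 ^ N < 2 ^ (N + 1) := Nat.pow_lt_pow_right (by norm_num) (by omega)
    refine ⟨?_, dec_mod _ _ (by positivity)⟩
    rcases lt_trichotomy (v + 1) (2 ^ N) with h2 | h2 | h2
    · have h3 : v < 2 ^ N := by omega
      simp [h2, h3]
    · have h3 : v < 2 ^ N := by omega
      have h4 : pw (v + 1) = true := by rw [h2]; exact pw_two_pow N
      have h5 : (v + 1) % 2 ^ (N + 1) = 2 ^ N := by rw [h2]; exact Nat.mod_eq_of_lt h1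
      simp [h3, h4, h5]
    · have h3 : ¬ (v < 2 ^ N) := by omega
      have h3' : ¬ (v + 1 < 2 ^ N) := by omega
      have h4 : (pw (v + 1) && decide ((v + 1) % 2 ^ (N + 1) = 2 ^ N)) = false := by
        rw [Bool.eq_false_iff]
        intro hh
        rw [Bool.and_eq_true, decide_eq_true_eq] at hh
        obtain ⟨j, hj⟩ := pw_iff.1 hh.1
        rw [hj] at h2
        have h5 : N < j := (Nat.pow_lt_pow_iff_right (by norm_num)).1 h2
        rw [hj, two_pow_mod h5] at hh
        exact absurd hh.2.symm (by positivity)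
      simp [h3, h3', h4]
  rw [e] at this
  exact this

theorem ret_lfr (f : Fr) (v k D : ℕ) (hk : k + 2 ≤ D) (b : Bool) :
    mRetreat.Beh (lfr f (v + 1) (v + 1) (k + 1) D) b false () () (lfr f (v + 1) v k D) 0 := by
  unfold lfr
  cases f.dir with
  | false => exact ret_sp f .c1 v D b
  | true =>
    simp only [cond_true]
    exact Beh.append (ret_sp f .c1 v D false) (Beh.append (ret_side f k D hk) (ret_sp f .c2 v D b))

theorem ret_rfr (f : Fr) (v k D : ℕ) (hk : k + 2 ≤ D) (b : Bool) :
    mRetreat.Beh (rfr f (v + 1) (v + 1) (k + 1) D) b false () () (rfr f (v + 1) v k D) 0 := by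
  unfold rfr
  cases f.dir with
  | true => exact ret_sp f .c3 v D b
  | false =>
    simp only [cond_false]
    exact Beh.append (ret_sp f .c2 v D false) (Beh.append (ret_side f k D hk) (ret_sp f .c3 v D b))

theorem ret_L (c : List Fr) (v k D : ℕ) (hk : k + 2 ≤ D) (b : Bool) :
    ∃ b', mRetreat.Beh (LpG c (v + 1) (v + 1) (k + 1) D) b b' () () (LpG c (v + 1) v k D) 0 := by
  induction c generalizing v k D b with
  | nil => exact ⟨b, Beh.nil⟩
  | cons f c ih =>
    obtain ⟨b', hb'⟩ := ih (v + 1) (k + 1) (up1 f D) (by unfold up1; omega) false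
    exact ⟨b', Beh.append hb' (ret_lfr f v k D hk b)⟩

theorem ret_R (c : List Fr) (v k D : ℕ) (hk : k + 2 ≤ D) :
    mRetreat.Beh (RpG c (v + 1) (v + 1) (k + 1) D) false false () () (RpG c (v + 1) v k D) 0 := by
  induction c generalizing v k D with
  | nil => exact Beh.nil
  | cons f c ih =>
    exact Beh.append (ret_rfr f v k D hk false) (ih (v + 1) (k + 1) (up1 f D) (by unfold up1; omega))

theorem ret_ze (m : ℕ) :
    ∃ k ≤ 1, mRetreat.Beh [zeItem (m + 1)] false false () () [zeItem m] k := by
  by_cases h : m + 1 = 2 ^ (Nat.log 2 (m + 1)) ∧ Nat.log 2 (m + 1) ≠ 0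
  · obtain ⟨h1, h2⟩ := h
    refine ⟨1, le_rfl, ?_⟩
    have := Beh.single (M := mRetreat) (q := false) (q' := false) (p := ()) (p' := ())
      (it := zeItem (m + 1)) (h' := (zeItem (m + 1)).h) (h'' := (zeItem (m + 1)).h) (ann := 0)
      (op := .decShrink)
      rfl (by simp only [mRetreat, zeItem, sumOf]; simp [← h1, h2]) (by simp)
    have e : (⟨(zeItem (m + 1)).h, (Op.app .decShrink (zeItem (m + 1)).N (zeItem (m + 1)).val).1,
        (Op.app .decShrink (zeItem (m + 1)).N (zeItem (m + 1)).val).2⟩ : Item) = zeItem m := by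
      obtain ⟨N, hN⟩ := Nat.exists_eq_succ_of_ne_zero h2
      have h3 : m + 1 = 2 ^ (N + 1) := by rw [h1, hN]
      have hp : 0 < 2 ^ (N + 1) := by positivity
      have h4 : Nat.log 2 m = N := by
        have : 2 ^ (N + 1) = 2 * 2 ^ N := by ring
        have hp' : 0 < 2 ^ N := by positivity
        rcases Nat.eq_zero_or_pos m with h0 | h0
        · exfalso; subst h0; omega
        · exact (Nat.log_eq_iff (Or.inr ⟨by norm_num, by omega⟩)).2 ⟨by omega, by omega⟩
      simp only [zeItem, hN, Nat.succ_eq_add_one, Op.app, Item.mk.injEq, true_and]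
      refine ⟨h4.symm, ?_⟩
      have h5 : 2 ^ (N + 2) = 2 * 2 ^ (N + 1) := by ring
      have h6 : m + 1 + 2 ^ (N + 2) - 1 = m + 2 ^ (N + 1) * 2 := by omega
      rw [h6, Nat.add_mul_mod_self_left]
      exact Nat.mod_eq_of_lt (by omega)
    rw [e] at this
    exact this
  · refine ⟨0, by norm_num, ?_⟩
    have := Beh.single (M := mRetreat) (q := false) (q' := false) (p := ()) (p' := ())
      (it := zeItem (m + 1)) (h' := (zeItem (m + 1)).h) (h'' := (zeItem (m + 1)).h) (ann := 0)
      (op := .dec)
      rfl (by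
        by_cases h1 : m + 1 = 2 ^ (Nat.log 2 (m + 1))
        · have h2 : Nat.log 2 (m + 1) = 0 := by
            by_contra h2
            exact h ⟨h1, h2⟩
          simp only [mRetreat, zeItem, sumOf, h2, decide_true, Bool.not_true, Bool.and_false,
            cond_false]
        · simp only [mRetreat, zeItem, sumOf, h1, decide_false, Bool.false_and,
            cond_false]) (by simp)
    have e : (⟨(zeItem (m + 1)).h, (Op.app .dec (zeItem (m + 1)).N (zeItem (m + 1)).val).1,
        (Op.app .dec (zeItem (m + 1)).N (zeItem (m + 1)).val).2⟩ : Item) = zeItem m := by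
      have h1 := lt_two_pow_log (m + 1)
      have h2 : 2 ^ (Nat.log 2 (m + 1)) ≤ m + 1 := Nat.pow_log_le_self 2 (by omega)
      have h4 : Nat.log 2 m = Nat.log 2 (m + 1) := by
        by_cases h0 : Nat.log 2 (m + 1) = 0
        · rw [h0] at h1 ⊢
          have : m = 0 := by omega
          subst this; simp
        · have h3 : m + 1 ≠ 2 ^ (Nat.log 2 (m + 1)) := fun hh => h ⟨hh, h0⟩
          rcases Nat.eq_zero_or_pos m with h5 | h5
          · subst h5; simp
          · exact (Nat.log_eq_iff (Or.inr ⟨by norm_num, by omega⟩)).2 ⟨by omega, by omega⟩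
      simp only [zeItem, Op.app, Item.mk.injEq, true_and]
      refine ⟨h4.symm, ?_⟩
      have h6 : m + 1 + 2 ^ (Nat.log 2 (m + 1) + 1) - 1 = m + 2 ^ (Nat.log 2 (m + 1) + 1) := by
        omega
      rw [h6, Nat.add_mod_right]
      exact Nat.mod_eq_of_lt (by omega)
    rw [e] at this
    exact this

theorem ret_cu (c : Cor) (s : Bool) (cm : Cmp) (N : ℕ) (b : Bool) :
    mRetreat.Beh [cuItem c s cm N 1] b false () () [cuItem c s cm N 0] 0 := by
  have := Beh.single (M := mRetreat) (q := b) (q' := false) (p := ()) (p' := ())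
    (it := cuItem c s cm N 1) (h' := (cuItem c s cm N 1).h)
    (h'' := { (cuItem c s cm N 1).h with aw := true })
    (ann := 0) (op := .dec)
    rfl rfl (by simp)
  have e : (⟨{ (cuItem c s cm N 1).h with aw := true },
      (Op.app .dec (cuItem c s cm N 1).N (cuItem c s cm N 1).val).1,
      (Op.app .dec (cuItem c s cm N 1).N (cuItem c s cm N 1).val).2⟩ : Item)
      = cuItem c s cm N 0 := by
    simp only [cuItem, Op.app, Item.mk.injEq, Hdr.mk.injEq, true_and]
    refine ⟨by simp, ?_⟩
    exact dec_mod 0 _ (by positivity)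
  rw [e] at this
  exact this

theorem ret_foc (s : Bool) (cm : Cmp) (N : ℕ) {bl br bl' br' : List Item} {b1 b2 : Bool}
    (hl : mRetreat.Beh bl false b1 () () bl' 0) (hr : mRetreat.Beh br false b2 () () br' 0) :
    mRetreat.Beh (focG s cm N 1 bl br) false false () () (focG s cm N 0 bl' br') 0 := by
  unfold focG
  exact Beh.append (ret_cu .c1 s cm N b1) (Beh.append hl (Beh.append (ret_cu .c2 s cm N b2)
    (Beh.append hr (ret_cu .c3 s cm N false))))

theorem runs_retreat (c : List Fr) (f : Fr) (D : ℕ) (hD : 1 ≤ D) (t : BT) (m : ℕ) :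
    ∃ k ≤ 1, mRetreat.Runs (WG c 2 2 1 (up1 f D) (closing f D (encS t none)) (m + 1))
      (WG c 2 1 0 (up1 f D) (bif f.dir then focG f.s (spCmp f D) (min D (ht f.w)) 0 (encS f.w none) (encS t none)
        else focG f.s (spCmp f D) (min D (ht f.w)) 0 (encS t none) (encS f.w none)) m) k := by
  obtain ⟨k, hk, hz⟩ := ret_ze m
  obtain ⟨b, hb⟩ := ret_side0 f D
  have hup : 0 + 2 ≤ up1 f D := by unfold up1; omega
  obtain ⟨b', hL⟩ := ret_L c 1 0 (up1 f D) hup false
  refine ⟨0 + (0 + (0 + k)), by omega, ?_⟩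
  refine Beh.runs (M := mRetreat) (q' := b') (p' := ())
    (Beh.append hL (Beh.append ?_ (Beh.append (ret_R c 1 0 (up1 f D) hup) hz)))
  unfold closing
  cases f.dir with
  | true => exact ret_foc _ _ _ hb (ret_none t)
  | false => exact ret_foc _ _ _ (ret_none t) hb

end Pool.Agent.W_MP_1173fd_al
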