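import Pool.Agent.W_MP_1173fd_al.Run

/-!
# Relabelling machines `mOpen`, `mClose`
-/

namespace Pool.Agent.W_MP_1173fd_al

open Mach

/-! ## Kinds of the items of a context -/

/-- Items which are closed or on the spine. -/
def ClSp (w : List Item) : Prop := ∀ it ∈ w, it.h.kind = .cl ∨ ∃ d, it.h.kind = .sp d

theorem ClSp.append {u v : List Item} (hu : ClSp u) (hv : ClSp v) : ClSp (u ++ v) := by
  intro it h
  rcases List.mem_append.1 h with h | h
  · exact hu it h
  · exact hv it h

theorem oc_side_cl (f : Fr) (k D : ℕ) : ClWord (side f k D) := encS_cl _ _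

theorem ClWord.clSp {w : List Item} (h : ClWord w) : ClSp w := fun it hit => Or.inl (h it hit)

theorem frItem_clSp (f : Fr) (c : Cor) (p v D : ℕ) : ClSp [frItem f c p v D] := by
  intro it h
  rw [List.mem_singleton] at h
  subst h
  exact Or.inr ⟨_, rfl⟩

theorem lfr_clSp (f : Fr) (p v k D : ℕ) : ClSp (lfr f p v k D) := by
  unfold lfr
  cases f.dir
  · exact frItem_clSp _ _ _ _ _
  · exact (frItem_clSp _ _ _ _ _).append ((oc_side_cl _ _ _).clSp.append (frItem_clSp _ _ _ _ _))

theorem rfr_clSp (f : Fr) (p v k D : ℕ) : ClSp (rfr f p v k D) := by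
  unfold rfr
  cases f.dir
  · exact (frItem_clSp _ _ _ _ _).append ((oc_side_cl _ _ _).clSp.append (frItem_clSp _ _ _ _ _))
  · exact frItem_clSp _ _ _ _ _

theorem LpG_clSp (c : List Fr) (p v k D : ℕ) : ClSp (LpG c p v k D) := by
  induction c generalizing p v k D with
  | nil => intro it h; simp [LpG] at h
  | cons f c ih => exact (ih _ _ _ _).append (lfr_clSp _ _ _ _ _)

theorem RpG_clSp (c : List Fr) (p v k D : ℕ) : ClSp (RpG c p v k D) := by
  induction c generalizing p v k D with
  | nil => intro it h; simp [RpG] at h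
  | cons f c ih => exact (rfr_clSp _ _ _ _ _).append (ih _ _ _ _)

theorem WG_cons (f : Fr) (c : List Fr) (p v k D : ℕ) (mid : List Item) (m : ℕ) :
    WG (f :: c) p v k D mid m =
      WG c (p + 1) (v + 1) (k + 1) (up1 f D) (lfr f p v k D ++ (mid ++ rfr f p v k D)) m := by
  simp [WG, LpG, RpG, List.append_assoc]

/-- A word is fixed if states do not change outside of the middle. -/
theorem beh_WG {M : Mach} {c : List Fr} {p v k D m : ℕ} {mid mid' : List Item} {q q' : M.Q}
    {pp pp' : M.P} {kk : ℕ}
    (hL : M.Beh (LpG c p v k D) q' q' pp pp (LpG c p v k D) 0)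
    (hM : M.Beh mid q q' pp pp' mid' kk)
    (hR : M.Beh (RpG c p v k D) q q pp' pp' (RpG c p v k D) 0)
    (hZ : M.Beh [zeItem m] M.q0 q pp' pp' [zeItem m] 0)
    (hι : M.ι q' = pp) : M.Runs (WG c p v k D mid m) (WG c p v k D mid' m) kk := by
  subst hι
  have := (hL.append (hM.append (hR.append hZ))).runs
  simpa [WG] using this

/-! ## `mOpen` -/

theorem mOpen_out (a : Bool) (w : List Item) (hw : ClSp w) :
    (mOpen a).Beh w (0 : Fin 3) (0 : Fin 3) OP.out OP.out w 0 := by
  apply Beh.fix
  intro it hit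
  rcases hw it hit with h | ⟨d, h⟩ <;> simp [mOpen, h]

theorem mOpen_e (a : Bool) (w : List Item) (hw : ClWord w) (q : Fin 3) (hq : q = 0 ∨ q = 2) :
    ∃ q' : Fin 3, (q' = 0 ∨ q' = 2) ∧ (mOpen a).Beh w q q' OP.e OP.e w 0 := by
  induction w with
  | nil => exact ⟨q, hq, Beh.nil⟩
  | cons it w ih =>
    obtain ⟨q1, hq1, h1⟩ := ih (fun i hi => hw i (by simp [hi]))
    have hk := hw it (by simp)
    rcases hq1 with rfl | rfl
    · refine ⟨0, Or.inl rfl, ?_⟩
      have := Beh.cons (M := mOpen a) (q := (0 : Fin 3)) (q' := (0 : Fin 3)) (p := OP.e) (p' := OP.e)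
        (it := it) (h' := it.h) (h'' := it.h) (ann := 0) (op := .id) (by simp [mOpen, hk])
        (by simp [mOpen, hk]) (by simp) h1
      simpa [Op.app, Op.wt] using this
    · by_cases hz : (it.h.aw && (sumOf it.N it.val).z && decide (it.h.cor = .c2)) = true
      · refine ⟨0, Or.inl rfl, ?_⟩
        have := Beh.cons (M := mOpen a) (q := (2 : Fin 3)) (q' := (0 : Fin 3)) (p := OP.e) (p' := OP.e)
          (it := it) (h' := it.h) (h'' := it.h) (ann := 2) (op := .id)
          (by simp only [mOpen, hk, hz, cond_true])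
          (by simp [mOpen, hk]) (by simp) h1
        simpa [Op.app, Op.wt] using this
      · rw [Bool.not_eq_true] at hz
        refine ⟨2, Or.inr rfl, ?_⟩
        have := Beh.cons (M := mOpen a) (q := (2 : Fin 3)) (q' := (2 : Fin 3)) (p := OP.e) (p' := OP.e)
          (it := it) (h' := it.h) (h'' := it.h) (ann := 0) (op := .id)
          (by simp only [mOpen, hk, hz, cond_false])
          (by simp [mOpen, hk]) (by simp) h1
        simpa [Op.app, Op.wt] using this

theorem noZ_z {it : Item} (h : ¬ (it.h.aw = true ∧ it.val = 0)) :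
    (it.h.aw && (sumOf it.N it.val).z) = false := by
  rw [Bool.eq_false_iff]
  intro hh
  apply h
  simpa [sumOf] using hh

theorem mOpen_noZ (a : Bool) (w : List Item) (hw : NoZ w) (q : Fin 3) (hq : q = 0 ∨ q = 2)
    (p : OP) (hp : p = .lt ∨ p = .e) : (mOpen a).Beh w q q p p w 0 := by
  apply Beh.fix
  intro it hit
  obtain ⟨h1, -, h3⟩ := hw it hit
  have h4 := noZ_z h3
  rcases hq with rfl | rfl <;> rcases hp with rfl | rfl <;> simp [mOpen, h1, h4]

theorem mOpen_ge (a : Bool) (w : List Item) (hw : ClWord w) :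
    (mOpen a).Beh w (0 : Fin 3) (0 : Fin 3) OP.ge OP.ge w 0 := by
  apply Beh.fix
  intro it hit
  simp [mOpen, hw it hit]

theorem cuItem_zero (c : Cor) (s : Bool) (cm : Cmp) (N : ℕ) :
    cuItem c s cm N 0 = ⟨⟨.cu, c, s, cm, false, false, true⟩, N, 0⟩ := by
  simp [cuItem]

theorem mOpen_block (a : Bool) (s : Bool) (l r : BT) :
    ∃ q' : Fin 3, (mOpen a).Beh (encS (.node s l r) none) (1 : Fin 3) q' OP.first OP.out
      (foc1 s l r) 0 := by
  by_cases h : ht l < ht r
  · obtain ⟨q1, hq1, h1⟩ := mOpen_e a (encS r none) (encS_cl _ _) 2 (Or.inr rfl)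
    have hc := cmpN_lt h
    obtain ⟨q2, hq2, b2⟩ : ∃ q2 : Fin 3, (q2 = 0 ∨ q2 = 2) ∧ ∃ an : Ann, (mOpen a).A q1
        (clItem .c2 s .lt (min (ht l) (ht r)) true 0 false).h (sumOf (min (ht l) (ht r)) 0) =
        (q2, (clItem .c2 s .lt (min (ht l) (ht r)) true 0 false).h, an) := by
      rcases hq1 with rfl | rfl
      · exact ⟨0, Or.inl rfl, 0, by simp [mOpen, clItem]⟩
      · exact ⟨0, Or.inl rfl, 2, by simp [mOpen, clItem, sumOf]⟩
    obtain ⟨an, b2⟩ := b2
    refine ⟨q2, ?_⟩
    have e3 : (mOpen a).Beh [clItem .c3 s .lt (min (ht l) (ht r)) true 0 false] (1 : Fin 3) (2 : Fin 3)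
        OP.e OP.out [cuItem .c3 s .lt (min (ht l) (ht r)) 0] 0 := by
      have := Beh.single (M := mOpen a) (q := (1 : Fin 3)) (q' := (2 : Fin 3)) (p := OP.e) (p' := OP.out)
        (it := clItem .c3 s .lt (min (ht l) (ht r)) true 0 false)
        (h' := (clItem .c3 s .lt (min (ht l) (ht r)) true 0 false).h)
        (h'' := (cuItem .c3 s .lt (min (ht l) (ht r)) 0).h) (ann := 1) (op := .id)
        (by simp [mOpen, clItem]) (by simp [mOpen, clItem, cuItem]) (by simp)
      simpa [Op.app, Op.wt, cuItem, clItem] using this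
    have e2 := Beh.cons (M := mOpen a) (p := OP.lt) (p' := OP.e)
        (it := clItem .c2 s .lt (min (ht l) (ht r)) true 0 false)
        (h'' := (cuItem .c2 s .lt (min (ht l) (ht r)) 0).h) (op := .id)
        b2 (by simp [mOpen, clItem, cuItem, sumOf]) (by simp) (h1.append e3)
    have e1 := (mOpen_noZ a (enc l true 1) (enc_noZ _ _ _ (by simp)) q2 hq2 .lt (Or.inl rfl)).append e2
    have e0 := Beh.cons (M := mOpen a) (q' := q2) (p := OP.first) (p' := OP.lt)
        (it := clItem .c1 s .lt (min (ht l) (ht r)) true 0 false)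
        (h' := (clItem .c1 s .lt (min (ht l) (ht r)) true 0 false).h)
        (h'' := (cuItem .c1 s .lt (min (ht l) (ht r)) 0).h) (op := .id) (ann := 0)
        (by rcases hq2 with rfl | rfl <;> simp [mOpen, clItem]) (by simp [mOpen, clItem, cuItem])
        (by simp) e1
    simp only [encS, h, if_true, hc, prd, foc1, focG]
    simpa [Op.app, Op.wt, cuItem, clItem] using e0
  · have hc : cmpN (ht l) (ht r) ≠ .lt := by rwa [Ne, cmpN_eq_lt_iff]
    refine ⟨0, ?_⟩
    simp only [encS, h, if_false, prd, foc1, focG]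
    generalize cmpN (ht l) (ht r) = cm at hc
    generalize min (ht l) (ht r) = N
    have e3 : (mOpen a).Beh [clItem .c3 s cm N true 0 false] (1 : Fin 3) (2 : Fin 3)
        OP.e OP.out [cuItem .c3 s cm N 0] 0 := by
      have := Beh.single (M := mOpen a) (q := (1 : Fin 3)) (q' := (2 : Fin 3)) (p := OP.e) (p' := OP.out)
        (it := clItem .c3 s cm N true 0 false)
        (h' := (clItem .c3 s cm N true 0 false).h)
        (h'' := (cuItem .c3 s cm N 0).h) (ann := 1) (op := .id)
        (by simp [mOpen, clItem]) (by simp [mOpen, clItem, cuItem]) (by simp)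
      simpa [Op.app, Op.wt, cuItem, clItem] using this
    have e2 := Beh.cons (M := mOpen a) (p := OP.ge) (p' := OP.e) (q' := (0 : Fin 3))
        (it := clItem .c2 s cm N true 0 false) (h' := (clItem .c2 s cm N true 0 false).h)
        (h'' := (cuItem .c2 s cm N 0).h) (op := .id) (ann := 2)
        (by simp [mOpen, clItem, sumOf]) (by simp [mOpen, clItem, cuItem]) (by simp)
        ((mOpen_noZ a (enc r true 1) (enc_noZ _ _ _ (by simp)) 2 (Or.inr rfl) .e (Or.inr rfl)).append e3)
    have e1 := (mOpen_ge a (encS l none) (encS_cl _ _)).append e2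
    have e0 := Beh.cons (M := mOpen a) (q' := (0 : Fin 3)) (p := OP.first) (p' := OP.ge)
        (it := clItem .c1 s cm N true 0 false)
        (h' := (clItem .c1 s cm N true 0 false).h)
        (h'' := (cuItem .c1 s cm N 0).h) (op := .id) (ann := 0)
        (by simp [mOpen, clItem]) (by simp [mOpen, clItem, cuItem, hc])
        (by simp) e1
    simpa [Op.app, Op.wt, cuItem, clItem] using e0

/-- The block next to the opened one. -/
theorem mOpen_other (a : Bool) (t : BT) (ht0 : t ≠ .nil) :
    (mOpen a).Beh (encS t none) (0 : Fin 3) (0 : Fin 3) OP.ptr1 OP.out (encS t (some 0)) 0 := by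
  cases t with
  | nil => exact absurd rfl ht0
  | node s l r =>
    have key : ∀ (cm : Cmp) (N : ℕ) (w : List Item), ClSp w →
        (mOpen a).Beh (clItem .c1 s cm N true 0 false :: w) (0 : Fin 3) (0 : Fin 3) OP.ptr1 OP.out
          (clItem .c1 s cm N true 0 true :: w) 0 := by
      intro cm N w hw
      have := Beh.cons (M := mOpen a) (q' := (0 : Fin 3)) (p := OP.ptr1) (p' := OP.out)
        (it := clItem .c1 s cm N true 0 false)
        (h' := (clItem .c1 s cm N true 0 false).h)
        (h'' := (clItem .c1 s cm N true 0 true).h) (op := .id) (ann := 0)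
        (by simp [mOpen, clItem]) (by simp [mOpen, clItem]) (by simp) (mOpen_out a w hw)
      simpa [Op.app, Op.wt, clItem] using this
    have hcl : ∀ (c : Cor) (cm : Cmp) (N : ℕ), ClSp [clItem c s cm N true 0 false] := by
      intro c cm N it h
      rw [List.mem_singleton] at h
      subst h
      exact Or.inl rfl
    simp only [encS, prd, decide_true]
    split_ifs with h
    · refine key _ _ _ ?_
      exact (enc_cl _ _ _).clSp.append ((hcl _ _ _).append ((encS_cl _ _).clSp.append (hcl _ _ _)))
    · refine key _ _ _ ?_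
      exact (encS_cl _ _).clSp.append ((hcl _ _ _).append ((enc_cl _ _ _).clSp.append (hcl _ _ _)))

/-- The spine items which are made from cursor items. -/
theorem mOpen_cu (a : Bool) (c : Cor) (s : Bool) (cm : Cmp) (N : ℕ) (q : Fin 3) (p : OP) :
    (mOpen a).Beh [cuItem c s cm N 0] q (bif decide (c = bif a then Cor.c3 else .c2) then 1 else 0 : Fin 3) p
      (match c with
        | .c1 => bif a then (bif decide (cm = .gt) then OP.ptr1 else .out) else .first
        | .c2 => bif a then .first else (bif decide (cm = .lt) then .ptr1 else .out)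
        | .c3 => .out)
      [spItem c a s cm N true 1] 0 := by
  have h2 : (true && !decide (0 + 1 = 2 ^ N)) = decide (1 < 2 ^ N) := by
    rcases Nat.eq_zero_or_pos N with rfl | h
    · simp
    · have : 1 < 2 ^ N := Nat.one_lt_two_pow (by omega)
      simp [this, this.ne]
  have := Beh.single (M := mOpen a) (q := q)
    (q' := (bif decide (c = bif a then Cor.c3 else .c2) then 1 else 0 : Fin 3)) (p := p)
    (p' := (match c with
        | .c1 => bif a then (bif decide (cm = .gt) then OP.ptr1 else .out) else .first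
        | .c2 => bif a then .first else (bif decide (cm = .lt) then .ptr1 else .out)
        | .c3 => .out))
    (it := cuItem c s cm N 0)
    (h' := (cuItem c s cm N 0).h)
    (h'' := (spItem c a s cm N true 1).h) (op := .inc) (ann := 0)
    (by simp [mOpen, cuItem])
    (by rw [cuItem_zero]; cases c <;> simp only [mOpen, spItem, sumOf, h2]) (by simp)
  simpa [Op.app, Op.wt, cuItem, spItem] using this

theorem pw_one' : pw 1 = true := pw_two_pow 0

theorem runs_open (a : Bool) (c : List Fr) (p v k D m : ℕ) (s : Bool) (l r : BT) (s' : Bool)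
    (l' r' : BT) (h : (bif a then r else l) = .node s' l' r') :
    (mOpen a).Runs (WG c p v k D (foc s l r) m)
      (WG c p v k D (opened ⟨a, s, bif a then l else r⟩ (1 + max (ht l') (ht r'))
        (foc1 s' l' r')) m) 0 := by
  refine beh_WG (q := (0 : Fin 3)) (q' := (0 : Fin 3)) (pp := OP.out) (pp' := OP.out)
    (mOpen_out a _ (LpG_clSp _ _ _ _ _)) ?_ (mOpen_out a _ (RpG_clSp _ _ _ _ _)) ?_ rfl
  · obtain ⟨q1, h1⟩ := mOpen_block a s' l' r'
    rw [← h] at h1
    have hht : 1 + max (ht l') (ht r') = ht (bif a then r else l) := by rw [h, ht]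
    rw [hht]
    cases a with
    | false =>
      simp only [cond_false] at h1 ⊢
      have ho : (mOpen false).Beh (encS r none) (0 : Fin 3) (0 : Fin 3)
          (bif decide (cmpN (ht l) (ht r) = .lt) then OP.ptr1 else .out) OP.out
          (side ⟨false, s, r⟩ 0 (ht l)) 0 := by
        by_cases hlt : ht l < ht r
        · simp only [cmpN_lt hlt, side, hlt, if_true, decide_true, cond_true]
          exact mOpen_other _ _ (by rintro rfl; simp [ht] at hlt)
        · have hc : ¬ (cmpN (ht l) (ht r) = .lt) := by rwa [cmpN_eq_lt_iff]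
          simp only [hc, side, hlt, if_false, decide_false, cond_false]
          exact mOpen_out _ _ (encS_cl _ _).clSp
      have := (mOpen_cu false .c1 s (cmpN (ht l) (ht r)) (min (ht l) (ht r)) q1 .out).append
        (h1.append ((mOpen_cu false .c2 s (cmpN (ht l) (ht r)) (min (ht l) (ht r)) 0 .out).append
          (ho.append (mOpen_cu false .c3 s (cmpN (ht l) (ht r)) (min (ht l) (ht r)) 0 .out))))
      simpa [foc, focG, opened, lfr, rfr, frItem, spCmp, pw_one'] using this
    | true =>
      simp only [cond_true] at h1 ⊢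
      have ho : (mOpen true).Beh (encS l none) (0 : Fin 3) (0 : Fin 3)
          (bif decide (cmpN (ht l) (ht r) = .gt) then OP.ptr1 else .out) OP.out
          (side ⟨true, s, l⟩ 0 (ht r)) 0 := by
        by_cases hlt : ht r < ht l
        · simp only [cmpN_gt hlt, side, hlt, if_true, decide_true, cond_true]
          exact mOpen_other _ _ (by rintro rfl; simp [ht] at hlt)
        · have hc : ¬ (cmpN (ht l) (ht r) = .gt) := by rwa [cmpN_eq_gt_iff]
          simp only [hc, side, hlt, if_false, decide_false, cond_false]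
          exact mOpen_out _ _ (encS_cl _ _).clSp
      have hq : (mOpen true).Beh [cuItem .c2 s (cmpN (ht l) (ht r)) (min (ht l) (ht r)) 0] q1 (0 : Fin 3)
          OP.out OP.first [spItem .c2 true s (cmpN (ht l) (ht r)) (min (ht l) (ht r)) true 1] 0 := by
        simpa using mOpen_cu true .c2 s (cmpN (ht l) (ht r)) (min (ht l) (ht r)) q1 .out
      have := (mOpen_cu true .c1 s (cmpN (ht l) (ht r)) (min (ht l) (ht r)) 0 .out).append
        (ho.append (hq.append
          (h1.append (mOpen_cu true .c3 s (cmpN (ht l) (ht r)) (min (ht l) (ht r)) 0 .out))))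
      simpa [foc, focG, opened, lfr, rfr, frItem, spCmp, pw_one', min_comm] using this
  · apply Beh.fix
    intro it hit
    rw [List.mem_singleton] at hit
    subst hit
    simp [mOpen, zeItem]

/-! ## `mClose` -/

theorem mClose_fixL (w : List Item) (hw : ClSp w) :
    mClose.Beh w (3 : Fin 4) (3 : Fin 4) (0 : Fin 3) (0 : Fin 3) w 0 := by
  apply Beh.fix
  intro it hit
  rcases hw it hit with h | ⟨d, h⟩ <;> simp [mClose, h]

theorem mClose_fixR (w : List Item) (hw : ClSp w) :
    mClose.Beh w (0 : Fin 4) (0 : Fin 4) (2 : Fin 3) (2 : Fin 3) w 0 := by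
  apply Beh.fix
  intro it hit
  rcases hw it hit with h | ⟨d, h⟩ <;> simp [mClose, h]

theorem mClose_cl (w : List Item) (hw : ClWord w) (q : Fin 4) (p : Fin 3) :
    mClose.Beh w q q p p w 0 := by
  apply Beh.fix
  intro it hit
  simp [mClose, hw it hit]

/-- The spine items left of the cursor which become cursor items. -/
theorem mClose_spL (c : Cor) (f : Fr) (D : ℕ) (q : Fin 4) (hq : q = 1 ∨ q = 2) :
    mClose.Beh [frItem f c 1 1 D] q (bif decide (q = 1) && f.dir then 2 else 3 : Fin 4)
      (0 : Fin 3) (0 : Fin 3) [cuItem c f.s (spCmp f D) (min D (ht f.w)) 1] 0 := by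
  obtain ⟨dir, fs, w⟩ := f
  have := Beh.single (M := mClose) (q := q)
    (q' := (bif decide (q = 1) && dir then 2 else 3 : Fin 4)) (p := (0 : Fin 3)) (p' := (0 : Fin 3))
    (it := frItem ⟨dir, fs, w⟩ c 1 1 D)
    (h' := (cuItem c fs (spCmp ⟨dir, fs, w⟩ D) (min D (ht w)) 1).h)
    (h'' := (cuItem c fs (spCmp ⟨dir, fs, w⟩ D) (min D (ht w)) 1).h) (op := .id) (ann := 0)
    (by rcases hq with rfl | rfl <;> cases dir <;> simp [mClose, cuItem, frItem, spItem])
    (by simp [mClose, cuItem]) (by simp)
  simpa [Op.app, Op.wt, cuItem, frItem, spItem] using this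

/-- The spine items right of the cursor which become cursor items. -/
theorem mClose_spR (c : Cor) (f : Fr) (D : ℕ) :
    mClose.Beh [frItem f c 1 1 D] (0 : Fin 4) (0 : Fin 4)
      (1 : Fin 3) (bif decide (c = .c3) then 2 else 1 : Fin 3)
      [cuItem c f.s (spCmp f D) (min D (ht f.w)) 1] 0 := by
  have := Beh.single (M := mClose) (q := (0 : Fin 4)) (q' := (0 : Fin 4)) (p := (1 : Fin 3))
    (p' := (bif decide (c = .c3) then 2 else 1 : Fin 3))
    (it := frItem f c 1 1 D) (h' := (frItem f c 1 1 D).h)
    (h'' := (cuItem c f.s (spCmp f D) (min D (ht f.w)) 1).h) (op := .id) (ann := 0)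
    (by simp [mClose, frItem, spItem])
    (by simp [mClose, cuItem, frItem, spItem]) (by simp)
  simpa [Op.app, Op.wt, cuItem, frItem, spItem] using this

/-- The old cursor items which become closed. -/
theorem mClose_cu12 (c : Cor) (s : Bool) (cm : Cmp) (N : ℕ) (q : Fin 4) (hc : c ≠ .c3) :
    mClose.Beh [cuItem c s cm N 0] q (bif decide (c = .c1) then 1 else q : Fin 4)
      (0 : Fin 3) (0 : Fin 3) [clItem c s cm N true 0 false] 0 := by
  have := Beh.single (M := mClose) (q := q)
    (q' := (bif decide (c = .c1) then 1 else q : Fin 4)) (p := (0 : Fin 3)) (p' := (0 : Fin 3))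
    (it := cuItem c s cm N 0) (h' := (clItem c s cm N true 0 false).h)
    (h'' := (clItem c s cm N true 0 false).h) (op := .id) (ann := 0)
    (by cases c <;> simp [mClose, cuItem, clItem] at hc ⊢)
    (by simp [mClose, clItem]) (by simp)
  simpa [Op.app, Op.wt, cuItem, clItem] using this

theorem mClose_cu3 (s : Bool) (cm : Cmp) (N : ℕ) (q : Fin 4) :
    mClose.Beh [cuItem .c3 s cm N 0] q q
      (0 : Fin 3) (1 : Fin 3) [clItem .c3 s cm N true 0 false] 0 := by
  have := Beh.single (M := mClose) (q := q) (q' := q) (p := (0 : Fin 3)) (p' := (1 : Fin 3))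
    (it := cuItem .c3 s cm N 0) (h' := (cuItem .c3 s cm N 0).h)
    (h'' := (clItem .c3 s cm N true 0 false).h) (op := .id) (ann := 1)
    (by simp [mClose, cuItem])
    (by simp [mClose, clItem, cuItem]) (by simp)
  simpa [Op.app, Op.wt, cuItem, clItem] using this

/-- The old focus becomes a closed block. -/
theorem mClose_foc (s : Bool) (l r : BT) :
    mClose.Beh (foc1 s l r) (0 : Fin 4) (1 : Fin 4) (0 : Fin 3) (1 : Fin 3)
      (encS (.node s l r) none) 0 := by
  have h1 := mClose_cu12 .c1 s (cmpN (ht l) (ht r)) (min (ht l) (ht r)) 0 (by simp)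
  have h2 := mClose_cu12 .c2 s (cmpN (ht l) (ht r)) (min (ht l) (ht r)) 0 (by simp)
  have h3 := mClose_cu3 s (cmpN (ht l) (ht r)) (min (ht l) (ht r)) 0
  simp only [foc1, focG, encS, prd]
  split_ifs with h
  · have := h1.append ((mClose_cl (enc l true 1) (enc_cl _ _ _) 0 0).append
      (h2.append ((mClose_cl (encS r none) (encS_cl _ _) 0 0).append h3)))
    simpa using this
  · have := h1.append ((mClose_cl (encS l none) (encS_cl _ _) 0 0).append
      (h2.append ((mClose_cl (enc r true 1) (enc_cl _ _ _) 0 0).append h3)))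
    simpa using this

theorem runs_close (f : Fr) (c : List Fr) (p v k D m : ℕ) (s : Bool) (l r : BT) :
    mClose.Runs (WG c p v k D (opened f (1 + max (ht l) (ht r)) (foc1 s l r)) m)
      (WG c p v k D (closing f (1 + max (ht l) (ht r)) (encS (.node s l r) none)) m) 0 := by
  refine beh_WG (q := (0 : Fin 4)) (q' := (3 : Fin 4)) (pp := (0 : Fin 3)) (pp' := (2 : Fin 3))
    (mClose_fixL _ (LpG_clSp _ _ _ _ _)) ?_ (mClose_fixR _ (RpG_clSp _ _ _ _ _)) ?_ rfl
  · obtain ⟨D, hD⟩ : ∃ D, D = 1 + max (ht l) (ht r) := ⟨_, rfl⟩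
    rw [← hD]
    have hf := mClose_foc s l r
    obtain ⟨dir, fs, w⟩ := f
    cases dir with
    | false =>
      have h1 := mClose_spL .c1 ⟨false, fs, w⟩ D 1 (Or.inl rfl)
      have h2 := mClose_spR .c2 ⟨false, fs, w⟩ D
      have h3 := mClose_spR .c3 ⟨false, fs, w⟩ D
      have := h1.append (hf.append (h2.append ((mClose_cl _ (oc_side_cl ⟨false, fs, w⟩ 0 D) 0 1).append h3)))
      simpa [opened, closing, lfr, rfr, focG] using this
    | true =>
      have h1 := mClose_spL .c1 ⟨true, fs, w⟩ D 2 (Or.inr rfl)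
      have h2 := mClose_spL .c2 ⟨true, fs, w⟩ D 1 (Or.inl rfl)
      have h3 := mClose_spR .c3 ⟨true, fs, w⟩ D
      have := h1.append ((mClose_cl _ (oc_side_cl ⟨true, fs, w⟩ 0 D) 2 0).append (h2.append (hf.append h3)))
      simpa [opened, closing, lfr, rfr, focG] using this
  · apply Beh.fix
    intro it hit
    rw [List.mem_singleton] at hit
    subst hit
    simp [mClose, zeItem]

end Pool.Agent.W_MP_1173fd_al
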