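import Pool.Agent.W_MP_1173fd_al.Run
import Pool.Agent.W_MP_1173fd_al.States

/-!
# Removing a leaf (`mPrune`)
-/

namespace Pool.Agent.W_MP_1173fd_al

namespace Pr

/-- Nothing is changed on `w`, the right-to-left scan stays in a set of states. -/
theorem keep {M : Mach} (Φ : M.Q → Prop) (p : M.P) (w : List Item)
    (h : ∀ it ∈ w, ∀ q, Φ q → ∃ q' ann, Φ q' ∧ M.A q it.h (sumOf it.N it.val) = (q', it.h, ann) ∧
      M.B p it.h (sumOf it.N it.val) ann = (p, it.h, .id, false)) (q : M.Q) (hq : Φ q) :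
    ∃ q', Φ q' ∧ M.Beh w q q' p p w 0 := by
  induction w with
  | nil => exact ⟨q, hq, Mach.Beh.nil⟩
  | cons a w ih =>
    obtain ⟨q1, hq1, h1⟩ := ih (fun it hit => h it (by simp [hit]))
    obtain ⟨q2, ann, hq2, hA, hB⟩ := h a (by simp) q1 hq1
    refine ⟨q2, hq2, ?_⟩
    have := Mach.Beh.cons (op := .id) hA hB (by simp) h1
    simpa [Op.app, Op.wt] using this

/-! ### Marking the second `z1` item -/

/-- Pure version of the marking pass. -/
def mkF (mk : Bool) (z : Fin 3) (it : Item) : Fin 3 × Item :=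
  (bif z1 it.h (sumOf it.N it.val) then sc z else z,
    ⟨{ it.h with ptr := it.h.ptr || (mk && decide ((bif z1 it.h (sumOf it.N it.val) && decide (z = 1)
      then (1 : Ann) else 0) = 1)) }, it.N, it.val⟩)

theorem beh_mk {M : Mach} (φ : Fin 3 → M.Q) (p : M.P) (mk : Bool) (w : List Item) (hw : ClWord w)
    (hA : ∀ z h s, h.kind = .cl → M.A (φ z) h s =
      (φ (bif z1 h s then sc z else z), h, bif z1 h s && decide (z = 1) then 1 else 0))
    (hB : ∀ h s ann, h.kind = .cl → M.B p h s ann =
      (p, { h with ptr := h.ptr || (mk && decide (ann = 1)) }, .id, false)) (z : Fin 3) :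
    M.Beh w (φ z) (φ (rmealy (mkF mk) z w).1) p p (rmealy (mkF mk) z w).2 0 := by
  induction w generalizing z with
  | nil => exact Mach.Beh.nil
  | cons a w ih =>
    have h1 := ih (fun it hit => hw it (by simp [hit])) z
    have ha : a.h.kind = .cl := hw a (by simp)
    have := Mach.Beh.cons (op := .id) (hA _ a.h (sumOf a.N a.val) ha)
      (hB a.h (sumOf a.N a.val) _ ha) (by simp) h1
    simpa [rmealy, mkF, Op.app, Op.wt] using this

theorem mkF_noZ (mk : Bool) (z : Fin 3) (it : Item) (h : ¬ (it.h.aw = true ∧ it.val = 0)) :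
    mkF mk z it = (z, it) := by
  have h3 : (it.h.aw && decide (it.val = 0)) = false := by
    rw [Bool.eq_false_iff]
    intro hh
    apply h
    simpa using hh
  simp [mkF, z1, sumOf, h3]

theorem rmealy_mk_noZ (mk : Bool) (z : Fin 3) (w : List Item) (h : NoZ w) :
    rmealy (mkF mk) z w = (z, w) :=
  rmealy_fix _ _ _ fun it hit => mkF_noZ mk z it (h it hit).2.2

theorem mkF_c2 (mk : Bool) (z : Fin 3) (s : Bool) (cm : Cmp) (N : ℕ) :
    mkF mk z (clItem .c2 s cm N true 0 false) = (z, clItem .c2 s cm N true 0 false) := by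
  simp [mkF, z1, clItem]

theorem mkF_c3 (mk : Bool) (z : Fin 3) (s : Bool) (cm : Cmp) (N : ℕ) :
    mkF mk z (clItem .c3 s cm N true 0 false) = (z, clItem .c3 s cm N true 0 false) := by
  simp [mkF, z1, clItem]

theorem mkF_c1 (mk : Bool) (z : Fin 3) (s : Bool) (cm : Cmp) (N : ℕ) (b : Bool) :
    mkF mk z (clItem .c1 s cm N true 0 b) = (sc z, clItem .c1 s cm N true 0 (b || (mk && decide (z = 1)))) := by
  by_cases hz : z = 1 <;> simp [mkF, z1, clItem, sumOf, hz]

theorem mkF_false (z : Fin 3) (it : Item) : (mkF false z it).2 = it := by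
  simp [mkF]

theorem rmealy_mk_false (z : Fin 3) (w : List Item) : (rmealy (mkF false) z w).2 = w := by
  induction w with
  | nil => rfl
  | cons a w ih => simp [rmealy, mkF_false, ih]

/-- Counter after a block. -/
def cnt : ℕ → Fin 3
  | 0 => 0
  | n + 1 => sc (cnt n)

theorem cnt_eq_one (n : ℕ) : cnt n = 1 ↔ n = 1 := by
  have h2 : ∀ n, cnt (n + 2) = 2 := by
    intro n
    induction n with
    | zero => rfl
    | succ n ih => rw [cnt, ih]; rfl
  rcases n with _ | _ | n
  · simp [cnt]
  · simp [cnt, sc]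
  · rw [h2]
    simp

theorem rmealy_mk_encS (t : BT) : rmealy (mkF true) 0 (encS t none) =
    (cnt (ht t), encS t (if 2 ≤ ht t then some (ht t - 2) else none)) := by
  induction t with
  | nil => simp [encS, rmealy, ht, cnt]
  | node s l r ihl ihr =>
    have e1 : ∀ b, rmealy (mkF true) b (enc l true 1) = (b, enc l true 1) := fun b =>
      rmealy_mk_noZ _ _ _ (enc_noZ _ _ _ (by simp))
    have e2 : ∀ b, rmealy (mkF true) b (enc r true 1) = (b, enc r true 1) := fun b =>
      rmealy_mk_noZ _ _ _ (enc_noZ _ _ _ (by simp))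
    have hp : ∀ m : ℕ, prd (if 2 ≤ 1 + m then some (1 + m - 2) else none) =
        if 2 ≤ m then some (m - 2) else none := by
      intro m
      rcases m with _ | _ | m
      · simp [prd]
      · simp [prd]
      · have h1 : 1 + (m + 2) - 2 = m + 1 := by omega
        rw [if_pos (by omega), if_pos (by omega), h1]
        simp [prd]
    have hz : ∀ m : ℕ, decide ((if 2 ≤ 1 + m then some (1 + m - 2) else none) = some 0) =
        decide (cnt m = 1) := by
      intro m
      rw [decide_eq_decide, cnt_eq_one]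
      rcases m with _ | _ | m
      · simp
      · simp
      · have : 1 + (m + 2) - 2 = m + 1 := by omega
        simp [this]
    have hnone : decide ((none : Option ℕ) = some 0) = false := by simp
    by_cases hlr : ht l < ht r
    · have hm : max (ht l) (ht r) = ht r := max_eq_right hlr.le
      have hc : cnt (1 + ht r) = sc (cnt (ht r)) := by rw [Nat.add_comm]; rfl
      simp only [encS, ht, hlr, if_true, hm, hnone, hc]
      rw [hp, hz]
      simp only [prd, rmealy, rmealy_append, mkF_c3, mkF_c2, mkF_c1, e1, ihr]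
      simp
    · have hm : max (ht l) (ht r) = ht l := max_eq_left (not_lt.1 hlr)
      have hc : cnt (1 + ht l) = sc (cnt (ht l)) := by rw [Nat.add_comm]; rfl
      simp only [encS, ht, hlr, if_false, hm, hnone, hc]
      rw [hp, hz]
      simp only [prd, rmealy, rmealy_append, mkF_c3, mkF_c2, mkF_c1, e2, ihl]
      simp

/-! ### Frame items -/

/-- The comparison update of higher frames. -/
def upd (h : Hdr) (s : Sum) : Hdr := { h with cmp := bif h.aw && s.eqN then .eq else h.cmp }

theorem spCmp_high {f : Fr} {v : ℕ} (hw : ht f.w ≤ v) : spCmp f (v + 1) = hi f.dir := by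
  unfold spCmp hi
  cases f.dir
  · simp [cmpN_gt (show ht f.w < v + 1 by omega)]
  · simp [cmpN_lt (show ht f.w < v + 1 by omega)]

theorem spCmp_high' {f : Fr} {v : ℕ} (hw : ht f.w ≤ v) :
    spCmp f v = bif decide (v = ht f.w) then .eq else hi f.dir := by
  unfold spCmp hi
  rcases Nat.lt_or_ge (ht f.w) v with h | h
  · have : ¬ (v = ht f.w) := by omega
    cases f.dir
    · simp [cmpN_gt h, this]
    · simp [cmpN_lt h, this]
  · have h' : v = ht f.w := by omega
    have h2 : cmpN (ht f.w) (ht f.w) = .eq := cmpN_eq rfl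
    cases f.dir
    · simp [h2, h']
    · simp [h2, h']

theorem eqN_iff (v N : ℕ) : (decide (v < 2 ^ N) && decide (v % 2 ^ (N + 1) = N)) = decide (v = N) := by
  rw [← Bool.decide_and, decide_eq_decide]
  constructor
  · rintro ⟨h1, h2⟩
    have h3 : v < 2 ^ (N + 1) := h1.trans (Nat.pow_lt_pow_right (by norm_num) (by omega))
    rwa [Nat.mod_eq_of_lt h3] at h2
  · rintro rfl
    have h1 : v < 2 ^ v := Nat.lt_two_pow_self
    have h3 : v < 2 ^ (v + 1) := h1.trans (Nat.pow_lt_pow_right (by norm_num) (by omega))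
    exact ⟨h1, Nat.mod_eq_of_lt h3⟩

theorem fr_high {f : Fr} {v : ℕ} (hw : ht f.w ≤ v) (cr : Cor) (p : ℕ) :
    (⟨upd (frItem f cr p v (v + 1)).h (sumOf (frItem f cr p v (v + 1)).N (frItem f cr p v (v + 1)).val),
      (frItem f cr p v (v + 1)).N, (frItem f cr p v (v + 1)).val⟩ : Item) = frItem f cr p v v := by
  have h1 : min (v + 1) (ht f.w) = ht f.w := by omega
  have h2 : min v (ht f.w) = ht f.w := by omega
  unfold frItem
  rw [spCmp_high hw, spCmp_high' hw, h1, h2]
  have h3 := congrArg (fun b => bif b then Cmp.eq else hi f.dir) (eqN_iff v (ht f.w))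
  simp only [spItem, upd, sumOf]
  exact congrArg (fun c => (⟨⟨.sp f.dir, cr, f.s, c, pw p, false, decide (v < 2 ^ ht f.w)⟩, ht f.w,
    v % 2 ^ (ht f.w + 1)⟩ : Item)) h3

theorem fr_star {f : Fr} {v : ℕ} (hw : v < ht f.w) (cr : Cor) (p : ℕ) :
    (⟨{ (frItem f cr p v (v + 1)).h with cmp := lo f.dir },
      (Op.shrink.app (frItem f cr p v (v + 1)).N (frItem f cr p v (v + 1)).val).1,
      (Op.shrink.app (frItem f cr p v (v + 1)).N (frItem f cr p v (v + 1)).val).2⟩ : Item) =
        frItem f cr p v v := by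
  have h1 : min (v + 1) (ht f.w) = v + 1 := by omega
  have h2 : min v (ht f.w) = v := by omega
  have h3 : spCmp f v = lo f.dir := by
    unfold spCmp lo
    cases f.dir
    · simp [cmpN_lt hw]
    · simp [cmpN_gt hw]
  have h4 : v < 2 ^ v := Nat.lt_two_pow_self
  have h5 : v < 2 ^ (v + 1) := h4.trans (Nat.pow_lt_pow_right (by norm_num) (by omega))
  have h6 : v < 2 ^ (v + 1 + 1) := h5.trans (Nat.pow_lt_pow_right (by norm_num) (by omega))
  unfold frItem
  rw [h1, h2, h3]
  simp only [spItem, Op.app, Nat.mod_eq_of_lt h6, Nat.mod_eq_of_lt h5, decide_eq_true h4,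
    decide_eq_true h5]

theorem highC_hi {f : Fr} {v : ℕ} (hw : ht f.w ≤ v) : highC f.dir (spCmp f (v + 1)) = true := by
  rw [spCmp_high hw]
  unfold highC hi
  cases f.dir <;> simp

theorem highC_lo {f : Fr} {v : ℕ} (hw : v < ht f.w) : highC f.dir (spCmp f (v + 1)) = false := by
  unfold highC spCmp
  cases f.dir
  · simp [cmpN_eq_gt_iff]; omega
  · simp [cmpN_eq_lt_iff]; omega

theorem cmp_eq_iff {f : Fr} {v : ℕ} : decide (spCmp f (v + 1) = .eq) = decide (ht f.w = v + 1) := by
  rw [decide_eq_decide]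
  unfold spCmp
  cases f.dir
  · simp [cmpN_eq_eq_iff]; omega
  · simp [cmpN_eq_eq_iff]

theorem side_high {f : Fr} {v : ℕ} (hw : ht f.w ≤ v) (k : ℕ) : side f k (v + 1) = side f k v := by
  unfold side
  rw [if_neg (by omega), if_neg (by omega)]

theorem side_star {f : Fr} {v : ℕ} (hw : v < ht f.w) (hv : 1 ≤ v) :
    (if decide (ht f.w = v + 1) then encS f.w (if 2 ≤ ht f.w then some (ht f.w - 2) else none)
      else side f (v - 1) (v + 1)) = side f (v - 1) v := by
  unfold side
  rw [if_pos hw]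
  by_cases h : ht f.w = v + 1
  · have h2 : ht f.w - 2 = v - 1 := by omega
    rw [if_pos (by simpa using h), if_pos (by omega), h2]
  · rw [if_neg (by simpa using h), if_pos (by omega)]

theorem side_cl (f : Fr) (k D : ℕ) : ClWord (side f k D) := encS_cl _ _

/-- Marking (or not) of the side block of the star. -/
theorem side_mark {M : Mach} (φ : Fin 3 → M.Q) (p : Bool → M.P) (f : Fr) {v : ℕ} (hw : v < ht f.w)
    (hv : 1 ≤ v)
    (hA : ∀ z h s, h.kind = .cl → M.A (φ z) h s =
      (φ (bif z1 h s then sc z else z), h, bif z1 h s && decide (z = 1) then 1 else 0))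
    (hB : ∀ mk h s ann, h.kind = .cl → M.B (p mk) h s ann =
      (p mk, { h with ptr := h.ptr || (mk && decide (ann = 1)) }, .id, false)) :
    ∃ z', M.Beh (side f (v - 1) (v + 1)) (φ 0) (φ z') (p (decide (ht f.w = v + 1)))
      (p (decide (ht f.w = v + 1))) (side f (v - 1) v) 0 := by
  have h1 := beh_mk φ (p (decide (ht f.w = v + 1))) (decide (ht f.w = v + 1))
    (side f (v - 1) (v + 1)) (side_cl f _ _) hA (hB _) 0
  refine ⟨(rmealy (mkF (decide (ht f.w = v + 1))) 0 (side f (v - 1) (v + 1))).1, ?_⟩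
  have h3 : (rmealy (mkF (decide (ht f.w = v + 1))) 0 (side f (v - 1) (v + 1))).2 = side f (v - 1) v := by
    rw [← side_star hw hv]
    by_cases h : ht f.w = v + 1
    · rw [if_pos (by simpa using h)]
      have h2 : side f (v - 1) (v + 1) = encS f.w none := by
        unfold side
        rw [if_neg (by omega)]
      rw [h2, decide_eq_true h, rmealy_mk_encS]
    · rw [if_neg (by simpa using h), decide_eq_false h, rmealy_mk_false]
  rwa [h3] at h1

/-! ### Right part of the context -/

theorem R_keep (a : Bool) (p : (mPrune a).P) (w : List Item) (hw : ∀ it ∈ w, it.h.kind ≠ .cu)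
    (hp : ∀ it ∈ w, ∀ s ann, (mPrune a).B p it.h s ann = (p, it.h, .id, false)) (z : Fin 3) :
    ∃ z', (mPrune a).Beh w (.R z) (.R z') p p w 0 := by
  obtain ⟨q', ⟨z', rfl⟩, h⟩ := keep (M := mPrune a) (fun q => ∃ z, q = PQ.R z) p w (by
    rintro it hit q ⟨z, rfl⟩
    have h1 := hw it hit
    have h2 := hp it hit (sumOf it.N it.val)
    obtain ⟨⟨kd, cr, lm, cm, P, pt, aw⟩, N, val⟩ := it
    cases kd with
    | cl => exact ⟨_, _, ⟨_, rfl⟩, rfl, h2 _⟩
    | sp d => exact ⟨_, _, ⟨_, rfl⟩, rfl, h2 _⟩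
    | cu => exact absurd rfl h1
    | ze => exact ⟨_, _, ⟨_, rfl⟩, rfl, h2 _⟩) (.R z) ⟨z, rfl⟩
  exact ⟨z', h⟩

theorem frItem_kind (f : Fr) (c : Cor) (p v D : ℕ) : (frItem f c p v D).h.kind = .sp f.dir := rfl
theorem frItem_cor (f : Fr) (c : Cor) (p v D : ℕ) : (frItem f c p v D).h.cor = c := rfl
theorem frItem_cmp (f : Fr) (c : Cor) (p v D : ℕ) : (frItem f c p v D).h.cmp = spCmp f D := rfl

theorem lfr_kind (f : Fr) (p v k D : ℕ) : ∀ it ∈ lfr f p v k D, it.h.kind = .cl ∨ ∃ d, it.h.kind = .sp d := by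
  intro it hit
  unfold lfr at hit
  cases hd : f.dir
  · rw [hd] at hit
    simp only [cond_false, List.mem_singleton] at hit
    subst hit
    exact Or.inr ⟨_, frItem_kind ..⟩
  · rw [hd] at hit
    simp only [cond_true, List.mem_cons, List.mem_append, List.mem_nil_iff, or_false] at hit
    rcases hit with rfl | h | rfl
    · exact Or.inr ⟨_, frItem_kind ..⟩
    · exact Or.inl (side_cl _ _ _ _ h)
    · exact Or.inr ⟨_, frItem_kind ..⟩

theorem rfr_kind (f : Fr) (p v k D : ℕ) : ∀ it ∈ rfr f p v k D, it.h.kind = .cl ∨ ∃ d, it.h.kind = .sp d := by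
  intro it hit
  unfold rfr at hit
  cases hd : f.dir
  · rw [hd] at hit
    simp only [cond_false, List.mem_cons, List.mem_append, List.mem_nil_iff, or_false] at hit
    rcases hit with rfl | h | rfl
    · exact Or.inr ⟨_, frItem_kind ..⟩
    · exact Or.inl (side_cl _ _ _ _ h)
    · exact Or.inr ⟨_, frItem_kind ..⟩
  · rw [hd] at hit
    simp only [cond_true, List.mem_singleton] at hit
    subst hit
    exact Or.inr ⟨_, frItem_kind ..⟩

theorem LpG_kind (c : List Fr) (p v k D : ℕ) :
    ∀ it ∈ LpG c p v k D, it.h.kind = .cl ∨ ∃ d, it.h.kind = .sp d := by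
  induction c generalizing p v k D with
  | nil => intro it hit; simp [LpG] at hit
  | cons f c ih =>
    intro it hit
    simp only [LpG, List.mem_append] at hit
    rcases hit with h | h
    · exact ih _ _ _ _ it h
    · exact lfr_kind _ _ _ _ _ it h

theorem RpG_kind (c : List Fr) (p v k D : ℕ) :
    ∀ it ∈ RpG c p v k D, it.h.kind = .cl ∨ ∃ d, it.h.kind = .sp d := by
  induction c generalizing p v k D with
  | nil => intro it hit; simp [RpG] at hit
  | cons f c ih =>
    intro it hit
    simp only [RpG, List.mem_append] at hit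
    rcases hit with h | h
    · exact rfr_kind _ _ _ _ _ it h
    · exact ih _ _ _ _ it h

theorem R_S (a : Bool) (c : List Fr) (p v k D : ℕ) (z : Fin 3) :
    ∃ z', (mPrune a).Beh (RpG c p v k D) (.R z) (.R z') .S .S (RpG c p v k D) 0 :=
  R_keep a .S _ (fun it hit => by
    rcases RpG_kind _ _ _ _ _ it hit with h | ⟨d, h⟩ <;> rw [h] <;> simp) (fun it _ s ann => rfl) z

theorem fr_R_high (a : Bool) {f : Fr} {v : ℕ} (hw : ht f.w ≤ v) (p k : ℕ) (z : Fin 3) :
    (mPrune a).Beh (rfr f p v k (v + 1)) (.R z) (.R 0) .Rt .Rt (rfr f p v k v) 0 := by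
  have hc := highC_hi hw
  have hi1 := fun cr p => fr_high hw cr p
  have hsd := side_high hw k
  obtain ⟨d, s, w⟩ := f
  unfold rfr
  rw [← hsd]
  cases d
  · simp only [cond_false]
    obtain ⟨z', hs⟩ := R_keep a .Rt (side ⟨false, s, w⟩ k (v + 1)) (fun it hit => by
      rw [side_cl _ _ _ it hit]; simp) (fun it hit s ann => by
        have := side_cl _ _ _ it hit
        simp only [mPrune, this]) 0
    have h3 : (mPrune a).Beh [frItem ⟨false, s, w⟩ .c3 p v (v + 1)] (.R z) (.R 0) .Rt .Rt
        [frItem ⟨false, s, w⟩ .c3 p v v] 0 := by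
      rw [← hi1]
      exact Mach.Beh.single (M := mPrune a) (it := frItem ⟨false, s, w⟩ .c3 p v (v + 1))
        (h' := (frItem ⟨false, s, w⟩ .c3 p v (v + 1)).h) (ann := 0) (op := .id) rfl rfl (by simp)
    have h2 := Mach.Beh.append hs h3
    rw [← hi1 .c2]
    exact Mach.Beh.cons (M := mPrune a) (it := frItem ⟨false, s, w⟩ .c2 p v (v + 1))
        (h' := (frItem ⟨false, s, w⟩ .c2 p v (v + 1)).h) (ann := 0) (op := .id) rfl
        (by simp only [mPrune, frItem_kind, frItem_cor, cond_false, frItem_cmp, hc, cond_true]; rfl)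
        (by simp) h2
  · simp only [cond_true]
    rw [← hi1]
    exact Mach.Beh.single (M := mPrune a) (it := frItem ⟨true, s, w⟩ .c3 p v (v + 1))
        (h' := (frItem ⟨true, s, w⟩ .c3 p v (v + 1)).h) (ann := 0) (op := .id) rfl
        (by simp only [mPrune, frItem_kind, frItem_cor, cond_false, frItem_cmp, hc, cond_true]; rfl)
        (by simp)

theorem fr_R_star (a : Bool) {f : Fr} {v : ℕ} (hw : v < ht f.w) (hv : 1 ≤ v) (p : ℕ) (z : Fin 3) :
    ∃ k ≤ 2, (mPrune a).Beh (rfr f p v (v - 1) (v + 1)) (.R z) (.R 0) .Rt .S (rfr f p v (v - 1) v) k := by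
  have hc := highC_lo hw
  have hi1 := fun cr p => fr_star hw cr p
  have hmk := side_mark (M := mPrune a) (φ := PQ.R) (p := PP.St) f hw hv
    (by intro z h s hh; simp only [mPrune, hh]) (by intro mk h s ann hh; simp only [mPrune, hh])
  have hce := cmp_eq_iff (f := f) (v := v)
  obtain ⟨d, s, w⟩ := f
  unfold rfr
  cases d
  · simp only [cond_false]
    obtain ⟨z', hs⟩ := hmk
    rw [← hce] at hs
    have h3 : (mPrune a).Beh [frItem ⟨false, s, w⟩ .c3 p v (v + 1)] (.R z) (.R 0)
        (.St (decide (spCmp ⟨false, s, w⟩ (v + 1) = .eq))) .S [frItem ⟨false, s, w⟩ .c3 p v v] 1 := by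
      rw [← hi1]
      exact Mach.Beh.single (M := mPrune a) (it := frItem ⟨false, s, w⟩ .c3 p v (v + 1))
        (h' := (frItem ⟨false, s, w⟩ .c3 p v (v + 1)).h) (ann := 0) (op := .shrink) rfl rfl (by simp)
    have h2 := Mach.Beh.append hs h3
    refine ⟨_, le_refl 2, ?_⟩
    rw [← hi1 .c2]
    have := Mach.Beh.cons (M := mPrune a) (q' := .R 0) (p := .Rt) (it := frItem ⟨false, s, w⟩ .c2 p v (v + 1))
        (h' := (frItem ⟨false, s, w⟩ .c2 p v (v + 1)).h) (ann := 0) (op := .shrink) rfl
        (by simp only [mPrune, frItem_kind, frItem_cor, cond_false, frItem_cmp, hc]; rfl)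
        (by simp) h2
    exact this
  · simp only [cond_true]
    refine ⟨1, by norm_num, ?_⟩
    rw [← hi1]
    exact Mach.Beh.single (M := mPrune a) (it := frItem ⟨true, s, w⟩ .c3 p v (v + 1))
        (h' := (frItem ⟨true, s, w⟩ .c3 p v (v + 1)).h) (ann := 0) (op := .shrink) rfl
        (by simp only [mPrune, frItem_kind, frItem_cor, cond_false, frItem_cmp, hc, cond_true])
        (by simp)

theorem R_B (a : Bool) (c : List Fr) (p v : ℕ) (hv : 1 ≤ v) (z : Fin 3) :
    ∃ z' p' k, k ≤ 2 ∧ (p' = PP.Rt ∨ p' = PP.S) ∧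
      (mPrune a).Beh (RpG c p v (v - 1) (v + 1)) (.R z) (.R z') .Rt p' (RpG c p v (v - 1) v) k := by
  induction c generalizing p v z with
  | nil => exact ⟨z, .Rt, 0, by norm_num, Or.inl rfl, Mach.Beh.nil⟩
  | cons f c ih =>
    have e1 : v - 1 + 1 = v + 1 - 1 := by omega
    rcases Nat.lt_or_ge v (ht f.w) with hw | hw
    · have u1 : up1 f (v + 1) = up1 f v := by simp only [up1]; omega
      obtain ⟨z', h1⟩ := R_S a c (p + 1) (v + 1) (v - 1 + 1) (up1 f v) z
      obtain ⟨k, hk, h2⟩ := fr_R_star a hw hv p z'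
      refine ⟨0, .S, k + 0, by omega, Or.inr rfl, ?_⟩
      simp only [RpG, u1]
      exact Mach.Beh.append h2 h1
    · have u1 : up1 f (v + 1) = v + 1 + 1 := by simp only [up1]; omega
      have u2 : up1 f v = v + 1 := by simp only [up1]; omega
      obtain ⟨z', p', k, hk, hp', h1⟩ := ih (p + 1) (v + 1) (by omega) z
      have h2 := fr_R_high a hw p (v - 1) z'
      refine ⟨0, p', 0 + k, by omega, hp', ?_⟩
      simp only [RpG, u1, u2, e1]
      exact Mach.Beh.append h2 h1

/-! ### Left part of the context -/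

theorem L_keep (a : Bool) (q : (mPrune a).Q) (cB : Bool) (w : List Item)
    (hw : ∀ it ∈ w, it.h.kind = .cl ∨ ∃ d, it.h.kind = .sp d)
    (hq : ∀ it ∈ w, ∀ s, (mPrune a).A q it.h s = (q, it.h, 0)) :
    (mPrune a).Beh w q q (.L cB false) (.L cB false) w 0 := by
  apply Mach.Beh.fix
  intro it hit
  refine ⟨hq it hit _, ?_⟩
  obtain ⟨⟨kd, cr, lm, cm, P, pt, aw⟩, N, val⟩ := it
  rcases hw _ hit with h | ⟨d, h⟩
  · simp only at h
    subst h
    simp [mPrune]
  · simp only at h
    subst h
    simp [mPrune]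

theorem fr_L_high (a : Bool) {f : Fr} {v : ℕ} (hw : ht f.w ≤ v) (p k : ℕ) :
    (mPrune a).Beh (lfr f p v k (v + 1)) .L .L (.L true false) (.L true false) (lfr f p v k v) 0 := by
  have hc := highC_hi hw
  have hi1 := fun cr p => fr_high hw cr p
  have hsd := side_high hw k
  obtain ⟨d, s, w⟩ := f
  unfold lfr
  rw [← hsd]
  cases d
  · simp only [cond_false]
    rw [← hi1]
    exact Mach.Beh.single (M := mPrune a) (it := frItem ⟨false, s, w⟩ .c1 p v (v + 1))
        (ann := 0) (op := .id)
        (by simp only [mPrune, frItem_kind, frItem_cor, cond_false, frItem_cmp, hc, cond_true, Bool.false_or]; rfl)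
        rfl (by simp)
  · simp only [cond_true]
    have hs := L_keep a .L true (side ⟨true, s, w⟩ k (v + 1)) (fun it hit => Or.inl (side_cl _ _ _ it hit))
      (fun it hit s => by
        have := side_cl _ _ _ it hit
        simp only [mPrune, this])
    have h3 : (mPrune a).Beh [frItem ⟨true, s, w⟩ .c2 p v (v + 1)] .L .L (.L true false) (.L true false)
        [frItem ⟨true, s, w⟩ .c2 p v v] 0 := by
      rw [← hi1]
      exact Mach.Beh.single (M := mPrune a) (it := frItem ⟨true, s, w⟩ .c2 p v (v + 1))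
        (ann := 0) (op := .id)
        (by simp only [mPrune, frItem_kind, frItem_cor, cond_false, frItem_cmp, hc, cond_true, Bool.false_or]; rfl)
        rfl (by simp)
    have h2 := Mach.Beh.append hs h3
    rw [← hi1 .c1]
    exact Mach.Beh.cons (M := mPrune a) (it := frItem ⟨true, s, w⟩ .c1 p v (v + 1))
        (ann := 0) (op := .id)
        (by simp only [mPrune, frItem_kind, frItem_cor, cond_false, frItem_cmp, hc, cond_true, Bool.true_or]; rfl)
        rfl (by simp) h2

theorem fr_L_star (a : Bool) {f : Fr} {v : ℕ} (hw : v < ht f.w) (hv : 1 ≤ v) (p : ℕ) :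
    ∃ k ≤ 2, (mPrune a).Beh (lfr f p v (v - 1) (v + 1)) .L .Dn (.L true false) (.L true false)
      (lfr f p v (v - 1) v) k := by
  have hc := highC_lo hw
  have hi1 := fun cr p => fr_star hw cr p
  have hmk := side_mark (M := mPrune a) (φ := PQ.C) (p := PP.L true) f hw hv
    (by intro z h s hh; simp only [mPrune, hh]) (by intro mk h s ann hh; simp only [mPrune, hh])
  have hce := cmp_eq_iff (f := f) (v := v)
  obtain ⟨d, s, w⟩ := f
  unfold lfr
  cases d
  · simp only [cond_false]
    refine ⟨1, by norm_num, ?_⟩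
    rw [← hi1]
    exact Mach.Beh.single (M := mPrune a) (it := frItem ⟨false, s, w⟩ .c1 p v (v + 1))
        (h' := (frItem ⟨false, s, w⟩ .c1 p v (v + 1)).h) (ann := 1) (op := .shrink)
        (by simp only [mPrune, frItem_kind, frItem_cor, cond_false, frItem_cmp, hc, cond_true, Bool.false_or])
        (by simp only [mPrune, frItem_kind]; simp)
        (by simp)
  · simp only [cond_true]
    obtain ⟨z', hs⟩ := hmk
    rw [← hce] at hs
    have h3 : (mPrune a).Beh [frItem ⟨true, s, w⟩ .c2 p v (v + 1)] .L (.C 0)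
        (.L true (decide (spCmp ⟨true, s, w⟩ (v + 1) = .eq))) (.L true false)
        [frItem ⟨true, s, w⟩ .c2 p v v] 1 := by
      rw [← hi1]
      exact Mach.Beh.single (M := mPrune a) (it := frItem ⟨true, s, w⟩ .c2 p v (v + 1))
        (h' := (frItem ⟨true, s, w⟩ .c2 p v (v + 1)).h) (ann := 1) (op := .shrink)
        (by simp only [mPrune, frItem_kind, frItem_cor, cond_false, frItem_cmp, hc, cond_true, Bool.false_or])
        (by simp only [mPrune, frItem_kind, frItem_cor]; simp) (by simp)
    have h2 := Mach.Beh.append hs h3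
    refine ⟨_, le_refl 2, ?_⟩
    rw [← hi1 .c1]
    have := Mach.Beh.cons (M := mPrune a) (q' := .Dn) (p := .L true false)
        (it := frItem ⟨true, s, w⟩ .c1 p v (v + 1))
        (h' := (frItem ⟨true, s, w⟩ .c1 p v (v + 1)).h) (ann := 1) (op := .shrink)
        rfl (by simp only [mPrune, frItem_kind, frItem_cor, frItem_cmp]; simp; rfl)
        (by simp) h2
    exact this

theorem L_B (a : Bool) (c : List Fr) (p v : ℕ) (hv : 1 ≤ v) :
    ∃ q' k, k ≤ 2 ∧ (q' = PQ.L ∨ q' = PQ.Dn) ∧
      (mPrune a).Beh (LpG c p v (v - 1) (v + 1)) .L q' (.L true false) (.L true false)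
        (LpG c p v (v - 1) v) k := by
  induction c generalizing p v with
  | nil => exact ⟨.L, 0, by norm_num, Or.inl rfl, Mach.Beh.nil⟩
  | cons f c ih =>
    have e1 : v - 1 + 1 = v + 1 - 1 := by omega
    rcases Nat.lt_or_ge v (ht f.w) with hw | hw
    · have u1 : up1 f (v + 1) = up1 f v := by simp only [up1]; omega
      have h1 := L_keep a .Dn true (LpG c (p + 1) (v + 1) (v - 1 + 1) (up1 f v))
        (LpG_kind _ _ _ _ _) (fun it hit s => rfl)
      obtain ⟨k, hk, h2⟩ := fr_L_star a hw hv p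
      refine ⟨.Dn, 0 + k, by omega, Or.inr rfl, ?_⟩
      simp only [LpG, u1]
      exact Mach.Beh.append h1 h2
    · have u1 : up1 f (v + 1) = v + 1 + 1 := by simp only [up1]; omega
      have u2 : up1 f v = v + 1 := by simp only [up1]; omega
      obtain ⟨q', k, hk, hq', h1⟩ := ih (p + 1) (v + 1) (by omega)
      have h2 := fr_L_high a hw p (v - 1)
      refine ⟨q', k + 0, by omega, hq', ?_⟩
      simp only [LpG, u1, u2, e1]
      exact Mach.Beh.append h1 h2

/-! ### The cursor -/

theorem X_keep (a cB : Bool) (w : List Item) (hw : ClWord w) :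
    (mPrune a).Beh w (.X cB) (.X cB) (.X cB false) (.X cB false) w 0 := by
  apply Mach.Beh.fix
  intro it hit
  have h := hw it hit
  simp only [mPrune, h]
  simp

theorem X_del (a cB : Bool) :
    (mPrune a).Beh (encS (.node false .nil .nil) none) (.X cB) (.X cB) (.X cB true) (.X cB true) [] 6 := by
  refine ⟨?_, ?_⟩
  · simp [encS, enc, ht, prd, Mach.rls, Mach.stepA, mPrune, clItem]
  · simp [encS, enc, ht, prd, Mach.rls, Mach.lrs, Mach.stepA, Mach.stepB, mPrune, clItem,
      Mach.outItem, Mach.outWt, Op.wt]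

/-- Comparison of the cursor after the removal. -/
def cm' (a cB : Bool) : Cmp := bif cB then .eq else bif a then .gt else .lt

theorem cu_A (a : Bool) (s : Bool) (cm : Cmp) (c : Cor) :
    (⟨{ (cuItem c s cm 1 0).h with cmp := bif false then .eq else bif a then .gt else .lt },
      (Op.shrink.app (cuItem c s cm 1 0).N (cuItem c s cm 1 0).val).1,
      (Op.shrink.app (cuItem c s cm 1 0).N (cuItem c s cm 1 0).val).2⟩ : Item) =
      cuItem c s (cm' a false) 0 0 := by
  simp [cuItem, Op.app, cm']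

theorem cu_B (a : Bool) (s : Bool) (cm : Cmp) (c : Cor) :
    (⟨{ (cuItem c s cm 0 0).h with cmp := bif true then .eq else bif a then .gt else .lt },
      (Op.id.app (cuItem c s cm 0 0).N (cuItem c s cm 0 0).val).1,
      (Op.id.app (cuItem c s cm 0 0).N (cuItem c s cm 0 0).val).2⟩ : Item) =
      cuItem c s (cm' a true) 0 0 := by
  simp [cuItem, Op.app, cm']

theorem foc_A (a : Bool) (s : Bool) (cm : Cmp) (bl br bl' br' : List Item) (k1 k2 : ℕ)
    (hl : (mPrune a).Beh bl (.X false) (.X false) (.X false (!a)) (.X false (!a)) bl' k1)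
    (hr : (mPrune a).Beh br (.X false) (.X false) (.X false a) (.X false a) br' k2) (z : Fin 3) :
    (mPrune a).Beh (focG s cm 1 0 bl br) (.R z) .A (.L false false) .S
      (focG s (cm' a false) 0 0 bl' br') (1 + (k1 + (1 + (k2 + 1)))) := by
  unfold focG
  rw [← cu_A a s cm .c1, ← cu_A a s cm .c2, ← cu_A a s cm .c3]
  refine Mach.Beh.cons (M := mPrune a) (it := cuItem .c1 s cm 1 0) (h' := (cuItem .c1 s cm 1 0).h)
    (ann := 0) (op := .shrink) (q := .X false) (p' := .X false (!a)) rfl rfl (by simp) ?_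
  refine Mach.Beh.append hl ?_
  refine Mach.Beh.cons (M := mPrune a) (it := cuItem .c2 s cm 1 0) (h' := (cuItem .c2 s cm 1 0).h)
    (ann := 0) (op := .shrink) (q := .X false) (p' := .X false a) rfl rfl (by simp) ?_
  refine Mach.Beh.append hr ?_
  exact Mach.Beh.single (M := mPrune a) (it := cuItem .c3 s cm 1 0) (h' := (cuItem .c3 s cm 1 0).h)
    (ann := 0) (op := .shrink) (by simp [mPrune, cuItem, sumOf]) rfl (by simp)

theorem foc_B (a : Bool) (s : Bool) (cm : Cmp) (bl br bl' br' : List Item) (k1 k2 : ℕ)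
    (hl : (mPrune a).Beh bl (.X true) (.X true) (.X true (!a)) (.X true (!a)) bl' k1)
    (hr : (mPrune a).Beh br (.X true) (.X true) (.X true a) (.X true a) br' k2) (z : Fin 3) :
    (mPrune a).Beh (focG s cm 0 0 bl br) (.R z) .L (.L true false) .Rt
      (focG s (cm' a true) 0 0 bl' br') (0 + (k1 + (0 + (k2 + 0)))) := by
  unfold focG
  rw [← cu_B a s cm .c1, ← cu_B a s cm .c2, ← cu_B a s cm .c3]
  refine Mach.Beh.cons (M := mPrune a) (it := cuItem .c1 s cm 0 0) (h' := (cuItem .c1 s cm 0 0).h)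
    (ann := 0) (op := .id) (q := .X true) (p' := .X true (!a)) rfl rfl (by simp) ?_
  refine Mach.Beh.append hl ?_
  refine Mach.Beh.cons (M := mPrune a) (it := cuItem .c2 s cm 0 0) (h' := (cuItem .c2 s cm 0 0).h)
    (ann := 0) (op := .id) (q := .X true) (p' := .X true a) rfl rfl (by simp) ?_
  refine Mach.Beh.append hr ?_
  exact Mach.Beh.single (M := mPrune a) (it := cuItem .c3 s cm 0 0) (h' := (cuItem .c3 s cm 0 0).h)
    (ann := 0) (op := .id) (by simp [mPrune, cuItem, sumOf]) rfl (by simp)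

theorem ht_ne {o : BT} (h : o ≠ .nil) : 1 ≤ ht o := by
  cases o with
  | nil => exact absurd rfl h
  | node s l r => simp only [ht]; omega

/-- The tree `t` as child `a`, the tree `o` as the other child. -/
def ch (a : Bool) (t o : BT) : BT × BT := bif a then (o, t) else (t, o)

theorem focus_A (a : Bool) (s : Bool) (o : BT) (ho : o ≠ .nil) (z : Fin 3) :
    (mPrune a).Beh (foc s (ch a (.node false .nil .nil) o).1 (ch a (.node false .nil .nil) o).2) (.R z) .A
      (.L false false) .S (foc s (ch a .nil o).1 (ch a .nil o).2) 9 := by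
  have h1 := ht_ne ho
  cases a
  · have := foc_A false s (cmpN 1 (ht o)) _ _ _ _ _ _ (X_del false false)
      (X_keep false false (encS o none) (encS_cl _ _)) z
    have e1 : min 1 (ht o) = 1 := by omega
    have e2 : cmpN 0 (ht o) = .lt := cmpN_lt (by omega)
    simp only [ch, cond_false, foc, ht, Nat.max_self, Nat.add_zero, e1, e2, Nat.zero_min]
    exact this
  · have := foc_A true s (cmpN (ht o) 1) _ _ _ _ _ _ 
      (X_keep true false (encS o none) (encS_cl _ _)) (X_del true false) z
    have e1 : min (ht o) 1 = 1 := by omega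
    have e2 : cmpN (ht o) 0 = .gt := cmpN_gt (by omega)
    simp only [ch, cond_true, foc, ht, Nat.max_self, Nat.add_zero, e1, e2, Nat.min_zero]
    exact this

theorem focus_B (a : Bool) (s : Bool) (z : Fin 3) :
    (mPrune a).Beh (foc s (ch a (.node false .nil .nil) .nil).1 (ch a (.node false .nil .nil) .nil).2) (.R z) .L
      (.L true false) .Rt (foc s .nil .nil) 6 := by
  have e2 : cmpN 0 0 = .eq := cmpN_eq rfl
  cases a
  · have := foc_B false s (cmpN 1 0) _ _ _ _ _ _ (X_del false true)
      (X_keep false true (encS .nil none) (encS_cl _ _)) z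
    simp only [ch, cond_false, foc, ht, Nat.max_self, Nat.add_zero, Nat.min_zero, e2]
    exact this
  · have := foc_B true s (cmpN 0 1) _ _ _ _ _ _ 
      (X_keep true true (encS .nil none) (encS_cl _ _)) (X_del true true) z
    simp only [ch, cond_true, foc, ht, Nat.max_self, Nat.add_zero, Nat.zero_min, e2]
    exact this

theorem ze_beh (a : Bool) (p : PP) (hp : p = .Rt ∨ p = .S) (m : ℕ) :
    (mPrune a).Beh [zeItem m] (.R 0) (.R 0) p p [zeItem m] 0 := by
  rcases hp with rfl | rfl
  · exact Mach.Beh.single (M := mPrune a) (it := zeItem m) (h' := (zeItem m).h) (h'' := (zeItem m).h)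
      (ann := 0) (op := .id) rfl rfl (by simp)
  · exact Mach.Beh.single (M := mPrune a) (it := zeItem m) (h' := (zeItem m).h) (h'' := (zeItem m).h)
      (ann := 0) (op := .id) rfl rfl (by simp)

theorem runs_ch (a : Bool) (c : List Fr) (s : Bool) (o : BT) :
    ∃ k ≤ 12, (mPrune a).Runs
      (W c s (ch a (.node false .nil .nil) o).1 (ch a (.node false .nil .nil) o).2)
      (W c s (ch a .nil o).1 (ch a .nil o).2) k := by
  by_cases ho : o = .nil
  · subst ho
    have hD1 : 1 + max (ht (ch a (.node false .nil .nil) .nil).1) (ht (ch a (.node false .nil .nil) .nil).2) = 1 + 1 := by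
      cases a <;> simp [ch, ht]
    have hD2 : 1 + max (ht (ch a .nil .nil).1) (ht (ch a .nil .nil).2) = 1 := by
      cases a <;> simp [ch, ht]
    have hf : foc s (ch a .nil .nil).1 (ch a .nil .nil).2 = foc s .nil .nil := by
      cases a <;> rfl
    obtain ⟨z', p', k1, hk1, hp', hR⟩ := R_B a c 1 1 le_rfl 0
    obtain ⟨q', k2, hk2, hq', hL⟩ := L_B a c 1 1 le_rfl
    have hF := focus_B a s z'
    refine ⟨k2 + (6 + (k1 + 0)), by omega, ?_⟩
    unfold W WG
    rw [hD1, hD2, hf]
    have h := Mach.Beh.append hL (Mach.Beh.append hF (Mach.Beh.append hR (ze_beh a p' hp' c.length)))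
    apply Mach.Beh.runs (q' := q') (p' := p')
    have hι : (mPrune a).ι q' = .L true false := by
      rcases hq' with rfl | rfl <;> rfl
    rw [hι]
    exact h
  · have h1 := ht_ne ho
    have hD1 : 1 + max (ht (ch a (.node false .nil .nil) o).1) (ht (ch a (.node false .nil .nil) o).2) = 1 + ht o := by
      cases a <;> simp [ch, ht, h1]
    have hD2 : 1 + max (ht (ch a .nil o).1) (ht (ch a .nil o).2) = 1 + ht o := by
      cases a <;> simp [ch, ht]
    obtain ⟨z', hR⟩ := R_S a c 1 1 0 (1 + ht o) 0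
    have hL := L_keep a .A false (LpG c 1 1 0 (1 + ht o)) (LpG_kind _ _ _ _ _) (fun it hit s => rfl)
    have hF := focus_A a s o ho z'
    refine ⟨0 + (9 + (0 + 0)), by omega, ?_⟩
    unfold W WG
    rw [hD1, hD2]
    have h := Mach.Beh.append hL (Mach.Beh.append hF (Mach.Beh.append hR
      (ze_beh a .S (Or.inr rfl) c.length)))
    exact Mach.Beh.runs (M := mPrune a) (q' := .A) (p' := .S) h

end Pr

theorem runs_prune (a : Bool) (c : List Fr) (s : Bool) (o : BT) :
    ∃ k ≤ 12, (mPrune a).Runs (bif a then W c s o (.node false .nil .nil) else W c s (.node false .nil .nil) o)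
      (bif a then W c s o .nil else W c s .nil o) k := by
  have := Pr.runs_ch a c s o
  cases a <;> exact this

end Pool.Agent.W_MP_1173fd_al
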