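import Pool.Agent.W_MP_1173fd_al.Run

/-!
# Ruler marks and the lamp of the cursor
-/

namespace Pool.Agent.W_MP_1173fd_al

open Mach

theorem side_cl (f : Fr) (k D : ℕ) : ClWord (side f k D) := encS_cl _ _

/-! ## Kinds in the context -/

theorem LpG_kind (c : List Fr) (p v k D : ℕ) :
    ∀ it ∈ LpG c p v k D, (∃ dir, it.h.kind = .sp dir) ∨ it.h.kind = .cl := by
  induction c generalizing p v k D with
  | nil => intro it h; simp [LpG] at h
  | cons f c ih =>
    intro it h
    simp only [LpG, List.mem_append] at h
    rcases h with h | h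
    · exact ih _ _ _ _ it h
    · unfold lfr at h
      cases hd : f.dir with
      | false =>
        rw [hd, cond_false, List.mem_singleton] at h
        subst h
        exact Or.inl ⟨_, rfl⟩
      | true =>
        rw [hd, cond_true] at h
        simp only [List.mem_cons, List.mem_append, List.mem_nil_iff, or_false] at h
        rcases h with rfl | h | rfl
        · exact Or.inl ⟨_, rfl⟩
        · exact Or.inr (side_cl f k D it h)
        · exact Or.inl ⟨_, rfl⟩

theorem RpG_kind (c : List Fr) (p v k D : ℕ) :
    ∀ it ∈ RpG c p v k D, (∃ dir, it.h.kind = .sp dir) ∨ it.h.kind = .cl := by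
  induction c generalizing p v k D with
  | nil => intro it h; simp [RpG] at h
  | cons f c ih =>
    intro it h
    simp only [RpG, List.mem_append] at h
    rcases h with h | h
    · unfold rfr at h
      cases hd : f.dir with
      | true =>
        rw [hd, cond_true, List.mem_singleton] at h
        subst h
        exact Or.inl ⟨_, rfl⟩
      | false =>
        rw [hd, cond_false] at h
        simp only [List.mem_cons, List.mem_append, List.mem_nil_iff, or_false] at h
        rcases h with rfl | h | rfl
        · exact Or.inl ⟨_, rfl⟩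
        · exact Or.inr (side_cl f k D it h)
        · exact Or.inl ⟨_, rfl⟩
    · exact ih _ _ _ _ it h

/-! ## Shift up -/

theorem up_cl (q : Bool × Option Bool) (p : Option Bool) (w : List Item) (hw : ClWord w) :
    mShiftUp.Beh w q q p p w 0 := by
  refine Beh.fix fun it hit => ?_
  have h := hw it hit
  constructor <;> simp [mShiftUp, h]

theorem up_lfr (f : Fr) (b : Bool) (p v k D : ℕ) :
    mShiftUp.Beh (lfr f p v k D) (b, none) (b, none) (some (pw (p + 1))) (some (pw p))
      (lfr f (p + 1) v k D) 0 := by
  unfold lfr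
  cases hd : f.dir with
  | false =>
    rw [cond_false, cond_false]
    refine Beh.single (op := .id) (h' := (frItem f .c1 p v D).h) (ann := 0) ?_ ?_ (by simp)
    · rfl
    · simp [mShiftUp, frItem, spItem, hd]
  | true =>
    rw [cond_true, cond_true]
    have h1 : mShiftUp.Beh [frItem f .c2 p v D] (b, none) (b, none) (some (pw (p + 1)))
        (some (pw p)) [frItem f .c2 (p + 1) v D] 0 := by
      refine Beh.single (op := .id) (h' := (frItem f .c2 p v D).h) (ann := 0) ?_ ?_ (by simp)
      · rfl
      · simp [mShiftUp, frItem, spItem]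
    have h2 := Beh.append (up_cl (b, none) (some (pw (p + 1))) _ (side_cl f k D)) h1
    refine Beh.cons (M := mShiftUp) (op := .id) (h' := (frItem f .c1 p v D).h) (ann := 0)
      (p' := (some (pw (p + 1)) : Option Bool)) ?_ ?_ (by simp) h2
    · rfl
    · simp [mShiftUp, frItem, spItem, hd]

theorem up_LpG (c : List Fr) (b : Bool) (p v k D : ℕ) :
    mShiftUp.Beh (LpG c p v k D) (b, none) (b, none) (some (pw (p + c.length))) (some (pw p))
      (LpG c (p + 1) v k D) 0 := by
  induction c generalizing p v k D with
  | nil => exact Beh.nil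
  | cons f c ih =>
    have h1 := ih (p + 1) (v + 1) (k + 1) (up1 f D)
    have h2 := up_lfr f b p v k D
    have h3 : p + (f :: c).length = p + 1 + c.length := by
      simp only [List.length_cons]; omega
    rw [h3]
    exact Beh.append h1 h2

theorem up_rfr (f : Fr) (b : Bool) (p v k D : ℕ) :
    mShiftUp.Beh (rfr f p v k D) (b, some (pw (p + 1))) (b, some (pw p)) none none
      (rfr f (p + 1) v k D) 0 := by
  unfold rfr
  cases hd : f.dir with
  | true =>
    rw [cond_true, cond_true]
    refine Beh.single (op := .id) (h' := (frItem f .c3 (p + 1) v D).h) (ann := 0) ?_ ?_ (by simp)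
    · simp [mShiftUp, frItem, spItem, hd]
    · rfl
  | false =>
    rw [cond_false, cond_false]
    have h1 : mShiftUp.Beh [frItem f .c3 p v D] (b, some (pw (p + 1))) (b, some (pw (p + 1)))
        none none [frItem f .c3 (p + 1) v D] 0 := by
      refine Beh.single (op := .id) (h' := (frItem f .c3 (p + 1) v D).h) (ann := 0) ?_ ?_ (by simp)
      · simp [mShiftUp, frItem, spItem, hd]
      · rfl
    have h2 := Beh.append (up_cl (b, some (pw (p + 1))) none _ (side_cl f k D)) h1
    refine Beh.cons (M := mShiftUp) (op := .id) (h' := (frItem f .c2 (p + 1) v D).h) (ann := 0)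
      (p' := (none : Option Bool)) ?_ ?_ (by simp) h2
    · simp [mShiftUp, frItem, spItem]
    · rfl

theorem up_RpG (c : List Fr) (b : Bool) (p v k D : ℕ) :
    mShiftUp.Beh (RpG c p v k D) (b, some (pw (p + c.length))) (b, some (pw p)) none none
      (RpG c (p + 1) v k D) 0 := by
  induction c generalizing p v k D with
  | nil => exact Beh.nil
  | cons f c ih =>
    have h1 := ih (p + 1) (v + 1) (k + 1) (up1 f D)
    have h2 := up_rfr f b p v k D
    have h3 : p + (f :: c).length = p + 1 + c.length := by
      simp only [List.length_cons]; omega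
    rw [h3]
    exact Beh.append h2 h1

/-- Does the word contain a cursor item? -/
def hasCu : List Item → Bool
  | [] => false
  | it :: w => decide (it.h.kind = .cu) || hasCu w

theorem hasCu_of (w : List Item) (h : ∃ it ∈ w, it.h.kind = .cu) : hasCu w = true := by
  induction w with
  | nil => simp at h
  | cons a w ih =>
    obtain ⟨it, hit, hk⟩ := h
    rcases List.mem_cons.1 hit with rfl | hit
    · simp [hasCu, hk]
    · simp [hasCu, ih ⟨it, hit, hk⟩]

theorem up_mid_aux (mid : List Item) (h1 : ∀ it ∈ mid, it.h.kind = .cl ∨ it.h.kind = .cu)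
    (b : Bool) (x y : Option Bool) :
    mShiftUp.Beh mid (b, x) (b, bif hasCu mid then none else x) y
      (bif hasCu mid then none else y) mid 0 := by
  induction mid generalizing y with
  | nil => exact Beh.nil
  | cons a w ih =>
    have hw := ih (fun it hit => h1 it (by simp [hit]))
    rcases h1 a (by simp) with ha | ha
    · have e : hasCu (a :: w) = hasCu w := by simp [hasCu, ha]
      rw [e]
      exact Beh.cons (M := mShiftUp) (op := .id) (h' := a.h) (h'' := a.h) (ann := 0) (p' := y)
        (by simp [mShiftUp, ha]) (by simp [mShiftUp, ha]) (by simp) (hw y)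
    · have e : hasCu (a :: w) = true := by simp [hasCu, ha]
      simp only [e, cond_true]
      have hw' := hw none
      rw [Bool.cond_self] at hw'
      exact Beh.cons (M := mShiftUp) (op := .id) (h' := a.h) (h'' := a.h) (ann := 0) (p' := (none : Option Bool))
        (by simp [mShiftUp, ha]) (by simp [mShiftUp, ha]) (by simp) hw'

theorem up_mid (mid : List Item) (h1 : ∀ it ∈ mid, it.h.kind = .cl ∨ it.h.kind = .cu)
    (h2 : ∃ it ∈ mid, it.h.kind = .cu) (b : Bool) (x y : Option Bool) :
    mShiftUp.Beh mid (b, x) (b, none) y none mid 0 := by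
  have h := up_mid_aux mid h1 b x y
  rwa [hasCu_of mid h2, cond_true, cond_true] at h

theorem runs_shiftUp (c : List Fr) (v k D : ℕ) (mid : List Item)
    (h1 : ∀ it ∈ mid, it.h.kind = .cl ∨ it.h.kind = .cu) (h2 : ∃ it ∈ mid, it.h.kind = .cu) :
    mShiftUp.Runs (WG c 1 v k D mid c.length) (WG c 2 v k D mid c.length) 0 := by
  have e0 : mShiftUp.Beh [zeItem c.length] (false, none)
      (pw (c.length + 1), some (pw (c.length + 1))) none none [zeItem c.length] 0 := by
    refine Beh.single (op := .id) (h' := (zeItem c.length).h) (ann := 0) ?_ ?_ (by simp)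
    · rfl
    · rfl
  have e1 := up_RpG c (pw (c.length + 1)) 1 v k D
  have e2 := up_LpG c (pw (c.length + 1)) 1 v k D
  rw [Nat.add_comm 1 c.length] at e1 e2
  have e3 := up_mid mid h1 h2 (pw (c.length + 1)) (some (pw 1)) (some (pw 1))
  exact Beh.runs (Beh.append e2 (Beh.append e3 (Beh.append e1 e0)))

/-! ## Shift down -/

theorem down_cl (q : Option Bool) (p : Option Bool) (w : List Item) (hw : ClWord w) :
    mShiftDown.Beh w q q p p w 0 := by
  refine Beh.fix fun it hit => ?_
  have h := hw it hit
  constructor <;> simp [mShiftDown, h]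

theorem down_lfr (f : Fr) (p v k D : ℕ) :
    mShiftDown.Beh (lfr f (p + 1) v k D) (some (pw p)) (some (pw (p + 1))) none none
      (lfr f p v k D) 0 := by
  unfold lfr
  cases hd : f.dir with
  | false =>
    rw [cond_false, cond_false]
    refine Beh.single (op := .id) (h' := (frItem f .c1 p v D).h) (ann := 0) ?_ ?_ (by simp)
    · simp [mShiftDown, frItem, spItem]
    · rfl
  | true =>
    rw [cond_true, cond_true]
    have h1 : mShiftDown.Beh [frItem f .c2 (p + 1) v D] (some (pw p)) (some (pw p)) none none
        [frItem f .c2 p v D] 0 := by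
      refine Beh.single (op := .id) (h' := (frItem f .c2 p v D).h) (ann := 0) ?_ ?_ (by simp)
      · simp [mShiftDown, frItem, spItem]
      · rfl
    have h2 := Beh.append (down_cl (some (pw p)) none _ (side_cl f k D)) h1
    refine Beh.cons (M := mShiftDown) (op := .id) (h' := (frItem f .c1 p v D).h) (ann := 0)
      (p' := (none : Option Bool)) ?_ ?_ (by simp) h2
    · simp [mShiftDown, frItem, spItem]
    · rfl

theorem down_LpG (c : List Fr) (p v k D : ℕ) :
    mShiftDown.Beh (LpG c (p + 1) v k D) (some (pw p)) (some (pw (p + c.length))) none none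
      (LpG c p v k D) 0 := by
  induction c generalizing p v k D with
  | nil => exact Beh.nil
  | cons f c ih =>
    have h1 := ih (p + 1) (v + 1) (k + 1) (up1 f D)
    have h2 := down_lfr f p v k D
    have h3 : p + (f :: c).length = p + 1 + c.length := by
      simp only [List.length_cons]; omega
    rw [h3]
    exact Beh.append h1 h2

theorem down_rfr (f : Fr) (p v k D : ℕ) :
    mShiftDown.Beh (rfr f (p + 1) v k D) none none (some (pw p)) (some (pw (p + 1)))
      (rfr f p v k D) 0 := by
  unfold rfr
  cases hd : f.dir with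
  | true =>
    rw [cond_true, cond_true]
    refine Beh.single (op := .id) (h' := (frItem f .c3 (p + 1) v D).h) (ann := 0) ?_ ?_ (by simp)
    · rfl
    · simp [mShiftDown, frItem, spItem]
  | false =>
    rw [cond_false, cond_false]
    have h1 : mShiftDown.Beh [frItem f .c3 (p + 1) v D] none none (some (pw p))
        (some (pw (p + 1))) [frItem f .c3 p v D] 0 := by
      refine Beh.single (op := .id) (h' := (frItem f .c3 (p + 1) v D).h) (ann := 0) ?_ ?_ (by simp)
      · rfl
      · simp [mShiftDown, frItem, spItem]
    have h2 := Beh.append (down_cl none (some (pw p)) _ (side_cl f k D)) h1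
    refine Beh.cons (M := mShiftDown) (op := .id) (h' := (frItem f .c2 (p + 1) v D).h) (ann := 0)
      (p' := (some (pw p) : Option Bool)) ?_ ?_ (by simp) h2
    · rfl
    · simp [mShiftDown, frItem, spItem]

theorem down_RpG (c : List Fr) (p v k D : ℕ) :
    mShiftDown.Beh (RpG c (p + 1) v k D) none none (some (pw p)) (some (pw (p + c.length)))
      (RpG c p v k D) 0 := by
  induction c generalizing p v k D with
  | nil => exact Beh.nil
  | cons f c ih =>
    have h1 := ih (p + 1) (v + 1) (k + 1) (up1 f D)
    have h2 := down_rfr f p v k D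
    have h3 : p + (f :: c).length = p + 1 + c.length := by
      simp only [List.length_cons]; omega
    rw [h3]
    exact Beh.append h2 h1

theorem down_mid_aux (mid : List Item) (h1 : ∀ it ∈ mid, it.h.kind = .cl ∨ it.h.kind = .cu)
    (x y : Option Bool) :
    mShiftDown.Beh mid x (bif hasCu mid then some true else x) y
      (bif hasCu mid then some true else y) mid 0 := by
  induction mid generalizing y with
  | nil => exact Beh.nil
  | cons a w ih =>
    have hw := ih (fun it hit => h1 it (by simp [hit]))
    rcases h1 a (by simp) with ha | ha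
    · have e : hasCu (a :: w) = hasCu w := by simp [hasCu, ha]
      rw [e]
      exact Beh.cons (M := mShiftDown) (op := .id) (h' := a.h) (h'' := a.h) (ann := 0) (p' := y)
        (by simp [mShiftDown, ha]) (by simp [mShiftDown, ha]) (by simp) (hw y)
    · have e : hasCu (a :: w) = true := by simp [hasCu, ha]
      simp only [e, cond_true]
      have hw' := hw (some true)
      rw [Bool.cond_self] at hw'
      exact Beh.cons (M := mShiftDown) (op := .id) (h' := a.h) (h'' := a.h) (ann := 0)
        (p' := (some true : Option Bool))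
        (by simp [mShiftDown, ha]) (by simp [mShiftDown, ha]) (by simp) hw'

theorem down_mid (mid : List Item) (h1 : ∀ it ∈ mid, it.h.kind = .cl ∨ it.h.kind = .cu)
    (h2 : ∃ it ∈ mid, it.h.kind = .cu) (x y : Option Bool) :
    mShiftDown.Beh mid x (some true) y (some true) mid 0 := by
  have h := down_mid_aux mid h1 x y
  rwa [hasCu_of mid h2, cond_true, cond_true] at h

theorem runs_shiftDown (c : List Fr) (v k D : ℕ) (mid : List Item)
    (h1 : ∀ it ∈ mid, it.h.kind = .cl ∨ it.h.kind = .cu) (h2 : ∃ it ∈ mid, it.h.kind = .cu)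
    (m : ℕ) :
    mShiftDown.Runs (WG c 2 v k D mid m) (WG c 1 v k D mid m) 0 := by
  have e0 : mShiftDown.Beh [zeItem m] none none (some (pw (1 + c.length)))
      (some (pw (1 + c.length))) [zeItem m] 0 := by
    refine Beh.single (op := .id) (h' := (zeItem m).h) (ann := 0) ?_ ?_ (by simp)
    · rfl
    · rfl
  have e1 := down_RpG c 1 v k D
  have e2 := down_LpG c 1 v k D
  have e3 := down_mid mid h1 h2 none none
  rw [← pw_one] at e3
  exact Beh.runs (Beh.append e2 (Beh.append e3 (Beh.append e1 e0)))

/-! ## Toggle -/

theorem tog_fix (w : List Item) (hw : ∀ it ∈ w, it.h.kind ≠ .cu) :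
    mToggle.Beh w () () () () w 0 := by
  refine Beh.fix fun it hit => ?_
  have h := hw it hit
  obtain ⟨⟨kind, cor, lamp, cmp, P, ptr, aw⟩, N, v⟩ := it
  cases kind with
  | cu => exact absurd rfl h
  | cl => exact ⟨rfl, rfl⟩
  | sp d => exact ⟨rfl, rfl⟩
  | ze => exact ⟨rfl, rfl⟩

theorem tog_cu (c : Cor) (s : Bool) (cm : Cmp) (N v : ℕ) :
    mToggle.Beh [cuItem c s cm N v] () () () () [cuItem c (!s) cm N v] 0 :=
  Beh.single (op := .id) (h' := (cuItem c s cm N v).h) (ann := 0) rfl rfl (by simp)

theorem runs_toggle (c : List Fr) (s : Bool) (l r : BT) :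
    mToggle.Runs (W c s l r) (W c (!s) l r) 0 := by
  have hsp : ∀ w : List Item, (∀ it ∈ w, (∃ dir, it.h.kind = .sp dir) ∨ it.h.kind = .cl) →
      mToggle.Beh w () () () () w 0 := by
    intro w hw
    apply tog_fix
    intro it hit
    rcases hw it hit with ⟨dir, h⟩ | h
    · rw [h]; simp
    · rw [h]; simp
  have hcl : ∀ t : BT, mToggle.Beh (encS t none) () () () () (encS t none) 0 := fun t =>
    hsp _ fun it hit => Or.inr (encS_cl t none it hit)
  have e0 : mToggle.Beh [zeItem c.length] () () () () [zeItem c.length] 0 :=
    tog_fix _ fun it hit => by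
      rw [List.mem_singleton] at hit
      subst hit
      simp [zeItem]
  have e1 := hsp _ (LpG_kind c 1 1 0 (1 + max (ht l) (ht r)))
  have e2 := hsp _ (RpG_kind c 1 1 0 (1 + max (ht l) (ht r)))
  have e3 : mToggle.Beh (foc s l r) () () () () (foc (!s) l r) 0 := by
    have f1 := Beh.append (tog_cu .c1 s (cmpN (ht l) (ht r)) (min (ht l) (ht r)) 0)
      (Beh.append (hcl l) (Beh.append (tog_cu .c2 s (cmpN (ht l) (ht r)) (min (ht l) (ht r)) 0)
        (Beh.append (hcl r) (tog_cu .c3 s (cmpN (ht l) (ht r)) (min (ht l) (ht r)) 0))))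
    exact f1
  exact Beh.runs (Beh.append e1 (Beh.append e3 (Beh.append e2 e0)))

end Pool.Agent.W_MP_1173fd_al
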