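import Pool.Agent.W_MP_1173fd_al.Realize
import Pool.Agent.W_MP_1173fd_al.OpenClose
import Pool.Agent.W_MP_1173fd_al.Shift
import Pool.Agent.W_MP_1173fd_al.Move
import Pool.Agent.W_MP_1173fd_al.Light
import Pool.Agent.W_MP_1173fd_al.Grow
import Pool.Agent.W_MP_1173fd_al.Prune
import Pool.Agent.W_MP_1173fd_al.Inj
import Pool.Agent.W_MP_1173fd_al.Group

/-!
# Assembly
-/

namespace Pool.Agent.W_MP_1173fd_al

open Mach

/-! ## Well-formedness of the intermediate words -/

theorem WF_append {u v : List Item} (hu : WF u) (hv : WF v) : WF (u ++ v) := by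
  intro it h
  rcases List.mem_append.1 h with h | h
  · exact hu it h
  · exact hv it h

theorem WG_wf (c : List Fr) (p v k D : ℕ) (mid : List Item) (hm : WF mid) (m : ℕ) :
    WF (WG c p v k D mid m) := by
  refine WF_append (LpG_wf _ _ _ _ _) (WF_append hm (WF_append (RpG_wf _ _ _ _ _) ?_))
  intro it h
  rw [List.mem_singleton] at h
  subst h
  exact Nat.lt_pow_succ_log_self (by norm_num) _

theorem focG_wf (s : Bool) (cm : Cmp) (N v : ℕ) (bl br : List Item) (hl : WF bl) (hr : WF br) :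
    WF (focG s cm N v bl br) := by
  intro it h
  simp only [focG, List.mem_cons, List.mem_append, List.mem_nil_iff, or_false] at h
  rcases h with rfl | h | rfl | h | rfl
  · exact cuItem_wf _ _ _ _ _
  · exact hl it h
  · exact cuItem_wf _ _ _ _ _
  · exact hr it h
  · exact cuItem_wf _ _ _ _ _

theorem foc1_wf (s : Bool) (l r : BT) : WF (foc1 s l r) := by
  unfold foc1
  split_ifs
  · exact focG_wf _ _ _ _ _ _ (enc_wf _ _ _) (encS_wf _ _)
  · exact focG_wf _ _ _ _ _ _ (encS_wf _ _) (enc_wf _ _ _)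

theorem closing_wf (f : Fr) (D : ℕ) (b : List Item) (hb : WF b) : WF (closing f D b) := by
  unfold closing
  cases f.dir
  · exact focG_wf _ _ _ _ _ _ hb (encS_wf _ _)
  · exact focG_wf _ _ _ _ _ _ (encS_wf _ _) hb

theorem opened_wf (f : Fr) (D : ℕ) (mid : List Item) (hm : WF mid) : WF (opened f D mid) :=
  WF_append (lfr_wf _ _ _ _ _) (WF_append hm (rfr_wf _ _ _ _ _))

/-! ## Items of a focus -/

theorem focG_kind (s : Bool) (cm : Cmp) (N v : ℕ) (bl br : List Item) (hl : ClWord bl)
    (hr : ClWord br) : ∀ it ∈ focG s cm N v bl br, it.h.kind = .cl ∨ it.h.kind = .cu := by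
  intro it h
  simp only [focG, List.mem_cons, List.mem_append, List.mem_nil_iff, or_false] at h
  rcases h with rfl | h | rfl | h | rfl
  · exact Or.inr rfl
  · exact Or.inl (hl it h)
  · exact Or.inr rfl
  · exact Or.inl (hr it h)
  · exact Or.inr rfl

theorem focG_ptr (s : Bool) (cm : Cmp) (N v : ℕ) (bl br : List Item)
    (hl : ∀ it ∈ bl, it.h.ptr = false) (hr : ∀ it ∈ br, it.h.ptr = false) :
    ∀ it ∈ focG s cm N v bl br, it.h.ptr = false := by
  intro it h
  simp only [focG, List.mem_cons, List.mem_append, List.mem_nil_iff, or_false] at h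
  rcases h with rfl | h | rfl | h | rfl
  · rfl
  · exact hl it h
  · rfl
  · exact hr it h
  · rfl

theorem focG_cu (s : Bool) (cm : Cmp) (N v : ℕ) (bl br : List Item) :
    ∃ it ∈ focG s cm N v bl br, it.h.kind = .cu :=
  ⟨cuItem .c1 s cm N v, by simp [focG], rfl⟩

/-! ## The machines on states -/

section
variable {Ltr : Type} {encW : List Item → List Ltr}

/-- Realization of item level machines. -/
def Realized (encW : List Item → List Ltr) : Prop :=
  ∀ (M : Mach) (K : ℕ), ∃ F : List Ltr → List Ltr, LT F ∧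
    ∀ w out k, Mach.WF w → M.Runs w out k → k ≤ K → F (encW w) = encW out

theorem exists_open (hR : Realized encW) (a : Bool) : ∃ G : List Ltr → List Ltr, LT G ∧
    ∀ (c : List Fr) (s : Bool) (l r : BT) (s' : Bool) (l' r' : BT),
      (bif a then r else l) = .node s' l' r' →
      G (encW (W c s l r)) = encW (W (⟨a, s, bif a then l else r⟩ :: c) s' l' r') := by
  obtain ⟨F1, h1, e1⟩ := hR mShiftUp 12
  obtain ⟨F2, h2, e2⟩ := hR mAdvance 12
  obtain ⟨F3, h3, e3⟩ := hR (mOpen a) 12
  obtain ⟨F4, h4, e4⟩ := hR mDecLight 12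
  refine ⟨fun w => F4 (F3 (F2 (F1 w))), h4.comp (h3.comp (h2.comp h1)), ?_⟩
  intro c s l r s' l' r' h
  have hk := focG_kind s (cmpN (ht l) (ht r)) (min (ht l) (ht r)) 0 (encS l none) (encS r none)
    (encS_cl _ _) (encS_cl _ _)
  have hp := focG_ptr s (cmpN (ht l) (ht r)) (min (ht l) (ht r)) 0 (encS l none) (encS r none)
    (encS_none_ptr _) (encS_none_ptr _)
  have hc := focG_cu s (cmpN (ht l) (ht r)) (min (ht l) (ht r)) 0 (encS l none) (encS r none)
  have r1 := runs_shiftUp c 1 0 (1 + max (ht l) (ht r)) (foc s l r) hk hc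
  obtain ⟨k2, hk2, r2⟩ := runs_advance c (1 + max (ht l) (ht r)) (foc s l r)
    (fun it hit => ⟨hk it hit, hp it hit⟩) c.length
  have r3 := runs_open a c 2 2 1 (1 + max (ht l) (ht r)) (c.length + 1) s l r s' l' r' h
  have hD : 1 + max (ht l) (ht r) = up1 ⟨a, s, bif a then l else r⟩ (1 + max (ht l') (ht r')) := by
    have hht : 1 + max (ht l') (ht r') = ht (bif a then r else l) := by rw [h, ht]
    rw [hht, up1]
    cases a
    · rfl
    · simp only [cond_true]; rw [max_comm]
  have r4 := runs_decLight (⟨a, s, bif a then l else r⟩ :: c) 1 1 0 (1 + max (ht l') (ht r'))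
    (c.length + 1) s' l' r'
  have e34 : WG c 2 2 1 (1 + max (ht l) (ht r)) (opened ⟨a, s, bif a then l else r⟩
      (1 + max (ht l') (ht r')) (foc1 s' l' r')) (c.length + 1) =
      WG (⟨a, s, bif a then l else r⟩ :: c) 1 1 0 (1 + max (ht l') (ht r')) (foc1 s' l' r')
        (c.length + 1) := by
    rw [WG_cons, hD]; rfl
  show F4 (F3 (F2 (F1 (encW (W c s l r))))) = _
  rw [W, e1 _ _ _ (WG_wf _ _ _ _ _ _ (foc_wf _ _ _) _) r1 (by omega),
    e2 _ _ _ (WG_wf _ _ _ _ _ _ (foc_wf _ _ _) _) r2 (by omega),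
    e3 _ _ _ (WG_wf _ _ _ _ _ _ (foc_wf _ _ _) _) r3 (by omega), e34,
    e4 _ _ _ (WG_wf _ _ _ _ _ _ (foc1_wf _ _ _) _) r4 (by omega)]
  rfl

theorem exists_close (hR : Realized encW) : ∃ G : List Ltr → List Ltr, LT G ∧
    ∀ (f : Fr) (c : List Fr) (s : Bool) (l r : BT),
      G (encW (W (f :: c) s l r)) =
        encW (bif f.dir then W c f.s f.w (.node s l r) else W c f.s (.node s l r) f.w) := by
  obtain ⟨F1, h1, e1⟩ := hR mIncLight 12
  obtain ⟨F2, h2, e2⟩ := hR mClose 12
  obtain ⟨F3, h3, e3⟩ := hR mRetreat 12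
  obtain ⟨F4, h4, e4⟩ := hR mShiftDown 12
  refine ⟨fun w => F4 (F3 (F2 (F1 w))), h4.comp (h3.comp (h2.comp h1)), ?_⟩
  intro f c s l r
  obtain ⟨D, hD⟩ : ∃ D, D = 1 + max (ht l) (ht r) := ⟨_, rfl⟩
  have r1 := runs_incLight (f :: c) 1 1 0 D (c.length + 1) s l r
  have e12 : WG (f :: c) 1 1 0 D (foc1 s l r) (c.length + 1) =
      WG c 2 2 1 (up1 f D) (opened f D (foc1 s l r)) (c.length + 1) := by
    rw [WG_cons]; rfl
  have r2 := runs_close f c 2 2 1 (up1 f D) (c.length + 1) s l r
  rw [← hD] at r2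
  obtain ⟨k3, hk3, r3⟩ := runs_retreat c f D (by omega) (.node s l r) c.length
  have hwf : WF (closing f D (encS (.node s l r) none)) := closing_wf _ _ _ (encS_wf _ _)
  obtain ⟨mid, hmid⟩ : ∃ mid, mid = (bif f.dir then
    focG f.s (spCmp f D) (min D (ht f.w)) 0 (encS f.w none) (encS (.node s l r) none)
    else focG f.s (spCmp f D) (min D (ht f.w)) 0 (encS (.node s l r) none) (encS f.w none)) := ⟨_, rfl⟩
  rw [← hmid] at r3
  have hk : ∀ it ∈ mid, it.h.kind = .cl ∨ it.h.kind = .cu := by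
    rw [hmid]
    cases f.dir
    · exact focG_kind _ _ _ _ _ _ (encS_cl _ _) (encS_cl _ _)
    · exact focG_kind _ _ _ _ _ _ (encS_cl _ _) (encS_cl _ _)
  have hc : ∃ it ∈ mid, it.h.kind = .cu := by
    rw [hmid]
    cases f.dir
    · exact focG_cu _ _ _ _ _ _
    · exact focG_cu _ _ _ _ _ _
  have hmwf : WF mid := by
    rw [hmid]
    cases f.dir
    · exact focG_wf _ _ _ _ _ _ (encS_wf _ _) (encS_wf _ _)
    · exact focG_wf _ _ _ _ _ _ (encS_wf _ _) (encS_wf _ _)
  have r4 := runs_shiftDown c 1 0 (up1 f D) mid hk hc c.length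
  have hfin : WG c 1 1 0 (up1 f D) mid c.length =
      (bif f.dir then W c f.s f.w (.node s l r) else W c f.s (.node s l r) f.w) := by
    rw [hmid]
    have hht : ht (.node s l r) = D := by rw [ht, hD]
    obtain ⟨dir, fs, w⟩ := f
    cases dir
    · simp only [cond_false, W, foc, hht, up1, spCmp]
    · simp only [cond_true, W, foc, hht, up1, spCmp, max_comm, min_comm]
  show F4 (F3 (F2 (F1 (encW (W (f :: c) s l r))))) = _
  have e0 : W (f :: c) s l r = WG (f :: c) 1 1 0 D (foc s l r) (c.length + 1) := by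
    rw [W, hD]; rfl
  rw [e0, e1 _ _ _ (WG_wf _ _ _ _ _ _ (foc_wf _ _ _) _) r1 (by omega), e12,
    e2 _ _ _ (WG_wf _ _ _ _ _ _ (opened_wf _ _ _ (foc1_wf _ _ _)) _) r2 (by omega),
    e3 _ _ _ (WG_wf _ _ _ _ _ _ hwf _) r3 (by omega),
    e4 _ _ _ (WG_wf _ _ _ _ _ _ hmwf _) r4 (by omega), hfin]

theorem exists_grow (hR : Realized encW) (a : Bool) : ∃ G : List Ltr → List Ltr, LT G ∧
    ∀ (c : List Fr) (s : Bool) (o : BT),
      G (encW (bif a then W c s o .nil else W c s .nil o)) =
        encW (bif a then W c s o lf else W c s lf o) := by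
  obtain ⟨F, h, e⟩ := hR (mGrow a) 12
  refine ⟨F, h, fun c s o => ?_⟩
  obtain ⟨k, hk, r⟩ := runs_grow a c s o
  refine e _ _ _ ?_ r hk
  cases a
  · exact word_wf ⟨c, s, .nil, o⟩
  · exact word_wf ⟨c, s, o, .nil⟩

theorem exists_prune (hR : Realized encW) (a : Bool) : ∃ G : List Ltr → List Ltr, LT G ∧
    ∀ (c : List Fr) (s : Bool) (o : BT),
      G (encW (bif a then W c s o lf else W c s lf o)) =
        encW (bif a then W c s o .nil else W c s .nil o) := by
  obtain ⟨F, h, e⟩ := hR (mPrune a) 12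
  refine ⟨F, h, fun c s o => ?_⟩
  obtain ⟨k, hk, r⟩ := runs_prune a c s o
  refine e _ _ _ ?_ r hk
  cases a
  · exact word_wf ⟨c, s, lf, o⟩
  · exact word_wf ⟨c, s, o, lf⟩

theorem exists_toggle (hR : Realized encW) : ∃ G : List Ltr → List Ltr, LT G ∧
    ∀ x : St, G (encW x.word) = encW x.tog.word := by
  obtain ⟨F, h, e⟩ := hR mToggle 12
  exact ⟨F, h, fun x => e _ _ _ (word_wf x) (runs_toggle _ _ _ _) (by omega)⟩

/-- Finite-state tests on words. -/
def Tested (encW : List Item → List Ltr) : Prop :=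
  ∀ (σ : Type) (_ : Finite σ) (δ : σ → Hdr → σ) (s₀ : σ),
    ∃ (σ' : Type) (_ : Finite σ') (δ' : σ' → Ltr → σ') (s₀' : σ') (g : σ' → σ),
      ∀ w : List Item, g ((encW w).foldl δ' s₀') = w.foldl (fun s it => δ s it.h) s₀

/-- If-then-else on states. -/
theorem exists_ite (hT : Tested encW) (P : St → Prop)
    (hP : ∃ (σ : Type) (_ : Finite σ) (δ : σ → Hdr → σ) (s₀ : σ) (acc : σ → Bool),
      ∀ x : St, acc (x.word.foldl (fun s it => δ s it.h) s₀) = true ↔ P x)
    {f g : List Ltr → List Ltr} (hf : LT f) (hg : LT g) :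
    ∃ F : List Ltr → List Ltr, LT F ∧ ∀ x : St,
      (P x → F (encW x.word) = f (encW x.word)) ∧ (¬ P x → F (encW x.word) = g (encW x.word)) := by
  obtain ⟨σ, hσ, δ, s₀, acc, hacc⟩ := hP
  obtain ⟨σ', hσ', δ', s₀', g', hg'⟩ := hT σ hσ δ s₀
  refine ⟨_, LT.ite δ' s₀' (fun q => acc (g' q)) hf hg, fun x => ⟨fun h => ?_, fun h => ?_⟩⟩
  · have := (hacc x).2 h
    simp only [hg', this, if_true]
  · have : ¬ acc (x.word.foldl (fun s it => δ s it.h) s₀) = true := fun hh => h ((hacc x).1 hh)
    simp only [hg', this]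
    simp

theorem exists_down (hR : Realized encW) (hT : Tested encW) (a : Bool) :
    ∃ F : List Ltr → List Ltr, LT F ∧ ∀ x : St, F (encW x.word) = encW (x.down a).word := by
  obtain ⟨G, hG, eG⟩ := exists_open hR a
  obtain ⟨H, hH, eH⟩ := exists_grow hR a
  obtain ⟨F, hF, eF⟩ := exists_ite hT (fun x => x.child a = .nil) (test_nil a) (hG.comp hH) hG
  refine ⟨F, hF, fun x => ?_⟩
  obtain ⟨c, s, l, r⟩ := x
  by_cases h : St.child a ⟨c, s, l, r⟩ = .nil
  · rw [(eF _).1 h]
    cases a with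
    | false =>
      simp only [St.child, cond_false] at h
      subst h
      have h1 := eH c s r
      have h2 := eG c s lf r false .nil .nil rfl
      simp only [cond_false] at h1 h2
      show G (H (encW (W c s .nil r))) = _
      rw [h1, h2]
      rfl
    | true =>
      simp only [St.child, cond_true] at h
      subst h
      have h1 := eH c s l
      have h2 := eG c s l lf false .nil .nil rfl
      simp only [cond_true] at h1 h2
      show G (H (encW (W c s l .nil))) = _
      rw [h1, h2]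
      rfl
  · rw [(eF _).2 h]
    cases a with
    | false =>
      simp only [St.child, cond_false] at h
      cases l with
      | nil => exact absurd rfl h
      | node s' l' r' => exact eG c s (.node s' l' r') r s' l' r' rfl
    | true =>
      simp only [St.child, cond_true] at h
      cases r with
      | nil => exact absurd rfl h
      | node s' l' r' => exact eG c s l (.node s' l' r') s' l' r' rfl

theorem exists_up (hR : Realized encW) (hT : Tested encW) :
    ∃ F : List Ltr → List Ltr, LT F ∧ ∀ x : St, x.c ≠ [] → F (encW x.word) = encW x.up.word := by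
  obtain ⟨G, hG, eG⟩ := exists_close hR
  obtain ⟨H0, hH0, eH0⟩ := exists_prune hR false
  obtain ⟨H1, hH1, eH1⟩ := exists_prune hR true
  obtain ⟨F1, hF1, eF1⟩ := exists_ite hT (fun x => (x.c.map Fr.dir).take 1 = [true]) (test_dir true)
    (hH1.comp hG) (hH0.comp hG)
  obtain ⟨F, hF, eF⟩ := exists_ite hT (fun x => x.s = false ∧ x.l = .nil ∧ x.r = .nil) test_leaf hF1 hG
  refine ⟨F, hF, fun x hx => ?_⟩
  obtain ⟨c, s, l, r⟩ := x
  cases c with
  | nil => exact absurd rfl hx
  | cons f c =>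
    by_cases h : s = false ∧ l = .nil ∧ r = .nil
    · rw [(eF _).1 h]
      obtain ⟨rfl, rfl, rfl⟩ := h
      obtain ⟨dir, fs, w⟩ := f
      cases dir with
      | false =>
        rw [(eF1 _).2 (by simp)]
        have h1 := eG ⟨false, fs, w⟩ c false .nil .nil
        have h2 := eH0 c fs w
        simp only [cond_false] at h1 h2
        show H0 (G (encW (W (⟨false, fs, w⟩ :: c) false .nil .nil))) = _
        rw [h1]
        refine h2.trans ?_
        simp [St.up, prn, St.word]
      | true =>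
        rw [(eF1 _).1 (by simp)]
        have h1 := eG ⟨true, fs, w⟩ c false .nil .nil
        have h2 := eH1 c fs w
        simp only [cond_true] at h1 h2
        show H1 (G (encW (W (⟨true, fs, w⟩ :: c) false .nil .nil))) = _
        rw [h1]
        refine h2.trans ?_
        simp [St.up, prn, St.word]
    · rw [(eF _).2 h]
      refine (eG f c s l r).trans ?_
      obtain ⟨dir, fs, w⟩ := f
      cases dir <;> simp [St.up, prn, St.word, h]

end

theorem main_theorem : (∀ S : Set Lamp, CayleyLinTime Lamp S) ∧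
    ∃ S : Set Lamp, S.Finite ∧ Subsemigroup.closure S = ⊤ := by
  obtain ⟨Ltr, hfin, encW, hinj, hR, hT⟩ := realize
  refine group_level (Ltr := Ltr) (fun x => encW x.word) ?_ (exists_down hR hT) (exists_up hR hT)
    (exists_toggle hR) ?_
  · intro x y h
    exact word_inj x y (hinj _ _ (word_wf x) (word_wf y) h)
  · intro a b
    obtain ⟨σ, hσ, δ, s₀, acc, hacc⟩ := test_dirs [a, b] (by simp)
    obtain ⟨σ', hσ', δ', s₀', g, hg⟩ := hT σ hσ δ s₀
    refine ⟨σ', hσ', δ', s₀', fun q => acc (g q), fun x => ?_⟩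
    simp only [hg]
    exact hacc x

end Pool.Agent.W_MP_1173fd_al
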