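import Pool.Agent.W_MP_1173fd_al.Defs

/-!
# The lamplighter group over the free group of rank two, and Cayley linear-time computability
-/

namespace Pool.Agent.W_MP_1173fd_al

/-- The free group of rank two. -/
abbrev F2 : Type := FreeGroup (Fin 2)

/-- `F2` acts on finitely supported functions `F2 → ZMod 2` by translating indices:
`(shift g f) h = f (g⁻¹ h)`. -/
noncomputable def shift : F2 →* MulAut (Multiplicative (F2 →₀ ZMod 2)) where
  toFun g := AddEquiv.toMultiplicative (Finsupp.domCongr (Equiv.mulLeft g))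
  map_one' := MulEquiv.ext fun f => Multiplicative.toAdd.injective <| Finsupp.ext fun h => by
    change (Multiplicative.toAdd f) ((1 : F2)⁻¹ * h) = (Multiplicative.toAdd f) h
    rw [inv_one, one_mul]
  map_mul' a b := MulEquiv.ext fun f => Multiplicative.toAdd.injective <| Finsupp.ext fun h => by
    change (Multiplicative.toAdd f) ((a * b)⁻¹ * h) =
      (Multiplicative.toAdd f) (b⁻¹ * (a⁻¹ * h))
    rw [mul_inv_rev, mul_assoc]

theorem shift_apply (g : F2) (f : Multiplicative (F2 →₀ ZMod 2)) (h : F2) :
    Multiplicative.toAdd (shift g f) h = Multiplicative.toAdd f (g⁻¹ * h) := rfl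

/-- The restricted wreath product `ℤ/2 ≀ F₂`. -/
abbrev Lamp : Type := Multiplicative (F2 →₀ ZMod 2) ⋊[shift] F2

/-- `G` is Cayley position-faithful (one-tape) linear-time computable with respect to `S`. -/
def CayleyLinTime (G : Type) [Group G] (S : Set G) : Prop :=
  ∃ (A : Type) (_ : Finite A) (L : Set (List A)) (ψ : L ≃ G) (f : G → List A → List A),
    ∀ s ∈ S, LinTime (f s) ∧ ∀ w : L, ∃ h : f s w ∈ L, ψ ⟨f s w, h⟩ = ψ w * s

end Pool.Agent.W_MP_1173fd_al
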