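import Pool.Agent.W_MP_1173fd_al.Defs

/-!
# Item level machines

A tape word is a list of items; an item is a header (finite information) and a binary register with
`N + 1` cells holding `val < 2 ^ (N + 1)`.  A `Mach` makes a right-to-left scan (which may change
headers and annotate them) and then a left-to-right scan (which may change headers and registers,
delete items and insert leaf blocks).
-/

namespace Pool.Agent.W_MP_1173fd_al

/-- Corners of a vertex: the contour word visits every vertex three times. -/
inductive Cor
  | c1 | c2 | c3
  deriving DecidableEq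

/-- Kinds of items.  `sp false`: spine vertex whose left child is on the spine, `sp true`: spine
vertex whose right child is on the spine. -/
inductive Kind
  | cl
  | sp (dir : Bool)
  | cu
  | ze
  deriving DecidableEq

/-- Comparison of the heights of the left and right subtrees. -/
inductive Cmp
  | lt | eq | gt
  deriving DecidableEq

/-- Headers. -/
structure Hdr where
  kind : Kind
  cor : Cor
  lamp : Bool
  cmp : Cmp
  /-- ruler mark (spine): the distance to the cursor is a power of two -/
  P : Bool
  /-- pointer mark (side blocks) -/
  ptr : Bool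
  /-- awake flag of the register -/
  aw : Bool
  deriving DecidableEq

instance : Finite Cor :=
  Finite.of_injective (fun c : Cor => (match c with | .c1 => 0 | .c2 => 1 | .c3 => 2 : Fin 3))
    (by intro a b; cases a <;> cases b <;> simp)

instance : Finite Kind :=
  Finite.of_injective (fun c : Kind =>
    (match c with | .cl => 0 | .sp false => 1 | .sp true => 2 | .cu => 3 | .ze => 4 : Fin 5))
    (by rintro (_ | _ | _ | _) (_ | _ | _ | _) <;> (try cases ‹Bool›) <;> (try cases ‹Bool›) <;> simp)

instance : Finite Cmp :=
  Finite.of_injective (fun c : Cmp => (match c with | .lt => 0 | .eq => 1 | .gt => 2 : Fin 3))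
    (by intro a b; cases a <;> cases b <;> simp)

instance : Finite Hdr :=
  Finite.of_injective (fun h : Hdr => (h.kind, h.cor, h.lamp, h.cmp, h.P, h.ptr, h.aw))
    (by rintro ⟨⟩ ⟨⟩ h; simp_all)

/-- Annotations written by the right-to-left scan. -/
abbrev Ann := Fin 4

/-- Is `n` a power of two? -/
def pw (n : ℕ) : Bool := decide (n = 2 ^ Nat.log 2 n)

/-- Items. -/
structure Item where
  h : Hdr
  N : ℕ
  val : ℕ
  deriving DecidableEq

/-- Finite information about a register, available to the scans. -/
structure Sum where
  /-- `val = 0` -/
  z : Bool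
  /-- `val` is a power of two -/
  pow : Bool
  /-- `val + 1` is a power of two -/
  pow1 : Bool
  /-- `val = 2 ^ N` -/
  top : Bool
  /-- `val + 1 = 2 ^ N` -/
  pt : Bool
  /-- `val + 1 = 2 ^ (N + 1)` -/
  full : Bool
  /-- `val = N` -/
  eqN : Bool
  /-- `N = 0` -/
  N0 : Bool
  deriving DecidableEq

instance : Finite Sum :=
  Finite.of_injective (fun s : Sum => (s.z, s.pow, s.pow1, s.top, s.pt, s.full, s.eqN, s.N0))
    (by rintro ⟨⟩ ⟨⟩ h; simp_all)

/-- The finite information about the register `(N, val)`. -/
def sumOf (N val : ℕ) : Sum where
  z := decide (val = 0)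
  pow := pw val
  pow1 := pw (val + 1)
  top := decide (val = 2 ^ N)
  pt := decide (val + 1 = 2 ^ N)
  full := decide (val + 1 = 2 ^ (N + 1))
  eqN := decide (val = N)
  N0 := decide (N = 0)

/-- Register operations (`del` deletes the whole item). -/
inductive Op
  | id | inc | dec | grow | shrink | incGrow | decShrink | del
  deriving DecidableEq

instance : Finite Op :=
  Finite.of_injective (fun o : Op => (match o with
    | .id => 0 | .inc => 1 | .dec => 2 | .grow => 3 | .shrink => 4 | .incGrow => 5
    | .decShrink => 6 | .del => 7 : Fin 8))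
    (by intro a b; cases a <;> cases b <;> simp)

/-- Effect of an operation on a register `(N, val)` (irrelevant for `del`). -/
def Op.app : Op → ℕ → ℕ → ℕ × ℕ
  | .id, N, v => (N, v)
  | .inc, N, v => (N, (v + 1) % 2 ^ (N + 1))
  | .dec, N, v => (N, (v + 2 ^ (N + 1) - 1) % 2 ^ (N + 1))
  | .grow, N, v => (N + 1, v)
  | .shrink, 0, v => (0, v)
  | .shrink, N + 1, v => (N, v % 2 ^ (N + 1))
  | .incGrow, N, v => (N + 1, (v + 1) % 2 ^ (N + 1) + 2 ^ (N + 1))
  | .decShrink, 0, v => (0, (v + 1) % 2)
  | .decShrink, N + 1, v => (N, (v + 2 ^ (N + 2) - 1) % 2 ^ (N + 1))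
  | .del, N, v => (N, v)

/-- Number of letters inserted or deleted by an operation. -/
def Op.wt : Op → ℕ → ℕ
  | .id, _ => 0
  | .inc, _ => 0
  | .dec, _ => 0
  | .grow, _ => 1
  | .shrink, _ => 1
  | .incGrow, _ => 1
  | .decShrink, _ => 1
  | .del, N => N + 2

/-- The three items of a closed leaf without lamp. -/
def leafItem (c : Cor) : Item := ⟨⟨.cl, c, false, .eq, false, false, true⟩, 0, 0⟩

/-- The word of a closed leaf without lamp. -/
def leafItems : List Item := [leafItem .c1, leafItem .c2, leafItem .c3]

/-- Item level machines. -/
structure Mach where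
  Q : Type
  finQ : Finite Q
  P : Type
  finP : Finite P
  q0 : Q
  ι : Q → P
  /-- right-to-left scan -/
  A : Q → Hdr → Sum → Q × Hdr × Ann
  /-- left-to-right scan; the last component tells whether a leaf block is inserted before -/
  B : P → Hdr → Sum → Ann → P × Hdr × Op × Bool

namespace Mach

variable (M : Mach)

/-- Result of the right-to-left scan on one item. -/
def stepA (q : M.Q) (it : Item) : M.Q × Hdr × Ann := M.A q it.h (sumOf it.N it.val)

/-- Result of the left-to-right scan on one item which is reached in state `q` by the
right-to-left scan. -/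
def stepB (q : M.Q) (p : M.P) (it : Item) : M.P × Hdr × Op × Bool :=
  M.B p (M.stepA q it).2.1 (sumOf it.N it.val) (M.stepA q it).2.2

/-- Output of one item. -/
def outItem (it : Item) (o : Hdr × Op × Bool) : List Item :=
  (if o.2.2 then leafItems else []) ++
    (if o.2.1 = .del then [] else [⟨o.1, (o.2.1.app it.N it.val).1, (o.2.1.app it.N it.val).2⟩])

/-- Number of letters inserted or deleted at one item. -/
def outWt (it : Item) (o : Hdr × Op × Bool) : ℕ := (if o.2.2 then 6 else 0) + o.2.1.wt it.N

/-- Final state of the right-to-left scan. -/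
def rls : List Item → M.Q → M.Q
  | [], q => q
  | it :: w, q => (M.stepA (rls w q) it).1

/-- Final state, output and weight of the left-to-right scan, when the right-to-left scan enters
the word from the right in state `q`. -/
def lrs : List Item → M.Q → M.P → M.P × List Item × ℕ
  | [], _, p => (p, [], 0)
  | it :: w, q, p =>
    ((lrs w q (M.stepB (M.rls w q) p it).1).1,
      outItem it (M.stepB (M.rls w q) p it).2 ++ (lrs w q (M.stepB (M.rls w q) p it).1).2.1,
      outWt it (M.stepB (M.rls w q) p it).2 + (lrs w q (M.stepB (M.rls w q) p it).1).2.2)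

/-- Well-formed words. -/
def WF (w : List Item) : Prop := ∀ it ∈ w, it.val < 2 ^ (it.N + 1)

/-- `M` transforms the word `w` into `out` with at most `k` inserted or deleted letters. -/
def Runs (w out : List Item) (k : ℕ) : Prop :=
  (M.lrs w M.q0 (M.ι (M.rls w M.q0))).2 = (out, k)

end Mach

end Pool.Agent.W_MP_1173fd_al
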