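import Pool.Agent.W_MP_1173fd_al.Defs

/-!
# One-tape machines inserting / deleting one letter
-/

set_option autoImplicit false
set_option linter.unusedSectionVars false

namespace Pool.Agent.W_MP_1173fd_al

namespace Edit

/-- `M` goes from `c` to `c'` in `t` steps and is not in the halting state before. -/
def Run {T : Type} (M : SM T) (c : Conf M.Q T) (t : ℕ) (c' : Conf M.Q T) : Prop :=
  M.step^[t] c = c' ∧ ∀ s < t, (M.step^[s] c).q ≠ M.halt

variable {T : Type}

theorem Run.zero (M : SM T) (c : Conf M.Q T) : Run M c 0 c :=
  ⟨rfl, fun s hs => absurd hs (Nat.not_lt_zero s)⟩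

theorem Run.head {M : SM T} {c c' : Conf M.Q T} {t : ℕ} (h : c.q ≠ M.halt)
    (h2 : Run M (M.step c) t c') : Run M c (t + 1) c' := by
  refine ⟨?_, ?_⟩
  · rw [Function.iterate_succ_apply]
    exact h2.1
  · intro s hs
    cases s with
    | zero => exact h
    | succ s =>
      rw [Function.iterate_succ_apply]
      exact h2.2 s (by omega)

theorem Run.trans {M : SM T} {c c' c'' : Conf M.Q T} {t t' : ℕ} (h : Run M c t c')
    (h' : Run M c' t' c'') : Run M c (t + t') c'' := by
  refine ⟨?_, ?_⟩
  · rw [Nat.add_comm, Function.iterate_add_apply, h.1, h'.1]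
  · intro s hs
    by_cases hst : s < t
    · exact h.2 s hst
    · obtain ⟨k, rfl⟩ := Nat.exists_eq_add_of_le (Nat.le_of_not_lt hst)
      rw [Nat.add_comm, Function.iterate_add_apply, h.1]
      exact h'.2 k (by omega)

/-! ### Tapes -/

theorem tape_at (u : List T) (a : T) (l : List T) : tapeOf (u ++ a :: l) u.length = some a := by
  simp [tapeOf]

theorem tape_end (u : List T) : tapeOf u u.length = none := by
  simp [tapeOf]

theorem update_at (u : List T) (a b : T) (l : List T) :
    Function.update (tapeOf (u ++ a :: l)) u.length (some b) = tapeOf (u ++ b :: l) := by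
  funext i
  by_cases h : i = u.length
  · subst h
    simp [tapeOf]
  · rw [Function.update_of_ne h]
    unfold tapeOf
    rcases Nat.lt_or_gt_of_ne h with h | h
    · rw [List.getElem?_append_left h, List.getElem?_append_left h]
    · rw [List.getElem?_append_right (by omega), List.getElem?_append_right (by omega)]
      obtain ⟨k, hk⟩ := Nat.exists_eq_add_of_lt h
      have : i - u.length = k + 1 := by omega
      rw [this, List.getElem?_cons_succ, List.getElem?_cons_succ]

theorem update_end (u : List T) (b : T) :
    Function.update (tapeOf u) u.length (some b) = tapeOf (u ++ [b]) := by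
  funext i
  by_cases h : i = u.length
  · subst h
    simp [tapeOf]
  · rw [Function.update_of_ne h]
    unfold tapeOf
    rcases Nat.lt_or_gt_of_ne h with h | h
    · rw [List.getElem?_append_left h]
    · rw [List.getElem?_append_right (by omega), List.getElem?_eq_none (by omega),
        List.getElem?_eq_none (by simp; omega)]

theorem update_last (u : List T) (a : T) :
    Function.update (tapeOf (u ++ [a])) u.length none = tapeOf u := by
  funext i
  by_cases h : i = u.length
  · subst h
    simp [tapeOf]
  · rw [Function.update_of_ne h]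
    unfold tapeOf
    rcases Nat.lt_or_gt_of_ne h with h | h
    · rw [List.getElem?_append_left h]
    · rw [List.getElem?_append_right (by omega), List.getElem?_eq_none (by simp; omega),
        List.getElem?_eq_none (by omega)]

theorem update_self (tp : ℕ → Option T) (n : ℕ) : Function.update tp n (tp n) = tp :=
  Function.update_eq_self n tp

/-- The walk back to the marker. -/
theorem run_back (M : SM T) (back : M.Q) (hb : back ≠ M.halt)
    (hm : M.atMarker back = (M.halt, false)) (hc : ∀ x, M.atCell back x = (back, x, Dir.left))
    (tp : ℕ → Option T) : ∀ k : ℕ, Run M ⟨back, k, tp⟩ (k + 1) ⟨M.halt, 0, tp⟩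
  | 0 => by
    refine Run.head hb ?_
    have : M.step ⟨back, 0, tp⟩ = ⟨M.halt, 0, tp⟩ := by
      simp [SM.step, stepWith, hm]
    rw [this]
    exact Run.zero M _
  | k + 1 => by
    refine Run.head hb ?_
    have : M.step ⟨back, k + 1, tp⟩ = ⟨back, k, tp⟩ := by
      simp [SM.step, stepWith, hc, movePos]
    rw [this]
    exact run_back M back hb hm hc tp k

/-! ### Insertion -/

/-- States of the inserting machine. -/
inductive IQ (T : Type)
  | start
  | scan
  | back
  | halt
  | carry (c : T)

instance [Finite T] : Finite (IQ T) := by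
  refine Finite.of_surjective (α := Fin 4 ⊕ T)
    (fun x => Sum.elim (fun i => if i = 0 then IQ.start else if i = 1 then IQ.scan else
      if i = 2 then IQ.back else IQ.halt) IQ.carry x) ?_
  intro q
  cases q with
  | start => exact ⟨Sum.inl 0, by simp⟩
  | scan => exact ⟨Sum.inl 1, by simp⟩
  | back => exact ⟨Sum.inl 2, by simp⟩
  | halt => exact ⟨Sum.inl 3, by simp⟩
  | carry c => exact ⟨Sum.inr c, by simp⟩

/-- Action on the marker. -/
def insM : IQ T → IQ T × Bool
  | .start => (.scan, true)
  | _ => (.halt, false)

/-- Action on the cells. -/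
def insC (h : T → Option (T × T)) : IQ T → Option T → IQ T × Option T × Dir
  | .scan, none => (.back, none, .left)
  | .scan, some a => match h a with
    | some (b, c) => (.carry c, some b, .right)
    | none => (.scan, some a, .right)
  | .carry c, none => (.back, some c, .left)
  | .carry c, some a => (.carry a, some c, .right)
  | .back, x => (.back, x, .left)
  | .start, x => (.halt, x, .stay)
  | .halt, x => (.halt, x, .stay)

/-- The inserting machine. -/
def insSM [Finite T] (h : T → Option (T × T)) : SM T where
  Q := IQ T
  finQ := inferInstance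
  start := .start
  halt := .halt
  atMarker := insM
  atCell := insC h

variable [Finite T]

theorem ins_back (h : T → Option (T × T)) (tp : ℕ → Option T) (k : ℕ) :
    Run (insSM h) ⟨IQ.back, k, tp⟩ (k + 1) ⟨IQ.halt, 0, tp⟩ :=
  run_back (insSM h) IQ.back (by simp [insSM]) rfl (fun _ => rfl) tp k

theorem ins_carry (h : T → Option (T × T)) : ∀ (l u : List T) (c : T),
    Run (insSM h) ⟨IQ.carry c, u.length + 1, tapeOf (u ++ l)⟩ (l.length + 1 + (u.length + l.length + 1))
      ⟨IQ.halt, 0, tapeOf (u ++ c :: l)⟩
  | [], u, c => by
    rw [List.append_nil]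
    have e : ([] : List T).length + 1 + (u.length + ([] : List T).length + 1) = (u.length + 1) + 1 := by
      simp; omega
    rw [e]
    refine Run.head (by simp [insSM]) ?_
    have : (insSM h).step ⟨IQ.carry c, u.length + 1, tapeOf u⟩ =
        ⟨IQ.back, u.length, tapeOf (u ++ [c])⟩ := by
      simp [SM.step, stepWith, insSM, tape_end, insC, movePos, update_end]
    rw [this]
    exact ins_back h _ _
  | a :: l, u, c => by
    have e : (a :: l).length + 1 + (u.length + (a :: l).length + 1) =
        (l.length + 1 + ((u ++ [c]).length + l.length + 1)) + 1 := by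
      simp; omega
    rw [e]
    refine Run.head (by simp [insSM]) ?_
    have : (insSM h).step ⟨IQ.carry c, u.length + 1, tapeOf (u ++ a :: l)⟩ =
        ⟨IQ.carry a, (u ++ [c]).length + 1, tapeOf ((u ++ [c]) ++ l)⟩ := by
      simp [SM.step, stepWith, insSM, tape_at, insC, movePos, update_at]
    rw [this]
    have := ins_carry h l (u ++ [c]) a
    simpa using this

theorem ins_scan (h : T → Option (T × T)) : ∀ (l u : List T),
    Run (insSM h) ⟨IQ.scan, u.length + 1, tapeOf (u ++ l)⟩ (l.length + 1 + (u.length + l.length + 1))
      ⟨IQ.halt, 0, tapeOf (u ++ ins1 h l)⟩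
  | [], u => by
    rw [List.append_nil]
    have e : ([] : List T).length + 1 + (u.length + ([] : List T).length + 1) = (u.length + 1) + 1 := by
      simp; omega
    rw [e]
    refine Run.head (by simp [insSM]) ?_
    have : (insSM h).step ⟨IQ.scan, u.length + 1, tapeOf u⟩ =
        ⟨IQ.back, u.length, tapeOf u⟩ := by
      have h1 := update_self (tapeOf u) u.length
      rw [tape_end] at h1
      simp [SM.step, stepWith, insSM, tape_end, insC, movePos, h1]
    rw [this]
    have := ins_back h (tapeOf u) u.length
    simpa [ins1] using this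
  | a :: l, u => by
    cases ha : h a with
    | none =>
      have e : (a :: l).length + 1 + (u.length + (a :: l).length + 1) =
          (l.length + 1 + ((u ++ [a]).length + l.length + 1)) + 1 := by
        simp; omega
      rw [e]
      refine Run.head (by simp [insSM]) ?_
      have : (insSM h).step ⟨IQ.scan, u.length + 1, tapeOf (u ++ a :: l)⟩ =
          ⟨IQ.scan, (u ++ [a]).length + 1, tapeOf ((u ++ [a]) ++ l)⟩ := by
        simp [SM.step, stepWith, insSM, tape_at, insC, movePos, update_at, ha]
      rw [this]
      have := ins_scan h l (u ++ [a])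
      simpa [ins1, ha] using this
    | some bc =>
      obtain ⟨b, c⟩ := bc
      have e : (a :: l).length + 1 + (u.length + (a :: l).length + 1) =
          (l.length + 1 + ((u ++ [b]).length + l.length + 1)) + 1 := by
        simp; omega
      rw [e]
      refine Run.head (by simp [insSM]) ?_
      have : (insSM h).step ⟨IQ.scan, u.length + 1, tapeOf (u ++ a :: l)⟩ =
          ⟨IQ.carry c, (u ++ [b]).length + 1, tapeOf ((u ++ [b]) ++ l)⟩ := by
        simp [SM.step, stepWith, insSM, tape_at, insC, movePos, update_at, ha]
      rw [this]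
      have := ins_carry h l (u ++ [b]) c
      simpa [ins1, ha] using this

theorem ins1_length (h : T → Option (T × T)) : ∀ l : List T, (ins1 h l).length ≤ l.length + 1
  | [] => by simp [ins1]
  | a :: l => by
    have := ins1_length h l
    cases ha : h a with
    | none => simp [ins1, ha]; omega
    | some bc => obtain ⟨b, c⟩ := bc; simp [ins1, ha]

end Edit

open Edit

theorem LT.ins1 {T : Type} [Finite T] (h : T → Option (T × T)) : LT (ins1 h) := by
  refine ⟨insSM h, 4, fun w => ⟨?_, 1 + (w.length + 1 + (0 + w.length + 1)), ?_, ?_⟩⟩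
  · have := ins1_length h w
    omega
  · omega
  · have h1 : Run (insSM h) ⟨IQ.start, 0, tapeOf w⟩ 1 ⟨IQ.scan, 1, tapeOf w⟩ := by
      refine Run.head (by simp [insSM]) ?_
      have : (insSM h).step ⟨IQ.start, 0, tapeOf w⟩ = ⟨IQ.scan, 1, tapeOf w⟩ := by
        simp [SM.step, stepWith, insSM, insM]
      rw [this]
      exact Run.zero _ _
    have h2 := ins_scan h w []
    simp only [List.nil_append, List.length_nil, Nat.zero_add] at h2
    have h3 := h1.trans (by simpa using h2)
    rw [Nat.zero_add]
    exact h3

namespace Edit

/-! ### Deletion -/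

/-- States of the deleting machine. -/
inductive DQ (T : Type)
  | start
  | scan
  | back
  | halt
  | read
  | fetch
  | put (x : Option T)

variable {T : Type}

instance [Finite T] : Finite (DQ T) := by
  refine Finite.of_surjective (α := Fin 6 ⊕ Option T)
    (fun x => Sum.elim (fun i => if i = 0 then DQ.start else if i = 1 then DQ.scan else
      if i = 2 then DQ.back else if i = 3 then DQ.halt else if i = 4 then DQ.read else DQ.fetch)
      DQ.put x) ?_
  intro q
  cases q with
  | start => exact ⟨Sum.inl 0, by simp⟩
  | scan => exact ⟨Sum.inl 1, by simp⟩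
  | back => exact ⟨Sum.inl 2, by simp⟩
  | halt => exact ⟨Sum.inl 3, by simp⟩
  | read => exact ⟨Sum.inl 4, by simp⟩
  | fetch => exact ⟨Sum.inl 5, by simp⟩
  | put c => exact ⟨Sum.inr c, by simp⟩

/-- Action on the marker. -/
def delM : DQ T → DQ T × Bool
  | .start => (.scan, true)
  | _ => (.halt, false)

/-- Action on the cells. -/
def delC (p : T → Bool) : DQ T → Option T → DQ T × Option T × Dir
  | .scan, none => (.back, none, .left)
  | .scan, some a => if p a then (.read, some a, .right) else (.scan, some a, .right)
  | .read, x => (.put x, x, .left)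
  | .put none, _ => (.back, none, .left)
  | .put (some b), _ => (.fetch, some b, .right)
  | .fetch, x => (.read, x, .right)
  | .back, x => (.back, x, .left)
  | .start, x => (.halt, x, .stay)
  | .halt, x => (.halt, x, .stay)

/-- The deleting machine. -/
def delSM [Finite T] (p : T → Bool) : SM T where
  Q := DQ T
  finQ := inferInstance
  start := .start
  halt := .halt
  atMarker := delM
  atCell := delC p

variable [Finite T]

theorem del_back (p : T → Bool) (tp : ℕ → Option T) (k : ℕ) :
    Run (delSM p) ⟨DQ.back, k, tp⟩ (k + 1) ⟨DQ.halt, 0, tp⟩ :=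
  run_back (delSM p) DQ.back (by simp [delSM]) rfl (fun _ => rfl) tp k

/-- The shift: the cell `u.length` (containing `a`) is to be deleted, the head is on the next cell. -/
theorem del_read (p : T → Bool) : ∀ (l u : List T) (a : T),
    Run (delSM p) ⟨DQ.read, u.length + 2, tapeOf (u ++ a :: l)⟩ (3 * l.length + 2 + (u.length + l.length + 1))
      ⟨DQ.halt, 0, tapeOf (u ++ l)⟩
  | [], u, a => by
    have e : 3 * ([] : List T).length + 2 + (u.length + ([] : List T).length + 1) = (u.length + 1) + 1 + 1 := by
      simp; omega
    rw [e]
    refine Run.head (by simp [delSM]) ?_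
    have h0 : tapeOf (u ++ [a]) (u.length + 1) = none := by
      have := tape_end (u ++ [a])
      simpa using this
    have h1 := update_self (tapeOf (u ++ [a])) (u.length + 1)
    rw [h0] at h1
    have : (delSM p).step ⟨DQ.read, u.length + 2, tapeOf (u ++ [a])⟩ =
        ⟨DQ.put none, u.length + 1, tapeOf (u ++ [a])⟩ := by
      simp [SM.step, stepWith, delSM, delC, movePos, h0, h1]
    rw [this]
    refine Run.head (by simp [delSM]) ?_
    have : (delSM p).step ⟨DQ.put none, u.length + 1, tapeOf (u ++ [a])⟩ =
        ⟨DQ.back, u.length, tapeOf u⟩ := by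
      simp [SM.step, stepWith, delSM, delC, movePos, update_last]
    rw [this, List.append_nil]
    exact del_back p _ _
  | b :: l, u, a => by
    have e : 3 * (b :: l).length + 2 + (u.length + (b :: l).length + 1) =
        (3 * l.length + 2 + ((u ++ [b]).length + l.length + 1)) + 1 + 1 + 1 := by
      simp; omega
    rw [e]
    refine Run.head (by simp [delSM]) ?_
    have h0 : tapeOf (u ++ a :: b :: l) (u.length + 1) = some b := by
      have := tape_at (u ++ [a]) b l
      simpa using this
    have h1 := update_self (tapeOf (u ++ a :: b :: l)) (u.length + 1)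
    rw [h0] at h1
    have : (delSM p).step ⟨DQ.read, u.length + 2, tapeOf (u ++ a :: b :: l)⟩ =
        ⟨DQ.put (some b), u.length + 1, tapeOf (u ++ a :: b :: l)⟩ := by
      simp [SM.step, stepWith, delSM, delC, movePos, h0, h1]
    rw [this]
    refine Run.head (by simp [delSM]) ?_
    have : (delSM p).step ⟨DQ.put (some b), u.length + 1, tapeOf (u ++ a :: b :: l)⟩ =
        ⟨DQ.fetch, u.length + 2, tapeOf (u ++ b :: b :: l)⟩ := by
      simp [SM.step, stepWith, delSM, delC, movePos, update_at]
    rw [this]
    refine Run.head (by simp [delSM]) ?_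
    have : (delSM p).step ⟨DQ.fetch, u.length + 2, tapeOf (u ++ b :: b :: l)⟩ =
        ⟨DQ.read, (u ++ [b]).length + 2, tapeOf ((u ++ [b]) ++ b :: l)⟩ := by
      simp [SM.step, stepWith, delSM, delC, movePos]
    rw [this]
    have := del_read p l (u ++ [b]) b
    simpa using this

theorem del_scan (p : T → Bool) : ∀ (l u : List T), ∃ t ≤ 3 * l.length + 2 + (u.length + l.length + 1),
    Run (delSM p) ⟨DQ.scan, u.length + 1, tapeOf (u ++ l)⟩ t ⟨DQ.halt, 0, tapeOf (u ++ del1 p l)⟩
  | [], u => by
    refine ⟨(u.length + 1) + 1, by simp, ?_⟩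
    rw [List.append_nil]
    refine Run.head (by simp [delSM]) ?_
    have : (delSM p).step ⟨DQ.scan, u.length + 1, tapeOf u⟩ =
        ⟨DQ.back, u.length, tapeOf u⟩ := by
      have h1 := update_self (tapeOf u) u.length
      rw [tape_end] at h1
      simp [SM.step, stepWith, delSM, tape_end, delC, movePos, h1]
    rw [this]
    have := del_back p (tapeOf u) u.length
    simpa [del1] using this
  | a :: l, u => by
    have h1 := update_self (tapeOf (u ++ a :: l)) u.length
    rw [tape_at] at h1
    by_cases ha : p a = true
    · refine ⟨(3 * l.length + 2 + (u.length + l.length + 1)) + 1, by simp; omega, ?_⟩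
      refine Run.head (by simp [delSM]) ?_
      have : (delSM p).step ⟨DQ.scan, u.length + 1, tapeOf (u ++ a :: l)⟩ =
          ⟨DQ.read, u.length + 2, tapeOf (u ++ a :: l)⟩ := by
        simp [SM.step, stepWith, delSM, tape_at, delC, movePos, ha, h1]
      rw [this]
      have := del_read p l u a
      simpa [del1, ha] using this
    · obtain ⟨t, ht, hr⟩ := del_scan p l (u ++ [a])
      refine ⟨t + 1, by simp at ht ⊢; omega, ?_⟩
      refine Run.head (by simp [delSM]) ?_
      have : (delSM p).step ⟨DQ.scan, u.length + 1, tapeOf (u ++ a :: l)⟩ =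
          ⟨DQ.scan, (u ++ [a]).length + 1, tapeOf ((u ++ [a]) ++ l)⟩ := by
        simp [SM.step, stepWith, delSM, tape_at, delC, movePos, ha, h1]
      rw [this]
      simpa [del1, ha] using hr

theorem del1_length (p : T → Bool) : ∀ l : List T, (del1 p l).length ≤ l.length
  | [] => by simp [del1]
  | a :: l => by
    have := del1_length p l
    by_cases ha : p a = true
    · simp [del1, ha]
    · simp [del1, ha]; omega

end Edit

theorem LT.del1 {T : Type} [Finite T] (p : T → Bool) : LT (del1 p) := by
  refine ⟨delSM p, 5, fun w => ⟨?_, ?_⟩⟩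
  · have := del1_length p w
    omega
  · obtain ⟨t, ht, hr⟩ := del_scan p w []
    refine ⟨1 + t, by simp at ht; omega, ?_⟩
    have h1 : Run (delSM p) ⟨DQ.start, 0, tapeOf w⟩ 1 ⟨DQ.scan, 1, tapeOf w⟩ := by
      refine Run.head (by simp [delSM]) ?_
      have : (delSM p).step ⟨DQ.start, 0, tapeOf w⟩ = ⟨DQ.scan, 1, tapeOf w⟩ := by
        simp [SM.step, stepWith, delSM, delM]
      rw [this]
      exact Run.zero _ _
    simp only [List.nil_append, List.length_nil, Nat.zero_add] at hr
    exact h1.trans hr

end Pool.Agent.W_MP_1173fd_al
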