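import Pool.Agent.W_MP_1173fd_al.MachComp

/-!
# A right-to-left pass followed by a left-to-right pass
-/

namespace Pool.Agent.W_MP_1173fd_al

namespace MachRound

open MachComp

variable {T Q P : Type}

theorem rl_length (A : Q → T → Q × T) (q : Q) (w : List T) : (rl A q w).2.length = w.length := by
  induction w with
  | nil => rfl
  | cons a l ih => simp [rl, ih]

theorem lr_length (B : P → T → P × T) (w : List T) : ∀ p, (lr B p w).2.length = w.length := by
  induction w with
  | nil => intro p; rfl
  | cons a l ih => intro p; simp [lr, ih]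

theorem tapeOf_mid (u v : List T) (a : T) : tapeOf (u ++ a :: v) u.length = some a := by
  simp [tapeOf]

theorem tapeOf_end (u : List T) : tapeOf u u.length = none := by
  simp [tapeOf]

theorem update_mid (u v : List T) (a b : T) :
    Function.update (tapeOf (u ++ a :: v)) u.length (some b) = tapeOf (u ++ b :: v) := by
  funext i
  by_cases h : i = u.length
  · subst h
    rw [Function.update_self, tapeOf_mid]
  · rw [Function.update_of_ne h]
    simp only [tapeOf]
    rcases Nat.lt_or_gt_of_ne h with h1 | h1
    · rw [List.getElem?_append_left h1, List.getElem?_append_left h1]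
    · rw [List.getElem?_append_right (by omega), List.getElem?_append_right (by omega)]
      obtain ⟨j, hj⟩ : ∃ j, i - u.length = j + 1 := ⟨i - u.length - 1, by omega⟩
      rw [hj]
      simp

/-- States of the round-trip machine. -/
inductive RQ (Q P : Type)
  | seek
  | left (q : Q)
  | right (p : P)
  | ret
  | halt

instance [Finite Q] [Finite P] : Finite (RQ Q P) := by
  let e : RQ Q P → Fin 3 ⊕ (Q ⊕ P)
    | .seek => Sum.inl 0
    | .ret => Sum.inl 1
    | .halt => Sum.inl 2
    | .left q => Sum.inr (Sum.inl q)
    | .right p => Sum.inr (Sum.inr p)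
  refine Finite.of_injective e ?_
  intro a b h
  cases a <;> cases b <;> simp_all [e]

/-- The round-trip machine. -/
def roundM [Finite Q] [Finite P] (A : Q → T → Q × T) (ι : Q → P) (B : P → T → P × T) (q : Q) :
    SM T where
  Q := RQ Q P
  finQ := inferInstance
  start := .seek
  halt := .halt
  atMarker
    | .seek => (.seek, true)
    | .left q => (.right (ι q), true)
    | .right p => (.right p, false)
    | .ret => (.halt, false)
    | .halt => (.halt, false)
  atCell
    | .seek, some a => (.seek, some a, .right)
    | .seek, none => (.left q, none, .left)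
    | .left q, some a => (.left (A q a).1, some (A q a).2, .left)
    | .left q, none => (.left q, none, .left)
    | .right p, some a => (.right (B p a).1, some (B p a).2, .right)
    | .right _, none => (.ret, none, .left)
    | .ret, a => (.ret, a, .left)
    | .halt, a => (.halt, a, .stay)

section

variable [Finite Q] [Finite P] (A : Q → T → Q × T) (ι : Q → P) (B : P → T → P × T) (q : Q)

theorem seek_pass (w : List T) : ∀ k ≤ w.length,
    Exec (roundM A ι B q) ⟨.seek, 0, tapeOf w⟩ (k + 1) ⟨.seek, k + 1, tapeOf w⟩ := by
  intro k
  induction k with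
  | zero =>
    intro _
    refine Exec.one (by simp [roundM]) ?_
    simp [SM.step, stepWith, roundM]
  | succ k ih =>
    intro hk
    refine (ih (by omega)).trans (Exec.one (by simp [roundM]) ?_)
    have h1 : tapeOf w k = some w[k] := by
      simp [tapeOf, List.getElem?_eq_getElem (show k < w.length by omega)]
    have h2 : Function.update (tapeOf w) k (some w[k]) = tapeOf w := by
      rw [← h1, Function.update_eq_self]
    simp only [SM.step, stepWith, roundM, h1, movePos, h2]

theorem left_pass (u : List T) : ∀ v : List T,
    Exec (roundM A ι B q) ⟨.left (rl A q v).1, u.length, tapeOf (u ++ (rl A q v).2)⟩ u.length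
      ⟨.left (rl A q (u ++ v)).1, 0, tapeOf (rl A q (u ++ v)).2⟩ := by
  induction u using List.reverseRecOn with
  | nil => intro v; exact Exec.refl _ _
  | append_singleton u a ih =>
    intro v
    have h := ih (a :: v)
    have h1 : Exec (roundM A ι B q)
        ⟨.left (rl A q v).1, (u ++ [a]).length, tapeOf (u ++ [a] ++ (rl A q v).2)⟩ 1
        ⟨.left (rl A q (a :: v)).1, u.length, tapeOf (u ++ (rl A q (a :: v)).2)⟩ := by
      refine Exec.one (by simp [roundM]) ?_
      have e1 : u ++ [a] ++ (rl A q v).2 = u ++ a :: (rl A q v).2 := by simp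
      have e2 : (u ++ [a]).length = u.length + 1 := by simp
      rw [e1, e2]
      simp only [SM.step, stepWith, roundM, tapeOf_mid, movePos, update_mid, rl]
    have h2 := h1.trans h
    have e3 : (u ++ [a]).length = 1 + u.length := by simp; omega
    have e4 : u ++ [a] ++ v = u ++ a :: v := by simp
    rw [e4]
    rw [← e3] at h2
    exact h2

theorem right_pass (y : List T) : ∀ (x : List T) (p : P),
    Exec (roundM A ι B q) ⟨.right p, x.length + 1, tapeOf (x ++ y)⟩ y.length
      ⟨.right (lr B p y).1, x.length + y.length + 1, tapeOf (x ++ (lr B p y).2)⟩ := by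
  induction y with
  | nil => intro x p; exact Exec.refl _ _
  | cons a y ih =>
    intro x p
    have h := ih (x ++ [(B p a).2]) (B p a).1
    have h1 : Exec (roundM A ι B q)
        ⟨.right p, x.length + 1, tapeOf (x ++ a :: y)⟩ 1
        ⟨.right (B p a).1, (x ++ [(B p a).2]).length + 1, tapeOf (x ++ [(B p a).2] ++ y)⟩ := by
      refine Exec.one (by simp [roundM]) ?_
      have e1 : x ++ [(B p a).2] ++ y = x ++ (B p a).2 :: y := by simp
      have e2 : (x ++ [(B p a).2]).length + 1 = x.length + 2 := by simp
      rw [e1, e2]
      simp only [SM.step, stepWith, roundM, tapeOf_mid, movePos, update_mid]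
    have h2 := h1.trans h
    have e3 : (a :: y).length = 1 + y.length := by simp; omega
    have e4 : x.length + (a :: y).length + 1 = (x ++ [(B p a).2]).length + y.length + 1 := by
      simp; omega
    have e5 : x ++ (lr B p (a :: y)).2 = x ++ [(B p a).2] ++ (lr B (B p a).1 y).2 := by
      simp [lr]
    rw [e4, e5, e3]
    exact h2

theorem ret_pass (w : List T) : ∀ k ≤ w.length,
    Exec (roundM A ι B q) ⟨.ret, w.length, tapeOf w⟩ k ⟨.ret, w.length - k, tapeOf w⟩ := by
  intro k
  induction k with
  | zero => intro _; exact Exec.refl _ _
  | succ k ih =>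
    intro hk
    refine (ih (by omega)).trans (Exec.one (by simp [roundM]) ?_)
    obtain ⟨m, hm⟩ : ∃ m, w.length - k = m + 1 := ⟨w.length - k - 1, by omega⟩
    have hm' : w.length - (k + 1) = m := by omega
    rw [hm, hm']
    simp [SM.step, stepWith, roundM, movePos, Function.update_eq_self]

theorem round_exec (w : List T) :
    Exec (roundM A ι B q) ⟨.seek, 0, tapeOf w⟩ (4 * w.length + 5)
      ⟨.halt, 0, tapeOf (roundF A ι B q w)⟩ := by
  -- go right
  have h1 := seek_pass A ι B q w w.length le_rfl
  have h2 : Exec (roundM A ι B q) ⟨.seek, w.length + 1, tapeOf w⟩ 1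
      ⟨.left q, w.length, tapeOf w⟩ := by
    refine Exec.one (by simp [roundM]) ?_
    have h0' : Function.update (tapeOf w) w.length none = tapeOf w := by
      rw [← tapeOf_end w, Function.update_eq_self]
    simp only [SM.step, stepWith, roundM, tapeOf_end, movePos, h0']
  -- right to left
  have h3 := left_pass A ι B q w []
  have e3 : w ++ (rl A q []).2 = w := by simp [rl]
  have e3' : w ++ ([] : List T) = w := by simp
  rw [e3, e3'] at h3
  set w' := (rl A q w).2 with hw'
  have hlen : w'.length = w.length := rl_length A q w
  have h4 : Exec (roundM A ι B q) ⟨.left (rl A q w).1, 0, tapeOf w'⟩ 1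
      ⟨.right (ι (rl A q w).1), 1, tapeOf w'⟩ := by
    refine Exec.one (by simp [roundM]) ?_
    simp [SM.step, stepWith, roundM]
  -- left to right
  have h5 := right_pass A ι B q w' [] (ι (rl A q w).1)
  rw [List.nil_append, List.nil_append, List.length_nil, Nat.zero_add, Nat.zero_add] at h5
  set w'' := (lr B (ι (rl A q w).1) w').2 with hw''
  have hlen' : w''.length = w'.length := lr_length B w' _
  have h6 : Exec (roundM A ι B q)
      ⟨.right (lr B (ι (rl A q w).1) w').1, w'.length + 1, tapeOf w''⟩ 1
      ⟨.ret, w''.length, tapeOf w''⟩ := by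
    refine Exec.one (by simp [roundM]) ?_
    rw [← hlen']
    have h0' : Function.update (tapeOf w'') w''.length none = tapeOf w'' := by
      rw [← tapeOf_end w'', Function.update_eq_self]
    simp only [SM.step, stepWith, roundM, tapeOf_end, movePos, h0']
  have h7 := ret_pass A ι B q w'' w''.length le_rfl
  rw [Nat.sub_self] at h7
  have h8 : Exec (roundM A ι B q) ⟨.ret, 0, tapeOf w''⟩ 1 ⟨.halt, 0, tapeOf w''⟩ := by
    refine Exec.one (by simp [roundM]) ?_
    simp [SM.step, stepWith, roundM]
  have h := ((((((h1.trans h2).trans h3).trans h4).trans h5).trans h6).trans h7).trans h8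
  have e : 4 * w.length + 5
      = w.length + 1 + 1 + w.length + 1 + w'.length + 1 + w''.length + 1 := by omega
  rw [e]
  exact h

end

end MachRound

open MachRound MachComp

/-- A right-to-left pass followed by a left-to-right pass is computed by a simple machine. -/
theorem LT.round {T Q P : Type} [Finite Q] [Finite P] (A : Q → T → Q × T) (ι : Q → P)
    (B : P → T → P × T) (q : Q) : LT (roundF A ι B q) := by
  refine ⟨roundM A ι B q, 5, fun w => ⟨?_, 4 * w.length + 5, by omega, ?_⟩⟩
  · have h : (roundF A ι B q w).length = w.length := by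
      unfold roundF
      rw [lr_length, rl_length]
    omega
  · exact round_exec A ι B q w

end Pool.Agent.W_MP_1173fd_al
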