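import Pool.Agent.W_MP_1173fd_al.Items
import Pool.Agent.W_MP_1173fd_al.MachEdit
import Pool.Agent.W_MP_1173fd_al.MachComp
import Pool.Agent.W_MP_1173fd_al.MachRound

/-!
# Letter level realization of item level machines
-/

set_option autoImplicit false

namespace Pool.Agent.W_MP_1173fd_al
namespace Realize

/-- Letters: headers with scratch fields, and cells (dynamic bit, static bit, annotations). -/
inductive Ltr
  | hd (h : Hdr) (s : Sum) (a : Ann) (pend : Fin 7) (g : Option Bool) (d : Bool)
  | ce (dyn sta lo lz slo slz d : Bool)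

instance : Finite Ltr :=
  Finite.of_injective (fun l : Ltr => (match l with
    | .hd h s a p g d => _root_.Sum.inl (h, s, a, p, g, d)
    | .ce b s lo lz slo slz d => _root_.Sum.inr (b, s, lo, lz, slo, slz, d) :
      (Hdr × Sum × Ann × Fin 7 × Option Bool × Bool) ⊕
        (Bool × Bool × Bool × Bool × Bool × Bool × Bool)))
    (by rintro (_ | _) (_ | _) h <;> simp_all)

/-- The plain cell. -/
def plain (b s : Bool) : Ltr := .ce b s false false false false false

/-- The neutral summary. -/
def s0 : Sum := ⟨false, false, false, false, false, false, false, false⟩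

/-- The plain header letter. -/
def hdl (h : Hdr) : Ltr := .hd h s0 0 0 none false

/-- The `m` lowest cells, most significant first. -/
def cells (v N : ℕ) : ℕ → List Ltr
  | 0 => []
  | m + 1 => plain (v.testBit m) (N.testBit m) :: cells v N m

/-- Encoding of an item. -/
def enc (it : Item) : List Ltr := hdl it.h :: cells it.val it.N (it.N + 1)

/-- Encoding of a word. -/
def encW (w : List Item) : List Ltr := w.flatMap enc

/-! ### Injectivity -/

/-- Is the letter a header? -/
def isHd : Ltr → Bool
  | .hd .. => true
  | .ce .. => false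

lemma cells_not_hd (v N m : ℕ) : ∀ a ∈ cells v N m, isHd a = false := by
  induction m with
  | zero => simp [cells]
  | succ m ih => simp [cells, plain, isHd]; exact ih

lemma append_inj_aux {l₁ l₂ X Y : List Ltr} (h₁ : ∀ a ∈ l₁, isHd a = false)
    (h₂ : ∀ a ∈ l₂, isHd a = false) (hX : ∀ a ∈ X.head?, isHd a = true)
    (hY : ∀ a ∈ Y.head?, isHd a = true) (h : l₁ ++ X = l₂ ++ Y) : l₁ = l₂ ∧ X = Y := by
  induction l₁ generalizing l₂ with
  | nil =>
    cases l₂ with
    | nil => simpa using h
    | cons b l₂ =>
      simp only [List.nil_append, List.cons_append] at h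
      subst h
      have := hX b (by simp)
      rw [h₂ b (by simp)] at this
      exact absurd this (by simp)
  | cons a l₁ ih =>
    cases l₂ with
    | nil =>
      simp only [List.nil_append, List.cons_append] at h
      subst h
      have := hY a (by simp)
      rw [h₁ a (by simp)] at this
      exact absurd this (by simp)
    | cons b l₂ =>
      simp only [List.cons_append, List.cons.injEq] at h
      obtain ⟨h3, h4⟩ := ih (fun a ha => h₁ a (by simp [ha])) (fun a ha => h₂ a (by simp [ha])) h.2
      exact ⟨by rw [h.1, h3], h4⟩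

lemma length_cells (v N m : ℕ) : (cells v N m).length = m := by
  induction m with
  | zero => rfl
  | succ m ih => simp [cells, ih]

lemma cells_inj (v N v' N' m : ℕ) (h : cells v N m = cells v' N' m) :
    ∀ i < m, v.testBit i = v'.testBit i := by
  induction m with
  | zero => intro i hi; omega
  | succ m ih =>
    simp only [cells, List.cons.injEq, plain, Ltr.ce.injEq] at h
    intro i hi
    rcases Nat.lt_succ_iff_lt_or_eq.mp hi with h1 | h1
    · exact ih h.2 i h1
    · subst h1; exact h.1.1

lemma encW_head (w : List Item) : ∀ a ∈ (encW w).head?, isHd a = true := by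
  cases w with
  | nil => simp [encW]
  | cons it w => simp [encW, enc, hdl, isHd]

theorem encW_inj (w w' : List Item) (hw : Mach.WF w) (hw' : Mach.WF w') (h : encW w = encW w') :
    w = w' := by
  induction w generalizing w' with
  | nil =>
    cases w' with
    | nil => rfl
    | cons it w' => simp [encW, enc] at h
  | cons it w ih =>
    cases w' with
    | nil => simp [encW, enc] at h
    | cons it' w' =>
      have e1 : encW (it :: w) = hdl it.h :: (cells it.val it.N (it.N + 1) ++ encW w) := by
        simp [encW, enc]
      have e2 : encW (it' :: w') = hdl it'.h :: (cells it'.val it'.N (it'.N + 1) ++ encW w') := by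
        simp [encW, enc]
      rw [e1, e2, List.cons.injEq] at h
      obtain ⟨h1, h2⟩ := h
      obtain ⟨h3, h4⟩ := append_inj_aux (cells_not_hd _ _ _) (cells_not_hd _ _ _)
        (encW_head w) (encW_head w') h2
      have hN : it.N = it'.N := by
        have := congrArg List.length h3
        simpa [length_cells] using this
      have hh : it.h = it'.h := by
        simp only [hdl, Ltr.hd.injEq] at h1
        exact h1.1
      have hv : it.val = it'.val := by
        refine Nat.eq_of_testBit_eq fun i => ?_
        have b1 := hw it (by simp)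
        have b2 := hw' it' (by simp)
        rw [← hN] at h3 b2
        by_cases hi : i < it.N + 1
        · exact cells_inj _ _ _ _ _ h3 i hi
        · rw [Nat.testBit_lt_two_pow (lt_of_lt_of_le b1 (Nat.pow_le_pow_right (by norm_num)
            (by omega))), Nat.testBit_lt_two_pow (lt_of_lt_of_le b2
            (Nat.pow_le_pow_right (by norm_num) (by omega)))]
      have : it = it' := by
        cases it; cases it'; simp_all
      rw [this, ih w' (fun a ha => hw a (by simp [ha])) (fun a ha => hw' a (by simp [ha])) h4]

/-! ### Register states -/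

/-- Finite information about the lowest `m` cells. -/
structure RS where
  lo : Bool
  lz : Bool
  slo : Bool
  slz : Bool
  pow : Bool
  pow1 : Bool
  top : Bool
  pt : Bool
  eqN : Bool
  c0 : Bool
  c1 : Bool

instance : Finite RS :=
  Finite.of_injective (fun r : RS => (r.lo, r.lz, r.slo, r.slz, r.pow, r.pow1, r.top, r.pt, r.eqN,
    r.c0, r.c1)) (by rintro ⟨⟩ ⟨⟩ h; simp_all)

/-- Information about the `m` lowest cells of `v` and `N`. -/
def rsOf (v N m : ℕ) : RS where
  lo := decide (v % 2 ^ m + 1 = 2 ^ m)
  lz := decide (v % 2 ^ m = 0)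
  slo := decide (N % 2 ^ m + 1 = 2 ^ m)
  slz := decide (N % 2 ^ m = 0)
  pow := pw (v % 2 ^ m)
  pow1 := pw (v % 2 ^ m + 1)
  top := decide (1 ≤ m ∧ v % 2 ^ m = 2 ^ (m - 1))
  pt := decide (1 ≤ m ∧ v % 2 ^ m + 1 = 2 ^ (m - 1))
  eqN := decide (v % 2 ^ m = N % 2 ^ m)
  c0 := decide (m = 0)
  c1 := decide (m = 1)

/-- The initial register state. -/
def rs0 : RS := rsOf 0 0 0

lemma rsOf_zero (v N : ℕ) : rsOf v N 0 = rs0 := by
  simp [rsOf, rs0, Nat.mod_one]

/-- Transition of the register state. -/
def rsStep (r : RS) (b s : Bool) : RS where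
  lo := r.lo && b
  lz := r.lz && !b
  slo := r.slo && s
  slz := r.slz && !s
  pow := (b && r.lz) || (!b && r.pow)
  pow1 := (b && r.lo) || (!b && r.pow1)
  top := b && r.lz
  pt := !b && r.lo
  eqN := r.eqN && (b == s)
  c0 := false
  c1 := r.c0

lemma pw_iff (n : ℕ) : pw n = true ↔ ∃ k, n = 2 ^ k := by
  unfold pw
  simp only [decide_eq_true_eq]
  constructor
  · intro h; exact ⟨_, h⟩
  · rintro ⟨k, rfl⟩
    rw [Nat.log_pow (by norm_num)]

lemma mod_two_pow_succ' (x m : ℕ) :
    x % 2 ^ (m + 1) = x % 2 ^ m + 2 ^ m * (x.testBit m).toNat := by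
  rw [Nat.mod_pow_succ, Nat.testBit_eq_decide_div_mod_eq]
  congr 2
  rcases Nat.mod_two_eq_zero_or_one (x / 2 ^ m) with h | h <;> simp [h]

lemma rsOf_succ (v N m : ℕ) :
    rsOf v N (m + 1) = rsStep (rsOf v N m) (v.testBit m) (N.testBit m) := by
  have hp : 0 < 2 ^ m := by positivity
  have hv : v % 2 ^ m < 2 ^ m := Nat.mod_lt _ hp
  have hN : N % 2 ^ m < 2 ^ m := Nat.mod_lt _ hp
  have e1 := mod_two_pow_succ' v m
  have e2 := mod_two_pow_succ' N m
  have hs : 2 ^ (m + 1) = 2 * 2 ^ m := by ring
  have hpow : ∀ x, x < 2 ^ m → ((∃ k, x + 2 ^ m = 2 ^ k) ↔ x = 0) := by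
    intro x hx
    constructor
    · rintro ⟨k, hk⟩
      by_contra h0
      have h1 : 2 ^ m < 2 ^ k := by omega
      have h2 : 2 ^ k < 2 ^ (m + 1) := by omega
      have h3 := (Nat.pow_lt_pow_iff_right (by norm_num : 1 < 2)).mp h1
      have h4 := (Nat.pow_lt_pow_iff_right (by norm_num : 1 < 2)).mp h2
      omega
    · rintro rfl; exact ⟨m, by omega⟩
  have hpow1 : ∀ x, x < 2 ^ m → ((∃ k, x + 2 ^ m + 1 = 2 ^ k) ↔ x + 1 = 2 ^ m) := by
    intro x hx
    constructor
    · rintro ⟨k, hk⟩
      have h1 : 2 ^ m < 2 ^ k := by omega
      have h3 := (Nat.pow_lt_pow_iff_right (by norm_num : 1 < 2)).mp h1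
      have h4 : 2 ^ (m + 1) ≤ 2 ^ k := Nat.pow_le_pow_right (by norm_num) h3
      omega
    · intro h; exact ⟨m + 1, by omega⟩
  unfold rsOf rsStep
  cases hb : v.testBit m <;> cases hsb : N.testBit m <;>
    simp only [hb, hsb, Bool.toNat_false, Bool.toNat_true, mul_zero, add_zero, mul_one] at e1 e2 <;>
    simp only [e1, e2, RS.mk.injEq, Nat.add_sub_cancel, Bool.and_false, Bool.and_true,
      Bool.not_false, Bool.not_true, Bool.false_and, Bool.true_and, Bool.false_or, Bool.or_false] <;>
    refine ⟨?_, ?_, ?_, ?_, ?_, ?_, ?_, ?_, ?_, ?_, ?_⟩ <;>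
    (try rw [Bool.eq_iff_iff]) <;> (try simp only [decide_eq_true_eq, pw_iff, Bool.false_eq_true,
      Bool.and_eq_true, iff_false, beq_iff_eq, hpow _ hv, hpow1 _ hv]) <;> (try omega) <;>
      (try tauto) <;> (try (simp only [and_true, and_false, iff_false, reduceCtorEq]; omega))

/-- The summary computed from the register state. -/
def sumR (r : RS) : Sum where
  z := r.lz
  pow := r.pow
  pow1 := r.pow1
  top := r.top
  pt := r.pt
  full := r.lo
  eqN := r.eqN
  N0 := r.c1

lemma sumR_rsOf (v N : ℕ) (hv : v < 2 ^ (N + 1)) : sumR (rsOf v N (N + 1)) = sumOf N v := by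
  have h1 : v % 2 ^ (N + 1) = v := Nat.mod_eq_of_lt hv
  have h2 : N % 2 ^ (N + 1) = N := Nat.mod_eq_of_lt (lt_of_lt_of_le (Nat.lt_two_pow_self)
    (Nat.pow_le_pow_right (by norm_num) (by omega)))
  simp [sumR, rsOf, sumOf, h1, h2]

/-! ### Bits of the register operations -/

lemma testBit_add_one (v n : ℕ) :
    (v + 1).testBit n = (v.testBit n ^^ decide (v % 2 ^ n + 1 = 2 ^ n)) := by
  have hp : 0 < 2 ^ n := by positivity
  have hv := Nat.mod_lt v hp
  have hd := Nat.div_add_mod v (2 ^ n)
  rw [Nat.testBit_eq_decide_div_mod_eq, Nat.testBit_eq_decide_div_mod_eq]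
  by_cases h : v % 2 ^ n + 1 = 2 ^ n
  · have e : (v + 1) / 2 ^ n = v / 2 ^ n + 1 := by
      have : v + 1 = 2 ^ n * (v / 2 ^ n + 1) := by
        rw [mul_add, mul_one]; omega
      rw [this, Nat.mul_div_cancel_left _ hp]
    rw [e]
    rcases Nat.mod_two_eq_zero_or_one (v / 2 ^ n) with h' | h' <;> simp [h, Nat.add_mod, h']
  · have e : (v + 1) / 2 ^ n = v / 2 ^ n := by
      rw [Nat.div_eq_iff hp]
      have := Nat.div_add_mod v (2 ^ n)
      constructor
      · rw [mul_comm]; omega
      · rw [mul_comm]; omega
    rw [e]
    simp [h]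

lemma testBit_sub_one (v n K : ℕ) (hn : n < K) :
    (v + 2 ^ K - 1).testBit n = (v.testBit n ^^ decide (v % 2 ^ n = 0)) := by
  have hK : 0 < 2 ^ K := by positivity
  have hp : 0 < 2 ^ n := by positivity
  set u := v + 2 ^ K - 1 with hu
  have hu1 : u + 1 = v + 2 ^ K := by omega
  have h1 := testBit_add_one u n
  have hdvd : 2 ^ n ∣ 2 ^ K := pow_dvd_pow 2 hn.le
  have h2 : (u + 1).testBit n = v.testBit n := by
    rw [hu1]
    have h3 : ((v + 2 ^ K) % 2 ^ K).testBit n = (v % 2 ^ K).testBit n := by
      rw [Nat.add_mod_right]
    rw [Nat.testBit_mod_two_pow, Nat.testBit_mod_two_pow] at h3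
    simpa [hn] using h3
  have h3 : (u % 2 ^ n + 1 = 2 ^ n) ↔ v % 2 ^ n = 0 := by
    have h4 : (u + 1) % 2 ^ n = v % 2 ^ n := by
      rw [hu1, Nat.add_mod, Nat.mod_eq_zero_of_dvd hdvd, add_zero, Nat.mod_mod]
    rw [← h4, ← Nat.dvd_iff_mod_eq_zero]
    constructor
    · intro h
      have := Nat.div_add_mod u (2 ^ n)
      have e : u + 1 = 2 ^ n * (u / 2 ^ n + 1) := by
        rw [mul_add, mul_one]; omega
      rw [e]; exact Dvd.intro _ rfl
    · intro h
      have hlt := Nat.mod_lt u hp
      have := Nat.div_add_mod u (2 ^ n)
      have h5 : 2 ^ n ∣ u % 2 ^ n + 1 := by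
        have : u + 1 = 2 ^ n * (u / 2 ^ n) + (u % 2 ^ n + 1) := by omega
        rw [this] at h
        exact (Nat.dvd_add_right (Dvd.intro _ rfl)).mp h
      have := Nat.le_of_dvd (by omega) h5
      omega
  rw [h2] at h1
  rw [h1, decide_eq_decide.mpr h3]
  cases u.testBit n <;> cases decide (v % 2 ^ n = 0) <;> rfl

/-! ### The right-to-left pass -/

/-- Letter level right-to-left scan. -/
def A' (M : Mach) : M.Q × RS → Ltr → (M.Q × RS) × Ltr
  | (q, r), .ce b s _ _ _ _ _ => ((q, rsStep r b s), .ce b s r.lo r.lz r.slo r.slz false)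
  | (q, r), .hd h _ _ _ _ _ => (((M.A q h (sumR r)).1, rs0),
      .hd (M.A q h (sumR r)).2.1 (sumR r) (M.A q h (sumR r)).2.2 0 none false)

/-- Annotated cells. -/
def acells (v N : ℕ) : ℕ → List Ltr
  | 0 => []
  | m + 1 => .ce (v.testBit m) (N.testBit m) (rsOf v N m).lo (rsOf v N m).lz (rsOf v N m).slo
      (rsOf v N m).slz false :: acells v N m

lemma rl_append {Q T : Type} (A : Q → T → Q × T) (q : Q) (l₁ l₂ : List T) :
    rl A q (l₁ ++ l₂) = ((rl A (rl A q l₂).1 l₁).1, (rl A (rl A q l₂).1 l₁).2 ++ (rl A q l₂).2) := by
  induction l₁ with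
  | nil => simp [rl]
  | cons a l₁ ih => simp [rl, ih]

lemma lr_append {P T : Type} (B : P → T → P × T) (p : P) (l₁ l₂ : List T) :
    lr B p (l₁ ++ l₂) = ((lr B (lr B p l₁).1 l₂).1, (lr B p l₁).2 ++ (lr B (lr B p l₁).1 l₂).2) := by
  induction l₁ generalizing p with
  | nil => simp [lr]
  | cons a l₁ ih => simp [lr, ih]

lemma rl_cells (M : Mach) (q : M.Q) (v N m : ℕ) :
    rl (A' M) (q, rs0) (cells v N m) = ((q, rsOf v N m), acells v N m) := by
  induction m with
  | zero => simp [rl, cells, acells, rsOf_zero]
  | succ m ih => simp [rl, cells, acells, ih, A', plain, rsOf_succ]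

/-- Annotated item. -/
def aenc (M : Mach) (q : M.Q) (it : Item) : List Ltr :=
  .hd (M.stepA q it).2.1 (sumOf it.N it.val) (M.stepA q it).2.2 0 none false ::
    acells it.val it.N (it.N + 1)

lemma rl_enc (M : Mach) (q : M.Q) (it : Item) (h : it.val < 2 ^ (it.N + 1)) :
    rl (A' M) (q, rs0) (enc it) = (((M.stepA q it).1, rs0), aenc M q it) := by
  simp [enc, rl, rl_cells, A', hdl, sumR_rsOf _ _ h, aenc, Mach.stepA]

/-- Annotated word. -/
def aencW (M : Mach) : List Item → M.Q → List Ltr
  | [], _ => []
  | it :: w, q => aenc M (M.rls w q) it ++ aencW M w q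

lemma rl_encW (M : Mach) (q : M.Q) (w : List Item) (hw : Mach.WF w) :
    rl (A' M) (q, rs0) (encW w) = ((M.rls w q, rs0), aencW M w q) := by
  induction w with
  | nil => simp [encW, rl, aencW, Mach.rls]
  | cons it w ih =>
    have e : encW (it :: w) = enc it ++ encW w := by simp [encW]
    rw [e, rl_append, ih (fun a ha => hw a (by simp [ha]))]
    simp only
    rw [rl_enc M _ it (hw it (by simp))]
    rfl

/-! ### The left-to-right pass -/

/-- New dynamic bit. -/
def newDyn (op : Op) (b lo lz : Bool) : Bool :=
  match op with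
  | .inc => b ^^ lo
  | .incGrow => b ^^ lo
  | .dec => b ^^ lz
  | .decShrink => b ^^ lz
  | _ => b

/-- New static bit. -/
def newSta (op : Op) (n0 : Bool) (s slo slz : Bool) : Bool :=
  match op with
  | .grow => s ^^ slo
  | .incGrow => s ^^ slo
  | .shrink => if n0 then s else s ^^ slz
  | .decShrink => if n0 then s else s ^^ slz
  | _ => s

/-- Pending insertion of a top cell. -/
def growOf (op : Op) : Option Bool :=
  match op with
  | .grow => some false
  | .incGrow => some true
  | _ => none

/-- Does the operation remove the top cell? -/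
def shrinks (op : Op) : Bool :=
  match op with
  | .shrink => true
  | .decShrink => true
  | _ => false

/-- Letter level left-to-right scan.  State: state of the machine, current operation, whether the
next cell is to be deleted, whether the register has one cell only. -/
def B' (M : Mach) : M.P × Op × Bool × Bool → Ltr → (M.P × Op × Bool × Bool) × Ltr
  | (p, op, df, n0), .ce b s lo lz slo slz _ => ((p, op, false, n0),
      .ce (newDyn op b lo lz) (newSta op n0 s slo slz) false false false false
        (df || decide (op = .del)))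
  | (p, _, _, _), .hd h sm a _ _ _ =>
      (((M.B p h sm a).1, (M.B p h sm a).2.2.1, shrinks (M.B p h sm a).2.2.1 && !sm.N0, sm.N0),
      .hd (M.B p h sm a).2.1 s0 0 (if (M.B p h sm a).2.2.2 then 6 else 0)
        (growOf (M.B p h sm a).2.2.1) (decide ((M.B p h sm a).2.2.1 = .del)))

/-- Cells after the left-to-right scan. -/
def bcells (op : Op) (n0 : Bool) (v N : ℕ) : ℕ → Bool → List Ltr
  | 0, _ => []
  | m + 1, df => .ce (newDyn op (v.testBit m) (rsOf v N m).lo (rsOf v N m).lz)
      (newSta op n0 (N.testBit m) (rsOf v N m).slo (rsOf v N m).slz) false false false false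
        (df || decide (op = .del)) :: bcells op n0 v N m false

lemma lr_acells (M : Mach) (p : M.P) (op : Op) (df n0 : Bool) (v N m : ℕ) :
    (lr (B' M) (p, op, df, n0) (acells v N m)).2 = bcells op n0 v N m df ∧
    (lr (B' M) (p, op, df, n0) (acells v N m)).1.1 = p := by
  induction m generalizing df with
  | zero => simp [lr, acells, bcells]
  | succ m ih => simp [lr, acells, bcells, ih, B']

/-- Item after the left-to-right scan. -/
def benc (it : Item) (o : Hdr × Op × Bool) : List Ltr :=
  .hd o.1 s0 0 (if o.2.2 then 6 else 0) (growOf o.2.1) (decide (o.2.1 = .del)) ::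
    bcells o.2.1 (decide (it.N = 0)) it.val it.N (it.N + 1) (shrinks o.2.1 && !decide (it.N = 0))

lemma lr_aenc (M : Mach) (q : M.Q) (p : M.P) (x : Op × Bool × Bool) (it : Item) :
    (lr (B' M) (p, x) (aenc M q it)).2 = benc it (M.stepB q p it).2 ∧
    (lr (B' M) (p, x) (aenc M q it)).1.1 = (M.stepB q p it).1 := by
  obtain ⟨op, df, n0⟩ := x
  simp only [aenc, lr, benc, B']
  refine ⟨?_, ?_⟩
  · rw [(lr_acells M _ _ _ _ _ _ _).1]
    rfl
  · rw [(lr_acells M _ _ _ _ _ _ _).2]
    rfl

/-- Word after the left-to-right scan. -/
def bencW (M : Mach) : List Item → M.Q → M.P → List Ltr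
  | [], _, _ => []
  | it :: w, q, p => benc it (M.stepB (M.rls w q) p it).2 ++
      bencW M w q (M.stepB (M.rls w q) p it).1

lemma lr_aencW (M : Mach) (q : M.Q) (p : M.P) (x : Op × Bool × Bool) (w : List Item) :
    (lr (B' M) (p, x) (aencW M w q)).2 = bencW M w q p := by
  induction w generalizing p x with
  | nil => simp [aencW, lr, bencW]
  | cons it w ih =>
    simp only [aencW, bencW, lr_append]
    obtain ⟨h1, h2⟩ := lr_aenc M (M.rls w q) p x it
    rw [h1]
    congr 1
    generalize (lr (B' M) (p, x) (aenc M (M.rls w q) it)).1 = s at h2 ⊢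
    obtain ⟨s1, s2⟩ := s
    simp only at h2
    subst h2
    exact ih _ _

/-! ### Insertions and deletions -/

lemma iter_ins1 {T : Type} (h : T → Option (T × T)) (ex : T → List T) (pn : T → ℕ)
    (h0 : ∀ a, h a = none → ex a = [a] ∧ pn a = 0)
    (h1 : ∀ a b c, h a = some (b, c) → ex a = ex b ++ ex c ∧ pn a = pn b + pn c + 1) :
    ∀ (K : ℕ) (l : List T), (l.map pn).sum ≤ K → (ins1 h)^[K] l = l.flatMap ex := by
  have A : ∀ l : List T, (ins1 h l).flatMap ex = l.flatMap ex := by
    intro l
    induction l with
    | nil => simp [ins1]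
    | cons a l ih =>
      unfold ins1
      cases ha : h a with
      | none => simp [ih]
      | some bc =>
        obtain ⟨b, c⟩ := bc
        simp [(h1 a b c ha).1]
  have B : ∀ l : List T, ((ins1 h l).map pn).sum = (l.map pn).sum - 1 := by
    intro l
    induction l with
    | nil => simp [ins1]
    | cons a l ih =>
      unfold ins1
      cases ha : h a with
      | none => simp [ih, (h0 a ha).2]
      | some bc =>
        obtain ⟨b, c⟩ := bc
        simp [(h1 a b c ha).2]
        omega
  have C : ∀ l : List T, (l.map pn).sum = 0 → l.flatMap ex = l := by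
    intro l
    induction l with
    | nil => simp
    | cons a l ih =>
      intro hl
      simp only [List.map_cons, List.sum_cons, Nat.add_eq_zero_iff] at hl
      have ha : h a = none := by
        cases ha : h a with
        | none => rfl
        | some bc =>
          obtain ⟨b, c⟩ := bc
          have := (h1 a b c ha).2
          omega
      simp [(h0 a ha).1, ih hl.2]
  intro K
  induction K with
  | zero => intro l hl; simp [C l (by omega)]
  | succ K ih =>
    intro l hl
    rw [Function.iterate_succ_apply, ih _ (by rw [B]; omega), A]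

lemma iter_del1 {T : Type} (p : T → Bool) :
    ∀ (K : ℕ) (l : List T), l.countP p ≤ K → (del1 p)^[K] l = l.filter (fun a => !p a) := by
  have A : ∀ l : List T, (del1 p l).filter (fun a => !p a) = l.filter (fun a => !p a) := by
    intro l
    induction l with
    | nil => simp [del1]
    | cons a l ih =>
      unfold del1
      cases ha : p a with
      | true => simp [ha]
      | false => simp [ha, ih]
  have B : ∀ l : List T, (del1 p l).countP p = l.countP p - 1 := by
    intro l
    induction l with
    | nil => simp [del1]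
    | cons a l ih =>
      unfold del1
      cases ha : p a with
      | true => simp [ha]
      | false => simp [ha, ih]
  have C : ∀ l : List T, l.countP p = 0 → l.filter (fun a => !p a) = l := by
    intro l hl
    rw [List.countP_eq_zero] at hl
    rw [List.filter_eq_self]
    intro a ha
    simpa using hl a ha
  intro K
  induction K with
  | zero => intro l hl; simp [C l (by omega)]
  | succ K ih =>
    intro l hl
    rw [Function.iterate_succ_apply, ih _ (by rw [B]; omega), A]

/-- The letters of a leaf block. -/
def leafLetters : List Ltr := encW leafItems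

/-- Is the letter to be deleted? -/
def isDel : Ltr → Bool
  | .hd _ _ _ _ _ d => d
  | .ce _ _ _ _ _ _ d => d

/-- The pending insertions. -/
def insH : Ltr → Option (Ltr × Ltr)
  | .hd h s a p g d => if p.val = 0 then
        (match g with
          | none => none
          | some b => some (.hd h s a p none d, plain b false))
      else some (leafLetters.getD (6 - p.val) (plain false false), .hd h s a (p - 1) g d)
  | .ce .. => none

/-- All pending insertions performed. -/
def expand : Ltr → List Ltr
  | .hd h s a p g d => leafLetters.drop (6 - p.val) ++ .hd h s a 0 none d ::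
      (match g with
        | none => []
        | some b => [plain b false])
  | .ce b s lo lz slo slz d => [.ce b s lo lz slo slz d]

/-- Number of pending insertions. -/
def pnd : Ltr → ℕ
  | .hd _ _ _ p g _ => p.val + (if g.isSome then 1 else 0)
  | .ce .. => 0

lemma leafLetters_eq : leafLetters =
    [hdl (leafItem .c1).h, plain false false, hdl (leafItem .c2).h, plain false false,
      hdl (leafItem .c3).h, plain false false] := by
  simp [leafLetters, encW, leafItems, enc, leafItem, cells]

lemma insH_none (a : Ltr) (h : insH a = none) : expand a = [a] ∧ pnd a = 0 := by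
  cases a with
  | ce => simp [expand, pnd]
  | hd h' s a p g d =>
    by_cases hp : p.val = 0
    · cases g with
      | none =>
        have hp' : p = 0 := Fin.ext hp
        subst hp'
        simp [expand, pnd, leafLetters_eq]
      | some b => simp [insH, hp] at h
    · simp [insH, hp] at h

lemma insH_some (a b c : Ltr) (h : insH a = some (b, c)) :
    expand a = expand b ++ expand c ∧ pnd a = pnd b + pnd c + 1 := by
  cases a with
  | ce => simp [insH] at h
  | hd h' s a p g d =>
    by_cases hp : p.val = 0
    · cases g with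
      | none => simp [insH, hp] at h
      | some b' =>
        have hp' : p = 0 := Fin.ext hp
        subst hp'
        simp only [insH, Fin.val_zero, if_true, Option.some.injEq, Prod.mk.injEq] at h
        obtain ⟨rfl, rfl⟩ := h
        simp [expand, pnd, leafLetters_eq, plain]
    · simp only [insH, hp, if_false, Option.some.injEq, Prod.mk.injEq] at h
      obtain ⟨rfl, rfl⟩ := h
      fin_cases p <;> simp [expand, pnd, leafLetters_eq, plain, hdl] at hp ⊢ <;>
        (try omega)

/-- The letter level function before the closure lemmas. -/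
def bigF (M : Mach) (K : ℕ) (w : List Ltr) : List Ltr :=
  (del1 isDel)^[K] ((ins1 insH)^[K]
    (roundF (A' M) (fun s => (M.ι s.1, Op.id, false, false)) (B' M) (M.q0, rs0) w))

lemma bcells_eq (op : Op) (hop : op ≠ .del) (n0 : Bool) (v N v' N' m : ℕ)
    (h1 : ∀ n < m, newDyn op (v.testBit n) (rsOf v N n).lo (rsOf v N n).lz = v'.testBit n)
    (h2 : ∀ n < m, newSta op n0 (N.testBit n) (rsOf v N n).slo (rsOf v N n).slz = N'.testBit n) :
    bcells op n0 v N m false = cells v' N' m := by
  induction m with
  | zero => rfl
  | succ m ih =>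
    simp only [bcells, cells]
    rw [h1 m (by omega), h2 m (by omega), ih (fun n hn => h1 n (by omega))
      (fun n hn => h2 n (by omega))]
    simp [plain, hop]

lemma bcells_del (n0 : Bool) (v N m : ℕ) (df : Bool) :
    (bcells .del n0 v N m df).filter (fun a => !isDel a) = [] ∧
      (bcells .del n0 v N m df).countP isDel = m := by
  induction m generalizing df with
  | zero => simp [bcells]
  | succ m ih =>
    obtain ⟨h1, h2⟩ := ih false
    constructor
    · simp only [bcells]
      rw [List.filter_cons_of_neg (by simp [isDel]), h1]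
    · simp only [bcells]
      rw [List.countP_cons_of_pos (by simp [isDel]), h2]

lemma cells_expand (op : Op) (n0 : Bool) (v N m : ℕ) (df : Bool) :
    (bcells op n0 v N m df).flatMap expand = bcells op n0 v N m df ∧
      ((bcells op n0 v N m df).map pnd).sum = 0 := by
  induction m generalizing df with
  | zero => simp [bcells]
  | succ m ih =>
    obtain ⟨h1, h2⟩ := ih false
    simp [bcells, expand, pnd, h1, h2]

lemma cells_filter (v N m : ℕ) :
    (cells v N m).filter (fun a => !isDel a) = cells v N m ∧ (cells v N m).countP isDel = 0 := by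
  induction m with
  | zero => simp [cells]
  | succ m ih =>
    obtain ⟨h1, h2⟩ := ih
    constructor
    · simp only [cells]
      rw [List.filter_cons_of_pos (by simp [isDel, plain]), h1]
    · simp only [cells]
      rw [List.countP_cons_of_neg (by simp [isDel, plain]), h2]

lemma leaf_filter : leafLetters.filter (fun a => !isDel a) = leafLetters ∧
    leafLetters.countP isDel = 0 := by
  simp [leafLetters_eq, hdl, plain, isDel]

/-- The letters of the (undeleted) item after all the insertions, without the leaf block. -/
def tailL (it : Item) (h : Hdr) (op : Op) : List Ltr :=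
  .hd h s0 0 0 none (decide (op = .del)) ::
    ((match growOf op with
        | none => []
        | some b => [plain b false]) ++
      bcells op (decide (it.N = 0)) it.val it.N (it.N + 1) (shrinks op && !decide (it.N = 0)))

lemma benc_expand (it : Item) (h : Hdr) (op : Op) (ins : Bool) :
    (benc it (h, op, ins)).flatMap expand =
      (if ins then leafLetters else []) ++ tailL it h op := by
  simp only [benc, List.flatMap_cons, (cells_expand _ _ _ _ _ _).1, expand, tailL]
  cases ins <;> simp [leafLetters_eq]

/-- Effect of an operation on the letters. -/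
lemma op_cells (it : Item) (hv : it.val < 2 ^ (it.N + 1)) (op : Op) (hop : op ≠ .del) :
    ((match growOf op with
        | none => []
        | some b => [plain b false]) ++
      bcells op (decide (it.N = 0)) it.val it.N (it.N + 1) (shrinks op && !decide (it.N = 0))).filter
        (fun a => !isDel a) = cells (op.app it.N it.val).2 (op.app it.N it.val).1
          ((op.app it.N it.val).1 + 1) ∧
    ((match growOf op with
        | none => []
        | some b => [plain b false]) ++
      bcells op (decide (it.N = 0)) it.val it.N (it.N + 1) (shrinks op && !decide (it.N = 0))).countP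
        isDel ≤ (if shrinks op && !decide (it.N = 0) then 1 else 0) := by
  obtain ⟨hh, N, v⟩ := it
  simp only at hv ⊢
  have hNlt : N < 2 ^ N := Nat.lt_two_pow_self
  have hN1 : N + 1 < 2 ^ (N + 1) := Nat.lt_two_pow_self
  cases op with
  | del => exact absurd rfl hop
  | id =>
    simp only [growOf, shrinks, List.nil_append, Op.app, Bool.false_and]
    rw [bcells_eq .id (by decide) _ v N v N (N + 1) (fun n _ => rfl) (fun n _ => rfl)]
    refine ⟨(cells_filter _ _ _).1, by rw [(cells_filter _ _ _).2]; simp⟩
  | inc =>
    simp only [growOf, shrinks, List.nil_append, Op.app, Bool.false_and]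
    rw [bcells_eq .inc (by decide) _ v N ((v + 1) % 2 ^ (N + 1)) N (N + 1) (fun n hn => by
      simp only [newDyn, rsOf]
      rw [Nat.testBit_mod_two_pow, testBit_add_one]
      simp [hn]) (fun n _ => rfl)]
    refine ⟨(cells_filter _ _ _).1, by rw [(cells_filter _ _ _).2]; simp⟩
  | dec =>
    simp only [growOf, shrinks, List.nil_append, Op.app, Bool.false_and]
    rw [bcells_eq .dec (by decide) _ v N ((v + 2 ^ (N + 1) - 1) % 2 ^ (N + 1)) N (N + 1) (fun n hn => by
      simp only [newDyn, rsOf]
      rw [Nat.testBit_mod_two_pow, testBit_sub_one _ _ _ hn]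
      simp [hn]) (fun n _ => rfl)]
    refine ⟨(cells_filter _ _ _).1, by rw [(cells_filter _ _ _).2]; simp⟩
  | grow =>
    simp only [growOf, shrinks, Op.app, Bool.false_and]
    rw [bcells_eq .grow (by decide) _ v N v (N + 1) (N + 1) (fun n _ => rfl) (fun n hn => by
      simp only [newSta, rsOf]
      rw [testBit_add_one])]
    have e : [plain false false] ++ cells v (N + 1) (N + 1) = cells v (N + 1) (N + 1 + 1) := by
      simp only [cells, Nat.testBit_lt_two_pow hv, Nat.testBit_lt_two_pow hN1]
      rfl
    rw [e]
    refine ⟨(cells_filter _ _ _).1, by rw [(cells_filter _ _ _).2]; simp⟩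
  | incGrow =>
    simp only [growOf, shrinks, Op.app, Bool.false_and]
    have hlt : (v + 1) % 2 ^ (N + 1) < 2 ^ (N + 1) := Nat.mod_lt _ (by positivity)
    rw [bcells_eq .incGrow (by decide) _ v N ((v + 1) % 2 ^ (N + 1) + 2 ^ (N + 1)) (N + 1) (N + 1)
      (fun n hn => by
        simp only [newDyn, rsOf]
        have h3 : (((v + 1) % 2 ^ (N + 1) + 2 ^ (N + 1)) % 2 ^ (N + 1)).testBit n
            = ((v + 1) % 2 ^ (N + 1)).testBit n := by
          rw [Nat.add_mod_right, Nat.mod_mod]
        rw [Nat.testBit_mod_two_pow, Nat.testBit_mod_two_pow, testBit_add_one] at h3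
        simpa [hn] using h3.symm) (fun n hn => by
      simp only [newSta, rsOf]
      rw [testBit_add_one])]
    have hb : ((v + 1) % 2 ^ (N + 1) + 2 ^ (N + 1)).testBit (N + 1) = true := by
      rw [Nat.testBit_eq_decide_div_mod_eq, Nat.add_div_right _ (by positivity),
        Nat.div_eq_of_lt hlt]
      rfl
    have e : [plain true false] ++ cells ((v + 1) % 2 ^ (N + 1) + 2 ^ (N + 1)) (N + 1) (N + 1)
        = cells ((v + 1) % 2 ^ (N + 1) + 2 ^ (N + 1)) (N + 1) (N + 1 + 1) := by
      simp only [cells, hb, Nat.testBit_lt_two_pow hN1]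
      rfl
    rw [e]
    refine ⟨(cells_filter _ _ _).1, by rw [(cells_filter _ _ _).2]; simp⟩
  | shrink =>
    cases N with
    | zero =>
      simp only [growOf, shrinks, List.nil_append, Op.app, decide_true, Bool.not_true,
        Bool.and_false]
      rw [bcells_eq .shrink (by decide) _ v 0 v 0 (0 + 1) (fun n _ => rfl) (fun n _ => by
        simp [newSta])]
      refine ⟨(cells_filter _ _ _).1, by rw [(cells_filter _ _ _).2]; simp⟩
    | succ M =>
      simp only [growOf, shrinks, List.nil_append, Op.app, Nat.add_eq_zero_iff, one_ne_zero,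
        and_false, decide_false, Bool.not_false, Bool.and_true]
      rw [bcells, List.filter_cons_of_neg (by simp [isDel]), List.countP_cons_of_pos
        (by simp [isDel]),
        bcells_eq .shrink (by decide) _ v (M + 1) (v % 2 ^ (M + 1)) M (M + 1) (fun n hn => by
          simp only [newDyn]
          rw [Nat.testBit_mod_two_pow]
          simp [hn]) (fun n hn => by
          simp only [newSta, rsOf, Bool.false_eq_true, if_false]
          have := testBit_sub_one (M + 1) n (M + 1) hn
          have h3 : ((M + 1 + 2 ^ (M + 1) - 1) % 2 ^ (M + 1)).testBit n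
              = (M % 2 ^ (M + 1)).testBit n := by
            have : M + 1 + 2 ^ (M + 1) - 1 = M + 2 ^ (M + 1) := by omega
            rw [this, Nat.add_mod_right]
          rw [Nat.testBit_mod_two_pow, Nat.testBit_mod_two_pow, this] at h3
          simpa [hn] using h3)]
      refine ⟨(cells_filter _ _ _).1, by rw [(cells_filter _ _ _).2]; simp⟩
  | decShrink =>
    cases N with
    | zero =>
      simp only [growOf, shrinks, List.nil_append, Op.app, decide_true, Bool.not_true,
        Bool.and_false]
      rw [bcells_eq .decShrink (by decide) _ v 0 ((v + 1) % 2) 0 (0 + 1) (fun n hn => by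
        have hn0 : n = 0 := by omega
        subst hn0
        simp only [newDyn, rsOf]
        have := testBit_add_one v 0
        rw [Nat.testBit_eq_decide_div_mod_eq (x := (v + 1) % 2)]
        rw [Nat.testBit_eq_decide_div_mod_eq (x := v + 1)] at this
        simp only [pow_zero, Nat.div_one, Nat.mod_one, zero_add, decide_true] at this ⊢
        rw [Nat.mod_mod, this]) (fun n _ => by
        simp [newSta])]
      refine ⟨(cells_filter _ _ _).1, by rw [(cells_filter _ _ _).2]; simp⟩
    | succ M =>
      simp only [growOf, shrinks, List.nil_append, Op.app, Nat.add_eq_zero_iff, one_ne_zero,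
        and_false, decide_false, Bool.not_false, Bool.and_true]
      rw [bcells, List.filter_cons_of_neg (by simp [isDel]), List.countP_cons_of_pos
        (by simp [isDel]),
        bcells_eq .decShrink (by decide) _ v (M + 1) ((v + 2 ^ (M + 2) - 1) % 2 ^ (M + 1)) M (M + 1)
          (fun n hn => by
          simp only [newDyn, rsOf]
          rw [Nat.testBit_mod_two_pow, testBit_sub_one _ _ _ (by omega)]
          simp [hn]) (fun n hn => by
          simp only [newSta, rsOf, Bool.false_eq_true, if_false]
          have := testBit_sub_one (M + 1) n (M + 1) hn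
          have h3 : ((M + 1 + 2 ^ (M + 1) - 1) % 2 ^ (M + 1)).testBit n
              = (M % 2 ^ (M + 1)).testBit n := by
            have : M + 1 + 2 ^ (M + 1) - 1 = M + 2 ^ (M + 1) := by omega
            rw [this, Nat.add_mod_right]
          rw [Nat.testBit_mod_two_pow, Nat.testBit_mod_two_pow, this] at h3
          simpa [hn] using h3)]
      refine ⟨(cells_filter _ _ _).1, by rw [(cells_filter _ _ _).2]; simp⟩

lemma item_main (it : Item) (hv : it.val < 2 ^ (it.N + 1)) (o : Hdr × Op × Bool) :
    ((benc it o).flatMap expand).filter (fun a => !isDel a) = encW (Mach.outItem it o) ∧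
    ((benc it o).map pnd).sum ≤ Mach.outWt it o ∧
    ((benc it o).flatMap expand).countP isDel ≤ Mach.outWt it o := by
  obtain ⟨h, op, ins⟩ := o
  rw [benc_expand]
  have hpn : ((benc it (h, op, ins)).map pnd).sum
      = (if ins then 6 else 0) + (if (growOf op).isSome then 1 else 0) := by
    simp only [benc, List.map_cons, List.sum_cons, (cells_expand _ _ _ _ _ _).2, pnd]
    cases ins <;> simp
  refine ⟨?_, ?_, ?_⟩
  · rw [List.filter_append]
    have e1 : (if ins then leafLetters else []).filter (fun a => !isDel a)
        = encW (if ins then leafItems else []) := by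
      cases ins
      · simp [encW]
      · simp only [if_true]; exact leaf_filter.1
    rw [e1]
    simp only [Mach.outItem]
    rw [show ∀ a b : List Item, encW (a ++ b) = encW a ++ encW b from fun a b => by simp [encW]]
    congr 1
    by_cases hop : op = .del
    · subst hop
      simp only [tailL, growOf, if_true]
      rw [List.filter_cons_of_neg (by simp [isDel]), List.nil_append, (bcells_del _ _ _ _ _).1]
      rfl
    · simp only [tailL, hop, if_false]
      rw [List.filter_cons_of_pos (by simp [isDel]), (op_cells it hv op hop).1]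
      simp [encW, enc, hdl]
  · rw [hpn]
    cases op <;> simp [Mach.outWt, Op.wt, growOf]
  · rw [List.countP_append]
    have e1 : (if ins then leafLetters else []).countP isDel = 0 := by
      cases ins
      · simp
      · simp only [if_true]; exact leaf_filter.2
    rw [e1, zero_add]
    by_cases hop : op = .del
    · subst hop
      simp only [tailL, growOf]
      rw [List.countP_cons_of_pos (by simp [isDel]), List.nil_append, (bcells_del _ _ _ _ _).2]
      simp [Mach.outWt, Op.wt]
    · simp only [tailL, hop]
      rw [List.countP_cons_of_neg (by simp [isDel])]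
      refine (op_cells it hv op hop).2.trans ?_
      cases op <;> simp [Mach.outWt, Op.wt, shrinks] <;> split_ifs <;> omega

lemma word_main (M : Mach) (w : List Item) (hw : Mach.WF w) (q : M.Q) (p : M.P) :
    ((bencW M w q p).flatMap expand).filter (fun a => !isDel a) = encW (M.lrs w q p).2.1 ∧
    ((bencW M w q p).map pnd).sum ≤ (M.lrs w q p).2.2 ∧
    ((bencW M w q p).flatMap expand).countP isDel ≤ (M.lrs w q p).2.2 := by
  induction w generalizing p with
  | nil => simp [bencW, Mach.lrs, encW]
  | cons it w ih =>
    obtain ⟨a1, a2, a3⟩ := item_main it (hw it (by simp)) (M.stepB (M.rls w q) p it).2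
    obtain ⟨b1, b2, b3⟩ := ih (fun a ha => hw a (by simp [ha])) (M.stepB (M.rls w q) p it).1
    simp only [bencW, Mach.lrs, List.flatMap_append, List.filter_append, List.map_append,
      List.sum_append, List.countP_append]
    refine ⟨?_, by omega, by omega⟩
    rw [a1, b1]
    simp [encW]

lemma bigF_enc (M : Mach) (K : ℕ) (w out : List Item) (k : ℕ) (hw : Mach.WF w)
    (hr : M.Runs w out k) (hk : k ≤ K) : bigF M K (encW w) = encW out := by
  unfold Mach.Runs at hr
  obtain ⟨h1, h2, h3⟩ := word_main M w hw M.q0 (M.ι (M.rls w M.q0))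
  rw [hr] at h1 h2 h3
  simp only at h1 h2 h3
  unfold bigF roundF
  rw [rl_encW M _ w hw]
  simp only
  rw [lr_aencW, iter_ins1 insH expand pnd insH_none insH_some K _ (h2.trans hk),
    iter_del1 isDel K _ (h3.trans hk), h1]

lemma foldl_cells {σ : Type} (δ : σ → Hdr → σ) (s : σ) (v N m : ℕ) :
    (cells v N m).foldl (fun s (l : Ltr) => match l with
      | .hd h _ _ _ _ _ => δ s h
      | .ce .. => s) s = s := by
  induction m with
  | zero => rfl
  | succ m ih => simpa [cells, plain] using ih

lemma foldl_encW {σ : Type} (δ : σ → Hdr → σ) (w : List Item) (s : σ) :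
    (encW w).foldl (fun s (l : Ltr) => match l with
      | .hd h _ _ _ _ _ => δ s h
      | .ce .. => s) s = w.foldl (fun s it => δ s it.h) s := by
  induction w generalizing s with
  | nil => rfl
  | cons it w ih =>
    have e : encW (it :: w) = hdl it.h :: (cells it.val it.N (it.N + 1) ++ encW w) := by
      simp [encW, enc]
    rw [e, List.foldl_cons, List.foldl_append, foldl_cells, ih]
    rfl

lemma LT_iterate {T : Type} {f : List T → List T} (hf : LT f) (K : ℕ) : LT (f^[K]) := by
  induction K with
  | zero => exact LT.id
  | succ K ih =>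
    have h := LT.comp (g := f^[K]) (f := f) ih hf
    exact h

lemma LT_bigF (M : Mach) (K : ℕ) : LT (bigF M K) := by
  have := M.finQ
  have := M.finP
  have h1 := LT.round (A' M) (fun s => (M.ι s.1, Op.id, false, false)) (B' M) (M.q0, rs0)
  have h2 := LT.comp (g := (ins1 insH)^[K]) (LT_iterate (LT.ins1 insH) K) h1
  have h3 := LT.comp (g := (del1 isDel)^[K]) (LT_iterate (LT.del1 isDel) K) h2
  exact h3

end Realize

open Realize in
/-- Item level machines are realized by linear time machines on letters. -/
theorem realize : ∃ (Ltr : Type) (_ : Finite Ltr) (encW : List Item → List Ltr),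
    (∀ w w', Mach.WF w → Mach.WF w' → encW w = encW w' → w = w') ∧
    (∀ (M : Mach) (K : ℕ), ∃ F : List Ltr → List Ltr, LT F ∧
      ∀ w out k, Mach.WF w → M.Runs w out k → k ≤ K → F (encW w) = encW out) ∧
    (∀ (σ : Type) (_ : Finite σ) (δ : σ → Hdr → σ) (s₀ : σ),
      ∃ (σ' : Type) (_ : Finite σ') (δ' : σ' → Ltr → σ') (s₀' : σ') (g : σ' → σ),
        ∀ w : List Item, g ((encW w).foldl δ' s₀') = w.foldl (fun s it => δ s it.h) s₀) := by
  refine ⟨Ltr, inferInstance, encW, encW_inj, fun M K => ⟨bigF M K, LT_bigF M K,
    fun w out k hw hr hk => bigF_enc M K w out k hw hr hk⟩, fun σ _ δ s₀ => ⟨σ, inferInstance,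
    fun s l => match l with
      | .hd h _ _ _ _ _ => δ s h
      | .ce .. => s, s₀, id, fun w => foldl_encW δ w s₀⟩⟩

end Pool.Agent.W_MP_1173fd_al
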