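import Pool.Agent.W_MP_1173fd_al.Items

/-!
# Trees and their words
-/

namespace Pool.Agent.W_MP_1173fd_al

/-- Binary trees with lamps. -/
inductive BT
  | nil
  | node (s : Bool) (l r : BT)
  deriving DecidableEq

/-- Height. -/
def ht : BT → ℕ
  | .nil => 0
  | .node _ l r => 1 + max (ht l) (ht r)

/-- Comparison of numbers. -/
def cmpN (a b : ℕ) : Cmp := if a < b then .lt else if a = b then .eq else .gt

theorem cmpN_lt {a b : ℕ} (h : a < b) : cmpN a b = .lt := by simp [cmpN, h]
theorem cmpN_eq {a b : ℕ} (h : a = b) : cmpN a b = .eq := by simp [cmpN, h]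
theorem cmpN_gt {a b : ℕ} (h : b < a) : cmpN a b = .gt := by
  simp [cmpN, not_lt.2 h.le, h.ne']

theorem cmpN_eq_lt_iff {a b : ℕ} : cmpN a b = .lt ↔ a < b := by
  unfold cmpN; split_ifs <;> simp_all
theorem cmpN_eq_eq_iff {a b : ℕ} : cmpN a b = .eq ↔ a = b := by
  unfold cmpN; split_ifs <;> simp_all; omega
theorem cmpN_eq_gt_iff {a b : ℕ} : cmpN a b = .gt ↔ b < a := by
  unfold cmpN; split_ifs <;> simp_all <;> omega

/-- Closed items. -/
def clItem (c : Cor) (s : Bool) (cm : Cmp) (N : ℕ) (aw : Bool) (v : ℕ) (ptr : Bool) : Item :=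
  ⟨⟨.cl, c, s, cm, false, ptr, aw⟩, N, v⟩

/-- The word of a closed subtree: `top = true`: the zone level is `n` and all vertices above are
awake; `top = false`: all vertices are asleep and remember `n`. -/
def enc : BT → Bool → ℕ → List Item
  | .nil, _, _ => []
  | .node s l r, top, n =>
    let N := min (ht l) (ht r)
    let aw := top && decide (n < 2 ^ N)
    let it := fun c => clItem c s (cmpN (ht l) (ht r)) N aw (n % 2 ^ (N + 1)) false
    if ht l < ht r then
      it .c1 :: (enc l aw (if aw then n + 1 else n) ++ it .c2 :: (enc r top n ++ [it .c3]))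
    else
      it .c1 :: (enc l top n ++ it .c2 :: (enc r aw (if aw then n + 1 else n) ++ [it .c3]))

/-- Predecessor of an optional index. -/
def prd : Option ℕ → Option ℕ
  | some (k + 1) => some k
  | _ => none

/-- The word of a closed block (zone level `0`) with a pointer on the vertex of index `k` of its
heavy path. -/
def encS : BT → Option ℕ → List Item
  | .nil, _ => []
  | .node s l r, k =>
    let N := min (ht l) (ht r)
    let it := fun c b => clItem c s (cmpN (ht l) (ht r)) N true 0 b
    if ht l < ht r then
      it .c1 (decide (k = some 0)) ::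
        (enc l true 1 ++ it .c2 false :: (encS r (prd k) ++ [it .c3 false]))
    else
      it .c1 (decide (k = some 0)) ::
        (encS l (prd k) ++ it .c2 false :: (enc r true 1 ++ [it .c3 false]))

theorem encS_none (t : BT) : encS t none = enc t true 0 := by
  induction t with
  | nil => rfl
  | node s l r ihl ihr =>
    simp only [encS, enc, prd, ihl, ihr]
    simp

/-! ## Powers of two -/

theorem pw_two_pow (k : ℕ) : pw (2 ^ k) = true := by
  simp [pw, Nat.log_pow]

theorem pw_iff {n : ℕ} : pw n = true ↔ ∃ k, n = 2 ^ k := by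
  constructor
  · intro h
    exact ⟨_, of_decide_eq_true h⟩
  · rintro ⟨k, rfl⟩
    exact pw_two_pow k

@[simp] theorem pw_zero : pw 0 = false := by
  simp [pw]

@[simp] theorem pw_one : pw 1 = true := pw_two_pow 0

@[simp] theorem pw_two : pw 2 = true := pw_two_pow 1

theorem two_pow_mod {k n : ℕ} (h : n < k) : 2 ^ k % 2 ^ (n + 1) = 0 := by
  obtain ⟨c, rfl⟩ : ∃ c, k = (n + 1) + c := ⟨k - (n + 1), by omega⟩
  rw [pow_add]; exact Nat.mul_mod_right _ _

/-- decrement modulo -/
theorem dec_mod (n M : ℕ) (hM : 0 < M) : ((n + 1) % M + M - 1) % M = n % M := by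
  rcases Nat.eq_zero_or_pos ((n + 1) % M) with h | h
  · rw [h]
    have h1 : (n + 1) % M = 0 := h
    obtain ⟨c, hc⟩ := Nat.dvd_of_mod_eq_zero h1
    have hc0 : c ≠ 0 := by rintro rfl; simp at hc
    obtain ⟨c', rfl⟩ := Nat.exists_eq_succ_of_ne_zero hc0
    have : n = M * c' + (M - 1) := by
      have : M * (c' + 1) = M * c' + M := by ring
      simp only [Nat.succ_eq_add_one] at hc
      omega
    rw [this, Nat.mul_add_mod]
    simp
  · have h2 : ((n + 1) % M + M - 1) = ((n + 1) % M - 1) + M := by omega
    rw [h2, Nat.add_mod_right]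
    have h3 : n % M = (n + 1) % M - 1 := by
      have h4 : (n + 1) % M = (n % M + 1) % M := (Nat.mod_add_mod n M 1).symm
      have h5 : n % M < M := Nat.mod_lt _ hM
      rcases Nat.lt_or_ge (n % M + 1) M with h6 | h6
      · rw [h4, Nat.mod_eq_of_lt h6]; omega
      · have : n % M + 1 = M := by omega
        rw [h4, this] at h; simp at h
    have h7 : (n + 1) % M < M := Nat.mod_lt _ hM
    rw [h3, Nat.mod_eq_of_lt (by omega)]

theorem inc_mod (n M : ℕ) : (n % M + 1) % M = (n + 1) % M := by
  simp [Nat.add_mod]

/-! ## Quiet blocks -/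

/-- All items are closed, asleep, with value zero. -/
def Quiet (w : List Item) : Prop := ∀ it ∈ w, it.h.kind = .cl ∧ it.h.aw = false ∧ it.val = 0

theorem enc_false_quiet (t : BT) {k : ℕ} (hk : ht t ≤ k) : Quiet (enc t false (2 ^ k)) := by
  induction t with
  | nil => intro it h; simp [enc] at h
  | node s l r ihl ihr =>
    simp only [ht] at hk
    have hl := ihl (by omega)
    have hr := ihr (by omega)
    have h0 : 2 ^ k % 2 ^ (min (ht l) (ht r) + 1) = 0 := two_pow_mod (by omega)
    intro it h
    unfold enc at h
    simp only [Bool.false_and, Bool.false_eq_true, if_false, h0] at h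
    have : it ∈ enc l false (2 ^ k) ∨ it ∈ enc r false (2 ^ k) ∨
        ∃ c, it = clItem c s (cmpN (ht l) (ht r)) (min (ht l) (ht r)) false 0 false := by
      split_ifs at h <;> simp only [List.mem_cons, List.mem_append, List.mem_nil_iff, or_false] at h <;>
        rcases h with h | h | h | h | h <;> first
          | exact Or.inl h
          | exact Or.inr (Or.inl h)
          | exact Or.inr (Or.inr ⟨_, h⟩)
    rcases this with h | h | ⟨c, rfl⟩
    · exact hl it h
    · exact hr it h
    · simp [clItem]

theorem enc_true_eq_false (t : BT) {k : ℕ} (hk : ht t ≤ k) :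
    enc t true (2 ^ k) = enc t false (2 ^ k) := by
  induction t with
  | nil => rfl
  | node s l r ihl ihr =>
    simp only [ht] at hk
    have hl := ihl (by omega)
    have hr := ihr (by omega)
    have h1 : ¬ (2 ^ k < 2 ^ (min (ht l) (ht r))) := by
      rw [not_lt]; exact Nat.pow_le_pow_right (by norm_num) (by omega)
    unfold enc
    simp [h1, hl, hr]

/-! ## Zone-0 items -/

/-- No closed item of a word is awake with value `0`, and there is no pointer. -/
def NoZ (w : List Item) : Prop :=
  ∀ it ∈ w, it.h.kind = .cl ∧ it.h.ptr = false ∧ ¬ (it.h.aw = true ∧ it.val = 0)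

theorem enc_noZ (t : BT) (b : Bool) (n : ℕ) (hb : b = true → 1 ≤ n) : NoZ (enc t b n) := by
  induction t generalizing b n with
  | nil => intro it h; simp [enc] at h
  | node s l r ihl ihr =>
    intro it h
    unfold enc at h
    have : (∃ b' n', (b' = true → 1 ≤ n') ∧ (it ∈ enc l b' n')) ∨
        (∃ b' n', (b' = true → 1 ≤ n') ∧ (it ∈ enc r b' n')) ∨
        ∃ c, it = clItem c s (cmpN (ht l) (ht r)) (min (ht l) (ht r))
          (b && decide (n < 2 ^ (min (ht l) (ht r)))) (n % 2 ^ (min (ht l) (ht r) + 1)) false := by
      simp only at h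
      have hx : ((b && decide (n < 2 ^ (min (ht l) (ht r)))) = true → 1 ≤
          (if (b && decide (n < 2 ^ (min (ht l) (ht r)))) = true then n + 1 else n)) := by
        intro hh; rw [if_pos hh]; omega
      split_ifs at h with h1 h2 h2 <;>
        simp only [List.mem_cons, List.mem_append, List.mem_nil_iff, or_false] at h <;>
        (try simp only [h2, if_true] at hx) <;>
        rcases h with h | h | h | h | h
      all_goals first
        | exact Or.inr (Or.inr ⟨_, h⟩)
        | exact Or.inl ⟨_, _, hb, h⟩
        | exact Or.inr (Or.inl ⟨_, _, hb, h⟩)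
        | exact Or.inl ⟨_, _, fun _ => by omega, h⟩
        | exact Or.inr (Or.inl ⟨_, _, fun _ => by omega, h⟩)
        | exact Or.inl ⟨_, _, fun hh => absurd hh h2, h⟩
        | exact Or.inr (Or.inl ⟨_, _, fun hh => absurd hh h2, h⟩)
    rcases this with ⟨b', n', hb', h⟩ | ⟨b', n', hb', h⟩ | ⟨c, rfl⟩
    · exact ihl b' n' hb' it h
    · exact ihr b' n' hb' it h
    · refine ⟨rfl, rfl, ?_⟩
      simp only [clItem, Bool.and_eq_true, decide_eq_true_eq]
      rintro ⟨⟨hb1, h1⟩, h2⟩
      have h3 : n < 2 ^ (min (ht l) (ht r) + 1) := h1.trans (Nat.pow_lt_pow_right (by norm_num) (by omega))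
      rw [Nat.mod_eq_of_lt h3] at h2
      have := hb hb1
      omega

/-! ## Item level Mealy machines -/

/-- Left-to-right Mealy run. -/
def mealy {S : Type} (f : S → Item → S × Item) : S → List Item → S × List Item
  | s, [] => (s, [])
  | s, a :: w => ((mealy f (f s a).1 w).1, (f s a).2 :: (mealy f (f s a).1 w).2)

theorem mealy_append {S : Type} (f : S → Item → S × Item) (s : S) (u v : List Item) :
    mealy f s (u ++ v) = ((mealy f (mealy f s u).1 v).1, (mealy f s u).2 ++ (mealy f (mealy f s u).1 v).2) := by
  induction u generalizing s with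
  | nil => simp [mealy]
  | cons a u ih => simp [mealy, ih]

/-- Right-to-left Mealy run. -/
def rmealy {S : Type} (f : S → Item → S × Item) : S → List Item → S × List Item
  | s, [] => (s, [])
  | s, a :: w => ((f (rmealy f s w).1 a).1, (f (rmealy f s w).1 a).2 :: (rmealy f s w).2)

theorem rmealy_append {S : Type} (f : S → Item → S × Item) (s : S) (u v : List Item) :
    rmealy f s (u ++ v) = ((rmealy f (rmealy f s v).1 u).1,
      (rmealy f (rmealy f s v).1 u).2 ++ (rmealy f s v).2) := by
  induction u with
  | nil => simp [rmealy]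
  | cons a u ih => simp [rmealy, ih]

/-- If all items of `w` leave the state unchanged and are not changed. -/
theorem mealy_fix {S : Type} (f : S → Item → S × Item) (s : S) (w : List Item)
    (h : ∀ it ∈ w, f s it = (s, it)) : mealy f s w = (s, w) := by
  induction w with
  | nil => rfl
  | cons a w ih =>
    have h1 := h a (by simp)
    have h2 := ih (fun it hit => h it (by simp [hit]))
    simp [mealy, h1, h2]

theorem rmealy_fix {S : Type} (f : S → Item → S × Item) (s : S) (w : List Item)
    (h : ∀ it ∈ w, f s it = (s, it)) : rmealy f s w = (s, w) := by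
  induction w with
  | nil => rfl
  | cons a w ih =>
    have h1 := h a (by simp)
    have h2 := ih (fun it hit => h it (by simp [hit]))
    simp [rmealy, h1, h2]

/-- Is the region following this corner a light subtree? -/
def nl (h : Hdr) : Bool :=
  match h.cor with
  | .c1 => decide (h.cmp = .lt)
  | .c2 => !decide (h.cmp = .lt)
  | .c3 => false

/-! ### Header machines without annotations -/

/-- Action of a transition function on an item. -/
def runG {S : Type} (g : S → Hdr → Sum → S × Hdr × Op) (s : S) (it : Item) : S × Item :=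
  ((g s it.h (sumOf it.N it.val)).1,
    ⟨(g s it.h (sumOf it.N it.val)).2.1, ((g s it.h (sumOf it.N it.val)).2.2.app it.N it.val).1,
      ((g s it.h (sumOf it.N it.val)).2.2.app it.N it.val).2⟩)

/-! ### Decrement -/

/-- States of the decrement machine. -/
inductive DQ
  | I
  | D (P : Bool)
  deriving DecidableEq

instance : Finite DQ :=
  Finite.of_injective (fun c : DQ => (match c with | .I => 0 | .D false => 1 | .D true => 2 : Fin 3))
    (by rintro (_ | _) (_ | _) <;> (try cases ‹Bool›) <;> (try cases ‹Bool›) <;> simp)

/-- The decrement machine. -/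
def decG (q : DQ) (h : Hdr) (s : Sum) : DQ × Hdr × Op :=
  match q with
  | .I => bif !h.aw && s.top then
      (bif nl h then .I else .D true, { h with aw := true }, .dec) else (.I, h, .id)
  | .D P =>
    bif h.aw then (.D (bif nl h then s.pow1 else s.pow), h, .dec)
    else bif P && s.top then
      (bif nl h then .I else .D true, { h with aw := true }, .dec)
    else (.D P, h, .dec)

/-- The decrement machine on items. -/
abbrev decF : DQ → Item → DQ × Item := runG decG

theorem dec_quiet (w : List Item) (hw : Quiet w) : mealy decF .I w = (.I, w) := by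
  apply mealy_fix
  intro it hit
  obtain ⟨-, -, h⟩ := hw it hit
  obtain ⟨hd, N, v⟩ := it
  simp only at h
  subst h
  have : ¬ (0 = 2 ^ N) := (Nat.two_pow_pos N).ne
  simp [decF, runG, decG, sumOf, Op.app, this]

theorem decF_awake (P : Bool) (c : Cor) (s : Bool) (cm : Cmp) (N n : ℕ) (hn : n + 1 < 2 ^ (N + 1)) :
    decF (.D P) (clItem c s cm N true ((n + 1) % 2 ^ (N + 1)) false) =
      (.D (bif nl ⟨.cl, c, s, cm, false, false, true⟩ then pw (n + 1 + 1) else pw (n + 1)),
        clItem c s cm N true (n % 2 ^ (N + 1)) false) := by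
  simp only [decF, runG, decG, clItem, sumOf, cond_true, Op.app]
  rw [dec_mod _ _ (by positivity), Nat.mod_eq_of_lt hn]

theorem decF_wake (q : DQ) (hq : q = .I ∨ q = .D true) (c : Cor) (s : Bool) (cm : Cmp) (N n : ℕ)
    (hn : n + 1 = 2 ^ N) :
    decF q (clItem c s cm N false ((n + 1) % 2 ^ (N + 1)) false) =
      (bif nl ⟨.cl, c, s, cm, false, false, false⟩ then .I else .D true,
        clItem c s cm N true (n % 2 ^ (N + 1)) false) := by
  have hlt : 2 ^ N < 2 ^ (N + 1) := Nat.pow_lt_pow_right (by norm_num) (by omega)
  have hm1 : (n + 1) % 2 ^ (N + 1) = 2 ^ N := by rw [hn]; exact Nat.mod_eq_of_lt hlt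
  have h2 : (2 ^ N + 2 ^ (N + 1) - 1) % 2 ^ (N + 1) = n % 2 ^ (N + 1) := by
    rw [← hm1, dec_mod _ _ (by positivity)]
  rcases hq with rfl | rfl <;> simp [decF, runG, decG, clItem, sumOf, Op.app, hm1, h2]

theorem decF_sleep (P : Bool) (c : Cor) (s : Bool) (cm : Cmp) (N n : ℕ)
    (hn : ¬ (P = true ∧ (n + 1) % 2 ^ (N + 1) = 2 ^ N)) :
    decF (.D P) (clItem c s cm N false ((n + 1) % 2 ^ (N + 1)) false) =
      (.D P, clItem c s cm N false (n % 2 ^ (N + 1)) false) := by
  have h2 := dec_mod n (2 ^ (N + 1)) (by positivity)
  cases P with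
  | false => simp [decF, runG, decG, clItem, sumOf, Op.app, h2]
  | true =>
    have h1 : ¬ ((n + 1) % 2 ^ (N + 1) = 2 ^ N) := fun h => hn ⟨rfl, h⟩
    simp [decF, runG, decG, clItem, sumOf, Op.app, h1, h2]

theorem dec_asleep (t : BT) (n : ℕ) (P : Bool) (hP : P = true → ∃ k, n + 1 = 2 ^ k ∧ ht t ≤ k) :
    mealy decF (.D P) (enc t false (n + 1)) = (.D P, enc t false n) := by
  induction t with
  | nil => rfl
  | node s l r ihl ihr =>
    have hl := ihl (fun h => by obtain ⟨k, h1, h2⟩ := hP h; simp only [ht] at h2; exact ⟨k, h1, by omega⟩)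
    have hr := ihr (fun h => by obtain ⟨k, h1, h2⟩ := hP h; simp only [ht] at h2; exact ⟨k, h1, by omega⟩)
    have key := fun c cm => decF_sleep P c s cm (min (ht l) (ht r)) n (by
      rintro ⟨h1, h2⟩
      obtain ⟨k, h3, h4⟩ := hP h1
      simp only [ht] at h4
      rw [h3, two_pow_mod (by omega)] at h2
      exact absurd h2.symm (by positivity))
    simp only [enc, Bool.false_and, Bool.false_eq_true, if_false]
    split_ifs <;> simp [mealy, mealy_append, key, hl, hr]

theorem dec_enc (t : BT) (n : ℕ) :
    mealy decF (.D (pw (n + 1))) (enc t true (n + 1)) = (.D (pw (n + 1)), enc t true n) := by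
  induction t generalizing n with
  | nil => rfl
  | node s l r ihl ihr =>
    obtain ⟨N, hN⟩ : ∃ N, N = min (ht l) (ht r) := ⟨_, rfl⟩
    have hpos : 0 < 2 ^ N := by positivity
    have hlt : 2 ^ N < 2 ^ (N + 1) := Nat.pow_lt_pow_right (by norm_num) (by omega)
    rcases lt_trichotomy (n + 1) (2 ^ N) with h | h | h
    · -- stays awake
      have key := fun P c cm => decF_awake P c s cm N n (by omega)
      have a1 : decide (n + 1 < 2 ^ N) = true := by simpa using h
      have a2 : decide (n < 2 ^ N) = true := by simp; omega
      simp only [enc, ← hN, a1, a2, Bool.and_self, if_true]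
      by_cases hc : ht l < ht r
      · simp only [hc, if_true, cmpN_lt hc]
        simp [mealy, mealy_append, key, nl, ihl (n + 1), ihr n]
      · have hc' : cmpN (ht l) (ht r) ≠ .lt := by rwa [Ne, cmpN_eq_lt_iff]
        simp only [hc, if_false]
        generalize cmpN (ht l) (ht r) = cm at hc'
        simp [mealy, mealy_append, key, nl, hc', ihr (n + 1), ihl n]
    · -- wakes up
      have hp : pw (n + 1) = true := by rw [h]; exact pw_two_pow N
      have key1 := fun c cm => decF_wake .I (Or.inl rfl) c s cm N n h
      have key2 := fun c cm => decF_wake (.D true) (Or.inr rfl) c s cm N n h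
      have a1 : decide (n + 1 < 2 ^ N) = false := by simp; omega
      have a2 : decide (n < 2 ^ N) = true := by simp; omega
      have hql : ht l ≤ N → mealy decF .I (enc l false (n + 1)) = (.I, enc l true (n + 1)) := by
        intro hh
        rw [h, enc_true_eq_false l hh]; exact dec_quiet _ (enc_false_quiet l hh)
      have hqr : ht r ≤ N → mealy decF .I (enc r false (n + 1)) = (.I, enc r true (n + 1)) := by
        intro hh
        rw [h, enc_true_eq_false r hh]; exact dec_quiet _ (enc_false_quiet r hh)
      have il := ihl n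
      have ir := ihr n
      rw [hp] at il ir
      simp only [enc, ← hN, a1, a2, Bool.and_self, Bool.and_false, if_true, Bool.false_eq_true, if_false, hp]
      by_cases hc : ht l < ht r
      · simp only [hc, if_true, cmpN_lt hc]
        simp [mealy, mealy_append, key1, key2, nl, hql (by omega), ir]
      · have hc' : cmpN (ht l) (ht r) ≠ .lt := by rwa [Ne, cmpN_eq_lt_iff]
        simp only [hc, if_false]
        generalize cmpN (ht l) (ht r) = cm at hc'
        simp [mealy, mealy_append, key1, key2, nl, hc', hqr (by omega), il]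
    · -- stays asleep
      have a1 : decide (n + 1 < 2 ^ N) = false := by simp; omega
      have a2 : decide (n < 2 ^ N) = false := by simp; omega
      have hP : pw (n + 1) = true → ∃ k, n + 1 = 2 ^ k ∧ N < k := by
        intro hh
        obtain ⟨k, hk⟩ := pw_iff.1 hh
        refine ⟨k, hk, ?_⟩
        rw [hk] at h
        exact (Nat.pow_lt_pow_iff_right (by norm_num)).1 h
      have key := fun c cm => decF_sleep (pw (n + 1)) c s cm N n (by
        rintro ⟨h1, h2⟩
        obtain ⟨k, h3, h4⟩ := hP h1
        rw [h3, two_pow_mod (by omega)] at h2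
        exact absurd h2.symm (by positivity))
      have hql : ht l ≤ N → mealy decF (.D (pw (n + 1))) (enc l false (n + 1)) =
          (.D (pw (n + 1)), enc l false n) := by
        intro hh
        exact dec_asleep l n _ (fun h1 => by obtain ⟨k, h3, h4⟩ := hP h1; exact ⟨k, h3, by omega⟩)
      have hqr : ht r ≤ N → mealy decF (.D (pw (n + 1))) (enc r false (n + 1)) =
          (.D (pw (n + 1)), enc r false n) := by
        intro hh
        exact dec_asleep r n _ (fun h1 => by obtain ⟨k, h3, h4⟩ := hP h1; exact ⟨k, h3, by omega⟩)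
      simp only [enc, ← hN, a1, a2, Bool.and_false, Bool.false_eq_true, if_false]
      by_cases hc : ht l < ht r
      · simp only [hc, if_true]
        simp [mealy, mealy_append, key, hql (by omega), ihr n]
      · simp only [hc, if_false]
        simp [mealy, mealy_append, key, hqr (by omega), ihl n]

/-! ### Increment -/

/-- The increment machine (`true`: increment, `false`: leave asleep items unchanged). -/
def incG (q : Bool) (h : Hdr) (s : Sum) : Bool × Hdr × Op :=
  bif !q && !h.aw then (false, h, .id)
  else (!(h.aw && s.pt && nl h), { h with aw := h.aw && !s.pt }, .inc)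

/-- The increment machine on items. -/
abbrev incF : Bool → Item → Bool × Item := runG incG

theorem inc_quiet (w : List Item) (hw : Quiet w) : mealy incF false w = (false, w) := by
  apply mealy_fix
  intro it hit
  obtain ⟨-, h, -⟩ := hw it hit
  simp [incF, runG, incG, h, Op.app]

theorem incF_sleep (c : Cor) (s : Bool) (cm : Cmp) (N n : ℕ) :
    incF true (clItem c s cm N false (n % 2 ^ (N + 1)) false) =
      (true, clItem c s cm N false ((n + 1) % 2 ^ (N + 1)) false) := by
  simp [incF, runG, incG, clItem, Op.app]

theorem incF_awake (c : Cor) (s : Bool) (cm : Cmp) (N n : ℕ) (hn : n + 1 < 2 ^ N) :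
    incF true (clItem c s cm N true (n % 2 ^ (N + 1)) false) =
      (true, clItem c s cm N true ((n + 1) % 2 ^ (N + 1)) false) := by
  have hlt : 2 ^ N < 2 ^ (N + 1) := Nat.pow_lt_pow_right (by norm_num) (by omega)
  have hm : n % 2 ^ (N + 1) = n := Nat.mod_eq_of_lt (by omega)
  have : ¬ (n % 2 ^ (N + 1) + 1 = 2 ^ N) := by rw [hm]; omega
  simp [incF, runG, incG, clItem, Op.app, sumOf, this]

theorem incF_fall (q : Bool) (c : Cor) (s : Bool) (cm : Cmp) (N n : ℕ) (hn : n + 1 = 2 ^ N) :
    incF q (clItem c s cm N true (n % 2 ^ (N + 1)) false) =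
      (!nl ⟨.cl, c, s, cm, false, false, true⟩,
        clItem c s cm N false ((n + 1) % 2 ^ (N + 1)) false) := by
  have hlt : 2 ^ N < 2 ^ (N + 1) := Nat.pow_lt_pow_right (by norm_num) (by omega)
  have hm : n % 2 ^ (N + 1) = n := Nat.mod_eq_of_lt (by omega)
  have : n % 2 ^ (N + 1) + 1 = 2 ^ N := by rw [hm]; omega
  simp [incF, runG, incG, clItem, Op.app, sumOf, this, hn]

theorem inc_asleep (t : BT) (n : ℕ) :
    mealy incF true (enc t false n) = (true, enc t false (n + 1)) := by
  induction t with
  | nil => rfl
  | node s l r ihl ihr =>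
    simp only [enc, Bool.false_and, Bool.false_eq_true, if_false]
    split_ifs <;> simp [mealy, mealy_append, incF_sleep, ihl, ihr]

theorem inc_enc (t : BT) (n : ℕ) :
    mealy incF true (enc t true n) = (true, enc t true (n + 1)) := by
  induction t generalizing n with
  | nil => rfl
  | node s l r ihl ihr =>
    obtain ⟨N, hN⟩ : ∃ N, N = min (ht l) (ht r) := ⟨_, rfl⟩
    have hpos : 0 < 2 ^ N := by positivity
    have hlt : 2 ^ N < 2 ^ (N + 1) := Nat.pow_lt_pow_right (by norm_num) (by omega)
    rcases lt_trichotomy (n + 1) (2 ^ N) with h | h | h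
    · have key := fun c cm => incF_awake c s cm N n h
      have a1 : decide (n + 1 < 2 ^ N) = true := by simpa using h
      have a2 : decide (n < 2 ^ N) = true := by simp; omega
      simp only [enc, ← hN, a1, a2, Bool.and_self, if_true]
      by_cases hc : ht l < ht r
      · simp only [hc, if_true]
        simp [mealy, mealy_append, key, ihl (n + 1), ihr n]
      · simp only [hc, if_false]
        simp [mealy, mealy_append, key, ihr (n + 1), ihl n]
    · have key := fun q c cm => incF_fall q c s cm N n h
      have a1 : decide (n + 1 < 2 ^ N) = false := by simp; omega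
      have a2 : decide (n < 2 ^ N) = true := by simp; omega
      have hql : ht l ≤ N → mealy incF false (enc l true (n + 1)) = (false, enc l false (n + 1)) := by
        intro hh
        rw [h, enc_true_eq_false l hh]; exact inc_quiet _ (enc_false_quiet l hh)
      have hqr : ht r ≤ N → mealy incF false (enc r true (n + 1)) = (false, enc r false (n + 1)) := by
        intro hh
        rw [h, enc_true_eq_false r hh]; exact inc_quiet _ (enc_false_quiet r hh)
      simp only [enc, ← hN, a1, a2, Bool.and_self, Bool.and_false, if_true, Bool.false_eq_true, if_false]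
      by_cases hc : ht l < ht r
      · simp only [hc, if_true, cmpN_lt hc]
        simp [mealy, mealy_append, key, nl, hql (by omega), ihr n]
      · have hc' : cmpN (ht l) (ht r) ≠ .lt := by rwa [Ne, cmpN_eq_lt_iff]
        simp only [hc, if_false]
        generalize cmpN (ht l) (ht r) = cm at hc'
        simp [mealy, mealy_append, key, nl, hc', hqr (by omega), ihl n]
    · have key := fun c cm => incF_sleep c s cm N n
      have a1 : decide (n + 1 < 2 ^ N) = false := by simp; omega
      have a2 : decide (n < 2 ^ N) = false := by simp; omega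
      simp only [enc, ← hN, a1, a2, Bool.and_false, Bool.false_eq_true, if_false]
      by_cases hc : ht l < ht r
      · simp only [hc, if_true]
        simp [mealy, mealy_append, key, inc_asleep l n, ihr n]
      · simp only [hc, if_false]
        simp [mealy, mealy_append, key, inc_asleep r n, ihl n]

end Pool.Agent.W_MP_1173fd_al
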