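import Pool.Agent.W_MP_1173fd_al.Trees

/-!
# Words of states (zippers) and the item level machines
-/

namespace Pool.Agent.W_MP_1173fd_al

/-- Frames of a zipper: direction of the spine child (`false`: left), lamp, the other subtree. -/
structure Fr where
  dir : Bool
  s : Bool
  w : BT
  deriving DecidableEq

/-- Spine items, at distance `v` of the cursor. -/
def spItem (c : Cor) (dir s : Bool) (cm : Cmp) (N : ℕ) (P : Bool) (v : ℕ) : Item :=
  ⟨⟨.sp dir, c, s, cm, P, false, decide (v < 2 ^ N)⟩, N, v % 2 ^ (N + 1)⟩

/-- Comparison of the left and right subtrees of a spine vertex; `D` is the height of the subtree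
containing the cursor. -/
def spCmp (f : Fr) (D : ℕ) : Cmp := bif f.dir then cmpN (ht f.w) D else cmpN D (ht f.w)

/-- Item of a frame: ruler parameter `p`, distance `v`, height `D` of the spine child. -/
def frItem (f : Fr) (c : Cor) (p v D : ℕ) : Item :=
  spItem c f.dir f.s (spCmp f D) (min D (ht f.w)) (pw p) v

/-- Side block of a frame, pointer at index `k` iff the spine child is the lower one. -/
def side (f : Fr) (k D : ℕ) : List Item := encS f.w (if D < ht f.w then some k else none)

/-- Part of a frame to the left of the cursor. -/
def lfr (f : Fr) (p v k D : ℕ) : List Item :=
  bif f.dir then frItem f .c1 p v D :: (side f k D ++ [frItem f .c2 p v D])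
  else [frItem f .c1 p v D]

/-- Part of a frame to the right of the cursor. -/
def rfr (f : Fr) (p v k D : ℕ) : List Item :=
  bif f.dir then [frItem f .c3 p v D]
  else frItem f .c2 p v D :: (side f k D ++ [frItem f .c3 p v D])

/-- Height of the subtree of a frame. -/
def up1 (f : Fr) (D : ℕ) : ℕ := 1 + max D (ht f.w)

/-- Left part of the context. -/
def LpG : List Fr → ℕ → ℕ → ℕ → ℕ → List Item
  | [], _, _, _, _ => []
  | f :: c, p, v, k, D => LpG c (p + 1) (v + 1) (k + 1) (up1 f D) ++ lfr f p v k D

/-- Right part of the context. -/
def RpG : List Fr → ℕ → ℕ → ℕ → ℕ → List Item
  | [], _, _, _, _ => []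
  | f :: c, p, v, k, D => rfr f p v k D ++ RpG c (p + 1) (v + 1) (k + 1) (up1 f D)

/-- The last item: it contains the length of the context. -/
def zeItem (m : ℕ) : Item := ⟨⟨.ze, .c3, false, .eq, false, false, true⟩, Nat.log 2 m, m⟩

/-- A word with context, middle part, and last item. -/
def WG (c : List Fr) (p v k D : ℕ) (mid : List Item) (m : ℕ) : List Item :=
  LpG c p v k D ++ (mid ++ (RpG c p v k D ++ [zeItem m]))

/-- Cursor items. -/
def cuItem (c : Cor) (s : Bool) (cm : Cmp) (N v : ℕ) : Item :=
  ⟨⟨.cu, c, s, cm, false, false, decide (v < 2 ^ N)⟩, N, v % 2 ^ (N + 1)⟩

/-- Cursor with two blocks. -/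
def focG (s : Bool) (cm : Cmp) (N v : ℕ) (bl br : List Item) : List Item :=
  cuItem .c1 s cm N v :: (bl ++ cuItem .c2 s cm N v :: (br ++ [cuItem .c3 s cm N v]))

/-- The focus: cursor vertex with its two (closed) subtrees. -/
def foc (s : Bool) (l r : BT) : List Item :=
  focG s (cmpN (ht l) (ht r)) (min (ht l) (ht r)) 0 (encS l none) (encS r none)

/-- The focus, where the light child is not yet (or no more) of zone level `0`. -/
def foc1 (s : Bool) (l r : BT) : List Item :=
  focG s (cmpN (ht l) (ht r)) (min (ht l) (ht r)) 0
    (if ht l < ht r then enc l true 1 else encS l none)
    (if ht l < ht r then encS r none else enc r true 1)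

/-- The word of a state. -/
def W (c : List Fr) (s : Bool) (l r : BT) : List Item :=
  WG c 1 1 0 (1 + max (ht l) (ht r)) (foc s l r) c.length

/-- The opened vertex `(s', l', r')` is the child `a` of the spine vertex `f`, which is the
innermost frame (`f.dir = a`). -/
def opened (f : Fr) (D : ℕ) (mid : List Item) : List Item :=
  lfr f 1 1 0 D ++ (mid ++ rfr f 1 1 0 D)

/-- The frame `f`, which becomes the cursor, around the closed block `b` (its child `f.dir`). -/
def closing (f : Fr) (D : ℕ) (b : List Item) : List Item :=
  bif f.dir then
    focG f.s (spCmp f D) (min D (ht f.w)) 1 (side f 0 D) b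
  else
    focG f.s (spCmp f D) (min D (ht f.w)) 1 b (side f 0 D)

/-! ## Machines -/

/-- Is the item a first corner with value `0` and awake? -/
def z1 (h : Hdr) (s : Sum) : Bool := h.aw && s.z && decide (h.cor = .c1)

/-- Shifts the ruler marks: `P` for the distance `p` becomes `P` for the distance `p + 1`. -/
def mShiftUp : Mach where
  Q := Bool × Option Bool
  finQ := inferInstance
  P := Option Bool
  finP := inferInstance
  q0 := (false, none)
  ι q := some q.1
  A q h s := match h.kind with
    | .ze => ((s.pow1, some s.pow1), h, 0)
    | .cu => ((q.1, none), h, 0)
    | .cl => (q, h, 0)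
    | .sp dir => match q.2 with
      | none => (q, h, 0)
      | some pP => ((q.1, some (bif dir || decide (h.cor = .c2) then h.P else pP)),
          { h with P := pP }, 0)
  B p h _ _ := match h.kind with
    | .ze => (p, h, .id, false)
    | .cu => (none, h, .id, false)
    | .cl => (p, h, .id, false)
    | .sp dir => match p with
      | none => (none, h, .id, false)
      | some pP => (some (bif !dir || decide (h.cor = .c2) then h.P else pP),
          { h with P := pP }, .id, false)

/-- Shifts the ruler marks: `P` for the distance `p + 1` becomes `P` for the distance `p`. -/
def mShiftDown : Mach where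
  Q := Option Bool
  finQ := inferInstance
  P := Option Bool
  finP := inferInstance
  q0 := none
  ι _ := none
  A q h _ := match h.kind with
    | .ze => (none, h, 0)
    | .cu => (some true, h, 0)
    | .cl => (q, h, 0)
    | .sp _ => match q with
      | none => (none, h, 0)
      | some pP => (some (bif decide (h.cor = .c1) then h.P else pP), { h with P := pP }, 0)
  B p h _ _ := match h.kind with
    | .ze => (p, h, .id, false)
    | .cu => (some true, h, .id, false)
    | .cl => (p, h, .id, false)
    | .sp _ => match p with
      | none => (none, h, .id, false)
      | some pP => (some (bif decide (h.cor = .c3) then h.P else pP),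
          { h with P := pP }, .id, false)

/-- Action on a pointer: the state tells whether we carry the pointer. -/
def ptrG (pend : Bool) (h : Hdr) (s : Sum) : Bool × Hdr :=
  bif h.ptr then (true, { h with ptr := false })
  else bif pend && z1 h s then (false, { h with ptr := true })
  else (pend, h)

/-- Pointers move to the next vertex of the heavy path, distances are incremented. -/
def mAdvance : Mach where
  Q := Unit
  finQ := inferInstance
  P := Bool
  finP := inferInstance
  q0 := ()
  ι _ := false
  A _ h _ := ((), h, 0)
  B p h s _ := match h.kind with
    | .ze => (false, h, bif s.full then .incGrow else .inc, false)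
    | .cu => (false, h, .id, false)
    | .cl => ((ptrG p h s).1, (ptrG p h s).2, .id, false)
    | .sp _ => (false, { h with aw := h.aw && !s.pt }, .inc, false)

/-- Pointers move to the previous vertex of the heavy path, distances are decremented. -/
def mRetreat : Mach where
  Q := Bool
  finQ := inferInstance
  P := Unit
  finP := inferInstance
  q0 := false
  ι _ := ()
  A q h s := match h.kind with
    | .cl => ((ptrG q h s).1, (ptrG q h s).2, 0)
    | _ => (false, h, 0)
  B _ h s _ := match h.kind with
    | .ze => ((), h, bif s.top && !s.N0 then .decShrink else .dec, false)
    | .cu => ((), { h with aw := true }, .dec, false)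
    | .cl => ((), h, .id, false)
    | .sp _ => ((), { h with aw := h.aw || (h.P && s.top) }, .dec, false)

/-- States of the left-to-right pass of `mOpen`. -/
inductive OP
  | out | first | lt | ge | e | ptr1
  deriving DecidableEq

instance : Finite OP :=
  Finite.of_injective (fun c : OP => (match c with
    | .out => 0 | .first => 1 | .lt => 2 | .ge => 3 | .e => 4 | .ptr1 => 5 : Fin 6))
    (by intro a b; cases a <;> cases b <;> simp)

/-- Relabelling for moving down to the child `a`. Right-to-left: state `1`: the next item is the
last one of the block; state `2`: looking for the `c2` item. -/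
def mOpen (a : Bool) : Mach where
  Q := Fin 3
  finQ := inferInstance
  P := OP
  finP := inferInstance
  q0 := 0
  ι _ := .out
  A q h s := match h.kind with
    | .cu => (bif decide (h.cor = bif a then Cor.c3 else .c2) then 1 else 0, h, 0)
    | .cl => match q with
      | 0 => (0, h, 0)
      | 1 => (2, h, 1)
      | 2 => bif h.aw && s.z && decide (h.cor = .c2) then (0, h, 2) else (2, h, 0)
    | _ => (0, h, 0)
  B p h s ann := match h.kind with
    | .cu => (match h.cor with
        | .c1 => bif a then (bif decide (h.cmp = .gt) then .ptr1 else .out) else .first
        | .c2 => bif a then .first else (bif decide (h.cmp = .lt) then .ptr1 else .out)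
        | .c3 => .out, { h with kind := .sp a, P := true, aw := h.aw && !s.pt }, .inc, false)
    | .cl => match p with
      | .out => (.out, h, .id, false)
      | .first => (bif decide (h.cmp = .lt) then .lt else .ge, { h with kind := .cu }, .id, false)
      | .lt => bif h.aw && s.z then (.e, { h with kind := .cu }, .id, false) else (.lt, h, .id, false)
      | .ge => bif decide (ann = 2) then (.e, { h with kind := .cu }, .id, false)
          else (.ge, h, .id, false)
      | .e => bif decide (ann = 1) then (.out, { h with kind := .cu }, .id, false)
          else (.e, h, .id, false)
      | .ptr1 => (.out, { h with ptr := true }, .id, false)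
    | _ => (.out, h, .id, false)

/-- Decrements the light block of the cursor. -/
def mDecLight : Mach where
  Q := Unit
  finQ := inferInstance
  P := Option DQ
  finP := inferInstance
  q0 := ()
  ι _ := none
  A _ h _ := ((), h, 0)
  B p h s _ := match h.kind with
    | .cu => (bif nl h then some (.D true) else none, h, .id, false)
    | .cl => match p with
      | none => (none, h, .id, false)
      | some q => (some (decG q h s).1, (decG q h s).2.1, (decG q h s).2.2, false)
    | _ => (none, h, .id, false)

/-- Increments the light block of the cursor. -/
def mIncLight : Mach where
  Q := Unit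
  finQ := inferInstance
  P := Option Bool
  finP := inferInstance
  q0 := ()
  ι _ := none
  A _ h _ := ((), h, 0)
  B p h s _ := match h.kind with
    | .cu => (bif nl h then some true else none, h, .id, false)
    | .cl => match p with
      | none => (none, h, .id, false)
      | some q => (some (incG q h s).1, (incG q h s).2.1, (incG q h s).2.2, false)
    | _ => (none, h, .id, false)

/-- Relabelling for moving up. Right-to-left: `0` right of the cursor, `1`: the next spine item
belongs to the new cursor, `2`: after its second corner, `3`: done.  Left-to-right: `0`: before,
`1`: the next spine items belong to the new cursor, `2`: done. -/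
def mClose : Mach where
  Q := Fin 4
  finQ := inferInstance
  P := Fin 3
  finP := inferInstance
  q0 := 0
  ι _ := 0
  A q h _ := match h.kind with
    | .cu => match h.cor with
      | .c3 => (q, h, 1)
      | .c2 => (q, { h with kind := .cl }, 0)
      | .c1 => (1, { h with kind := .cl }, 0)
    | .sp dir => match q with
      | 0 => (0, h, 0)
      | 1 => (bif dir then 2 else 3, { h with kind := .cu, P := false }, 0)
      | 2 => (3, { h with kind := .cu, P := false }, 0)
      | 3 => (3, h, 0)
    | _ => (q, h, 0)
  B p h _ ann := match h.kind with
    | .cu => bif decide (ann = 1) then (1, { h with kind := .cl }, .id, false)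
        else (p, h, .id, false)
    | .sp _ => match p with
      | 1 => (bif decide (h.cor = .c3) then 2 else 1, { h with kind := .cu, P := false }, .id, false)
      | _ => (p, h, .id, false)
    | _ => (p, h, .id, false)

/-- Right-to-left states of `mGrow`. -/
inductive GQ
  | R (zc : Fin 3) (b : Bool)
  | X (cB b lf oth : Bool)
  | L (b : Bool)
  | C (zc : Fin 3) (b : Bool)
  | Dn (b : Bool)
  | A (oth : Bool)
  deriving DecidableEq

instance : Finite GQ :=
  Finite.of_injective (fun c : GQ => (match c with
    | .R z b => (0, z, b, false, false, false)
    | .X cB b lf oth => (1, 0, b, cB, lf, oth)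
    | .L b => (2, 0, b, false, false, false)
    | .C z b => (3, z, b, false, false, false)
    | .Dn b => (4, 0, b, false, false, false)
    | .A b => (5, 0, b, false, false, false) : Fin 6 × Fin 3 × Bool × Bool × Bool × Bool))
    (by intro a b h; cases a <;> cases b <;> simp_all)

/-- Left-to-right states of `mGrow`. -/
inductive GP
  | L (cB b rem : Bool)
  | X (cB b : Bool)
  | Rt (b : Bool)
  | St (b : Bool)
  | S
  deriving DecidableEq

instance : Finite GP :=
  Finite.of_injective (fun c : GP => (match c with
    | .L cB b rem => (0, cB, b, rem)
    | .X cB b => (1, cB, b, false)
    | .Rt b => (2, b, false, false)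
    | .St b => (3, b, false, false)
    | .S => (4, false, false, false) : Fin 5 × Bool × Bool × Bool))
    (by intro a b h; cases a <;> cases b <;> simp_all)

/-- The spine child is lower. -/
def lowC (dir : Bool) (cm : Cmp) : Bool := bif dir then decide (cm = .gt) else decide (cm = .lt)

/-- The spine child is higher. -/
def highC (dir : Bool) (cm : Cmp) : Bool := bif dir then decide (cm = .lt) else decide (cm = .gt)

/-- Comparison value when the spine child is higher. -/
def hi (dir : Bool) : Cmp := bif dir then .lt else .gt

/-- Comparison value when the spine child is lower. -/
def lo (dir : Bool) : Cmp := bif dir then .gt else .lt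

/-- Capped successor. -/
def sc (z : Fin 3) : Fin 3 := match z with
  | 0 => 1
  | _ => 2

/-- Creates a leaf, child `a` of the cursor. -/
def mGrow (a : Bool) : Mach where
  Q := GQ
  finQ := inferInstance
  P := GP
  finP := inferInstance
  q0 := .R 0 false
  ι q := match q with
    | .R _ _ => .L false false false
    | .X _ _ _ _ => .L false false false
    | .L _ => .L true false false
    | .C _ _ => .L true false false
    | .Dn b => .L true b false
    | .A oth => .L false oth false
  A q h s := match q with
    | .R zc b => match h.kind with
      | .ze => (.R zc b, h, 0)
      | .sp dir => (.R 0 (bif lowC dir h.cmp && decide (h.cor = .c3) then false else b), h, 0)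
      | .cl => (.R (bif z1 h s then sc zc else zc) (bif z1 h s && h.ptr then decide (zc = 1) else b), h, 0)
      | .cu => (.X (decide (h.cmp = .eq) && s.N0) b false false, h, 0)
    | .X cB b lf oth => match h.kind with
      | .cl => (.X cB b (decide (h.cmp = .eq) && s.N0) oth, h, 0)
      | .cu => match h.cor with
        | .c1 => (bif cB then .L b else .A (bif a then lf else oth), h, 0)
        | _ => (.X cB b lf (bif a then oth else lf), h, 0)
      | _ => (q, h, 0)
    | .L b => match h.kind with
      | .sp dir => match h.cor with
        | .c1 => bif dir then (.L b, { h with cmp := hi dir }, 0)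
            else bif lowC dir h.cmp then (.Dn b, h, 1) else (.L b, { h with cmp := hi dir }, 0)
        | _ => bif lowC dir h.cmp then (.C 0 false, h, 1) else (.L b, { h with cmp := hi dir }, 0)
      | _ => (q, h, 0)
    | .C zc b => match h.kind with
      | .sp _ => (.Dn b, h, 1)
      | _ => (.C (bif z1 h s then sc zc else zc) (bif z1 h s && h.ptr then decide (zc = 1) else b), h, 0)
    | .Dn b => (.Dn b, h, 0)
    | .A oth => (.A oth, h, 0)
  B p h _ ann := match p with
    | .L cB b rem => match h.kind with
      | .sp dir => bif decide (ann = 1) then
          (.L cB b (b && decide (h.cor = .c1) && dir), { h with cmp := bif b then .eq else h.cmp },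
            .grow, false)
          else (.L cB b false, h, .id, false)
      | .cl => (p, { h with ptr := h.ptr && !rem }, .id, false)
      | .cu => bif cB then (.X cB b, { h with cmp := bif a then .lt else .gt }, .id, false)
          else (.X cB b, { h with cmp := bif b then .eq else bif a then .gt else .lt }, .grow, false)
      | .ze => (p, h, .id, false)
    | .X cB b => match h.kind with
      | .cu => (bif decide (h.cor = .c3) then (bif cB then .Rt b else .S) else .X cB b,
            { h with cmp := bif cB then (bif a then .lt else .gt)
                else bif b then .eq else bif a then .gt else .lt },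
            bif cB then .id else .grow,
            decide (h.cor = bif a then Cor.c3 else .c2))
      | _ => (p, h, .id, false)
    | .Rt b => match h.kind with
      | .sp dir => bif dir then
            bif lowC dir h.cmp then (.S, { h with cmp := bif b then .eq else h.cmp }, .grow, false)
            else (.Rt b, { h with cmp := hi dir }, .id, false)
          else match h.cor with
          | .c2 => bif lowC dir h.cmp then
                (.St b, { h with cmp := bif b then .eq else h.cmp }, .grow, false)
              else (.Rt b, { h with cmp := hi dir }, .id, false)
          | _ => (.Rt b, { h with cmp := hi dir }, .id, false)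
      | _ => (p, h, .id, false)
    | .St b => match h.kind with
      | .sp _ => (.S, { h with cmp := bif b then .eq else h.cmp }, .grow, false)
      | _ => (.St b, { h with ptr := h.ptr && !b }, .id, false)
    | .S => (.S, h, .id, false)

/-- Right-to-left states of `mPrune`. -/
inductive PQ
  | R (zc : Fin 3)
  | X (cB : Bool)
  | L
  | C (zc : Fin 3)
  | Dn
  | A
  deriving DecidableEq

instance : Finite PQ :=
  Finite.of_injective (fun c : PQ => (match c with
    | .R z => (0, z, false)
    | .X cB => (1, 0, cB)
    | .L => (2, 0, false)
    | .C z => (3, z, false)
    | .Dn => (4, 0, false)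
    | .A => (5, 0, false) : Fin 6 × Fin 3 × Bool))
    (by intro a b h; cases a <;> cases b <;> simp_all)

/-- Left-to-right states of `mPrune`. -/
inductive PP
  | L (cB mk : Bool)
  | X (cB del : Bool)
  | Rt
  | St (mk : Bool)
  | S
  deriving DecidableEq

instance : Finite PP :=
  Finite.of_injective (fun c : PP => (match c with
    | .L cB mk => (0, cB, mk)
    | .X cB del => (1, cB, del)
    | .Rt => (2, false, false)
    | .St b => (3, b, false)
    | .S => (4, false, false) : Fin 5 × Bool × Bool))
    (by intro a b h; cases a <;> cases b <;> simp_all)

/-- Removes the leaf which is the child `a` of the cursor. -/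
def mPrune (a : Bool) : Mach where
  Q := PQ
  finQ := inferInstance
  P := PP
  finP := inferInstance
  q0 := .R 0
  ι q := match q with
    | .R _ => .L false false
    | .X _ => .L false false
    | .L => .L true false
    | .C _ => .L true false
    | .Dn => .L true false
    | .A => .L false false
  A q h s := match q with
    | .R zc => match h.kind with
      | .ze => (.R zc, h, 0)
      | .sp _ => (.R 0, h, 0)
      | .cl => (.R (bif z1 h s then sc zc else zc), h, bif z1 h s && decide (zc = 1) then 1 else 0)
      | .cu => (.X s.N0, h, 0)
    | .X cB => match h.kind with
      | .cu => match h.cor with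
        | .c1 => (bif cB then .L else .A, h, 0)
        | _ => (q, h, 0)
      | _ => (q, h, 0)
    | .L => match h.kind with
      | .sp dir => match h.cor with
        | .c1 => bif dir || highC dir h.cmp then
              (.L, { h with cmp := bif h.aw && s.eqN then .eq else h.cmp }, 0)
            else (.Dn, h, 1)
        | _ => bif highC dir h.cmp then (.L, { h with cmp := bif h.aw && s.eqN then .eq else h.cmp }, 0)
            else (.C 0, h, 1)
      | _ => (q, h, 0)
    | .C zc => match h.kind with
      | .sp _ => (.Dn, h, 1)
      | _ => (.C (bif z1 h s then sc zc else zc), h, bif z1 h s && decide (zc = 1) then 1 else 0)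
    | .Dn => (.Dn, h, 0)
    | .A => (.A, h, 0)
  B p h s ann := match p with
    | .L cB mk => match h.kind with
      | .sp dir => bif decide (ann = 1) then
          (.L cB (decide (h.cmp = .eq) && decide (h.cor = .c1) && dir), { h with cmp := lo dir },
            .shrink, false)
          else (.L cB false, h, .id, false)
      | .cl => (p, { h with ptr := h.ptr || (mk && decide (ann = 1)) }, .id, false)
      | .cu => (.X cB (!a), { h with cmp := bif cB then .eq else bif a then .gt else .lt },
          bif cB then .id else .shrink, false)
      | .ze => (p, h, .id, false)
    | .X cB del => match h.kind with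
      | .cu => (match h.cor with
          | .c3 => bif cB then .Rt else .S
          | _ => .X cB a,
          { h with cmp := bif cB then .eq else bif a then .gt else .lt },
          bif cB then .id else .shrink, false)
      | .cl => (p, h, bif del then .del else .id, false)
      | _ => (p, h, .id, false)
    | .Rt => match h.kind with
      | .sp dir => bif dir then
            bif highC dir h.cmp then
              (.Rt, { h with cmp := bif h.aw && s.eqN then .eq else h.cmp }, .id, false)
            else (.S, { h with cmp := lo dir }, .shrink, false)
          else match h.cor with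
          | .c2 => bif highC dir h.cmp then
                (.Rt, { h with cmp := bif h.aw && s.eqN then .eq else h.cmp }, .id, false)
              else (.St (decide (h.cmp = .eq)), { h with cmp := lo dir }, .shrink, false)
          | _ => (.Rt, { h with cmp := bif h.aw && s.eqN then .eq else h.cmp }, .id, false)
      | _ => (p, h, .id, false)
    | .St mk => match h.kind with
      | .sp dir => (.S, { h with cmp := lo dir }, .shrink, false)
      | _ => (.St mk, { h with ptr := h.ptr || (mk && decide (ann = 1)) }, .id, false)
    | .S => (.S, h, .id, false)

/-- Toggles the lamp of the cursor. -/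
def mToggle : Mach where
  Q := Unit
  finQ := inferInstance
  P := Unit
  finP := inferInstance
  q0 := ()
  ι _ := ()
  A _ h _ := ((), h, 0)
  B _ h _ _ := match h.kind with
    | .cu => ((), { h with lamp := !h.lamp }, .id, false)
    | _ => ((), h, .id, false)

end Pool.Agent.W_MP_1173fd_al
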